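import Pool.Agent.H30T.Rat
import Pool.Agent.H30H.Adm

/-! # Piece ADM: from the admissibility over the integers to `AdmT` -/

set_option autoImplicit false
set_option linter.all false

open Polynomial IsDedekindDomain NumberField
open scoped Classical

namespace Pool.Agent.H30T

open Pool.Agent.N783.PF
open Pool.Agent.H30H

namespace AdmP

theorem irr_comp {K : Type} [Field K] (p : K[X]) (c : K) :
    Irreducible (p.comp (X + C c)) ↔ Irreducible p := by
  rw [← MulEquiv.irreducible_iff (taylorEquiv c) (x := p)]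
  rfl

/-- the residue fields of `𝓞 ℚ` -/
theorem exists_residue (v : HeightOneSpectrum (𝓞 ℚ)) (p : ℕ) (hv : v.asIdeal = Ideal.span {(p : 𝓞 ℚ)}) :
    Nonempty ((𝓞 ℚ ⧸ v.asIdeal) ≃+* ZMod p) := by
  have h : (Ideal.span {((p : ℕ) : ℤ)} : Ideal ℤ) = v.asIdeal.map (Rat.ringOfIntegersEquiv : 𝓞 ℚ →+* ℤ) := by
    rw [hv, Ideal.map_span, Set.image_singleton]
    congr 2
    exact (map_natCast (Rat.ringOfIntegersEquiv : 𝓞 ℚ →+* ℤ) p).symm
  exact ⟨(Ideal.quotientEquiv v.asIdeal _ Rat.ringOfIntegersEquiv h).trans (Int.quotientSpanNatEquivZMod p)⟩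

theorem card_residue (v : HeightOneSpectrum (𝓞 ℚ)) (p : ℕ) (hv : v.asIdeal = Ideal.span {(p : 𝓞 ℚ)}) :
    Nat.card (𝓞 ℚ ⧸ v.asIdeal) = p := by
  obtain ⟨e⟩ := exists_residue v p hv
  rw [Nat.card_congr e.toEquiv, Nat.card_zmod]

theorem irr_residue (v : HeightOneSpectrum (𝓞 ℚ)) (p : ℕ) (hv : v.asIdeal = Ideal.span {(p : 𝓞 ℚ)}) (f : ℤ[X]) :
    Irreducible (rd v.asIdeal (fO f)) ↔ Irreducible (f.map (Int.castRingHom (ZMod p))) := by
  obtain ⟨e⟩ := exists_residue v p hv
  rw [← MulEquiv.irreducible_iff (mapEquiv e) (x := rd v.asIdeal (fO f))]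
  have h : mapEquiv e (rd v.asIdeal (fO f)) = f.map (Int.castRingHom (ZMod p)) := by
    rw [mapEquiv_apply, rd, fO, Polynomial.map_map, Polynomial.map_map]
    congr 1
    exact RingHom.ext_int _ _
  rw [h]

end AdmP

open AdmP in
theorem adm (hD : T_DSC) : T_ADM := by
  intro g f J c hg hm hd hdisc hJ M _ _ h
  have hDp : Dp J ≠ 0 := by
    rw [Dp, Finset.prod_ne_zero_iff]
    exact fun q hq => (hJ q hq).ne_zero
  set D : ℤ := ((Dp J : ℕ) : ℤ) with hDdef
  have hD0 : D ≠ 0 := by rw [hDdef]; exact_mod_cast hDp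
  have hf' : (f.comp (X + C c)).map (algebraMap ℤ (𝓞 ℚ)) = (fO f).comp (X + C (c : 𝓞 ℚ)) := by
    rw [fO, Polynomial.map_comp, Polynomial.map_add, map_X, map_C]
    rfl
  have hcast : Function.Injective (fun n : ℤ => (n : 𝓞 ℚ)) := Int.cast_injective
  obtain ⟨ε, hε, h1⟩ := dsc_fO hg hm hd
  have hmD : (f.scaleRoots D).Monic := (monic_scaleRoots_iff D).2 hm
  obtain ⟨ε', hε', h2⟩ := dsc_fO (f := f.scaleRoots D) hg hmD (by rw [natDegree_scaleRoots, hd])
  have hs : fO (f.scaleRoots D) = (fO f).scaleRoots (D : 𝓞 ℚ) := by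
    rw [fO, map_scaleRoots]
    · rfl
    · rw [hm.leadingCoeff, map_one]
      exact one_ne_zero
  have hT := hD ℚ g (fO f) (fO_mon hm) (by rw [fO_deg hm, hd])
  have hdD : ε' * (f.scaleRoots D).discr = D ^ ((2 * g + 1) * (2 * g)) * (ε * f.discr) := by
    have h3 := hT.2 (D : 𝓞 ℚ) (by exact_mod_cast hD0)
    rw [← hs, h2, h1] at h3
    apply hcast
    simp only
    rw [h3]
    push_cast
    ring
  have hdvd : ∀ n : ℤ, n ∣ D ^ ((2 * g + 1) * (2 * g)) * (ε * f.discr) → n ∣ (f.scaleRoots D).discr := by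
    intro n hn
    rw [← hdD] at hn
    rcases hε' with rfl | rfl
    · rwa [one_mul] at hn
    · rwa [neg_one_mul, dvd_neg] at hn
  have hu : ∀ (w : HeightOneSpectrum (𝓞 M)) (p : ℕ), (w.under (𝓞 ℚ)).asIdeal = Ideal.span {(p : 𝓞 ℚ)} →
      (UnrW ℚ w ↔ (p : 𝓞 M) ∉ w.asIdeal ^ 2) ∧ (p : 𝓞 M) ∈ w.asIdeal := by
    intro w p hp
    constructor
    · rw [unrW_iff, hp, Ideal.map_span, Set.image_singleton, Ideal.span_singleton_le_iff_mem, map_natCast]
    · have h3 : (p : 𝓞 ℚ) ∈ (w.under (𝓞 ℚ)).asIdeal := by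
        rw [hp]
        exact Ideal.mem_span_singleton_self _
      rw [mem_under, map_natCast] at h3
      exact h3
  refine ⟨?_, ?_, ?_⟩
  · intro w hw
    obtain ⟨p, hp, hvp, hpk⟩ := ratp (w.under (𝓞 ℚ))
    have hsplit : SplitsAt M p := by
      refine h.split p hp ?_
      by_cases h2p : p = 2
      · exact Or.inl h2p
      refine Or.inr (hdvd _ ?_)
      rcases hw with hw | ⟨q, hq, hqw⟩
      · rw [Gd, not_and_or, not_not, not_not, hf', hT.1, h1] at hw
        rcases hw with hw | hw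
        · exfalso
          have h3 := (hpk 1 2).1 (by rw [pow_one]; exact_mod_cast hw)
          rw [pow_one] at h3
          have h4 : p ∣ 2 := by exact_mod_cast h3
          exact h2p ((Nat.prime_dvd_prime_iff_eq hp Nat.prime_two).1 h4)
        · exact Dvd.dvd.mul_left ((hpk 2 _).1 hw) _
      · have h3 := (hpk 1 q).1 (by rw [pow_one]; exact_mod_cast hqw)
        rw [pow_one] at h3
        have h4 : p ∣ q := by exact_mod_cast h3
        have h5 : p = q := (Nat.prime_dvd_prime_iff_eq hp (hJ q hq)).1 h4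
        have h6 : (p : ℤ) ∣ D := by
          rw [hDdef, h5]
          exact_mod_cast Finset.dvd_prod_of_mem _ hq
        refine Dvd.dvd.mul_right ((pow_dvd_pow_of_dvd h6 2).trans (pow_dvd_pow D ?_)) _
        nlinarith
    obtain ⟨hw1, hw2⟩ := hsplit w (hu w p hvp).2
    refine ⟨(hu w p hvp).1.2 hw1, resW_of w ?_⟩
    rw [hw2, card_residue _ p hvp]
  · intro w hw
    obtain ⟨p, hp, hvp, hpk⟩ := ratp (w.under (𝓞 ℚ))
    have : Fact p.Prime := ⟨hp⟩
    have hram : RamifiedAt M p := ⟨w, by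
      by_contra hc
      exact hw ((hu w p hvp).1.2 hc)⟩
    have h3 := h.ram p hp hram
    have h4 : (f.map (Int.castRingHom (ZMod p))).Monic := hm.map _
    rw [map_scaleRoots _ _ _ (by rw [hm.leadingCoeff, map_one]; exact one_ne_zero)] at h3
    have h5 := Pool.Agent.N874.TW.irr_scale h4.ne_zero h3
    rw [irr_residue _ p hvp, Polynomial.map_comp, Polynomial.map_add, map_X, map_C, irr_comp]
    exact h5
  · intro ρ
    obtain ⟨ρ'⟩ := h.real
    exact ⟨ρ', Subsingleton.elim _ _⟩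

end Pool.Agent.H30T
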