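import Pool.Agent.H30T.Defs
import Pool.Agent.Helper29J.Defs

/-!
# Twists of odd hyperelliptic curves and descent over the admissible fields: definitions

The Jacobian `J`, the curve `Curve`, the Selmer sets `SelmerSet` and the relation `Survives` are defined in
`Pool/Agent/Helper29J/Defs.lean`, admissible fields in `Pool/Agent/H30T/Defs.lean`.
-/

set_option autoImplicit false

open Polynomial IsDedekindDomain NumberField

namespace Pool.Agent.H30T

open Pool.Agent.Helper29J.Defs

/-- `f` is a monic polynomial of degree `2 g + 1` with integral coefficients, its Galois group over `ℚ` is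
the full symmetric group, and the odd prime number `p₀` divides the discriminant of `f` exactly once. -/
structure IsGeneral (g : ℕ) (f : ℤ[X]) (p₀ : ℕ) : Prop where
  monic : f.Monic
  degree : f.natDegree = 2 * g + 1
  galois : Nat.card (f.map (Int.castRingHom ℚ)).Gal = (2 * g + 1).factorial
  prime : p₀.Prime
  odd : p₀ ≠ 2
  dvd : (p₀ : ℤ) ∣ f.discr
  not_dvd : ¬ (p₀ : ℤ) ^ 2 ∣ f.discr

/-- The quadratic twist by `D`: the curve `y ^ 2 = f_D(x)`, where `f_D(x) = D ^ n f(x / D)`, `n` the degree
of `f`, is isomorphic to `D y ^ 2 = f(x)` if `n` is odd. -/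
noncomputable def twist (f : ℤ[X]) (D : ℕ) : ℤ[X] := f.scaleRoots (D : ℤ)

/-- The polynomial over the field `M`. -/
noncomputable def overField (M : Type) [Field M] (f : ℤ[X]) : M[X] := f.map (Int.castRingHom M)

/-- There are infinitely many real quadratic fields `ℚ(√l)`, `l` a prime number, which are admissible
for `f`. -/
def ManyQuadratic (f : ℤ[X]) : Prop :=
  ∀ B : ℕ, ∃ (l : ℕ) (M : Type) (_ : Field M) (_ : NumberField M) (s : M), l.Prime ∧ B < l ∧
    s ^ 2 = (l : M) ∧ Module.finrank ℚ M = 2 ∧ AdmissibleFor M f

/-- `f` is irreducible modulo two, and for no integer `a` the polynomial `a - x` is a square modulo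
the ideal generated by `4` and `f`. -/
structure GoodAtTwo (f : ℤ[X]) : Prop where
  irr : Irreducible (f.map (Int.castRingHom (ZMod 2)))
  nosq : ∀ (a : ℤ) (s u : ℤ[X]), ¬ ∀ n : ℕ, (4 : ℤ) ∣ (C a - X - (s ^ 2 + f * u)).coeff n

section

variable {K : Type} [Field K] [NumberField K]

/-- For every `k` the `2 ^ k`-Selmer set of the curve `y ^ 2 = f(x)` over the number field `K` consists of
the trivial covering: its cocycles are coboundaries of points of order dividing `2 ^ k` of the Jacobian. -/
def TrivialSelmerSets (f : K[X]) : Prop :=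
  ∀ k : ℕ, ∀ ξ ∈ SelmerSet f (2 ^ k), ∃ T : J f (SeparableClosure K), T ^ 2 ^ k = 1 ∧
    ∀ σ : Gal K, ξ σ = mapJ f σ.toAlgHom T / T

/-- The restriction of the cocycle `ξ` to the absolute Galois group of the extension `E` of `K` is a
coboundary with values in `J(E^sep)`. -/
def TrivialOver {f : K[X]} (E : Type) [Field E] [Algebra K E] (ξ : Cochain f) : Prop :=
  ∃ (ι : SeparableClosure K →ₐ[K] SeparableClosure E) (P : J f (SeparableClosure E)),
    ∀ (τ : SeparableClosure E ≃ₐ[E] SeparableClosure E) (σ : Gal K),
      (∀ x, τ (ι x) = ι (σ x)) → mapJ f ι (ξ σ) = mapJ f (τ.toAlgHom.restrictScalars K) P / P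

/-- The 2-primary part of the Tate-Shafarevich group of the Jacobian over `K` is zero: a continuous
cocycle whose class has 2-power order and is zero over the completions of `K` at all primes and
all real places is a coboundary. -/
def ShaTwoTrivial (f : K[X]) : Prop :=
  ∀ (ξ : Cochain f) (m : ℕ), Cocycle ξ →
    (∀ v : HeightOneSpectrum (𝓞 K), TrivialOver (v.adicCompletion K) ξ) →
    (∀ ρ : K →+* ℝ, letI := ρ.toAlgebra; TrivialOver ℝ ξ) →
    (∃ Q : J f (SeparableClosure K), ∀ σ : Gal K, ξ σ ^ 2 ^ m = mapJ f σ.toAlgHom Q / Q) →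
    ∃ Q : J f (SeparableClosure K), ∀ σ : Gal K, ξ σ = mapJ f σ.toAlgHom Q / Q

/-- The 2-primary descent over `K` for the curve `C : y ^ 2 = f(x)` and its Jacobian `J` is trivial:
all the `2 ^ k`-Selmer sets of `C` consist of the trivial covering, `J(K)` is uniquely divisible by two, the
2-primary part of the Tate-Shafarevich group of `J` is zero; the point at infinity is the only
`K`-rational point of `C`; for every real place the points of `C(ℝ)` which survive are in its
component; and for every prime `w` above two at most `c` points of `C(K_w)` survive. -/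
structure DescentTrivial (f : K[X]) (c : ℕ) : Prop where
  selmer : TrivialSelmerSets f
  jacobian : Function.Bijective fun x : J f K => x ^ 2
  sha : ShaTwoTrivial f
  points : ∀ P : Curve f K, P = infinity f K
  real : ∀ ρ : K →+* ℝ, letI := ρ.toAlgebra; ∀ P : Curve f ℝ, Survives f ℝ P →
    InComponentOfInfinity f P
  two : ∀ w : HeightOneSpectrum (𝓞 K), (2 : 𝓞 K) ∈ w.asIdeal →
    {P : Curve f (w.adicCompletion K) | Survives f (w.adicCompletion K) P}.Finite ∧
      {P : Curve f (w.adicCompletion K) | Survives f (w.adicCompletion K) P}.ncard ≤ c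

/-- For every prime `w` above two the point at infinity is the only point of `C(K_w)` which survives. -/
def OnlyInfinityAtTwo (f : K[X]) : Prop :=
  ∀ w : HeightOneSpectrum (𝓞 K), (2 : 𝓞 K) ∈ w.asIdeal → ∀ P : Curve f (w.adicCompletion K),
    Survives f (w.adicCompletion K) P ↔ P = infinity f (w.adicCompletion K)

end

end Pool.Agent.H30T
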