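import Pool.Agent.H30T.Odd
import Pool.Agent.H30T.Defs2
import Pool.Agent.H30EV.Defs

/-!
# Project ET (helper30): cubic polynomials
-/

set_option autoImplicit false
set_option linter.all false

open Polynomial IsDedekindDomain NumberField
open scoped Classical

namespace Pool.Agent.H30T

/-- The cubic polynomial. -/
noncomputable def cubic (A B : ℤ) : ℤ[X] := X ^ 3 + C A * X + C B

theorem cubic_monic (A B : ℤ) : (cubic A B).Monic := by
  unfold cubic
  monicity!

theorem cubic_deg (A B : ℤ) : (cubic A B).natDegree = 3 := by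
  unfold cubic
  compute_degree!

theorem cubic_discr (A B : ℤ) : (cubic A B).discr = -(4 * A ^ 3 + 27 * B ^ 2) := by
  have hd : (cubic A B).degree = 3 := by
    rw [degree_eq_natDegree (cubic_monic A B).ne_zero, cubic_deg]
    rfl
  rw [discr_of_degree_eq_three hd]
  have c0 : (cubic A B).coeff 0 = B := by
    unfold cubic
    rw [coeff_add, coeff_add, coeff_X_pow, coeff_C_mul, coeff_X, coeff_C]
    norm_num
  have c1 : (cubic A B).coeff 1 = A := by
    unfold cubic
    rw [coeff_add, coeff_add, coeff_X_pow, coeff_C_mul, coeff_X, coeff_C]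
    norm_num
  have c2 : (cubic A B).coeff 2 = 0 := by
    unfold cubic
    rw [coeff_add, coeff_add, coeff_X_pow, coeff_C_mul, coeff_X, coeff_C]
    norm_num
  have c3 : (cubic A B).coeff 3 = 1 := by
    unfold cubic
    rw [coeff_add, coeff_add, coeff_X_pow, coeff_C_mul, coeff_X, coeff_C]
    norm_num
  rw [c0, c1, c2, c3]
  ring

theorem cubic_scale (A B : ℤ) (D : ℕ) :
    (cubic A B).scaleRoots (D : ℤ) = cubic (A * (D : ℤ) ^ 2) (B * (D : ℤ) ^ 3) := by
  ext n
  rw [coeff_scaleRoots, cubic_deg]
  unfold cubic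
  simp only [coeff_add, coeff_X_pow, coeff_C_mul, coeff_X, coeff_C]
  rcases n with _ | _ | _ | _ | n
  · simp
  · simp
  · simp
  · simp
  · simp

theorem cubic_map {K : Type} [Field K] (A B : ℤ) :
    (cubic A B).map (Int.castRingHom K) = X ^ 3 + C (A : K) * X + C (B : K) := by
  unfold cubic
  simp

/-- A cubic polynomial without zeros is irreducible. -/
theorem cubic_irr {R : Type} [CommRing R] [IsDomain R] (A B : ℤ) :
    Irreducible ((cubic A B).map (Int.castRingHom R)) ↔
      ∀ x : R, x ^ 3 + (A : R) * x + (B : R) ≠ 0 := by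
  have hm : ((cubic A B).map (Int.castRingHom R)).Monic := (cubic_monic A B).map _
  have hd : ((cubic A B).map (Int.castRingHom R)).natDegree = 3 := by
    rw [(cubic_monic A B).natDegree_map, cubic_deg]
  rw [hm.irreducible_iff_roots_eq_zero_of_degree_le_three (by rw [hd]; norm_num)
    (by rw [hd])]
  have e : ∀ x : R, eval x ((cubic A B).map (Int.castRingHom R)) =
      x ^ 3 + (A : R) * x + (B : R) := by
    intro x
    unfold cubic
    simp
  constructor
  · intro h x hx
    have h1 : x ∈ ((cubic A B).map (Int.castRingHom R)).roots := by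
      rw [mem_roots hm.ne_zero, IsRoot, e, hx]
    rw [h] at h1
    simp at h1
  · intro h
    rw [Multiset.eq_zero_iff_forall_notMem]
    intro x hx
    rw [mem_roots hm.ne_zero, IsRoot, e] at hx
    exact h x hx

theorem cubic_irrQ (A B : ℤ) (h : ∀ x : ℤ, x ^ 3 + A * x + B ≠ 0) :
    Irreducible ((cubic A B).map (Int.castRingHom ℚ)) := by
  have h1 : Irreducible (cubic A B) := by
    have h2 := (cubic_irr (R := ℤ) A B).2 (by simpa using h)
    have e : (cubic A B).map (Int.castRingHom ℤ) = cubic A B := by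
      rw [RingHom.eq_intCast' (Int.castRingHom ℤ)] at *
      ext n
      simp
    rwa [e] at h2
  exact ((cubic_monic A B).irreducible_iff_irreducible_map_fraction_map (K := ℚ)).1 h1

theorem cubic_modp (A B : ℤ) {p : ℕ} (hp : p.Prime) :
    Irreducible ((cubic A B).map (Int.castRingHom (ZMod p))) ↔
      ∀ x : ℤ, ¬ (p : ℤ) ∣ x ^ 3 + A * x + B := by
  haveI : Fact p.Prime := ⟨hp⟩
  rw [cubic_irr]
  constructor
  · intro h x hx
    apply h (x : ZMod p)
    have h1 := (ZMod.intCast_zmod_eq_zero_iff_dvd (x ^ 3 + A * x + B) p).2 hx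
    push_cast at h1
    exact h1
  · intro h x hx
    obtain ⟨n, rfl⟩ := ZMod.intCast_surjective x
    apply h n
    rw [← ZMod.intCast_zmod_eq_zero_iff_dvd]
    push_cast
    exact hx

/-- The splitting field in a form without special instances. -/
theorem gal_to {K : Type} [Field K] (F : K[X]) (hsep : F.Separable) :
    ∃ (N : Type) (_ : Field N) (_ : Algebra K N), FiniteDimensional K N ∧ IsGalois K N ∧
      (F.map (algebraMap K N)).Splits ∧ Nat.card F.Gal = Nat.card (N ≃ₐ[K] N) :=
  ⟨F.SplittingField, inferInstance, inferInstance, inferInstance,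
    IsGalois.of_separable_splitting_field hsep, SplittingField.splits F, rfl⟩

theorem even_card {N : Type} [Field N] [NumberField N] [IsGalois ℚ N] {f : ℤ[X]}
    (hm : f.Monic) (hd : f.natDegree = 3) (hsep : (f.map (Int.castRingHom ℚ)).Separable)
    (hs : (f.map (Int.castRingHom N)).Splits) {p₀ : ℕ} (hp : p₀.Prime) (h2 : p₀ ≠ 2)
    (hdd : (p₀ : ℤ) ∣ f.discr) (hdd2 : ¬ (p₀ : ℤ) ^ 2 ∣ f.discr) :
    2 ∣ Nat.card (N ≃ₐ[ℚ] N) := by
  have hmN : (f.map (Int.castRingHom N)).Monic := hm.map _
  have hprod := hs.eq_prod_roots_of_monic hmN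
  have hcard : (f.map (Int.castRingHom N)).roots.card = 3 := by
    rw [← hs.natDegree_eq_card_roots, hm.natDegree_map, hd]
  obtain ⟨l, hl⟩ : ∃ l : List N, (l : Multiset N) = (f.map (Int.castRingHom N)).roots :=
    Quotient.exists_rep _
  have hll : l.length = 3 := by
    rw [← hl] at hcard
    exact hcard
  have hsepN : (f.map (Int.castRingHom N)).Separable := by
    have := hsep.map (f := algebraMap ℚ N)
    rw [Polynomial.map_map] at this
    have e : (algebraMap ℚ N).comp (Int.castRingHom ℚ) = Int.castRingHom N := RingHom.ext_int _ _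
    rwa [e] at this
  have hnd : l.Nodup := by
    have := nodup_roots hsepN
    rw [← hl] at this
    exact this
  let x : Fin 3 → N := fun i => l.get (i.cast hll.symm)
  have hx : Function.Injective x := by
    intro i j hij
    have := hnd.injective_get hij
    exact Fin.cast_injective _ this
  have hf : f.map (Int.castRingHom N) = ∏ i, (X - C (x i)) := by
    rw [hprod, ← hl, Multiset.map_coe, Multiset.prod_coe]
    have e : l = List.ofFn x := (List.ofFn_get l).symm.trans (List.ofFn_congr hll l.get)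
    conv_lhs => rw [e]
    rw [List.map_ofFn, List.prod_ofFn]
    rfl
  obtain ⟨σ, π, -, hσ, hπ⟩ := odd N 3 f x hf hx p₀ hp h2 hdd hdd2 1 one_ne_zero
    (fun h => hp.one_lt.ne' (Nat.dvd_one.1 h))
  have hpow : ∀ k : ℕ, ∀ i, (σ ^ k) (x i) = x ((π ^ k) i) := by
    intro k
    induction k with
    | zero => intro i; simp
    | succ k ih =>
      intro i
      rw [pow_succ, AlgEquiv.mul_apply, hσ, ih, pow_succ, Equiv.Perm.mul_apply]
  by_contra hodd
  have h3 : σ ^ Nat.card (N ≃ₐ[ℚ] N) = 1 := pow_card_eq_one'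
  have h4 : π ^ Nat.card (N ≃ₐ[ℚ] N) = 1 := by
    ext1 i
    apply hx
    rw [← hpow, h3]
    rfl
  have h5 := congrArg Equiv.Perm.sign h4
  rw [map_pow, hπ, map_one] at h5
  have h6 : Odd (Nat.card (N ≃ₐ[ℚ] N)) := by
    rw [← Nat.not_even_iff_odd, even_iff_two_dvd]
    exact hodd
  rw [h6.neg_one_pow] at h5
  exact absurd h5 (by decide)

/-- The Galois group of a cubic polynomial without zeros with an odd prime which divides the
discriminant exactly once. -/
theorem cubic_general (A B : ℤ) (h : ∀ x : ℤ, x ^ 3 + A * x + B ≠ 0) {p₀ : ℕ} (hp : p₀.Prime)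
    (h2 : p₀ ≠ 2) (hd : (p₀ : ℤ) ∣ 4 * A ^ 3 + 27 * B ^ 2)
    (hd2 : ¬ (p₀ : ℤ) ^ 2 ∣ 4 * A ^ 3 + 27 * B ^ 2) : IsGeneral 1 (cubic A B) p₀ := by
  have hirr := cubic_irrQ A B h
  have hdd : (p₀ : ℤ) ∣ (cubic A B).discr := by rwa [cubic_discr, dvd_neg]
  have hdd2 : ¬ (p₀ : ℤ) ^ 2 ∣ (cubic A B).discr := by rwa [cubic_discr, dvd_neg]
  refine ⟨cubic_monic A B, cubic_deg A B, ?_, hp, h2, hdd, hdd2⟩
  obtain ⟨F, hF⟩ : ∃ F : ℚ[X], F = (cubic A B).map (Int.castRingHom ℚ) := ⟨_, rfl⟩
  rw [← hF] at hirr ⊢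
  have hFm : F.Monic := by
    rw [hF]
    exact (cubic_monic A B).map _
  have hFd : F.natDegree = 3 := by rw [hF, (cubic_monic A B).natDegree_map, cubic_deg]
  have hsep : F.Separable := hirr.separable
  have c3 : 3 ∣ Nat.card F.Gal := by
    have := Gal.prime_degree_dvd_card hirr (by rw [hFd]; exact Nat.prime_three)
    rwa [hFd] at this
  -- the splitting field
  obtain ⟨N, i1, i2, i3, i4, hs, hc⟩ := gal_to F hsep
  have c2 : 2 ∣ Nat.card F.Gal := by
    haveI : CharZero N := charZero_of_injective_algebraMap (algebraMap ℚ N).injective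
    have hi : i2 = DivisionRing.toRatAlgebra := Subsingleton.elim _ _
    subst hi
    haveI : NumberField N := ⟨⟩
    rw [hc]
    refine even_card (f := cubic A B) (cubic_monic A B) (cubic_deg A B) (by rw [← hF]; exact hsep)
      ?_ hp h2 hdd hdd2
    rw [hF, Polynomial.map_map] at hs
    have e : (algebraMap ℚ N).comp (Int.castRingHom ℚ) = Int.castRingHom N := RingHom.ext_int _ _
    rwa [e] at hs
  have c6 : Nat.card F.Gal ≤ 6 := by
    haveI : Fact ((F.map (algebraMap ℚ N)).Splits) := ⟨hs⟩
    have h1 := Nat.card_le_card_of_injective _ (Gal.galActionHom_injective F N)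
    have h3 : Nat.card (Equiv.Perm (F.rootSet N)) = (Nat.card (F.rootSet N)).factorial :=
      Nat.card_perm
    have h4 : Nat.card (F.rootSet N) ≤ 3 := by
      rw [Nat.card_coe_set_eq, ← hFd]
      exact Polynomial.ncard_rootSet_le F N
    rw [h3] at h1
    exact h1.trans ((Nat.factorial_le h4).trans (by decide))
  have hpos : 0 < Nat.card F.Gal := Nat.card_pos
  have hfac : (2 * 1 + 1).factorial = 6 := by decide
  rw [hfac]
  omega

end Pool.Agent.H30T
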