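import Pool.Agent.H30T.Stm
import Pool.Agent.N73.PF.Exq

/-!
# Project ET, pieces EXQ and CSQ: the two primes over `𝔮 q`

Port of `Pool/Agent/N73/PF/Exq.lean` and `Base.lean` (helper73) with the local statement `T_INT`
instead of `S_INT`, by helper54.
-/

set_option autoImplicit false
set_option linter.all false

open Polynomial IsDedekindDomain WithZero NumberField
open scoped Classical

namespace Pool.Agent.H30T

open Pool.Agent.N783.PF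
open Pool.Agent.N73.PF (ev map_eq_of_cg coeff_of_rd_eq_zero rd_surj algMap_coe ev_L ev_f ev_ker ev_C ev_X
  crd_poly ov_iff ev_mem_of_coeff mem_of_dvd theta_ex rd_X rd_C rd_mul field_adj fin_quot card_adj irrX
  hbar psi_surj ker_max mem_or sq_mem adj_facts kappa_facts)
open Pool.Agent.N874.PP (Ev Sq1 U0)
open Pool.Agent.N765.PJ (sq_even val_one)

section sep

variable {F : Type} [Field F] [NumberField F] {𝔭 : Ideal (𝓞 F)}

/-- If `f` is separable modulo `𝔭` then the discriminant is not in `𝔭`. -/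
theorem dsc_notMem {g : ℕ} {f : (𝓞 F)[X]} (hmax : 𝔭.IsMaximal) (hm : f.Monic)
    (hd : f.natDegree = 2 * g + 1) (hs : (rd 𝔭 f).Separable) : dsc g f ∉ 𝔭 := by
  let iκ : Field (𝓞 F ⧸ 𝔭) := Ideal.Quotient.field _
  intro hmem
  have h0 : Ideal.Quotient.mk 𝔭 (dsc g f) = 0 := Ideal.Quotient.eq_zero_iff_mem.2 hmem
  set G := rd 𝔭 f with hG
  have hGm : G.Monic := hm.map _
  have hdeg : G.natDegree = 2 * g + 1 := by
    rw [hG, rd, hm.natDegree_map, hd]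
  have hdd : (derivative G).natDegree ≤ 2 * g := by
    refine (natDegree_derivative_le _).trans ?_
    omega
  have h1 : G.resultant (derivative G) (2 * g + 1) (2 * g) = 0 := by
    rw [hG, rd, derivative_map, resultant_map_map]
    exact h0
  have h2 : G.resultant (derivative G) = 0 := by
    obtain ⟨j, hj⟩ := Nat.exists_eq_add_of_le hdd
    have h5 := resultant_add_right_deg G (derivative G) (2 * g + 1) (derivative G).natDegree j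
      le_rfl
    rw [← hj, h1] at h5
    have hlc : G.coeff (2 * g + 1) = 1 := by
      rw [← hdeg]; exact hGm.coeff_natDegree
    rw [hlc, one_pow, one_mul] at h5
    rw [hdeg]
    exact h5.symm
  exact (resultant_eq_zero_iff.1 h2).2 hs

end sep

section main

variable {F L : Type} [Field F] [NumberField F] [Field L] [NumberField L] [Algebra F L]
  {g : ℕ} {f : (𝓞 F)[X]} {θ : L}

/-- integers as values of polynomials, up to a factor outside of `𝔭` -/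
theorem ev_loc (hI : T_INT) (h : IsGen g f θ) {t : 𝓞 L} (ht : algebraMap (𝓞 L) L t = θ)
    {𝔭 : Ideal (𝓞 F)} (hp : 𝔭.IsPrime) (h0 : 𝔭 ≠ ⊥) (hD : dsc g f ∉ 𝔭 ^ 2) (z : 𝓞 L) :
    ∃ (s : 𝓞 F) (p : (𝓞 F)[X]), s ∉ 𝔭 ∧ ev t p = algebraMap (𝓞 F) (𝓞 L) s * z := by
  obtain ⟨s, v, hs, hv⟩ := hI g F L f θ h 𝔭 hp h0 hD _ z.isIntegral_coe
  have h1 : algebraMap (𝓞 L) L (algebraMap (𝓞 F) (𝓞 L) s * z) =
      ∑ i, algebraMap F L (v i : F) * θ ^ (i : ℕ) := by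
    rw [map_mul, algMap_coe]
    exact hv
  obtain ⟨p, hp⟩ := crd_poly ht h1
  exact ⟨s, p, hs, hp⟩

/-- the same modulo `𝔭` -/
theorem ev_one (hI : T_INT) (h : IsGen g f θ) {t : 𝓞 L} (ht : algebraMap (𝓞 L) L t = θ)
    {𝔭 : Ideal (𝓞 F)} (hp : 𝔭.IsPrime) (h0 : 𝔭 ≠ ⊥) (hD : dsc g f ∉ 𝔭 ^ 2) (z : 𝓞 L) :
    ∃ (a : 𝓞 F) (p : (𝓞 F)[X]), a ∈ 𝔭 ∧ ev t p = z + algebraMap (𝓞 F) (𝓞 L) a * z := by
  obtain ⟨s, p, hs, hp'⟩ := ev_loc hI h ht hp h0 hD z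
  have hmax : 𝔭.IsMaximal := hp.isMaximal h0
  obtain ⟨u, hu⟩ := hmax.exists_inv hs
  obtain ⟨a, ha, hu⟩ := hu
  refine ⟨-a, C u * p, 𝔭.neg_mem ha, ?_⟩
  rw [map_mul, ev_C, hp', ← mul_assoc, ← map_mul]
  have e : u * s = 1 - a := by linear_combination hu
  rw [e, map_sub, map_one, map_neg]
  ring

/-- elements of `𝔭 𝓞 L` -/
theorem map_coeff (hI : T_INT) (h : IsGen g f θ) {t : 𝓞 L} (ht : algebraMap (𝓞 L) L t = θ)
    {𝔭 : Ideal (𝓞 F)} (hp : 𝔭.IsPrime) (h0 : 𝔭 ≠ ⊥) (hD : dsc g f ∉ 𝔭 ^ 2) (w : 𝓞 L)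
    (hw : w ∈ Ideal.map (algebraMap (𝓞 F) (𝓞 L)) 𝔭) :
    ∃ (s : 𝓞 F) (r : (𝓞 F)[X]), s ∉ 𝔭 ∧ rd 𝔭 r = 0 ∧
      ev t r = algebraMap (𝓞 F) (𝓞 L) s * w := by
  refine Submodule.span_induction
    (p := fun w _ => ∃ (s : 𝓞 F) (r : (𝓞 F)[X]), s ∉ 𝔭 ∧ rd 𝔭 r = 0 ∧
      ev t r = algebraMap (𝓞 F) (𝓞 L) s * w) ?_ ?_ ?_ ?_ hw
  · rintro _ ⟨a, ha, rfl⟩
    refine ⟨1, C a, (Ideal.ne_top_iff_one _).1 hp.ne_top, ?_, ?_⟩
    · rw [rd_C, Ideal.Quotient.eq_zero_iff_mem.2 ha, C_0]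
    · rw [ev_C, map_one, one_mul]
  · exact ⟨1, 0, (Ideal.ne_top_iff_one _).1 hp.ne_top, by simp, by simp⟩
  · rintro x y - - ⟨s, r, hs, hr, he⟩ ⟨s', r', hs', hr', he'⟩
    refine ⟨s * s', C s' * r + C s * r', ?_, ?_, ?_⟩
    · intro hmem
      rcases hp.mem_or_mem hmem with h1 | h1
      · exact hs h1
      · exact hs' h1
    · have e : rd 𝔭 (C s' * r + C s * r') = rd 𝔭 (C s') * rd 𝔭 r + rd 𝔭 (C s) * rd 𝔭 r' := by
        rw [rd, Polynomial.map_add, Polynomial.map_mul, Polynomial.map_mul]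
      rw [e, hr, hr', mul_zero, mul_zero, add_zero]
    · rw [map_add, map_mul, map_mul, ev_C, ev_C, he, he', map_mul]
      ring
  · rintro z x - ⟨s, r, hs, hr, he⟩
    obtain ⟨s', p, hs', hp'⟩ := ev_loc hI h ht hp h0 hD z
    refine ⟨s' * s, p * r, ?_, ?_, ?_⟩
    · intro hmem
      rcases hp.mem_or_mem hmem with h1 | h1
      · exact hs' h1
      · exact hs h1
    · rw [rd_mul, hr, mul_zero]
    · rw [map_mul, hp', he, map_mul, smul_eq_mul]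
      ring

/-- the map to `AdjoinRoot m` for a factor `m` of `f` modulo `𝔭` -/
theorem ex_psiT (hI : T_INT) (h : IsGen g f θ) {t : 𝓞 L} (ht : algebraMap (𝓞 L) L t = θ)
    {𝔭 : Ideal (𝓞 F)} (hp : 𝔭.IsPrime) (h0 : 𝔭 ≠ ⊥) (hD : dsc g f ∉ 𝔭 ^ 2)
    (m : (𝓞 F ⧸ 𝔭)[X]) (hm : m ∣ rd 𝔭 f) : ∃ ψ : 𝓞 L →+* AdjoinRoot m,
      ∀ p : (𝓞 F)[X], ψ (ev t p) = AdjoinRoot.mk m (rd 𝔭 p) := by
  set I := Ideal.map (algebraMap (𝓞 F) (𝓞 L)) 𝔭 with hIdef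
  have hmax : 𝔭.IsMaximal := hp.isMaximal h0
  have hsurj : Function.Surjective ((Ideal.Quotient.mk I).comp (ev (R := 𝓞 F) t)) := by
    intro w
    obtain ⟨z, rfl⟩ := Ideal.Quotient.mk_surjective w
    obtain ⟨a, p, ha, hp'⟩ := ev_one hI h ht hp h0 hD z
    refine ⟨p, ?_⟩
    rw [RingHom.comp_apply, hp', Ideal.Quotient.eq]
    have e : z + algebraMap (𝓞 F) (𝓞 L) a * z - z = algebraMap (𝓞 F) (𝓞 L) a * z := by ring
    rw [e]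
    exact I.mul_mem_right _ (Ideal.mem_map_of_mem _ ha)
  have hk : RingHom.ker ((Ideal.Quotient.mk I).comp (ev (R := 𝓞 F) t)) ≤
      RingHom.ker ((AdjoinRoot.mk m).comp (mapRingHom (Ideal.Quotient.mk 𝔭))) := by
    intro p hp'
    rw [RingHom.mem_ker, RingHom.comp_apply, Ideal.Quotient.eq_zero_iff_mem] at hp'
    obtain ⟨s, r, hs, hr, he⟩ := map_coeff hI h ht hp h0 hD _ hp'
    have h1 : ev t (C s * p - r) = 0 := by
      rw [map_sub, map_mul, ev_C, he, sub_self]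
    obtain ⟨c, hc⟩ := ev_ker h ht h1
    have h2 : rd 𝔭 (C s * p - r) = rd 𝔭 f * rd 𝔭 c := by rw [hc, rd_mul]
    have h3 : rd 𝔭 (C s * p - r) = C (Ideal.Quotient.mk 𝔭 s) * rd 𝔭 p := by
      have e : rd 𝔭 (C s * p - r) = rd 𝔭 (C s) * rd 𝔭 p - rd 𝔭 r := by
        rw [rd, Polynomial.map_sub, Polynomial.map_mul]
      rw [e, hr, sub_zero, rd_C]
    rw [RingHom.mem_ker, RingHom.comp_apply, coe_mapRingHom]
    have h4 : AdjoinRoot.mk m (C (Ideal.Quotient.mk 𝔭 s) * rd 𝔭 p) = 0 := by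
      rw [← h3, h2]
      exact AdjoinRoot.mk_eq_zero.2 (hm.mul_right _)
    obtain ⟨u, hu⟩ := hmax.exists_inv hs
    obtain ⟨a, ha, hu⟩ := hu
    have h5 : Ideal.Quotient.mk 𝔭 u * Ideal.Quotient.mk 𝔭 s = 1 := by
      rw [← map_mul, ← map_one (Ideal.Quotient.mk 𝔭), Ideal.Quotient.eq]
      have e : u * s - 1 = -a := by linear_combination hu
      rw [e]
      exact 𝔭.neg_mem ha
    have h6 : rd 𝔭 p = C (Ideal.Quotient.mk 𝔭 u) * (C (Ideal.Quotient.mk 𝔭 s) * rd 𝔭 p) := by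
      rw [← mul_assoc, ← C_mul, h5, C_1, one_mul]
    change AdjoinRoot.mk m (rd 𝔭 p) = 0
    rw [h6, map_mul, h4, mul_zero]
  refine ⟨(((Ideal.Quotient.mk I).comp (ev (R := 𝓞 F) t)).liftOfSurjective hsurj
    ⟨_, hk⟩).comp (Ideal.Quotient.mk I), fun p => ?_⟩
  have h1 := RingHom.liftOfRightInverse_comp_apply ((Ideal.Quotient.mk I).comp (ev (R := 𝓞 F) t))
    (Function.surjInv hsurj) (Function.rightInverse_surjInv hsurj) ⟨_, hk⟩ p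
  exact h1

/-- a prime over `𝔭` which contains `m(t)` -/
theorem eq_kerT (hI : T_INT) (h : IsGen g f θ) {t : 𝓞 L} (ht : algebraMap (𝓞 L) L t = θ)
    {𝔭 : Ideal (𝓞 F)} (h0 : 𝔭 ≠ ⊥) (hD : dsc g f ∉ 𝔭 ^ 2) (hmax : 𝔭.IsMaximal) {m : (𝓞 F)[X]}
    (hm : Irreducible (rd 𝔭 m)) {ψ : 𝓞 L →+* AdjoinRoot (rd 𝔭 m)}
    (hψ : ∀ p : (𝓞 F)[X], ψ (ev t p) = AdjoinRoot.mk (rd 𝔭 m) (rd 𝔭 p))
    {𝔓 : HeightOneSpectrum (𝓞 L)} (hov : Ov 𝔭 𝔓) (hmem : ev t m ∈ 𝔓.asIdeal) :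
    𝔓.asIdeal = RingHom.ker ψ := by
  symm
  refine (ker_max hmax hm hψ).eq_of_le 𝔓.isPrime.ne_top fun z hz => ?_
  obtain ⟨s, p, hs, hp⟩ := ev_loc hI h ht hmax.isPrime h0 hD z
  have h1 : ψ (ev t p) = 0 := by
    rw [hp, map_mul, (RingHom.mem_ker (f := ψ)).1 hz, mul_zero]
  rw [hψ, AdjoinRoot.mk_eq_zero] at h1
  have h2 := mem_of_dvd hov hmem h1
  rw [hp] at h2
  rcases 𝔓.isPrime.mem_or_mem h2 with h3 | h3
  · exact absurd ((ov_iff hmax hov s).1 h3) hs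
  · exact h3

end main

/-- The prime `𝔮 q` does not divide the discriminant. -/
theorem dsc_q {F : Type} [Field F] [NumberField F] {g : ℕ} (hg : 1 ≤ g) {f h : (𝓞 F)[X]}
    {𝔭 : Ideal (𝓞 F)} (hmax : 𝔭.IsMaximal) (h0 : 𝔭 ≠ ⊥) (hfm : f.Monic)
    (hfd : f.natDegree = 2 * g + 1) (hm : h.Monic) (hdeg : h.natDegree = 2 * g)
    (hirr : Irreducible (rd 𝔭 h)) (hcg : Cg 𝔭 f (X * h)) : dsc g f ∉ 𝔭 := by
  apply dsc_notMem hmax hfm hfd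
  let iκ : Field (𝓞 F ⧸ 𝔭) := Ideal.Quotient.field _
  have f3 : Finite (𝓞 F ⧸ 𝔭) := fin_quot h0
  obtain ⟨hbd, hbX⟩ := hbar hmax hg hm hdeg
  have hfb : rd 𝔭 f = X * rd 𝔭 h := by
    rw [map_eq_of_cg hcg, rd, Polynomial.map_mul, Polynomial.map_X]
  rw [hfb]
  refine Separable.mul separable_X (PerfectField.separable_of_irreducible hirr) ?_
  exact ((hirr.coprime_iff_not_dvd).2 hbX).symm

/-- **EXQ.** -/
theorem t_exq (hI : T_INT) : T_EXQ := by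
  intro g W F L _ _ _ _ _ f θ S 𝔮 h P hg hG hS q hqS hcg
  obtain ⟨hq, -, -, -, hur, hprime, hmem𝔮, hm, hdeg, hirr, -⟩ := hS q hqS
  obtain ⟨𝔭, h𝔭⟩ : ∃ 𝔭 : Ideal (𝓞 F), 𝔭 = 𝔮 q := ⟨_, rfl⟩
  rw [← h𝔭] at hprime hmem𝔮 hirr hcg ⊢
  have hq0 : (q : 𝓞 F) ≠ 0 := by exact_mod_cast hq.ne_zero
  have hne : 𝔭 ≠ ⊥ := fun h0 => hq0 (by rwa [h0, Ideal.mem_bot] at hmem𝔮)
  have hmax : 𝔭.IsMaximal := hprime.isMaximal hne
  have hq2 : (q : 𝓞 F) ∉ 𝔭 ^ 2 := hur 𝔭 hprime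
  have hD : dsc g f ∉ 𝔭 ^ 2 := fun h1 =>
    dsc_q hg hmax hne hG.mon hG.deg hm hdeg hirr hcg (Ideal.pow_le_self two_ne_zero h1)
  obtain ⟨hbd, hbX⟩ := hbar hmax hg hm hdeg
  obtain ⟨t, ht⟩ := theta_ex hG
  have hfb : rd 𝔭 f = X * rd 𝔭 (h q) := by
    rw [map_eq_of_cg hcg, rd, Polynomial.map_mul, Polynomial.map_X]
  have hQ0 : (q : 𝓞 L) ≠ 0 := by exact_mod_cast hq.ne_zero
  obtain ⟨ψ₁, hψ₁⟩ := ex_psiT hI hG ht hprime hne hD (rd 𝔭 (X : (𝓞 F)[X]))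
    (by rw [hfb, rd, Polynomial.map_X]; exact Dvd.intro _ rfl)
  obtain ⟨ψ₂, hψ₂⟩ := ex_psiT hI hG ht hprime hne hD (rd 𝔭 (h q))
    (by rw [hfb]; exact ⟨X, X_mul⟩)
  have hirX := irrX hmax
  have hm1 := ker_max hmax hirX hψ₁
  have hm2 := ker_max hmax hirr hψ₂
  have hrdQ : ∀ a ∈ 𝔭, rd 𝔭 (C a) = 0 := by
    intro a ha
    rw [rd_C, Ideal.Quotient.eq_zero_iff_mem.2 ha, C_0]
  have q1 : ∀ a ∈ 𝔭, algebraMap (𝓞 F) (𝓞 L) a ∈ RingHom.ker ψ₁ := by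
    intro a ha
    rw [RingHom.mem_ker, ← ev_C t, hψ₁, hrdQ a ha, map_zero]
  have q2 : ∀ a ∈ 𝔭, algebraMap (𝓞 F) (𝓞 L) a ∈ RingHom.ker ψ₂ := by
    intro a ha
    rw [RingHom.mem_ker, ← ev_C t, hψ₂, hrdQ a ha, map_zero]
  have hqq : algebraMap (𝓞 F) (𝓞 L) (q : 𝓞 F) = (q : 𝓞 L) := map_natCast _ q
  have hb1 : RingHom.ker ψ₁ ≠ ⊥ := fun h0 => hQ0 (by
    have := q1 _ hmem𝔮
    rwa [h0, Ideal.mem_bot, hqq] at this)
  have hb2 : RingHom.ker ψ₂ ≠ ⊥ := fun h0 => hQ0 (by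
    have := q2 _ hmem𝔮
    rwa [h0, Ideal.mem_bot, hqq] at this)
  let 𝔓₁ : HeightOneSpectrum (𝓞 L) := ⟨RingHom.ker ψ₁, hm1.isPrime, hb1⟩
  let 𝔓₂ : HeightOneSpectrum (𝓞 L) := ⟨RingHom.ker ψ₂, hm2.isPrime, hb2⟩
  have ov1 : Ov 𝔭 𝔓₁ := q1
  have ov2 : Ov 𝔭 𝔓₂ := q2
  have ht1 : t ∈ 𝔓₁.asIdeal := by
    show t ∈ RingHom.ker ψ₁
    rw [RingHom.mem_ker, ← ev_X (F := F) t, hψ₁]
    exact AdjoinRoot.mk_eq_zero.2 dvd_rfl
  have ht2 : t ∉ 𝔓₂.asIdeal := by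
    show t ∉ RingHom.ker ψ₂
    rw [RingHom.mem_ker, ← ev_X (F := F) t, hψ₂, AdjoinRoot.mk_eq_zero, rd_X]
    exact hbX
  have hprod : ∀ I : Ideal (𝓞 L), (∀ a ∈ 𝔭, algebraMap (𝓞 F) (𝓞 L) a ∈ I) →
      𝔓₁.asIdeal * 𝔓₂.asIdeal ≤ I := by
    intro I hI'
    rw [Ideal.mul_le]
    intro x hx y hy
    obtain ⟨a, p, ha, hp⟩ := ev_one hI hG ht hprime hne hD x
    obtain ⟨a', p', ha', hp'⟩ := ev_one hI hG ht hprime hne hD y
    change x ∈ RingHom.ker ψ₁ at hx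
    change y ∈ RingHom.ker ψ₂ at hy
    have hx' : ψ₁ (ev t p) = 0 := by
      rw [hp, map_add, map_mul, (RingHom.mem_ker (f := ψ₁)).1 hx, mul_zero, add_zero]
    have hy' : ψ₂ (ev t p') = 0 := by
      rw [hp', map_add, map_mul, (RingHom.mem_ker (f := ψ₂)).1 hy, mul_zero, add_zero]
    rw [hψ₁, AdjoinRoot.mk_eq_zero, rd_X] at hx'
    rw [hψ₂, AdjoinRoot.mk_eq_zero] at hy'
    have h1 : ev t (p * p') ∈ I := by
      refine mem_of_dvd (m := f) hI' ?_ ?_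
      · rw [ev_f hG ht]
        exact Ideal.zero_mem _
      · rw [hfb, rd_mul]
        exact mul_dvd_mul hx' hy'
    rw [map_mul, hp, hp'] at h1
    have e : x * y = (x + algebraMap (𝓞 F) (𝓞 L) a * x) * (y + algebraMap (𝓞 F) (𝓞 L) a' * y) -
        (algebraMap (𝓞 F) (𝓞 L) a * (x * y) + algebraMap (𝓞 F) (𝓞 L) a' *
          (x * y + algebraMap (𝓞 F) (𝓞 L) a * (x * y))) := by ring
    rw [e]
    exact I.sub_mem h1 (I.add_mem (I.mul_mem_right _ (hI' a ha)) (I.mul_mem_right _ (hI' a' ha')))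
  have hvt : 𝔓₂.valuation L θ = 1 := by
    rw [← ht]
    exact 𝔓₂.valuation_eq_one_iff_notMem.mpr ht2
  have hqL : (q : L) = algebraMap (𝓞 L) L (q : 𝓞 L) := by rw [map_natCast]
  refine ⟨𝔓₁, 𝔓₂, ov1, ov2, ?_, hvt, ?_, ?_, ?_⟩
  · rw [← ht]
    exact (𝔓₁.valuation_lt_one_iff_mem _).mpr ht1
  · rw [hqL]
    refine val_one hQ0 (by rw [← hqq]; exact ov1 _ hmem𝔮) fun hmem => ?_
    rw [← hqq] at hmem
    have h1 : 𝔓₁.asIdeal * 𝔓₂.asIdeal ≤ 𝔓₁.asIdeal ^ 2 :=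
      hprod _ (sq_mem hmax hmem𝔮 hq2 ov1 hmem)
    rw [← Ideal.dvd_iff_le, sq] at h1
    have h2 : 𝔓₁.asIdeal ∣ 𝔓₂.asIdeal := (mul_dvd_mul_iff_left (a := 𝔓₁.asIdeal) hb1).mp h1
    rw [Ideal.dvd_iff_le] at h2
    have h3 := hm2.eq_of_le 𝔓₁.isPrime.ne_top h2
    apply ht2
    show t ∈ RingHom.ker ψ₂
    rw [h3]
    exact ht1
  · rw [hqL]
    refine val_one hQ0 (by rw [← hqq]; exact ov2 _ hmem𝔮) fun hmem => ?_
    rw [← hqq] at hmem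
    have h1 : 𝔓₁.asIdeal * 𝔓₂.asIdeal ≤ 𝔓₂.asIdeal ^ 2 :=
      hprod _ (sq_mem hmax hmem𝔮 hq2 ov2 hmem)
    rw [← Ideal.dvd_iff_le, sq] at h1
    have h2 : 𝔓₂.asIdeal ∣ 𝔓₁.asIdeal := (mul_dvd_mul_iff_right (a := 𝔓₂.asIdeal) hb2).mp h1
    rw [Ideal.dvd_iff_le] at h2
    exact ht2 (h2 ht1)
  · intro 𝔓 hov
    rcases mem_or hG ht hcg hov with hmm | hmm
    · left
      apply HeightOneSpectrum.ext
      exact eq_kerT hI hG ht hne hD hmax hirX hψ₁ hov (by rw [ev_X]; exact hmm)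
    · right
      apply HeightOneSpectrum.ext
      exact eq_kerT hI hG ht hne hD hmax hirr hψ₂ hov hmm

/-- **CSQ.** -/
theorem t_csq (hI : T_INT) : T_CSQ := by
  intro g W F L _ _ _ _ _ f θ S 𝔮 h P hg hG hS q hqS hcg 𝔓 hov hv
  obtain ⟨hq, -, -, h8, -, hprime, hmem𝔮, hm, hdeg, hirr, -⟩ := hS q hqS
  obtain ⟨𝔭, h𝔭⟩ : ∃ 𝔭 : Ideal (𝓞 F), 𝔭 = 𝔮 q := ⟨_, rfl⟩
  rw [← h𝔭] at hprime hmem𝔮 hirr hcg hov ⊢
  have hq0 : (q : 𝓞 F) ≠ 0 := by exact_mod_cast hq.ne_zero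
  have hne : 𝔭 ≠ ⊥ := fun h0 => hq0 (by rwa [h0, Ideal.mem_bot] at hmem𝔮)
  have hmax : 𝔭.IsMaximal := hprime.isMaximal hne
  have hD : dsc g f ∉ 𝔭 ^ 2 := fun h1 =>
    dsc_q hg hmax hne hG.mon hG.deg hm hdeg hirr hcg (Ideal.pow_le_self two_ne_zero h1)
  obtain ⟨hbd, hbX⟩ := hbar hmax hg hm hdeg
  obtain ⟨t, ht⟩ := theta_ex hG
  have hfb : rd 𝔭 f = X * rd 𝔭 (h q) := by
    rw [map_eq_of_cg hcg, rd, Polynomial.map_mul, Polynomial.map_X]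
  obtain ⟨ψ, hψ⟩ := ex_psiT hI hG ht hprime hne hD (rd 𝔭 (h q))
    (by rw [hfb]; exact ⟨X, X_mul⟩)
  have htn : t ∉ 𝔓.asIdeal := by
    rw [← ht] at hv
    exact 𝔓.valuation_eq_one_iff_notMem.mp hv
  have hker : 𝔓.asIdeal = RingHom.ker ψ :=
    eq_kerT hI hG ht hne hD hmax hirr hψ hov ((mem_or hG ht hcg hov).resolve_left htn)
  obtain ⟨c1, c4⟩ := card_adj hmax hne hirr
  have f3 : Finite (𝓞 F ⧸ 𝔭) := fin_quot hne
  have hκ0 : ((q : ℕ) : 𝓞 F ⧸ 𝔭) = 0 := by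
    rw [← map_natCast (Ideal.Quotient.mk 𝔭)]
    exact Ideal.Quotient.eq_zero_iff_mem.2 hmem𝔮
  let iκ : Field (𝓞 F ⧸ 𝔭) := Ideal.Quotient.field _
  obtain ⟨k1, k2, e, ke⟩ := kappa_facts (κ := 𝓞 F ⧸ 𝔭) hq h8 hκ0
  obtain ⟨a1, a2⟩ := adj_facts hg k1 k2 hirr (hm.map _) hbd
  have hX0 : AdjoinRoot.mk (rd 𝔭 (h q)) X ≠ 0 := by
    rw [Ne, AdjoinRoot.mk_eq_zero]
    exact hbX
  have hder : AdjoinRoot.mk (rd 𝔭 (h q)) (rd 𝔭 (derivative f)) =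
      AdjoinRoot.mk (rd 𝔭 (h q)) X * AdjoinRoot.mk (rd 𝔭 (h q)) (derivative (rd 𝔭 (h q))) := by
    have e1 : rd 𝔭 (derivative f) = derivative (rd 𝔭 f) := (derivative_map _ _).symm
    rw [e1, hfb, derivative_mul, derivative_X, one_mul, map_add, map_mul,
      AdjoinRoot.mk_self, zero_add]
  have hdn : ev t (derivative f) ∉ 𝔓.asIdeal := by
    rw [hker, RingHom.mem_ker, hψ, hder]
    exact fun h0 => hX0 (a1 _ h0)
  have hdL : aeval θ (derivative (fF f)) = algebraMap (𝓞 L) L (ev t (derivative f)) := by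
    rw [ev_L ht, fF, fF, derivative_map]
  have hd1 : 𝔓.valuation L (aeval θ (derivative (fF f))) = 1 := by
    rw [hdL]
    exact 𝔓.valuation_eq_one_iff_notMem.mpr hdn
  refine ⟨?_, ?_, hd1, ?_⟩
  · intro c hc
    have hc0 : Ideal.Quotient.mk 𝔭 c ≠ 0 := fun h0 => hc (Ideal.Quotient.eq_zero_iff_mem.1 h0)
    have i2 : Fact (Irreducible (rd 𝔭 (h q))) := ⟨hirr⟩
    have hsq' : IsSquare (AdjoinRoot.of (rd 𝔭 (h q)) (Ideal.Quotient.mk 𝔭 c)) :=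
      sq_even (AdjoinRoot.of (rd 𝔭 (h q))) (g := g) (by rw [c1, hbd]) _ hc0
    obtain ⟨a, ha⟩ := hsq'
    obtain ⟨z, rfl⟩ := psi_surj hψ a
    have h1 : ψ (algebraMap (𝓞 F) (𝓞 L) c - z ^ 2) = 0 := by
      rw [map_sub, map_pow, ← ev_C t c, hψ, rd_C, AdjoinRoot.mk_C, ha]
      ring
    have h2 : algebraMap (𝓞 F) (𝓞 L) c - z ^ 2 ∈ 𝔓.asIdeal := by
      rw [hker]; exact h1
    have h3 : algebraMap (𝓞 F) (𝓞 L) c ∉ 𝔓.asIdeal := fun h4 => hc ((ov_iff hmax hov c).1 h4)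
    refine ⟨algebraMap (𝓞 L) L z, ?_⟩
    rw [← algMap_coe, ← map_pow, ← map_sub, 𝔓.valuation_eq_one_iff_notMem.mpr h3]
    exact (𝔓.valuation_lt_one_iff_mem _).mpr h2
  · refine ⟨e * g, ?_⟩
    rw [hker, Nat.card_congr (RingHom.quotientKerEquivOfSurjective (psi_surj hψ)).toEquiv, c1, hbd,
      ke, ← pow_mul]
    congr 1
    ring
  · rintro ⟨s, hs⟩
    have hx1 : 𝔓.valuation L (θ * aeval θ (derivative (fF f))) = 1 := by
      rw [map_mul, hv, hd1, one_mul]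
    rw [hx1] at hs
    have hxs : s ^ 2 + (θ * aeval θ (derivative (fF f)) - s ^ 2) =
        θ * aeval θ (derivative (fF f)) := by ring
    have hs1 : 𝔓.valuation L s ≤ 1 := by
      by_contra hn
      push Not at hn
      have h1 : 1 < 𝔓.valuation L (s ^ 2) := by
        rw [map_pow]
        exact one_lt_pow₀ hn two_ne_zero
      have h2 := Valuation.map_add_eq_of_lt_left (𝔓.valuation L) (hs.trans h1)
      rw [hxs, hx1] at h2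
      exact h1.ne h2
    obtain ⟨z, hz⟩ := 𝔓.exists_valuation_sub_lt_of_integer hs1 1
    rw [Units.val_one] at hz
    have hz1 : 𝔓.valuation L (algebraMap (𝓞 L) L z) ≤ 1 := 𝔓.valuation_le_one z
    have h3 : 𝔓.valuation L (θ * aeval θ (derivative (fF f)) - algebraMap (𝓞 L) L z ^ 2) < 1 := by
      have e1 : θ * aeval θ (derivative (fF f)) - algebraMap (𝓞 L) L z ^ 2 =
          (θ * aeval θ (derivative (fF f)) - s ^ 2) -
            (algebraMap (𝓞 L) L z - s) * (algebraMap (𝓞 L) L z + s) := by ring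
      rw [e1]
      refine Valuation.map_sub_lt _ hs ?_
      rw [map_mul]
      have h4 : 𝔓.valuation L (algebraMap (𝓞 L) L z + s) ≤ 1 :=
        Valuation.map_add_le _ hz1 hs1
      calc _ ≤ 𝔓.valuation L (algebraMap (𝓞 L) L z - s) * 1 := mul_le_mul_right h4 _
        _ < 1 := by rw [mul_one]; exact hz
    have h5 : t * ev t (derivative f) - z ^ 2 ∈ 𝔓.asIdeal := by
      have h4 : 𝔓.valuation L (algebraMap (𝓞 L) L (t * ev t (derivative f) - z ^ 2)) < 1 := by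
        rw [map_sub, map_mul, map_pow, ht, ← hdL]
        exact h3
      exact (𝔓.valuation_lt_one_iff_mem _).mp h4
    rw [hker, RingHom.mem_ker, map_sub, map_mul, map_pow, hψ, hder, sub_eq_zero] at h5
    have h6 : ψ t = AdjoinRoot.mk (rd 𝔭 (h q)) X := by
      rw [← ev_X (F := F) t, hψ, rd_X]
    rw [h6, ← mul_assoc, ← sq] at h5
    exact hX0 (a2 _ _ h5)

end Pool.Agent.H30T
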