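import Pool.Agent.H30T.Stm
import Pool.Agent.H437R2.Man.MWSel

set_option autoImplicit false

open IsDedekindDomain NumberField

namespace Pool.Agent.H30T

open Pool.Agent.N874.PP (Ev)

/-- Piece FIN. -/
theorem fin : T_FIN := by
  intro L _ _ T hT
  obtain ⟨R, hR0, hR⟩ := Pool.Agent.H437R2.Man.MW.sel_finite (K := L) T hT
  refine ⟨R, hR0, fun α hα hev => ?_⟩
  obtain ⟨t, ht, b, hb, h⟩ := hR (Units.mk0 α hα) (by
    intro v hv
    obtain ⟨y, hy⟩ := hev v hv
    have hy0 : y ≠ 0 := by
      rintro rfl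
      rw [map_zero, zero_pow two_ne_zero, Valuation.zero_iff] at hy
      exact hα hy
    have h1 : v.valuationOfNeZero (Units.mk0 α hα) = v.valuationOfNeZero (Units.mk0 y hy0) ^ 2 := by
      apply WithZero.coe_injective
      rw [v.valuationOfNeZero_eq, WithZero.coe_pow, v.valuationOfNeZero_eq]
      exact hy
    rw [h1, toAdd_pow, nsmul_eq_mul]
    exact (even_two.mul_right _))
  exact ⟨t, ht, b, hb, h⟩

end Pool.Agent.H30T
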