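import Pool.Agent.H30T.Stm

/-! # Piece GAL: the Galois closure -/

set_option autoImplicit false
set_option linter.all false

open Polynomial IsDedekindDomain Matrix NumberField
open scoped Classical

namespace Pool.Agent.H30T

namespace GalP

/-- a polynomial with nonzero discriminant is separable over `ℚ` -/
theorem separable_of_discr {f : ℤ[X]} (hf : f.Monic) (hd : 0 < f.natDegree) (h : f.discr ≠ 0) :
    (f.map (Int.castRingHom ℚ)).Separable := by
  have hinj : Function.Injective (Int.castRingHom ℚ) := Int.cast_injective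
  have h1 := resultant_deriv (f := f) (natDegree_pos_iff_degree_pos.1 hd)
  have h2 : (f.map (Int.castRingHom ℚ)).natDegree = f.natDegree := natDegree_map_eq_of_injective hinj f
  have h3 : (derivative (f.map (Int.castRingHom ℚ))).natDegree = f.natDegree - 1 := by
    rw [natDegree_derivative, h2]
  have h4 : resultant (f.map (Int.castRingHom ℚ)) (derivative (f.map (Int.castRingHom ℚ))) ≠ 0 := by
    rw [h2, h3, derivative_map, resultant_map_map, h1, hf.leadingCoeff]
    simp [h]
  rw [Polynomial.Separable]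
  by_contra hc
  exact h4 (resultant_eq_zero_iff.2 ⟨Or.inl (by
    intro h0
    rw [h0, natDegree_zero] at h2
    omega), hc⟩)

/-- the Galois closure -/
theorem exists_closure (L : Type) [Field L] [NumberField L] (α : L) (m : ℕ) (hm : m ≠ 0) (p : ℚ[X]) (hp : p ≠ 0) :
    ∃ (N : Type) (_ : Field N) (_ : NumberField N) (_ : IsGalois ℚ N) (ι : L →ₐ[ℚ] N) (ζ β : N),
      IsPrimitiveRoot ζ m ∧ β ^ 2 = ι α ∧ (p.map (algebraMap ℚ N)).Splits := by
  set P : L[X] := (X ^ 2 - C α) * cyclotomic m L * p.map (algebraMap ℚ L) with hP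
  have h1 : (X ^ 2 - C α : L[X]).Monic := monic_X_pow_sub_C α two_ne_zero
  have h2 : (cyclotomic m L).Monic := cyclotomic.monic m L
  have hp' : p.map (algebraMap ℚ L) ≠ 0 := by
    rwa [Ne, Polynomial.map_eq_zero]
  have hP0 : P ≠ 0 := mul_ne_zero (mul_ne_zero h1.ne_zero h2.ne_zero) hp'
  let E := P.SplittingField
  have : CharZero E := charZero_of_injective_algebraMap (algebraMap L E).injective
  have : FiniteDimensional ℚ E := FiniteDimensional.trans ℚ L E
  have : NumberField E := ⟨⟩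
  have hs : (P.map (algebraMap L E)).Splits := SplittingField.splits P
  have hP0' : P.map (algebraMap L E) ≠ 0 := by
    rwa [Ne, Polynomial.map_eq_zero]
  have d1 : (X ^ 2 - C α : L[X]) ∣ P := ⟨cyclotomic m L * p.map (algebraMap ℚ L), by rw [hP]; ring⟩
  have d2 : cyclotomic m L ∣ P := ⟨(X ^ 2 - C α) * p.map (algebraMap ℚ L), by rw [hP]; ring⟩
  have d3 : p.map (algebraMap ℚ L) ∣ P := ⟨(X ^ 2 - C α) * cyclotomic m L, by rw [hP]; ring⟩
  have s1 := hs.of_dvd hP0' (Polynomial.map_dvd (algebraMap L E) d1)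
  have s2 := hs.of_dvd hP0' (Polynomial.map_dvd (algebraMap L E) d2)
  have s3 := hs.of_dvd hP0' (Polynomial.map_dvd (algebraMap L E) d3)
  obtain ⟨b, hb⟩ : ∃ b : E, b ^ 2 = algebraMap L E α := by
    obtain ⟨b, hb⟩ := s1.exists_eval_eq_zero (by
      rw [degree_map, degree_X_pow_sub_C (by norm_num)]
      norm_num)
    refine ⟨b, ?_⟩
    simp only [Polynomial.map_sub, Polynomial.map_pow, map_X, map_C, eval_sub, eval_pow, eval_X, eval_C] at hb
    exact sub_eq_zero.1 hb
  obtain ⟨z, hz⟩ : ∃ z : E, IsPrimitiveRoot z m := by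
    obtain ⟨z, hz⟩ := s2.exists_eval_eq_zero (by
      rw [degree_map, degree_cyclotomic]
      exact_mod_cast (Nat.totient_pos.2 (Nat.pos_of_ne_zero hm)).ne')
    refine ⟨z, ?_⟩
    rw [map_cyclotomic] at hz
    have : NeZero (m : E) := ⟨by exact_mod_cast hm⟩
    exact isRoot_cyclotomic_iff.1 hz
  let Ω := AlgebraicClosure E
  let N := IntermediateField.normalClosure ℚ E Ω
  have : NumberField N := ⟨⟩
  let k : E →ₐ[ℚ] N := IsScalarTower.toAlgHom ℚ E N
  have halg : (inferInstance : Algebra ℚ N) = DivisionRing.toRatAlgebra := Subsingleton.elim _ _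
  refine ⟨N, inferInstance, inferInstance, ?_, ?_, k z, k b, ?_, ?_, ?_⟩
  · have a1 : Algebra.IsAlgebraic ℚ Ω := Algebra.IsAlgebraic.trans ℚ E Ω
    have a2 : IsAlgClosure ℚ Ω := ⟨inferInstance, a1⟩
    have a3 : Normal ℚ Ω := IsAlgClosure.normal ℚ Ω
    have a4 : Normal ℚ N := normalClosure.normal ℚ E Ω
    have h : IsGalois ℚ N := ⟨⟩
    convert h
  · let j : L →ₐ[ℚ] E := IsScalarTower.toAlgHom ℚ L E
    exact (k.comp j).toRingHom.toRatAlgHom
  · exact hz.map_of_injective (f := k) k.injective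
  · rw [← map_pow, hb]
    rfl
  · have h : (((p.map (algebraMap ℚ L)).map (algebraMap L E)).map (k : E →+* N)).Splits := s3.map _
    rw [Polynomial.map_map, Polynomial.map_map] at h
    convert h
    exact Subsingleton.elim _ _

/-- the product over all conjugates is rational -/
theorem rat {L N : Type} [Field L] [NumberField L] [Field N] [NumberField N] (ι : L →ₐ[ℚ] N)
    {I : Type} [Fintype I] (hI : Fintype.card I = Module.finrank ℚ L) (θ α : L) (β : N) (hβ : β ^ 2 = ι α)
    (hα : IsSquare (Algebra.norm ℚ α)) (u : I → (N ≃ₐ[ℚ] N)) (hu : Function.Injective fun i => u i (ι θ)) :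
    ∃ r : ℚ, ∏ i, u i β = algebraMap ℚ N r := by
  let Ω := AlgebraicClosure N
  let e : I → (L →ₐ[ℚ] Ω) := fun i =>
    (IsScalarTower.toAlgHom ℚ N Ω).comp (((u i : N ≃ₐ[ℚ] N) : N →ₐ[ℚ] N).comp ι)
  have he : ∀ i x, e i x = algebraMap N Ω (u i (ι x)) := fun i x => rfl
  have hinj : Function.Injective e := by
    intro i j hij
    apply hu
    have h1 := DFunLike.congr_fun hij θ
    rw [he, he] at h1
    exact (algebraMap N Ω).injective h1
  have hbij : Function.Bijective e := by
    rw [Fintype.bijective_iff_injective_and_card]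
    refine ⟨hinj, ?_⟩
    rw [hI, AlgHom.card]
  obtain ⟨r, hr⟩ := hα
  have h1 := Algebra.norm_eq_prod_embeddings ℚ Ω α
  have h2 : ∏ σ : L →ₐ[ℚ] Ω, σ α = algebraMap N Ω ((∏ i, u i β) ^ 2) := by
    rw [← hbij.prod_comp (fun σ : L →ₐ[ℚ] Ω => σ α), ← Finset.prod_pow, map_prod]
    refine Finset.prod_congr rfl fun i _ => ?_
    rw [he, ← hβ, map_pow]
  rw [h2, hr, IsScalarTower.algebraMap_apply ℚ N Ω] at h1
  have h3 := (algebraMap N Ω).injective h1
  rw [map_mul, ← sq] at h3
  rcases sq_eq_sq_iff_eq_or_eq_neg.1 h3.symm with h4 | h4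
  · exact ⟨r, h4⟩
  · exact ⟨-r, by rw [h4, map_neg]⟩

/-- the roots -/
theorem prod_rootSet {N : Type} [Field N] [NumberField N] (p : ℚ[X]) (hm : p.Monic) (hs : p.Separable)
    (hsp : (p.map (algebraMap ℚ N)).Splits) :
    Fintype.card (p.rootSet N) = p.natDegree ∧
    p.map (algebraMap ℚ N) = ∏ s : p.rootSet N, (X - C (s : N)) := by
  refine ⟨card_rootSet_eq_natDegree hs hsp, ?_⟩
  have h1 : (p.map (algebraMap ℚ N)).roots.Nodup := nodup_roots hs.map
  have h2 := hsp.eq_prod_roots_of_monic (hm.map _)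
  rw [h2]
  have h3 : ∏ s : p.rootSet N, (X - C (s : N)) = ∏ s ∈ (p.rootSet N).toFinset, (X - C s) := by
    rw [Finset.prod_subtype (p.rootSet N).toFinset (p := fun x => x ∈ p.rootSet N) (by simp)]
  rw [h3]
  have h4 : (p.rootSet N).toFinset = (p.map (algebraMap ℚ N)).roots.toFinset := by
    ext x
    rw [Set.mem_toFinset, rootSet, Finset.mem_coe, Multiset.mem_toFinset]
  rw [h4, Finset.prod_eq_multiset_prod, Multiset.toFinset_val, h1.dedup]

/-- the action on the roots -/
theorem exists_action {N : Type} [Field N] [NumberField N] [IsGalois ℚ N] (p : ℚ[X]) (hs : p.Separable)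
    (hsp : (p.map (algebraMap ℚ N)).Splits) (hc : Nat.card p.Gal = (p.natDegree).factorial) :
    ∃ ρ : (N ≃ₐ[ℚ] N) →* Equiv.Perm (p.rootSet N), Function.Surjective ρ ∧
      ∀ a (x : p.rootSet N), ((ρ a x : p.rootSet N) : N) = a x := by
  have : Fact ((p.map (algebraMap ℚ N)).Splits) := ⟨hsp⟩
  refine ⟨(Gal.galActionHom p N).comp (Gal.restrict p N), ?_, fun a x => Gal.galActionHom_restrict p N a x⟩
  rw [MonoidHom.coe_comp]
  refine Function.Surjective.comp ?_ (Gal.restrict_surjective p N)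
  have h1 := Gal.galActionHom_injective p N
  have h2 : Nat.card p.Gal = Nat.card (Equiv.Perm (p.rootSet N)) := by
    rw [hc, Nat.card_perm, Nat.card_eq_fintype_card, card_rootSet_eq_natDegree hs hsp]
  exact ((Nat.bijective_iff_injective_and_card _).2 ⟨h1, h2⟩).2

/-- a root generates `L` -/
theorem ext_hom {L N : Type} [Field L] [NumberField L] [Field N] [NumberField N] [IsGalois ℚ N] (p : ℚ[X])
    (hm : p.Monic) (hs : p.Separable) (hsp : (p.map (algebraMap ℚ N)).Splits)
    (ρ : (N ≃ₐ[ℚ] N) →* Equiv.Perm (p.rootSet N)) (hρ : Function.Surjective ρ)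
    (hρ2 : ∀ a (x : p.rootSet N), ((ρ a x : p.rootSet N) : N) = a x)
    (θ : L) (hθ : aeval θ p = 0) (hL : Module.finrank ℚ L = p.natDegree) (ι : L →ₐ[ℚ] N)
    (a b : L →ₐ[ℚ] N) (hab : a θ = b θ) : a = b := by
  have hi : ι θ ∈ p.rootSet N := by
    rw [mem_rootSet]
    refine ⟨hm.ne_zero, ?_⟩
    rw [aeval_algHom_apply, hθ, map_zero]
  have hd : (minpoly ℚ θ).natDegree = Module.finrank ℚ L := by
    refine le_antisymm (minpoly.natDegree_le θ) ?_
    rw [hL, ← (prod_rootSet p hm hs hsp).1]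
    have hne : minpoly ℚ θ ≠ 0 := minpoly.ne_zero (Algebra.IsIntegral.isIntegral θ)
    have h1 : p.rootSet N ⊆ (minpoly ℚ θ).rootSet N := by
      intro x hx
      obtain ⟨c, hc⟩ := hρ (Equiv.swap ⟨ι θ, hi⟩ ⟨x, hx⟩)
      have h2 := hρ2 c ⟨ι θ, hi⟩
      rw [hc, Equiv.swap_apply_left] at h2
      rw [mem_rootSet]
      refine ⟨hne, ?_⟩
      have h3 : x = ((c : N →ₐ[ℚ] N).comp ι) θ := h2
      rw [h3, aeval_algHom_apply, minpoly.aeval, map_zero]
    have h2 : (p.rootSet N).toFinset ⊆ ((minpoly ℚ θ).rootSet N).toFinset := by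
      simpa using h1
    calc Fintype.card (p.rootSet N) = (p.rootSet N).toFinset.card := (Set.toFinset_card _).symm
      _ ≤ ((minpoly ℚ θ).rootSet N).toFinset.card := Finset.card_le_card h2
      _ = ((minpoly ℚ θ).aroots N).toFinset.card := by
          congr 1
          ext x
          rw [Set.mem_toFinset, rootSet, Finset.mem_coe, Multiset.mem_toFinset]
      _ ≤ (minpoly ℚ θ).natDegree := by
          refine (Multiset.toFinset_card_le _).trans ?_
          refine (card_roots' _).trans ?_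
          exact natDegree_map_le
  have htop : Algebra.adjoin ℚ {θ} = ⊤ := by
    have h1 : IntermediateField.adjoin ℚ {θ} = ⊤ :=
      (Field.primitive_element_iff_minpoly_natDegree_eq ℚ θ).2 hd
    have h2 := IntermediateField.adjoin_simple_toSubalgebra_of_isAlgebraic (Algebra.IsAlgebraic.isAlgebraic (R := ℚ) θ)
    rw [← h2, h1]
    rfl
  exact AlgHom.ext_of_adjoin_eq_top htop (by
    intro x hx
    rw [Set.mem_singleton_iff.1 hx]
    exact hab)

end GalP

open GalP in
theorem gal (hG : T_GRP) (hO : T_ODD) : T_GAL := by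
  intro g f p₀ hyp L _ _ θ hθ hL α hα hnorm hsq m hm hpm
  have hinj : Function.Injective (Int.castRingHom ℚ) := Int.cast_injective
  have hd0 : f.discr ≠ 0 := by
    intro h0
    exact hyp.ndvd (by rw [h0]; exact dvd_zero _)
  have h1g := hyp.one
  set p : ℚ[X] := f.map (Int.castRingHom ℚ) with hp
  have hmon : p.Monic := hyp.mon.map _
  have hsep : p.Separable := separable_of_discr hyp.mon (by rw [hyp.deg]; omega) hd0
  have hdeg : p.natDegree = 2 * g + 1 := by
    rw [hp, natDegree_map_eq_of_injective hinj, hyp.deg]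
  have hθp : aeval θ p = 0 := by
    have h := aeval_map_algebraMap ℚ θ f
    rw [hθ] at h
    exact h
  obtain ⟨N, iF, iN, iG, ι, ζ, β₁, hζ, hβ, hsp⟩ := exists_closure L α m hm p hmon.ne_zero
  obtain ⟨ρ, hρ, hρ2⟩ := exists_action (N := N) p hsep hsp (by rw [hdeg]; exact hyp.gal)
  obtain ⟨hcard, hprod⟩ := prod_rootSet (N := N) p hmon hsep hsp
  rw [hdeg] at hcard
  have hi : ι θ ∈ p.rootSet N := by
    rw [mem_rootSet]
    refine ⟨hmon.ne_zero, ?_⟩
    rw [aeval_algHom_apply, hθp, map_zero]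
  have hfN : f.map (Int.castRingHom N) = ∏ s : p.rootSet N, (X - C (s : N)) := by
    rw [← hprod, hp, Polynomial.map_map]
    congr 1
    exact RingHom.ext_int _ _
  set i₁ : p.rootSet N := ⟨ι θ, hi⟩ with hi₁
  have hβ0 : β₁ ≠ 0 := by
    intro h0
    rw [h0, zero_pow two_ne_zero] at hβ
    exact hα ((map_eq_zero ι).1 hβ.symm)
  have hext : ∀ a : N ≃ₐ[ℚ] N, ρ a i₁ = i₁ → ∀ x : L, a (ι x) = ι x := by
    intro a ha x
    have h1 := hρ2 a i₁
    rw [ha] at h1
    have h2 := ext_hom p hmon hsep hsp ρ hρ hρ2 θ hθp (by rw [hL, hdeg]) ι ((a : N →ₐ[ℚ] N).comp ι) ι h1.symm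
    exact DFunLike.congr_fun h2 x
  have hun : ∀ e e' : ℤˣ, (((e : ℤˣ) : ℤ) : N) = (((e' : ℤˣ) : ℤ) : N) → e = e' := by
    intro e e' h
    exact Units.ext (Int.cast_injective h)
  set ψ : (N ≃ₐ[ℚ] N) → ℤˣ := fun a => if a β₁ = β₁ then 1 else -1 with hψdef
  have hψ : ∀ a : N ≃ₐ[ℚ] N, ρ a i₁ = i₁ → a β₁ = ((ψ a : ℤ) : N) * β₁ := by
    intro a ha
    have h1 : (a β₁) ^ 2 = β₁ ^ 2 := by
      rw [← map_pow, hβ, hext a ha]
    simp only [hψdef]
    rcases sq_eq_sq_iff_eq_or_eq_neg.1 h1 with h2 | h2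
    · rw [if_pos h2]
      simp [h2]
    · have h3 : ¬ a β₁ = β₁ := by
        rw [h2]
        intro h4
        exact hβ0 (self_eq_neg.1 h4.symm)
      rw [if_neg h3]
      simp [h2]
  have hmul : ∀ a b : N ≃ₐ[ℚ] N, ρ a i₁ = i₁ → ρ b i₁ = i₁ → ψ (a * b) = ψ a * ψ b := by
    intro a b ha hb
    have hab : ρ (a * b) i₁ = i₁ := by
      rw [map_mul, Equiv.Perm.mul_apply, hb, ha]
    have h1 := hψ _ hab
    rw [AlgEquiv.mul_apply, hψ b hb, map_mul, map_intCast, hψ a ha, ← mul_assoc] at h1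
    have h2 := mul_right_cancel₀ hβ0 h1
    refine (hun _ _ ?_).symm
    rw [Units.val_mul, Int.cast_mul, mul_comm]
    exact h2
  have hnc : ∀ v : N ≃ₐ[ℚ] N, ρ v = 1 → ∀ t : p.rootSet N → (N ≃ₐ[ℚ] N), (∀ i, ρ (t i) i₁ = i) →
      ∏ i, ψ ((t i)⁻¹ * v * t i) = 1 := by
    intro v hv t ht
    have hval : ∀ i : p.rootSet N, t i (ι θ) = i := by
      intro i
      have h1 := hρ2 (t i) i₁
      rw [ht] at h1
      exact h1.symm
    obtain ⟨r, hr⟩ := rat ι (I := p.rootSet N) (by rw [hcard, hL]) θ α β₁ hβ hnorm t (by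
      intro i j hij
      simp only [hval] at hij
      exact Subtype.ext hij)
    have h1 : ∀ i, v (t i β₁) = ((ψ ((t i)⁻¹ * v * t i) : ℤ) : N) * t i β₁ := by
      intro i
      have h2 : ρ ((t i)⁻¹ * v * t i) i₁ = i₁ := by
        rw [map_mul, map_mul, hv, mul_one, map_inv, Equiv.Perm.mul_apply, ht, Equiv.Perm.inv_eq_iff_eq]
        exact (ht i).symm
      have h3 := congrArg (t i) (hψ _ h2)
      rw [map_mul, map_intCast] at h3
      rw [← h3]
      show v (t i β₁) = (t i * ((t i)⁻¹ * v * t i)) β₁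
      rw [← mul_assoc, ← mul_assoc, mul_inv_cancel, one_mul]
      rfl
    have h2 : v (∏ i, t i β₁) = ((∏ i, ψ ((t i)⁻¹ * v * t i) : ℤˣ) : ℤ) * ∏ i, t i β₁ := by
      rw [map_prod, Finset.prod_congr rfl fun i _ => h1 i, Finset.prod_mul_distrib, Units.coe_prod, Int.cast_prod]
    have h3 : (∏ i, t i β₁) ≠ 0 := by
      rw [Finset.prod_ne_zero_iff]
      intro i _ h0
      exact hβ0 ((map_eq_zero (t i)).1 h0)
    have h4 : v (∏ i, t i β₁) = ∏ i, t i β₁ := by
      rw [hr, AlgEquiv.commutes]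
    rw [h4] at h2
    refine hun _ _ ?_
    rw [Units.val_one, Int.cast_one]
    exact (mul_right_cancel₀ h3 (by rw [one_mul]; exact h2)).symm
  -- the subgroup fixing the roots of unity
  have hpow : ∀ a : N ≃ₐ[ℚ] N, ∃ k : ℕ, ∀ z : N, z ^ m = 1 → a z = z ^ k := by
    intro a
    have h1 : (a ζ) ^ m = 1 := by rw [← map_pow, hζ.pow_eq_one, map_one]
    haveI : NeZero m := ⟨hm⟩
    obtain ⟨k, _, hk⟩ := hζ.eq_pow_of_pow_eq_one h1
    refine ⟨k, fun z hz => ?_⟩
    obtain ⟨j, _, hj⟩ := hζ.eq_pow_of_pow_eq_one hz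
    rw [← hj, map_pow, ← hk, ← pow_mul, ← pow_mul, mul_comm]
  let H : Subgroup (N ≃ₐ[ℚ] N) :=
    { carrier := {a | ∀ z : N, z ^ m = 1 → a z = z}
      mul_mem' := by
        intro a b ha hb z hz
        show a (b z) = z
        rw [hb z hz, ha z hz]
      one_mem' := fun z _ => rfl
      inv_mem' := by
        intro a ha z hz
        show a.symm z = z
        rw [AlgEquiv.symm_apply_eq]
        exact (ha z hz).symm }
  have hH : ∀ a, a ∈ H ↔ ∀ z : N, z ^ m = 1 → a z = z := fun a => Iff.rfl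
  have hHn : H.Normal := by
    refine ⟨fun a ha b => ?_⟩
    rw [hH]
    intro z hz
    have h1 : (b⁻¹ z) ^ m = 1 := by rw [← map_pow, hz, map_one]
    show b (a (b⁻¹ z)) = z
    rw [(hH a).1 ha _ h1]
    exact AlgEquiv.apply_symm_apply b z
  have hHc : ∀ a b : N ≃ₐ[ℚ] N, a * b * a⁻¹ * b⁻¹ ∈ H := by
    intro a b
    rw [hH]
    intro z hz
    obtain ⟨k, hk⟩ := hpow a
    obtain ⟨l, hl⟩ := hpow b
    set w : N := a⁻¹ (b⁻¹ z) with hw
    have hw1 : w ^ m = 1 := by rw [hw, ← map_pow, ← map_pow, hz, map_one, map_one]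
    have h1 : a (b w) = b (a w) := by
      rw [hl w hw1, hk w hw1, map_pow, map_pow, hk w hw1, hl w hw1, ← pow_mul, ← pow_mul, mul_comm]
    show a (b w) = z
    rw [h1, hw]
    have h2 : a (a⁻¹ (b⁻¹ z)) = b⁻¹ z := AlgEquiv.apply_symm_apply a _
    rw [h2]
    exact AlgEquiv.apply_symm_apply b z
  have hodd : ∃ a ∈ H, Equiv.Perm.sign (ρ a) = -1 := by
    let e : p.rootSet N ≃ Fin (2 * g + 1) := Fintype.equivFinOfCardEq hcard
    obtain ⟨σ, π, h1, h2, h3⟩ := hO N (2 * g + 1) f (fun i => ((e.symm i : p.rootSet N) : N)) (by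
      rw [hfN]
      exact (Equiv.prod_comp e.symm fun s : p.rootSet N => (X - C (s : N))).symm) (by
      intro i j hij
      exact e.symm.injective (Subtype.ext hij)) p₀ hyp.prime hyp.ne hyp.dvd hyp.ndvd m hm hpm
    refine ⟨σ, (hH σ).2 h1, ?_⟩
    have h4 : ρ σ = e.symm.permCongr π := by
      ext s
      rw [hρ2]
      have h5 := h2 (e s)
      simp only [Equiv.symm_apply_apply] at h5
      rw [h5]
      simp [Equiv.permCongr_apply]
    rw [h4, Equiv.Perm.sign_permCongr, h3]
  rcases hG g (N ≃ₐ[ℚ] N) (p.rootSet N) ρ H i₁ ψ h1g hcard hρ hHn hHc hodd hmul hnc with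
    ⟨σ, hσH, hσ1, hσc, hσs, hσψ⟩ | hall
  · -- the cycle
    have hv : ∀ (a : N ≃ₐ[ℚ] N) (j : ℕ) (s : p.rootSet N), (((ρ a) ^ j) s : p.rootSet N) = ((a ^ j) (s : N) : N) := by
      intro a j s
      rw [← map_pow, hρ2]
    obtain ⟨s₂, hs₂⟩ : ∃ s : p.rootSet N, s ≠ i₁ := by
      have : Nontrivial (p.rootSet N) := by
        rw [← Fintype.one_lt_card_iff_nontrivial, hcard]
        omega
      exact exists_ne i₁
    obtain ⟨t, ht⟩ := hρ (Equiv.swap i₁ s₂)
    have ht1 : ρ t i₁ = s₂ := by rw [ht, Equiv.swap_apply_left]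
    have ht2 : t (ι θ) = s₂ := by
      have h1 := hρ2 t i₁
      rw [ht1] at h1
      exact h1.symm
    set c : Equiv.Perm (p.rootSet N) := ρ σ with hc
    have hsupp : s₂ ∈ c.support := by
      rw [hσs]
      exact Finset.mem_erase.2 ⟨hs₂, Finset.mem_univ _⟩
    have hcs : c.support.card = 2 * g := by
      rw [hσs, Finset.card_erase_of_mem (Finset.mem_univ _), Finset.card_univ, hcard]
      omega
    have hord : orderOf c = 2 * g := by rw [hσc.orderOf, hcs]
    have himg : (Finset.range (2 * g)).image (fun j => (c ^ j) s₂) = c.support := by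
      apply Finset.Subset.antisymm
      · intro y hy
        obtain ⟨j, _, rfl⟩ := Finset.mem_image.1 hy
        exact Equiv.Perm.pow_apply_mem_support.2 hsupp
      · intro y hy
        obtain ⟨i, hi⟩ := hσc.exists_pow_eq (Equiv.Perm.mem_support.1 hsupp) (Equiv.Perm.mem_support.1 hy)
        refine Finset.mem_image.2 ⟨i % (2 * g), Finset.mem_range.2 (Nat.mod_lt _ (by omega)), ?_⟩
        show (c ^ (i % (2 * g))) s₂ = y
        rw [← hord, pow_mod_orderOf, hi]
    have hinjOn : Set.InjOn (fun j => (c ^ j) s₂) (Finset.range (2 * g)) := by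
      rw [← Finset.card_image_iff, himg, hcs, Finset.card_range]
    have hσθ : σ (ι θ) = ι θ := by
      have h1 := hρ2 σ i₁
      rw [hσ1] at h1
      exact h1.symm
    have hfix : (σ ^ (2 * g)) (t (ι θ)) = t (ι θ) := by
      rw [ht2, ← hv, ← hc, ← hord, pow_orderOf_eq_one]
      rfl
    have hprod2 : f.map (Int.castRingHom N) =
        (X - C (ι θ)) * ∏ j ∈ Finset.range (2 * g), (X - C ((σ ^ j) (t (ι θ)))) := by
      rw [hfN, ← Finset.mul_prod_erase Finset.univ _ (Finset.mem_univ i₁), ← hσs, ← himg, Finset.prod_image hinjOn]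
      congr 1
      refine Finset.prod_congr rfl fun j _ => ?_
      rw [hv, ht2]
    have hneg : (σ ^ (2 * g)) (t β₁) = -(t β₁) := by
      let B : ℕ → N := fun j => (σ ^ j) (t β₁)
      let u : Fin (2 * g + 1) → (N ≃ₐ[ℚ] N) := Fin.cons 1 fun j => σ ^ (j : ℕ) * t
      have hu0 : u 0 = 1 := rfl
      have hus : ∀ j : Fin (2 * g), u j.succ = σ ^ (j : ℕ) * t := fun j => rfl
      have hus' : ∀ j : Fin (2 * g), u j.succ (ι θ) = (((c ^ (j : ℕ)) s₂ : p.rootSet N) : N) := by
        intro j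
        rw [hus, hv, ← ht2]
        rfl
      have hne : ∀ j : Fin (2 * g), u j.succ (ι θ) ≠ u 0 (ι θ) := by
        intro j h0
        rw [hus', hu0] at h0
        have h1 : (c ^ (j : ℕ)) s₂ = i₁ := Subtype.ext h0
        have h2 : (c ^ (j : ℕ)) s₂ ∈ c.support := Equiv.Perm.pow_apply_mem_support.2 hsupp
        rw [h1, hσs] at h2
        exact (Finset.mem_erase.1 h2).1 rfl
      obtain ⟨r, hr⟩ := rat ι (I := Fin (2 * g + 1)) (by rw [Fintype.card_fin, hL]) θ α β₁ hβ hnorm u (by
        intro i j hij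
        simp only at hij
        induction i using Fin.cases with
        | zero =>
          induction j using Fin.cases with
          | zero => rfl
          | succ j => exact absurd hij.symm (hne j)
        | succ i =>
          induction j using Fin.cases with
          | zero => exact absurd hij (hne i)
          | succ j =>
            rw [hus', hus'] at hij
            have h1 := hinjOn (Finset.mem_coe.2 (Finset.mem_range.2 i.2)) (Finset.mem_coe.2 (Finset.mem_range.2 j.2))
              (Subtype.ext hij)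
            rw [Fin.ext h1])
      rw [Fin.prod_univ_succ, hu0] at hr
      have h1 : ∏ j : Fin (2 * g), u j.succ β₁ = ∏ j ∈ Finset.range (2 * g), B j := by
        rw [Finset.prod_range]
        rfl
      rw [h1] at hr
      have h2 := congrArg σ hr
      rw [AlgEquiv.commutes, ← hr, map_mul, map_prod] at h2
      have h3 : σ ((1 : N ≃ₐ[ℚ] N) β₁) = - β₁ := by
        show σ β₁ = - β₁
        rw [hψ σ hσ1, hσψ]
        simp
      have h4 : ∀ j, σ (B j) = B (j + 1) := by
        intro j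
        show σ ((σ ^ j) (t β₁)) = (σ ^ (j + 1)) (t β₁)
        rw [pow_succ']
        rfl
      rw [h3, Finset.prod_congr rfl fun j _ => h4 j] at h2
      have h5 : (∏ j ∈ Finset.range (2 * g), B (j + 1)) * B 0 = (∏ j ∈ Finset.range (2 * g), B j) * B (2 * g) := by
        rw [← Finset.prod_range_succ', Finset.prod_range_succ]
      have hB : ∀ j, B j ≠ 0 := by
        intro j h0
        exact hβ0 ((map_eq_zero t).1 ((map_eq_zero (σ ^ j)).1 h0))
      have hQ : (∏ j ∈ Finset.range (2 * g), B j) ≠ 0 := Finset.prod_ne_zero_iff.2 fun j _ => hB j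
      have h6 : (∏ j ∈ Finset.range (2 * g), B (j + 1)) = - ∏ j ∈ Finset.range (2 * g), B j := by
        have h7 : β₁ * ∏ j ∈ Finset.range (2 * g), B (j + 1) = β₁ * - ∏ j ∈ Finset.range (2 * g), B j := by
          have h8 : (1 : N ≃ₐ[ℚ] N) β₁ = β₁ := rfl
          rw [h8] at h2
          linear_combination (-1 : N) * h2
        exact mul_left_cancel₀ hβ0 h7
      rw [h6] at h5
      have h7 : (∏ j ∈ Finset.range (2 * g), B j) * B (2 * g) = (∏ j ∈ Finset.range (2 * g), B j) * -(B 0) := by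
        rw [← h5]
        ring
      have h8 := mul_left_cancel₀ hQ h7
      exact h8
    refine ⟨N, iF, iN, iG, σ, ζ, t β₁, (ι : L →+* N), (((t : N →ₐ[ℚ] N).comp ι : L →ₐ[ℚ] N) : L →+* N), hζ,
      (hH σ).1 hσH ζ hζ.pow_eq_one, hσθ, hprod2, hfix, ?_, hneg⟩
    rw [← map_pow, hβ]
    rfl
  · exfalso
    apply hsq
    have h1 : β₁ ∈ IntermediateField.fixedField (ι.fieldRange).fixingSubgroup := by
      rw [IntermediateField.mem_fixedField_iff]
      intro a ha
      have h2 : a (ι θ) = ι θ := by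
        rw [IntermediateField.mem_fixingSubgroup_iff] at ha
        exact ha _ ⟨θ, rfl⟩
      have h3 : ρ a i₁ = i₁ := by
        apply Subtype.ext
        rw [hρ2]
        exact h2
      rw [hψ a h3, hall a h3]
      simp
    rw [IsGalois.fixedField_fixingSubgroup] at h1
    obtain ⟨b, hb⟩ := h1
    have hb' : ι b = β₁ := hb
    refine ⟨b, ?_⟩
    have h4 : ι α = ι (b * b) := by rw [← hβ, map_mul, hb', sq]
    exact ι.injective h4

end Pool.Agent.H30T
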