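import Pool.Agent.H30T.Stm

set_option autoImplicit false

namespace Pool.Agent.H30T.Grp

open Equiv.Perm

/-- a normal subgroup of the symmetric group with abelian quotient which contains an odd
permutation is everything -/
theorem eq_top {ι : Type} [Fintype ι] [DecidableEq ι] (K : Subgroup (Equiv.Perm ι)) (hK : K.Normal)
    (hab : ∀ a b : Equiv.Perm ι, a * b * a⁻¹ * b⁻¹ ∈ K) (hodd : ∃ a ∈ K, sign a = -1) : K = ⊤ := by
  classical
  obtain ⟨a, haK, ha⟩ := hodd
  -- some swap exists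
  have hcomm : ∀ x y : Equiv.Perm ι, x * y ∈ K → y * x ∈ K := by
    intro x y h
    have := hK.conj_mem _ h x⁻¹
    rwa [inv_inv, ← mul_assoc, inv_mul_cancel, one_mul] at this
  -- all swaps are equivalent
  have hsw : ∀ x y z w : ι, x ≠ y → z ≠ w → Equiv.swap x y * Equiv.swap z w ∈ K := by
    intro x y z w h1 h2
    obtain ⟨c, hc⟩ := isConj_iff.1 (isConj_swap h1 h2)
    have h3 := hab c (Equiv.swap x y)
    rw [hc, Equiv.swap_inv] at h3
    exact hcomm _ _ h3
  have key : ∀ σ : Equiv.Perm ι, (sign σ = 1 → σ ∈ K) ∧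
      (sign σ = -1 → ∀ x y : ι, x ≠ y → Equiv.swap x y * σ ∈ K) := by
    intro σ
    induction σ using swap_induction_on with
    | one =>
      refine ⟨fun _ => one_mem K, fun h => ?_⟩
      rw [Equiv.Perm.sign_one] at h
      exact absurd h (by decide)
    | swap_mul f x y hxy ih =>
      have hs : sign (Equiv.swap x y * f) = - sign f := by
        rw [Equiv.Perm.sign_mul, sign_swap hxy, neg_one_mul]
      constructor
      · intro h
        rw [hs] at h
        exact ih.2 (by rw [← h, neg_neg]) x y hxy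
      · intro h z w hzw
        rw [hs, neg_inj] at h
        rw [← mul_assoc]
        exact mul_mem (hsw z w x y hzw hxy) (ih.1 h)
  have hswK : ∀ x y : ι, x ≠ y → Equiv.swap x y ∈ K := by
    intro x y hxy
    have h1 := (key a).2 ha x y hxy
    have := mul_mem h1 (inv_mem haK)
    rwa [mul_assoc, mul_inv_cancel, mul_one] at this
  rw [eq_top_iff, ← closure_isSwap, Subgroup.closure_le]
  rintro _ ⟨x, y, hxy, rfl⟩
  exact hswK x y hxy

theorem units_ne {x : ℤˣ} (h : x ≠ -1) : x = 1 := by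
  rcases Int.units_eq_one_or x with h1 | h1
  · exact h1
  · exact absurd h1 h

/-- a homomorphism from a symmetric group to `±1` which is trivial on an odd permutation is
trivial -/
theorem hom_trivial {β : Type} [Fintype β] [DecidableEq β] (χ : Equiv.Perm β →* ℤˣ)
    {π : Equiv.Perm β} (h1 : χ π = 1) (h2 : sign π = -1) (a : Equiv.Perm β) : χ a = 1 := by
  by_contra ha
  have ha' : χ a = -1 := by
    rcases Int.units_eq_one_or (χ a) with h | h
    · exact absurd h ha
    · exact h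
  have hs : Function.Surjective χ := by
    intro x
    rcases Int.units_eq_one_or x with h | h
    · exact ⟨1, by rw [map_one, h]⟩
    · exact ⟨a, by rw [ha', h]⟩
  rw [eq_sign_of_surjective_hom hs, h2] at h1
  exact absurd h1 (by decide)

theorem main (g : ℕ) (G ι : Type) [Group G] [Fintype ι] [DecidableEq ι]
    (ρ : G →* Equiv.Perm ι) (H : Subgroup G) (i₁ : ι) (ψ : G → ℤˣ) (hg : 1 ≤ g)
    (hcard : Fintype.card ι = 2 * g + 1) (hρ : Function.Surjective ρ) (hH : H.Normal)
    (hab : ∀ a b : G, a * b * a⁻¹ * b⁻¹ ∈ H) (hodd : ∃ a ∈ H, Equiv.Perm.sign (ρ a) = -1)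
    (hψ : ∀ a b : G, ρ a i₁ = i₁ → ρ b i₁ = i₁ → ψ (a * b) = ψ a * ψ b)
    (hnorm : ∀ v : G, ρ v = 1 → ∀ t : ι → G, (∀ i, ρ (t i) i₁ = i) →
      ∏ i, ψ ((t i)⁻¹ * v * t i) = 1) :
    (∃ σ ∈ H, ρ σ i₁ = i₁ ∧ (ρ σ).IsCycle ∧ (ρ σ).support = Finset.univ.erase i₁ ∧ ψ σ = -1) ∨
      ∀ a : G, ρ a i₁ = i₁ → ψ a = 1 := by
  classical
  by_cases hcon : ∃ σ ∈ H, ρ σ i₁ = i₁ ∧ (ρ σ).IsCycle ∧ (ρ σ).support = Finset.univ.erase i₁ ∧
      ψ σ = -1
  · exact Or.inl hcon
  refine Or.inr ?_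
  push Not at hcon
  -- all permutations are induced by elements of `H`
  have htop : H.map ρ = ⊤ := by
    refine eq_top _ (hH.map ρ hρ) ?_ ?_
    · intro a b
      obtain ⟨a, rfl⟩ := hρ a
      obtain ⟨b, rfl⟩ := hρ b
      exact ⟨_, hab a b, by simp only [map_mul, map_inv]⟩
    · obtain ⟨a, ha, h⟩ := hodd
      exact ⟨ρ a, ⟨a, ha, rfl⟩, h⟩
  have lift : ∀ π : Equiv.Perm ι, ∃ a ∈ H, ρ a = π := by
    intro π
    have : π ∈ H.map ρ := by rw [htop]; exact Subgroup.mem_top _
    exact this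
  have one : ψ 1 = 1 := by
    have := hψ 1 1 (by simp) (by simp)
    exact mul_left_cancel (a := ψ 1) (by rw [← this, mul_one, mul_one])
  -- the long cycle
  have hcard' : Fintype.card {x : ι // x ≠ i₁} = 2 * g := by
    rw [Fintype.card_subtype_compl, Fintype.card_subtype_eq, hcard]
    omega
  obtain ⟨f⟩ : Nonempty (Fin (2 * g) ≃ {x : ι // x ≠ i₁}) :=
    ⟨(Fintype.equivFinOfCardEq hcard').symm⟩
  obtain ⟨c, hc⟩ : ∃ c : Equiv.Perm {x : ι // x ≠ i₁}, c = f.permCongr (finRotate (2 * g)) :=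
    ⟨_, rfl⟩
  have hcyc : (finRotate (2 * g)).IsCycle := isCycle_finRotate_of_le (by omega)
  have hc1 : (ofSubtype c : Equiv.Perm ι) = (finRotate (2 * g)).extendDomain f := by
    ext x
    by_cases hx : x ≠ i₁
    · rw [ofSubtype_apply_of_mem c hx,
        Equiv.Perm.extendDomain_apply_subtype (finRotate (2 * g)) f hx, hc,
        Equiv.permCongr_apply]
    · rw [ofSubtype_apply_of_not_mem c hx,
        Equiv.Perm.extendDomain_apply_not_subtype (finRotate (2 * g)) f hx]
  have hc2 : (ofSubtype c : Equiv.Perm ι).IsCycle := by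
    rw [hc1]
    exact hcyc.extendDomain f
  have hc3 : (ofSubtype c : Equiv.Perm ι).support = Finset.univ.erase i₁ := by
    rw [hc1, support_extend_domain, support_finRotate_of_le (by omega)]
    ext x
    simp only [Finset.mem_map, Finset.mem_univ, true_and, Finset.mem_erase, and_true]
    constructor
    · rintro ⟨y, rfl⟩
      exact (f y).2
    · intro hx
      exact ⟨f.symm ⟨x, hx⟩, by simp [Equiv.asEmbedding]⟩
  have hc4 : sign c = -1 := by
    rw [← sign_ofSubtype, hc2.sign, hc3, Finset.card_erase_of_mem (Finset.mem_univ _),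
      Finset.card_univ, hcard, Nat.add_sub_cancel, pow_mul]
    simp
  have hfix : ∀ π : Equiv.Perm {x : ι // x ≠ i₁}, (ofSubtype π : Equiv.Perm ι) i₁ = i₁ := by
    intro π
    exact ofSubtype_apply_of_not_mem π (by simp)
  have hcyc1 : ∀ σ ∈ H, ρ σ = ofSubtype c → ψ σ = 1 := by
    intro σ hσ h
    refine units_ne (hcon σ hσ ?_ ?_ ?_)
    · rw [h]; exact hfix c
    · rw [h]; exact hc2
    · rw [h]; exact hc3
  -- elements of `H` acting trivially
  have triv : ∀ u ∈ H, ρ u = 1 → ψ u = 1 := by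
    intro u hu h
    obtain ⟨σ, hσ, h1⟩ := lift (ofSubtype c)
    have h2 := hψ u σ (by rw [h]; rfl) (by rw [h1]; exact hfix c)
    rw [hcyc1 σ hσ h1, mul_one] at h2
    rw [← h2]
    exact hcyc1 _ (mul_mem hu hσ) (by rw [map_mul, h, h1, one_mul])
  -- the character of the symmetric group of the other points
  choose s hs1 hs2 using fun π : Equiv.Perm {x : ι // x ≠ i₁} => lift (ofSubtype π)
  have same : ∀ a ∈ H, ∀ b ∈ H, ρ a i₁ = i₁ → ρ a = ρ b → ψ a = ψ b := by
    intro a ha b hb h1 h2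
    have h3 : ρ b i₁ = i₁ := by rw [← h2]; exact h1
    have h4 : ρ (a * b⁻¹) = 1 := by rw [map_mul, map_inv, h2, mul_inv_cancel]
    have h5 := hψ (a * b⁻¹) b (by rw [h4]; rfl) h3
    rw [triv _ (mul_mem ha (inv_mem hb)) h4, one_mul, mul_assoc, inv_mul_cancel, mul_one] at h5
    exact h5
  obtain ⟨χ, hχ⟩ : ∃ χ : Equiv.Perm {x : ι // x ≠ i₁} →* ℤˣ, ∀ π, χ π = ψ (s π) := by
    refine ⟨{ toFun := fun π => ψ (s π), map_one' := ?_, map_mul' := ?_ }, fun π => rfl⟩
    · exact triv _ (hs1 _) (by rw [hs2, map_one])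
    · intro a b
      rw [← hψ _ _ (by rw [hs2]; exact hfix a) (by rw [hs2]; exact hfix b)]
      refine same _ (hs1 _) _ (mul_mem (hs1 _) (hs1 _)) (by rw [hs2]; exact hfix _) ?_
      rw [map_mul, hs2, hs2, hs2, map_mul]
  have hχc : χ c = 1 := by
    rw [hχ]
    exact hcyc1 _ (hs1 c) (hs2 c)
  have hH1 : ∀ a ∈ H, ρ a i₁ = i₁ → ψ a = 1 := by
    intro a ha h
    have h1 : ∀ x, (ρ a) x ≠ i₁ ↔ x ≠ i₁ := by
      intro x
      rw [not_iff_not]
      constructor
      · intro h2
        exact (ρ a).injective (by rw [h2, h])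
      · rintro rfl
        exact h
    have h2 : (ofSubtype (subtypePerm (p := fun x => x ≠ i₁) (ρ a) h1) : Equiv.Perm ι) = ρ a := by
      refine ofSubtype_subtypePerm h1 fun x hx => ?_
      rintro rfl
      exact hx h
    rw [same a ha (s (subtypePerm (p := fun x => x ≠ i₁) (ρ a) h1)) (hs1 _) h (by rw [hs2, h2]), ← hχ]
    exact hom_trivial χ hχc hc4 _
  -- elements acting trivially
  have hker : ∀ v : G, ρ v = 1 → ψ v = 1 := by
    intro v hv
    choose t ht1 ht2 using fun i : ι => lift (Equiv.swap i₁ i)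
    have h1 := hnorm v hv t (by
      intro i
      rw [ht2]
      exact Equiv.swap_apply_left _ _)
    have h2 : ∀ i, ψ ((t i)⁻¹ * v * t i) = ψ v := by
      intro i
      have e : (t i)⁻¹ * v * t i = v * (v⁻¹ * (t i)⁻¹ * v * t i) := by group
      have e2 : ρ (v⁻¹ * (t i)⁻¹ * v * t i) = 1 := by
        simp only [map_mul, map_inv, hv]
        group
      have hm : v⁻¹ * (t i)⁻¹ * v * t i ∈ H := by
        refine mul_mem ?_ (ht1 i)
        have := hH.conj_mem _ (inv_mem (ht1 i)) v⁻¹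
        rwa [inv_inv] at this
      rw [e, hψ _ _ (by rw [hv]; rfl) (by rw [e2]; rfl), triv _ hm e2, mul_one]
    rw [Finset.prod_congr rfl fun i _ => h2 i, Finset.prod_const, Finset.card_univ, hcard,
      pow_succ, pow_mul] at h1
    rcases Int.units_eq_one_or (ψ v) with h3 | h3
    · exact h3
    · rw [h3] at h1
      simp at h1
  intro a ha
  obtain ⟨b, hb, h⟩ := lift (ρ a)
  have h1 : ρ (b⁻¹ * a) = 1 := by rw [map_mul, map_inv, h, inv_mul_cancel]
  have h2 := hψ b (b⁻¹ * a) (by rw [h]; exact ha) (by rw [h1]; rfl)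
  rw [hker _ h1, hH1 b hb (by rw [h]; exact ha), mul_inv_cancel_left, mul_one] at h2
  exact h2

end Pool.Agent.H30T.Grp

namespace Pool.Agent.H30T

/-- Piece GRP. -/
theorem grp : T_GRP := by
  intro g G ι _ _ _ ρ H i₁ ψ h1 h2 h3 h4 h5 h6 h7 h8
  exact Grp.main g G ι ρ H i₁ ψ h1 h2 h3 h4 h5 h6 h7 h8

end Pool.Agent.H30T
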