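import Pool.Agent.H30T.Stm
import Pool.Agent.N849.PF.Hq
import Pool.Agent.N545.PF.TFQ
import Pool.Agent.N352.PF.Dsc

/-!
# The invariant at `q` in `S`, local version (parts HQ and RAM of project ET)

Ports of `Pool/Agent/N849/PF/Hq.lean` (helper849) and `Pool/Agent/N459/PF/Ram.lean`.
-/

set_option autoImplicit false
set_option linter.all false

open Polynomial IsDedekindDomain Matrix NumberField
open scoped Classical

namespace Pool.Agent.H30T.HQ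

open Pool.Agent.H30T
open Pool.Agent.N783.PF
open Pool.Agent.N459.PF (rel theta_int)
open Pool.Agent.N849.PF
open Pool.Agent.N874.PP (Ev Sq1 U0)
open Pool.Agent.N783.PQ (tp Gm)

/-- The primes which divide `f'(θ)`. -/
theorem ram : T_RAM := by
  intro g F L _ _ _ _ _ f θ hG 𝔭 h𝔭 h𝔭0 hsq 𝔓₀ hOv hlt
  have hd : dsc g f ≠ 0 := fun h0 => hsq (by rw [h0]; exact Ideal.zero_mem _)
  obtain ⟨d, hd1, hd2⟩ := rel hG hd
  obtain ⟨θ', hθ'⟩ : ∃ θ' : 𝓞 L, algebraMap (𝓞 L) L θ' = θ := ⟨⟨θ, theta_int hG⟩, rfl⟩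
  haveI h𝔭m : 𝔭.IsMaximal := h𝔭.isMaximal h𝔭0
  have hlo : ∀ 𝔓 : HeightOneSpectrum (𝓞 L), Ov 𝔭 𝔓 → 𝔓.asIdeal.LiesOver 𝔭 := by
    intro 𝔓 h
    refine ⟨?_⟩
    refine h𝔭m.eq_of_le ?_ fun a ha => h a ha
    exact (Ideal.IsPrime.under (𝓞 F) 𝔓.asIdeal).ne_top
  have hrn : ∀ 𝔓 : HeightOneSpectrum (𝓞 L), Ov 𝔭 𝔓 →
      Ideal.relNorm (𝓞 F) 𝔓.asIdeal = 𝔭 ^ 𝔓.asIdeal.inertiaDeg (𝓞 F) ∧
        0 < 𝔓.asIdeal.inertiaDeg (𝓞 F) := by
    intro 𝔓 h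
    haveI := hlo 𝔓 h
    haveI := 𝔓.isMaximal
    exact ⟨Ideal.relNorm_eq_pow_of_isMaximal 𝔓.asIdeal 𝔭, Ideal.inertiaDeg_pos _ _⟩
  have hmem : ∀ 𝔓 : HeightOneSpectrum (𝓞 L),
      𝔓.valuation L (aeval θ (derivative (fF f))) < 1 ↔ d ∈ 𝔓.asIdeal := by
    intro 𝔓
    rw [← hd1, HeightOneSpectrum.valuation_lt_one_iff_mem]
  have hnot : ∀ (I : Ideal (𝓞 L)) (k : ℕ), d ∈ I → 2 ≤ k → Ideal.relNorm (𝓞 F) I = 𝔭 ^ k →
      False := by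
    intro I k h1 h2 h3
    have h4 : Ideal.relNorm (𝓞 F) (Ideal.span {d}) ≤ Ideal.relNorm (𝓞 F) I :=
      Ideal.relNorm_mono _ ((Ideal.span_singleton_le_iff_mem _).2 h1)
    rw [hd2, h3] at h4
    exact hsq (Ideal.pow_le_pow_right h2 ((Ideal.span_singleton_le_iff_mem _).1 h4))
  have hd0 : d ∈ 𝔓₀.asIdeal := (hmem 𝔓₀).1 hlt
  obtain ⟨hr0, hp0⟩ := hrn 𝔓₀ hOv
  constructor
  · have hf1 : 𝔓₀.asIdeal.inertiaDeg (𝓞 F) = 1 := by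
      by_contra hne
      exact hnot _ _ hd0 (by omega) hr0
    haveI := hlo 𝔓₀ hOv
    haveI := 𝔓₀.isMaximal
    rw [Ideal.inertiaDeg_eq_of_isMaximal 𝔭] at hf1
    letI : Field (𝓞 F ⧸ 𝔭) := Ideal.Quotient.field 𝔭
    obtain ⟨c, hc⟩ := (Subalgebra.bot_eq_top_of_finrank_eq_one hf1).symm ▸
      (Algebra.mem_top : (Ideal.Quotient.mk 𝔓₀.asIdeal θ') ∈
        (⊤ : Subalgebra (𝓞 F ⧸ 𝔭) (𝓞 L ⧸ 𝔓₀.asIdeal)))
    obtain ⟨c, rfl⟩ := Ideal.Quotient.mk_surjective c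
    refine ⟨c, ?_⟩
    have h5 : Ideal.Quotient.mk 𝔓₀.asIdeal (algebraMap (𝓞 F) (𝓞 L) c) =
        Ideal.Quotient.mk 𝔓₀.asIdeal θ' := hc
    have h6 : θ' - algebraMap (𝓞 F) (𝓞 L) c ∈ 𝔓₀.asIdeal := by
      rw [← Ideal.Quotient.eq]
      exact h5.symm
    have h7 : θ - algebraMap F L (c : F) = algebraMap (𝓞 L) L (θ' - algebraMap (𝓞 F) (𝓞 L) c) := by
      rw [map_sub, hθ']
      rfl
    rw [h7, HeightOneSpectrum.valuation_lt_one_iff_mem]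
    exact h6
  · intro 𝔓 h1 h2
    refine le_antisymm ?_ (not_lt.1 fun h3 => ?_)
    · rw [← hd1]
      exact 𝔓.valuation_le_one _
    · have h4 : d ∈ 𝔓.asIdeal := (hmem 𝔓).1 h3
      obtain ⟨hr1, hp1⟩ := hrn 𝔓 h1
      refine hnot (𝔓.asIdeal * 𝔓₀.asIdeal)
        (𝔓.asIdeal.inertiaDeg (𝓞 F) + 𝔓₀.asIdeal.inertiaDeg (𝓞 F)) ?_ (by omega) ?_
      · haveI := 𝔓.isMaximal
        haveI := 𝔓₀.isMaximal
        have h5 : IsCoprime 𝔓.asIdeal 𝔓₀.asIdeal := by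
          rw [Ideal.isCoprime_iff_sup_eq]
          exact Ideal.IsMaximal.coprime_of_ne 𝔓.isMaximal 𝔓₀.isMaximal
            fun h => h2 (HeightOneSpectrum.ext h)
        rw [← Ideal.inf_eq_mul_of_isCoprime h5]
        exact ⟨h4, hd0⟩
      · rw [map_mul, hr1, hr0, pow_add]

section gen

variable {F L : Type} [Field F] [NumberField F] [Field L] [NumberField L] [Algebra F L]
  {g : ℕ} {f : (𝓞 F)[X]} {θ : L}

/-- locally at `𝔭` the integers are polynomials in `θ` -/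
theorem surjT (hI : T_INT) (hG : IsGen g f θ) {𝔭 : Ideal (𝓞 F)} (h𝔭 : 𝔭.IsPrime)
    (h𝔭0 : 𝔭 ≠ ⊥) (hsq : dsc g f ∉ 𝔭 ^ 2) {θ' : 𝓞 L}
    (hθ' : algebraMap (𝓞 L) L θ' = θ) (x : 𝓞 L) :
    ∃ (s : 𝓞 F) (P : (𝓞 F)[X]), s ∉ 𝔭 ∧ P.degree < ((2 * g + 1 : ℕ) : WithBot ℕ) ∧
      aeval θ' P = algebraMap (𝓞 F) (𝓞 L) s * x := by
  obtain ⟨s, v, hs, hv⟩ := hI g F L f θ hG 𝔭 h𝔭 h𝔭0 hsq (x : L) x.2
  refine ⟨s, ∑ i : Fin (2 * g + 1), C (v i) * X ^ (i : ℕ), hs, degree_sum_fin_lt _, ?_⟩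
  apply RingOfIntegers.coe_injective
  have e : algebraMap (𝓞 L) L (aeval θ' (∑ i : Fin (2 * g + 1), C (v i) * X ^ (i : ℕ))) =
      aeval θ (∑ i : Fin (2 * g + 1), C (v i) * X ^ (i : ℕ)) := by
    rw [← hθ', aeval_algebraMap_apply]
  have hv' : algebraMap (𝓞 L) L (algebraMap (𝓞 F) (𝓞 L) s * x) =
      ∑ i, algebraMap F L (v i : F) * θ ^ (i : ℕ) := by
    rw [map_mul]
    exact hv
  rw [e, hv', map_sum]
  refine Finset.sum_congr rfl fun i _ => ?_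
  rw [map_mul, aeval_C, map_pow, aeval_X]
  rfl

theorem unramT (hI : T_INT) (hG : IsGen g f θ) {𝔭 : Ideal (𝓞 F)} (h𝔭 : 𝔭.IsPrime)
    (h𝔭0 : 𝔭 ≠ ⊥) (hsq : dsc g f ∉ 𝔭 ^ 2)
    (hirr : Irreducible (rd 𝔭 f)) {𝔓 : HeightOneSpectrum (𝓞 L)} (hO : Ov 𝔭 𝔓)
    {a : 𝓞 F} (ha : a ∉ 𝔭 ^ 2) : algebraMap (𝓞 F) (𝓞 L) a ∉ 𝔓.asIdeal ^ 2 := by
  haveI := Pool.Agent.N849.PF.fin hG
  haveI h𝔭m : 𝔭.IsMaximal := h𝔭.isMaximal h𝔭0
  obtain ⟨θ', hθ'⟩ : ∃ θ' : 𝓞 L, algebraMap (𝓞 L) L θ' = θ :=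
    ⟨⟨θ, Pool.Agent.N459.PF.theta_int hG⟩, rfl⟩
  intro hmem
  apply ha
  have h1 : 𝔓.asIdeal ≤ 𝔭.map (algebraMap (𝓞 F) (𝓞 L)) := by
    intro x hx
    obtain ⟨s, P, hs, hP1, hP2⟩ := surjT hI hG h𝔭 h𝔭0 hsq hθ' x
    have hx' : aeval θ' P ∈ 𝔓.asIdeal := by
      rw [hP2]
      exact Ideal.mul_mem_left _ _ hx
    have h2 := inert hG hθ' h𝔭 h𝔭0 hirr hO hP1 hx'
    have h3 : algebraMap (𝓞 F) (𝓞 L) s * x ∈ 𝔭.map (algebraMap (𝓞 F) (𝓞 L)) := by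
      rw [← hP2, aeval_eq_sum_range]
      refine Ideal.sum_mem _ fun i _ => ?_
      rw [Algebra.smul_def]
      exact Ideal.mul_mem_right _ _ (Ideal.mem_map_of_mem _ (h2 i))
    obtain ⟨t, ht⟩ := h𝔭m.exists_inv hs
    have h4 : x = algebraMap (𝓞 F) (𝓞 L) t * (algebraMap (𝓞 F) (𝓞 L) s * x) +
        algebraMap (𝓞 F) (𝓞 L) (1 - t * s) * x := by
      rw [map_sub, map_mul, map_one]
      ring
    rw [h4]
    refine Ideal.add_mem _ (Ideal.mul_mem_left _ _ h3) (Ideal.mul_mem_right _ _ ?_)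
    apply Ideal.mem_map_of_mem
    obtain ⟨i, hi, hi'⟩ := ht
    have h5 : 1 - t * s = i := by rw [← hi']; ring
    rw [h5]
    exact hi
  have h2 : algebraMap (𝓞 F) (𝓞 L) a ∈ (𝔭 ^ 2).map (algebraMap (𝓞 F) (𝓞 L)) := by
    rw [Ideal.map_pow]
    exact Ideal.pow_right_mono h1 2 hmem
  -- elements of the extended ideal, up to a denominator prime to `𝔭`
  have key : ∀ b ∈ (𝔭 ^ 2).map (algebraMap (𝓞 F) (𝓞 L)), ∃ (s : 𝓞 F) (P : (𝓞 F)[X]), s ∉ 𝔭 ∧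
      (∀ n, P.coeff n ∈ 𝔭 ^ 2) ∧ aeval θ' P = algebraMap (𝓞 F) (𝓞 L) s * b := by
    intro b hb
    refine Submodule.span_induction ?_ ?_ ?_ ?_ hb
    · rintro x ⟨c, hc, rfl⟩
      refine ⟨1, C c, ?_, ?_, ?_⟩
      · intro h
        exact h𝔭.ne_top ((Ideal.eq_top_iff_one _).2 h)
      · intro n
        rw [coeff_C]
        split_ifs
        · exact hc
        · exact Ideal.zero_mem _
      · rw [aeval_C, map_one, one_mul]
    · exact ⟨1, 0, fun h => h𝔭.ne_top ((Ideal.eq_top_iff_one _).2 h),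
        fun n => by rw [coeff_zero]; exact Ideal.zero_mem _, by rw [map_zero, mul_zero]⟩
    · rintro x y _ _ ⟨s, P, hs, hP, e⟩ ⟨t, Q, ht, hQ, e'⟩
      refine ⟨s * t, C t * P + C s * Q, fun h => (h𝔭.mem_or_mem h).elim hs ht, ?_, ?_⟩
      · intro n
        rw [coeff_add, coeff_C_mul, coeff_C_mul]
        exact Ideal.add_mem _ (Ideal.mul_mem_left _ _ (hP n)) (Ideal.mul_mem_left _ _ (hQ n))
      · rw [map_add, map_mul, map_mul, aeval_C, aeval_C, e, e', map_mul]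
        ring
    · rintro c x _ ⟨s, P, hs, hP, e⟩
      obtain ⟨t, Q, ht, hQ1, hQ2⟩ := surjT hI hG h𝔭 h𝔭0 hsq hθ' c
      refine ⟨s * t, P * Q, fun h => (h𝔭.mem_or_mem h).elim hs ht, ?_, ?_⟩
      · intro n
        rw [coeff_mul]
        exact Ideal.sum_mem _ fun i _ => Ideal.mul_mem_right _ _ (hP _)
      · rw [map_mul, e, hQ2, map_mul, smul_eq_mul]
        ring
  obtain ⟨s, P, hs, hP1, hP3⟩ := key _ h2
  set R := P %ₘ f with hR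
  have hR1 : R.map (Ideal.Quotient.mk (𝔭 ^ 2)) = 0 := by
    rw [hR, map_modByMonic _ hG.mon]
    have h4 : P.map (Ideal.Quotient.mk (𝔭 ^ 2)) = 0 := by
      ext n
      rw [coeff_map, coeff_zero]
      exact (Ideal.Quotient.eq_zero_iff_mem).2 (hP1 n)
    rw [h4, zero_modByMonic]
  have hR2 : aeval θ' R = algebraMap (𝓞 F) (𝓞 L) (s * a) := by
    rw [hR, aeval_modByMonic_eq_self_of_root (root' hG hθ'), hP3, map_mul]
  have hR3 : (R - C (s * a)).degree < ((2 * g + 1 : ℕ) : WithBot ℕ) := by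
    refine lt_of_le_of_lt (degree_sub_le _ _) (max_lt ?_ ?_)
    · have := degree_modByMonic_lt P hG.mon
      rwa [degree_eq_natDegree hG.mon.ne_zero, hG.deg] at this
    · refine lt_of_le_of_lt degree_C_le ?_
      exact_mod_cast (by omega : 0 < 2 * g + 1)
  have hR4 := inj hG hθ' hR3 (by rw [map_sub, hR2, aeval_C, sub_self])
  have hR5 : R = C (s * a) := sub_eq_zero.1 hR4
  have hR6 : (R.map (Ideal.Quotient.mk (𝔭 ^ 2))).coeff 0 = 0 := by rw [hR1, coeff_zero]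
  rw [hR5, coeff_map, coeff_C_zero] at hR6
  have hR7 : s * a ∈ 𝔭 ^ 2 := (Ideal.Quotient.eq_zero_iff_mem).1 hR6
  obtain ⟨t, i, hi, hi'⟩ := h𝔭m.exists_inv hs
  -- `a = t (s a) + i a` and `s a` in `𝔭 ^ 2`; `(t s + i) ^ 2 = 1`
  have h8 : a = (t ^ 2 * s + 2 * t * i) * (s * a) + i ^ 2 * a := by
    have h9 : (t * s + i) = 1 := hi'
    linear_combination (-a * (t * s + i) - a) * h9
  rw [h8]
  refine Ideal.add_mem _ (Ideal.mul_mem_left _ _ hR7) (Ideal.mul_mem_right _ _ ?_)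
  exact Ideal.pow_mem_pow hi 2

theorem sep_qT {W : ℕ} {S : Finset ℕ} {𝔮 : ℕ → Ideal (𝓞 F)} {r P : ℕ → (𝓞 F)[X]}
    (hS : GoodT g W S 𝔮 r P) {q : ℕ} (hq : q ∈ S) (hg : 1 ≤ g) (hc : Cg (sp F q) f (P q))
    {𝔭 : Ideal (𝓞 F)} (hp : 𝔭.IsPrime) (hp0 : 𝔭 ≠ ⊥) (hqp : (q : 𝓞 F) ∈ 𝔭) :
    (rd 𝔭 f).Separable ∧ (𝔭 ≠ 𝔮 q → Irreducible (rd 𝔭 f)) := by
  obtain ⟨-, -, -, -, -, hqpr, hqm, hrm, hrd, hri, hAm, hAd, hAt, hAc, hAi⟩ := hS q hq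
  haveI : 𝔭.IsMaximal := hp.isMaximal hp0
  letI : Field (𝓞 F ⧸ 𝔭) := Ideal.Quotient.field 𝔭
  haveI : Finite (𝓞 F ⧸ 𝔭) := Ideal.finiteQuotientOfFreeOfNeBot 𝔭 hp0
  have h1 : rd 𝔭 f = rd 𝔭 (P q) := rd_of_cg ((Ideal.span_singleton_le_iff_mem _).2 hqp) hc
  rw [h1]
  by_cases h : 𝔭 = 𝔮 q
  · refine ⟨?_, fun h' => absurd h h'⟩
    subst h
    rw [rd_of_cg (le_refl (𝔮 q)) hAc]
    have e2 : rd (𝔮 q) (X * r q) = X * rd (𝔮 q) (r q) := by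
      show (X * r q).map (Ideal.Quotient.mk (𝔮 q)) = X * (r q).map (Ideal.Quotient.mk (𝔮 q))
      rw [Polynomial.map_mul, Polynomial.map_X]
    rw [e2]
    refine sepX hri ?_
    show 2 ≤ ((r q).map (Ideal.Quotient.mk (𝔮 q))).natDegree
    rw [hrm.natDegree_map, hrd]
    omega
  · exact ⟨sepI (hAi 𝔭 hp hqp h), fun _ => hAi 𝔭 hp hqp h⟩

end gen

/-- **HQ**: the invariant at `q` in `S`. -/
theorem hq (h3 : T_INT) (h4 : T_EXQ) (h5 : T_CSQ) : T_HQ := by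
  intro g W F L _ _ _ _ _ f θ S 𝔮 r P hg hG hS q hq _ hc 𝔔 hO𝔔 hv𝔔 h hα hEv
  have hgood := hS q hq
  obtain ⟨hqp, hWq, hgq, hq8, hnr, hqpr, hqm, hrm, hrd, hri, hAm, hAd, hAt, hAc, hAi⟩ := hgood
  haveI := Pool.Agent.N849.PF.fin hG
  have hq0F : (q : 𝓞 F) ≠ 0 := by exact_mod_cast hqp.ne_zero
  have hq0L : (q : L) ≠ 0 := by exact_mod_cast hqp.ne_zero
  have hcq : Cg (𝔮 q) f (X * r q) := by
    intro j
    have e1 : f.coeff j - (P q).coeff j ∈ 𝔮 q :=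
      (Ideal.span_singleton_le_iff_mem _).2 hqm (hc j)
    have e2 := (𝔮 q).add_mem e1 (hAc j)
    rwa [sub_add_sub_cancel] at e2
  obtain ⟨𝔓₁, 𝔓₂, x1, x2, x3, x4, x5, x6, x7⟩ := h4 g W F L f θ S 𝔮 r P hg hG hS q hq hcq
  obtain ⟨y1, y2, y3, y4⟩ := h5 g W F L f θ S 𝔮 r P hg hG hS q hq hcq 𝔔 hO𝔔 hv𝔔
  -- the prime below a prime over `q`
  have hbel : ∀ 𝔓 : HeightOneSpectrum (𝓞 L), (q : 𝓞 L) ∈ 𝔓.asIdeal → ∃ 𝔭 : Ideal (𝓞 F),
      𝔭.IsPrime ∧ 𝔭 ≠ ⊥ ∧ (q : 𝓞 F) ∈ 𝔭 ∧ Ov 𝔭 𝔓 := by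
    intro 𝔓 hqP
    have hmem : (q : 𝓞 F) ∈ 𝔓.asIdeal.comap (algebraMap (𝓞 F) (𝓞 L)) := by
      rw [Ideal.mem_comap, map_natCast]
      exact hqP
    refine ⟨𝔓.asIdeal.comap (algebraMap (𝓞 F) (𝓞 L)), ?_, ?_, hmem, fun a ha => ha⟩
    · haveI := 𝔓.isPrime
      exact Ideal.comap_isPrime _ _
    · intro h0
      rw [h0] at hmem
      exact hq0F ((Submodule.mem_bot _).1 hmem)
  have hvD : ∀ 𝔓 : HeightOneSpectrum (𝓞 L), (q : 𝓞 L) ∈ 𝔓.asIdeal →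
      𝔓.valuation L (aeval θ (derivative (fF f))) = 1 := by
    intro 𝔓 hqP
    obtain ⟨𝔭, z1, z2, z3, z4⟩ := hbel 𝔓 hqP
    exact unit hG z4 (sep_qT hS hq hg hc z1 z2 z3).1
  have hun : ∀ 𝔓 : HeightOneSpectrum (𝓞 L), (q : 𝓞 L) ∉ 𝔓.asIdeal ^ 2 := by
    intro 𝔓 hmem
    have hqP : (q : 𝓞 L) ∈ 𝔓.asIdeal := Ideal.pow_le_self two_ne_zero hmem
    obtain ⟨𝔭, z1, z2, z3, z4⟩ := hbel 𝔓 hqP
    by_cases hz : 𝔭 = 𝔮 q
    · subst hz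
      have hv : 𝔓.valuation L (q : L) = WithZero.exp (-1 : ℤ) := by
        rcases x7 𝔓 z4 with rfl | rfl
        · exact x5
        · exact x6
      have h6 : 𝔓.intValuation (q : 𝓞 L) ≤ WithZero.exp (-((2 : ℕ) : ℤ)) :=
        (𝔓.intValuation_le_pow_iff_mem _ 2).2 hmem
      have h7 : 𝔓.valuation L (algebraMap (𝓞 L) L (q : 𝓞 L)) = 𝔓.intValuation (q : 𝓞 L) :=
        HeightOneSpectrum.valuation_of_algebraMap _ _
      rw [map_natCast, hv] at h7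
      rw [← h7, WithZero.exp_le_exp] at h6
      exact absurd h6 (by norm_num)
    · have hsep := sep_qT hS hq hg hc z1 z2 z3
      have hds : dsc g f ∉ 𝔭 ^ 2 := fun hh =>
        Pool.Agent.N352.PF.dscT F g 𝔭 f f hg z1 z2 hG.mon hG.deg
          (fun j => by rw [sub_self]; exact Ideal.zero_mem _) hsep.1
          (Ideal.pow_le_self two_ne_zero hh)
      have h6 := unramT h3 hG z1 z2 hds (hsep.2 hz) z4 (hnr 𝔭 z1)
      rw [map_natCast] at h6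
      exact h6 hmem
  -- the element `c`
  set D : L := aeval θ (derivative (fF f)) with hD
  set α : L := aeval θ h with hαdef
  have hq𝔔 : (q : 𝓞 L) ∈ 𝔔.asIdeal := by
    have := hO𝔔 _ hqm
    rwa [map_natCast] at this
  have hD0 : D ≠ 0 := by
    intro h0
    rw [h0, map_zero] at y3
    exact zero_ne_one y3
  have hθ0 : θ ≠ 0 := by
    intro h0
    rw [h0, map_zero] at hv𝔔
    exact zero_ne_one hv𝔔
  have hEvc : ∀ 𝔓 : HeightOneSpectrum (𝓞 L), (q : 𝓞 L) ∈ 𝔓.asIdeal →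
      (Ev 𝔓 (α / D) ↔ Ev 𝔓 α) := by
    intro 𝔓 hqP
    unfold Ev
    rw [map_div₀, hvD 𝔓 hqP, div_one]
  have hmain := Pool.Agent.N545.PF.tfq0 L q (by omega) hun
    (Fin (2 * g + 1) × Fin (Module.finrank ℚ F))
    ((Module.finBasis ℚ F).smulTower' hG.basis) (α / D) (div_ne_zero hα hD0) 𝔔 hq𝔔 y2
    (fun 𝔓 z1 z2 => (hEvc 𝔓 z1).2 (hEv 𝔓 z1 z2))
  -- the matrix
  have hmat : (Matrix.of fun i j => Algebra.trace ℚ L
      (((Module.finBasis ℚ F).smulTower' hG.basis) i * ((Module.finBasis ℚ F).smulTower' hG.basis) j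
        * (α / D))) = Tf (Gm g (fF f) h) := by
    ext i j
    rw [Tf, Matrix.of_apply, Matrix.of_apply, Gm, Matrix.of_apply, tp_top hG, top_tr hG,
      ← Algebra.trace_trace (S := F), Module.Basis.smulTower'_apply,
      Module.Basis.smulTower'_apply, hG.basis_apply, hG.basis_apply]
    congr 1
    rw [← smul_eq_mul (Module.finBasis ℚ F i.2 * Module.finBasis ℚ F j.2), ← map_smul]
    congr 1
    rw [map_mul, map_pow, aeval_X, Algebra.smul_def, Algebra.smul_def, Algebra.smul_def, map_mul,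
      pow_add, ← hαdef, ← hD]
    ring
  rw [hmat] at hmain
  -- the condition
  have hcond : (¬ Ev 𝔔 (α / D) ∧ Sq1 𝔔 ((q : L) * (α / D))) ↔
      (¬ Ev 𝔔 α ∧ ¬ Sq1 𝔔 (α * (q * θ))) := by
    rw [hEvc 𝔔 hq𝔔]
    refine and_congr_right fun hne => ?_
    have hvq : 𝔔.valuation L (q : L) = WithZero.exp (-1 : ℤ) := by
      rcases x7 𝔔 hO𝔔 with e | e
      · rw [e]
        exact x5
      · rw [e]
        exact x6
    have hneq := not_ev_q hvq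
    have hcls := Pool.Agent.N457.PQ.cls L q 𝔔 (q : L) hqp (by
      rintro rfl
      omega) hq𝔔 hq0L hneq
    have hc0 : α / D ≠ 0 := div_ne_zero hα hD0
    have hx0 : (q : L) * (α / D) ≠ 0 := mul_ne_zero hq0L hc0
    have hu0 : θ * D ≠ 0 := mul_ne_zero hθ0 hD0
    have hcE : ¬ Ev 𝔔 (α / D) := fun hh => hne ((hEvc 𝔔 hq𝔔).1 hh)
    have hxE : Ev 𝔔 ((q : L) * (α / D)) :=
      ((hcls _ _ hq0L hc0).1).2 ⟨fun hh => absurd hh hneq, fun hh => absurd hh hcE⟩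
    have huE : Ev 𝔔 (θ * D) := ⟨1, by rw [map_mul, hv𝔔, y3, map_one, one_pow, mul_one]⟩
    have hxu := (hcls _ _ hx0 hu0)
    have hxuE : Ev 𝔔 ((q : L) * (α / D) * (θ * D)) := hxu.1.2 ⟨fun _ => huE, fun _ => hxE⟩
    have hU : ∀ z : L, Ev 𝔔 z → (U0 𝔔 (q : L) z ↔ Sq1 𝔔 z) := by
      intro z hz
      unfold U0
      exact ⟨fun hh => hh.1 hz, fun hh => ⟨fun _ => hh, fun hh' => absurd hz hh'⟩⟩
    have h6 := hxu.2
    rw [hU _ hxuE, hU _ hxE, hU _ huE] at h6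
    have h7 : (q : L) * (α / D) * (θ * D) = α * (q * θ) := by
      field_simp
    rw [h7] at h6
    rw [h6]
    constructor
    · intro h8 h9
      exact y4 (h9.1 h8)
    · intro h8
      by_contra h9
      exact h8 ⟨fun hh => absurd hh h9, fun hh => absurd hh y4⟩
  simp only [hcond] at hmain
  exact hmain

end Pool.Agent.H30T.HQ

namespace Pool.Agent.H30T

/-- Piece RAM. -/
theorem ram : T_RAM := HQ.ram

/-- Piece HQ. -/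
theorem hq (hI : T_INT) (hE : T_EXQ) (hC : T_CSQ) : T_HQ := HQ.hq hI hE hC

end Pool.Agent.H30T
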