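import Pool.Agent.H30T.Stm
import Pool.Agent.N31.PF.Int

/-!
# Project ET, piece INT: locally at `𝔭` the ring of integers is `𝓞 F [θ]`

Port of `Pool/Agent/N31/PF/Int.lean` (the local version), by helper54.
-/

set_option autoImplicit false
set_option linter.all false

open Polynomial IsDedekindDomain Matrix NumberField
open scoped Classical

namespace Pool.Agent.H30T

open Pool.Agent.N783.PF
open Pool.Agent.N31.PF (fin pb minp dis theta_int)

section

variable {F : Type} [Field F] [NumberField F]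

/-- An element which is integral at `v` has a denominator outside of `v`. -/
theorem loc_den (v : HeightOneSpectrum (𝓞 F)) {t : F} (h : v.valuation F t ≤ 1) :
    ∃ s c : 𝓞 F, s ∉ v.asIdeal ∧ (s : F) * t = (c : F) := by
  obtain ⟨a, b, hb, rfl⟩ := IsFractionRing.div_surjective (A := 𝓞 F) t
  have hb0 : b ≠ 0 := nonZeroDivisors.ne_zero hb
  have hbF : algebraMap (𝓞 F) F b ≠ 0 := by
    rwa [Ne, IsFractionRing.to_map_eq_zero_iff (R := 𝓞 F)]
  have hvb : v.intValuation b ≠ 0 := v.intValuation_ne_zero b hb0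
  rw [map_div₀, HeightOneSpectrum.valuation_of_algebraMap, HeightOneSpectrum.valuation_of_algebraMap,
    div_le_one₀ (zero_lt_iff.2 hvb)] at h
  -- the exponent
  obtain ⟨n, hn⟩ : ∃ n : ℕ, v.intValuation b = WithZero.exp (-(n : ℤ)) := by
    have h1 : v.intValuation b ≤ 1 := v.intValuation_le_one b
    obtain ⟨m, hm⟩ : ∃ m : ℤ, v.intValuation b = WithZero.exp m :=
      ⟨WithZero.log (v.intValuation b), (WithZero.exp_log hvb).symm⟩
    rw [hm, ← WithZero.exp_zero, WithZero.exp_le_exp] at h1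
    refine ⟨(-m).toNat, ?_⟩
    rw [hm, Int.toNat_of_nonneg (by omega), neg_neg]
  have hdvd : v.asIdeal ^ n ∣ Ideal.span {b} := (v.intValuation_le_pow_iff_dvd b n).1 hn.le
  obtain ⟨J, hJ⟩ := hdvd
  obtain ⟨s, hsJ, hs⟩ : ∃ s ∈ J, s ∉ v.asIdeal := by
    by_contra hcon
    push Not at hcon
    have h1 : v.asIdeal ^ (n + 1) ∣ Ideal.span {b} := by
      rw [hJ, pow_succ]
      exact mul_dvd_mul_left _ (Ideal.dvd_iff_le.2 fun z hz => hcon z hz)
    have h2 := (v.intValuation_le_pow_iff_dvd b (n + 1)).2 h1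
    rw [hn, WithZero.exp_le_exp] at h2
    push_cast at h2
    omega
  have ha : a ∈ v.asIdeal ^ n := (v.intValuation_le_pow_iff_mem a n).1 (by rw [← hn]; exact h)
  have h1 : a * s ∈ Ideal.span {b} := by
    rw [hJ]
    exact Ideal.mul_mem_mul ha hsJ
  obtain ⟨c, hc⟩ := Ideal.mem_span_singleton'.1 h1
  refine ⟨s, c, hs, ?_⟩
  have h2 : (c : F) * algebraMap (𝓞 F) F b = algebraMap (𝓞 F) F a * (s : F) := by
    have := congrArg (algebraMap (𝓞 F) F) hc
    rw [map_mul, map_mul] at this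
    exact this
  rw [mul_div_assoc', div_eq_iff hbF, h2, mul_comm]

/-- An element of `F` whose square times `D` is integral at `v` is integral at `v` if `D` is not
divisible by `v ^ 2`. -/
theorem sqf_loc {v : HeightOneSpectrum (𝓞 F)} {D : 𝓞 F} (hD : D ∉ v.asIdeal ^ 2) {t : F}
    (h : IsIntegral ℤ (t ^ 2 * (D : F))) : v.valuation F t ≤ 1 := by
  by_contra hlt
  rw [not_le] at hlt
  have h1 : v.valuation F (t ^ 2 * (D : F)) ≤ 1 :=
    v.valuation_le_one (K := F) (⟨t ^ 2 * (D : F), h⟩ : 𝓞 F)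
  have h2 : ¬ v.valuation F (D : F) ≤ WithZero.exp (-(2 : ℕ) : ℤ) := by
    intro h3
    apply hD
    have h4 : v.intValuation D ≤ WithZero.exp (-(2 : ℕ) : ℤ) := by
      rwa [HeightOneSpectrum.valuation_of_algebraMap] at h3
    exact (v.intValuation_le_pow_iff_mem D 2).mp h4
  have hD0 : v.valuation F (D : F) ≠ 0 := by
    intro h0
    rw [h0] at h2
    exact h2 zero_le'
  have ht0 : v.valuation F t ≠ 0 := (lt_trans zero_lt_one hlt).ne'
  rw [map_mul, map_pow] at h1
  obtain ⟨a, ha⟩ : ∃ a : ℤ, v.valuation F t = WithZero.exp a :=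
    ⟨WithZero.log (v.valuation F t), (WithZero.exp_log ht0).symm⟩
  obtain ⟨b, hb⟩ : ∃ b : ℤ, v.valuation F (D : F) = WithZero.exp b :=
    ⟨WithZero.log (v.valuation F (D : F)), (WithZero.exp_log hD0).symm⟩
  rw [ha, hb, ← WithZero.exp_nsmul, ← WithZero.exp_add, ← WithZero.exp_zero,
    WithZero.exp_le_exp] at h1
  rw [ha, ← WithZero.exp_zero, WithZero.exp_lt_exp] at hlt
  rw [hb, WithZero.exp_le_exp] at h2
  simp only [nsmul_eq_mul] at h1
  push_cast at h1 h2
  omega

end

/-- **INT** -/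
theorem t_int : T_INT := by
  intro g F L _ _ _ _ _ f θ h 𝔭 h𝔭 h𝔭0 hD x hx
  haveI := fin h
  have hθ := theta_int h
  let v : HeightOneSpectrum (𝓞 F) := ⟨𝔭, h𝔭, h𝔭0⟩
  have hD0 : dsc g f ≠ 0 := fun h0 => hD (by rw [h0]; exact Ideal.zero_mem _)
  obtain ⟨c, hc⟩ := h.gen x
  have key : ∀ i₀, ∃ s d : 𝓞 F, s ∉ 𝔭 ∧ (s : F) * c i₀ = (d : F) := by
    intro i₀
    obtain ⟨m, hm⟩ := dis h hD0
    set P : Matrix (Fin (2 * g + 1)) (Fin (2 * g + 1)) F := (1 : Matrix _ _ F).updateCol i₀ c
      with hP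
    have hdet : P.det = c i₀ := by
      rw [hP, ← cramer_apply, cramer_one]
      rfl
    have h1 : IsIntegral ℤ (Algebra.discr F
        ((fun i : Fin (2 * g + 1) => θ ^ (i : ℕ)) ᵥ* P.map (algebraMap F L))) := by
      apply Algebra.discr_isIntegral
      intro j
      have e : ((fun i : Fin (2 * g + 1) => θ ^ (i : ℕ)) ᵥ* P.map (algebraMap F L)) j =
          if j = i₀ then x else θ ^ (j : ℕ) := by
        rw [Matrix.vecMul, dotProduct]
        simp only [Matrix.map_apply]
        split_ifs with hj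
        · subst hj
          rw [hc]
          refine Finset.sum_congr rfl fun i _ => ?_
          rw [hP, updateCol_self, mul_comm]
        · rw [Finset.sum_eq_single j]
          · rw [hP, updateCol_ne hj, one_apply_eq, map_one, mul_one]
          · intro i _ hij
            rw [hP, updateCol_ne hj, one_apply_ne hij, map_zero, mul_zero]
          · intro h0
            exact absurd (Finset.mem_univ _) h0
      rw [e]
      split_ifs
      · exact hx
      · exact hθ.pow _
    rw [Algebra.discr_of_matrix_vecMul, hdet, hm] at h1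
    have h2 : IsIntegral ℤ ((-1 : F) ^ m) := (isIntegral_one.neg).pow m
    have h3 := h2.mul h1
    have e2 : (-1 : F) ^ m * (-1 : F) ^ m = 1 := by
      rw [← mul_pow, neg_one_mul, neg_neg, one_pow]
    have e : (-1 : F) ^ m * (c i₀ ^ 2 * ((-1) ^ m * algebraMap (𝓞 F) F (dsc g f))) =
        c i₀ ^ 2 * ((dsc g f : 𝓞 F) : F) := by
      linear_combination (c i₀ ^ 2 * ((dsc g f : 𝓞 F) : F)) * e2
    rw [e] at h3
    exact loc_den v (sqf_loc (v := v) hD h3)
  choose s d hs hd using key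
  refine ⟨∏ i, s i, fun i => (∏ j ∈ Finset.univ.erase i, s j) * d i, ?_, ?_⟩
  · intro hmem
    obtain ⟨i, -, hi⟩ := (Ideal.IsPrime.prod_mem_iff (hp := h𝔭)).1 hmem
    exact hs i hi
  · rw [hc, Finset.mul_sum]
    refine Finset.sum_congr rfl fun i _ => ?_
    rw [← mul_assoc, ← map_mul]
    congr 2
    rw [← Finset.mul_prod_erase Finset.univ s (Finset.mem_univ i)]
    beta_reduce
    obtain ⟨P, hP⟩ : ∃ P : 𝓞 F, P = ∏ j ∈ Finset.univ.erase i, s j := ⟨_, rfl⟩
    rw [← hP]
    have e1 : ((s i * P : 𝓞 F) : F) = (s i : F) * (P : F) := map_mul (algebraMap (𝓞 F) F) _ _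
    have e2 : ((P * d i : 𝓞 F) : F) = (P : F) * (d i : F) := map_mul (algebraMap (𝓞 F) F) _ _
    rw [e1, e2, ← hd i]
    ring

end Pool.Agent.H30T
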