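import Pool.Agent.H30T.Stm
import Pool.Agent.N747.PF.Iso2

/-!
# Project ET (helper30), ISO2 (helper46): unramified classes at good primes give isometric forms
(port of `N747/PF/Iso2.lean` to the local statement `T_INT`)
-/

set_option autoImplicit false
set_option linter.all false

open Polynomial IsDedekindDomain Matrix NumberField WithZero
open scoped Classical

namespace Pool.Agent.H30T

open Pool.Agent.N783.PF Pool.Agent.N644.PQ.HunB Pool.Agent.N644.PQ.HunC
open Pool.Agent.N352.PJ (Mt Typ dd)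
open Pool.Agent.N874.PP (Ev Sq1 U0)
open Pool.Agent.N783.PQ (LocIm tp Gm sg)
open Pool.Agent.N747.PF (congr_of_det quot_unit quot_nil quot_nontrivial quot_nonunit quot_local alg_eq val_int denw pb minp
  norm_eq val_bound)

variable {F L : Type} [Field F] [NumberField F] [Field L] [NumberField L] [Algebra F L]
variable {g : ℕ} {f : (𝓞 F)[X]} {θ : L}

/-- up to squares `α` is a unit at `w` -/
theorem unit_at (hI : T_INT) (hG : IsGen g f θ) (w : HeightOneSpectrum (𝓞 F)) (hgd : dsc g f ∉ w.asIdeal ^ 2)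
    {α : L} (hα : α ≠ 0) (hev : ∀ 𝔓 : HeightOneSpectrum (𝓞 L), Ov w.asIdeal 𝔓 → Ev 𝔓 α) :
    ∃ (s : F[X]) (v v' : (𝓞 F)[X]) (m : 𝓞 F), m ∉ w.asIdeal ∧
      α = (aeval θ s) ^ 2 * aeval θ (fF v) ∧
      aeval θ (fF v) * aeval θ (fF v') = algebraMap F L (m : F) := by
  obtain ⟨a, haw, ha0⟩ : ∃ a ∈ w.asIdeal, a ≠ 0 := by
    by_contra hcon
    push Not at hcon
    exact w.ne_bot ((Submodule.eq_bot_iff _).mpr hcon)
  have ha0' : algebraMap (𝓞 F) (𝓞 L) a ≠ 0 := by
    intro h0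
    have h1 : algebraMap F L (a : F) = 0 := by rw [← alg_eq, h0, map_zero]
    have h2 : (a : F) = 0 := (map_eq_zero (algebraMap F L)).mp h1
    exact ha0 (by exact_mod_cast h2)
  have hfin := finite_over (O := 𝓞 L) (algebraMap (𝓞 F) (𝓞 L) a) ha0'
  have hy : ∀ 𝔓 : HeightOneSpectrum (𝓞 L), ∃ y : L, y ≠ 0 ∧ (Ov w.asIdeal 𝔓 →
      𝔓.valuation L α = 𝔓.valuation L y ^ 2) := by
    intro 𝔓
    by_cases h : Ov w.asIdeal 𝔓
    · obtain ⟨y, hy⟩ := hev 𝔓 h
      refine ⟨y, ?_, fun _ => hy⟩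
      rintro rfl
      rw [map_zero, zero_pow two_ne_zero] at hy
      exact hα ((Valuation.zero_iff _).1 hy)
    · exact ⟨1, one_ne_zero, fun h' => absurd h' h⟩
  choose y hy0 hy using hy
  obtain ⟨x, hx0, hx⟩ := approx hfin.toFinset y (fun 𝔓 _ => hy0 𝔓)
  have hx2 : x ^ 2 ≠ 0 := pow_ne_zero 2 hx0
  have hv1 : ∀ 𝔓 : HeightOneSpectrum (𝓞 L), Ov w.asIdeal 𝔓 →
      𝔓.valuation L (α / x ^ 2) = 1 := by
    intro 𝔓 h𝔓
    rw [map_div₀, map_pow, hx 𝔓 (hfin.mem_toFinset.2 (h𝔓 a haw)), hy 𝔓 h𝔓]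
    apply div_self
    have h1 := (Valuation.ne_zero_iff (𝔓.valuation L)).2 hα
    rwa [hy 𝔓 h𝔓] at h1
  obtain ⟨m, hm, z, hz⟩ := denw w (α / x ^ 2) fun 𝔓 h => (hv1 𝔓 h).le
  obtain ⟨m', hm', z', hz'⟩ := denw w (α / x ^ 2)⁻¹ fun 𝔓 h => by
    rw [map_inv₀, hv1 𝔓 h, inv_one]
  have hpoly : ∀ b : 𝓞 L, ∃ (s : 𝓞 F) (v : (𝓞 F)[X]), s ∉ w.asIdeal ∧
      aeval θ (fF v) = algebraMap F L (s : F) * algebraMap (𝓞 L) L b := by
    intro b
    obtain ⟨s, c, hs, hc⟩ := hI g F L f θ hG w.asIdeal w.isPrime w.ne_bot hgd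
      (algebraMap (𝓞 L) L b) (RingOfIntegers.isIntegral_coe b)
    refine ⟨s, ∑ i : Fin (2 * g + 1), C (c i) * X ^ (i : ℕ), hs, ?_⟩
    rw [hc, fF, Polynomial.map_sum, map_sum]
    refine Finset.sum_congr rfl fun i _ => ?_
    rw [Polynomial.map_mul, Polynomial.map_C, Polynomial.map_pow, map_X, map_mul, aeval_C,
      map_pow, aeval_X]
  have hm0 : algebraMap F L (m : F) ≠ 0 := by
    intro h0
    have h2 : (m : F) = 0 := (map_eq_zero (algebraMap F L)).mp h0
    have h3 : m = 0 := by exact_mod_cast h2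
    exact hm (h3 ▸ w.asIdeal.zero_mem)
  obtain ⟨s, v, hs, hv⟩ := hpoly (algebraMap (𝓞 F) (𝓞 L) m * z)
  obtain ⟨s', v', hs', hv'⟩ := hpoly z'
  have hs0 : algebraMap F L (s : F) ≠ 0 := by
    intro h0
    have h2 : (s : F) = 0 := (map_eq_zero (algebraMap F L)).mp h0
    have h3 : s = 0 := by exact_mod_cast h2
    exact hs (h3 ▸ w.asIdeal.zero_mem)
  have hCv : aeval θ (fF (C s * v)) = algebraMap F L (s : F) * aeval θ (fF v) := by
    simp only [fF, Polynomial.map_mul, Polynomial.map_C, map_mul, aeval_C]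
  obtain ⟨c, hc⟩ := hG.gen (x / (algebraMap F L (m : F) * algebraMap F L (s : F)))
  refine ⟨∑ i : Fin (2 * g + 1), C (c i) * X ^ (i : ℕ), C s * v, v', m ^ 2 * m' * (s ^ 2 * s'), ?_, ?_, ?_⟩
  · intro h
    rcases w.isPrime.mem_or_mem h with h1 | h1
    · rcases w.isPrime.mem_or_mem h1 with h1 | h1
      · exact hm (w.isPrime.mem_of_pow_mem 2 h1)
      · exact hm' h1
    · rcases w.isPrime.mem_or_mem h1 with h1 | h1
      · exact hs (w.isPrime.mem_of_pow_mem 2 h1)
      · exact hs' h1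
  · have h1 : aeval θ (∑ i : Fin (2 * g + 1), C (c i) * X ^ (i : ℕ)) =
        x / (algebraMap F L (m : F) * algebraMap F L (s : F)) := by
      rw [map_sum]
      conv_rhs => rw [hc]
      refine Finset.sum_congr rfl fun i _ => ?_
      rw [map_mul, aeval_C, map_pow, aeval_X]
    rw [h1, hCv, hv, map_mul, alg_eq, hz]
    field_simp
  · rw [hCv, hv, hv', map_mul, alg_eq, hz, hz']
    have h1 : (α / x ^ 2) * (α / x ^ 2)⁻¹ = 1 := mul_inv_cancel₀ (div_ne_zero hα hx2)
    have h2 : algebraMap F L ((m ^ 2 * m' * (s ^ 2 * s') : 𝓞 F) : F) =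
        algebraMap F L (m : F) ^ 2 * algebraMap F L (m' : F) * (algebraMap F L (s : F) ^ 2 * algebraMap F L (s' : F)) := by
      simp
    rw [h2]
    linear_combination (algebraMap F L (m : F) ^ 2 * algebraMap F L (m' : F) *
      (algebraMap F L (s : F) ^ 2 * algebraMap F L (s' : F))) * h1

theorem iso2 (hI : T_INT) : T_ISO2 := by
  intro g F L _ _ _ _ _ f θ hG w hgd h hα hN hev k
  have hw2 := hgd.1
  obtain ⟨s, u, u', m, hm, h1, h2⟩ := unit_at hI hG w hgd.2 hα hev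
  have hfm : f.Monic := hG.mon
  have hmin := minp hG
  have hmon : (fF f).Monic := hfm.map _
  have hdeg : (fF f).natDegree = 2 * g + 1 := by rw [hfm.natDegree_map, hG.deg]
  have hinj : Function.Injective (algebraMap (𝓞 F) F) := IsFractionRing.injective (𝓞 F) F
  have d1 : fF f ∣ h - s ^ 2 * fF u := by
    rw [← hmin]
    refine minpoly.dvd F θ ?_
    rw [map_sub, map_mul, map_pow, ← h1, sub_self]
  have d2 : f ∣ u * u' - C m := by
    have e1 : aeval θ (fF (u * u' - C m)) = 0 := by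
      rw [fF, Polynomial.map_sub, Polynomial.map_mul, Polynomial.map_C, map_sub, map_mul, aeval_C,
        sub_eq_zero]
      exact h2
    have e3 := minpoly.dvd F θ e1
    rw [hmin] at e3
    exact (Polynomial.map_dvd_map (algebraMap (𝓞 F) F) hinj hfm).1 e3
  -- the norm of `u` is a square
  obtain ⟨c, hc⟩ : ∃ c : 𝓞 F, (Mu g f u).det = c ^ 2 := by
    have e1 : Algebra.norm F (aeval θ h) =
        (Algebra.norm F (aeval θ s)) ^ 2 * Algebra.norm F (aeval θ (fF u)) := by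
      rw [h1, map_mul, map_pow]
    have hs0 : Algebra.norm F (aeval θ s) ≠ 0 := by
      rw [Algebra.norm_ne_zero_iff]
      intro h0
      rw [h0] at h1
      exact hα (by rw [h1]; ring)
    obtain ⟨r, hr⟩ := hN
    have e2 : Algebra.norm F (aeval θ (fF u)) = (r / Algebra.norm F (aeval θ s)) ^ 2 := by
      rw [div_pow, eq_div_iff (pow_ne_zero 2 hs0), mul_comm, ← e1, hr, sq]
    have e3 : Algebra.norm F (aeval θ (fF u)) = algebraMap (𝓞 F) F (Mu g f u).det := by
      rw [norm_eq hG, RingHom.map_det]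
      congr 1
      ext i j
      simp only [Mu, Matrix.of_apply, RingHom.mapMatrix_apply, Matrix.map_apply]
      rw [← coeff_map, Polynomial.map_modByMonic _ hfm, Polynomial.map_mul, Polynomial.map_pow,
        map_X]
    have e4 : IsIntegral (𝓞 F) (r / Algebra.norm F (aeval θ s)) := by
      refine IsIntegral.of_pow (n := 2) (by norm_num) ?_
      rw [← e2, e3]
      exact isIntegral_algebraMap
    obtain ⟨c, hc⟩ := IsIntegrallyClosed.isIntegral_iff.1 e4
    refine ⟨c, hinj ?_⟩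
    rw [← e3, e2, map_pow, hc]
  -- the matrices
  obtain ⟨P, hP⟩ : ∃ P, P = Mu g (fF f) s := ⟨_, rfl⟩
  have hGm : Gm g (fF f) h = P * (Gr g f u).map (algebraMap (𝓞 F) F) * Pᵀ := by
    have e1 : Gm g (fF f) h = Gr g (fF f) h := rfl
    rw [e1, Gr_sq hmon hdeg d1, Gr_map _ hfm, hP]
  have hG1 : Gm g (fF f) 1 = (Gr g f 1).map (algebraMap (𝓞 F) F) := by
    have e1 : Gm g (fF f) 1 = Gr g (fF f) 1 := rfl
    rw [e1, Gr_map _ hfm, Polynomial.map_one]
  obtain ⟨b, hb⟩ : ∃ b : ℕ, ∀ i j, w.valuation F (P i j) ≤ WithZero.exp (b : ℤ) := by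
    choose b hb using fun i j => val_bound w (P i j)
    refine ⟨∑ i, ∑ j, b i j, fun i j => (hb i j).trans ?_⟩
    rw [WithZero.exp_le_exp]
    have h3 : b i j ≤ ∑ j, b i j :=
      Finset.single_le_sum (f := fun j => b i j) (fun _ _ => Nat.zero_le _) (Finset.mem_univ j)
    have h4 : ∑ j, b i j ≤ ∑ i, ∑ j, b i j :=
      Finset.single_le_sum (f := fun i => ∑ j, b i j) (fun _ _ => Nat.zero_le _)
        (Finset.mem_univ i)
    exact_mod_cast h3.trans h4
  -- the quotient ring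
  obtain ⟨K, hK⟩ : ∃ K : ℕ, K = k + 2 * b + 1 := ⟨_, rfl⟩
  have hK0 : K ≠ 0 := by omega
  have hwm : w.asIdeal.IsMaximal := w.isMaximal
  have hloc : IsLocalRing (𝓞 F ⧸ w.asIdeal ^ K) := quot_local w.asIdeal hK0
  have hfinA : Finite (𝓞 F ⧸ w.asIdeal ^ K) :=
    Ideal.finiteQuotientOfFreeOfNeBot _ (pow_ne_zero K w.ne_bot)
  have hnt : Nontrivial (𝓞 F ⧸ w.asIdeal ^ K) := quot_nontrivial w.asIdeal hK0
  let π : 𝓞 F →+* 𝓞 F ⧸ w.asIdeal ^ K := Ideal.Quotient.mk (w.asIdeal ^ K)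
  have h2u : IsUnit (2 : 𝓞 F ⧸ w.asIdeal ^ K) := by
    have := quot_unit w.asIdeal K hw2
    rwa [map_ofNat] at this
  have hmu : IsUnit (π m) := quot_unit w.asIdeal K hm
  have hfA : (f.map π).Monic := hfm.map _
  have hfAd : (f.map π).natDegree = 2 * g + 1 := by rw [hfm.natDegree_map, hG.deg]
  obtain ⟨μ, hμ⟩ := hmu.exists_right_inv
  have d3 : f.map π ∣ u.map π * (C μ * u'.map π) - 1 := by
    have e1 := Polynomial.map_dvd π d2
    have e2 : u.map π * (C μ * u'.map π) - 1 = C μ * (u * u' - C m).map π := by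
      rw [Polynomial.map_sub, Polynomial.map_mul, Polynomial.map_C]
      have e3 : C μ * C (π m) = (1 : (𝓞 F ⧸ w.asIdeal ^ K)[X]) := by
        rw [← C_mul, mul_comm μ, hμ, C_1]
      rw [mul_sub, e3]
      ring
    rw [e2]
    exact e1.mul_left _
  obtain ⟨T, hT⟩ := congr_of_det (A := 𝓞 F ⧸ w.asIdeal ^ K)
    (fun x hx => quot_nonunit w.asIdeal K hx) h2u
    (Gr_symm (g := g) (f := f.map π) 1) (Gr_symm (g := g) (f := f.map π) (u.map π))
    (Gr_one hfA hfAd) (Gr_det hfA hfAd d3) ⟨π (c * (Gr g f 1).det), by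
      have e1 : (Gr g (f.map π) 1).det = π (Gr g f 1).det := by
        rw [RingHom.map_det]
        congr 1
        have := Gr_map (g := g) π hfm 1
        rw [Polynomial.map_one] at this
        exact this.symm
      have e2 : (Gr g (f.map π) (u.map π)).det = π (Gr g f u).det := by
        rw [RingHom.map_det]
        congr 1
        exact (Gr_map (g := g) π hfm u).symm
      rw [e1, e2, ← map_mul, ← map_pow, Gr_eq hfm hG.deg u, Matrix.det_mul, hc]
      congr 1
      ring⟩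
  choose T0 hT0 using fun i j => Ideal.Quotient.mk_surjective (T i j)
  obtain ⟨T1, hT1⟩ : ∃ T1 : Mt g (𝓞 F), T1 = Matrix.of T0 := ⟨_, rfl⟩
  have hT1π : T1.map π = T := by
    ext i j
    rw [hT1]
    exact hT0 i j
  obtain ⟨D, hD⟩ : ∃ D, D = T1 * Gr g f 1 * T1ᵀ - Gr g f u := ⟨_, rfl⟩
  have hDw : ∀ i j, D i j ∈ w.asIdeal ^ K := by
    intro i j
    rw [← Ideal.Quotient.eq_zero_iff_mem]
    have e1 : D.map π = 0 := by
      have e2 : (Gr g f 1).map π = Gr g (f.map π) 1 := by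
        rw [Gr_map (g := g) π hfm 1, Polynomial.map_one]
      rw [hD, Matrix.map_sub _ (map_sub π), Matrix.map_mul, Matrix.map_mul,
        Matrix.transpose_map, hT1π, e2, Gr_map (g := g) π hfm u, hT, sub_self]
    exact congrFun (congrFun e1 i) j
  refine ⟨P * T1.map (algebraMap (𝓞 F) F), fun i j => ?_⟩
  have hfinal : P * T1.map (algebraMap (𝓞 F) F) * Gm g (fF f) 1 *
      (P * T1.map (algebraMap (𝓞 F) F))ᵀ - Gm g (fF f) h =
      P * D.map (algebraMap (𝓞 F) F) * Pᵀ := by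
    rw [hGm, hG1, hD, Matrix.map_sub _ (map_sub (algebraMap (𝓞 F) F)), Matrix.map_mul,
      Matrix.map_mul, Matrix.transpose_map, Matrix.transpose_mul, Matrix.mul_sub, Matrix.sub_mul]
    simp only [Matrix.mul_assoc]
  rw [← Matrix.sub_apply, hfinal, Matrix.mul_apply]
  refine Valuation.map_sum_le _ fun l _ => ?_
  rw [Matrix.mul_apply, Finset.sum_mul]
  refine Valuation.map_sum_le _ fun l' _ => ?_
  rw [map_mul, map_mul, Matrix.map_apply, Matrix.transpose_apply]
  have e1 : w.valuation F (algebraMap (𝓞 F) F (D l' l)) ≤ WithZero.exp (-(K : ℤ)) := by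
    rw [w.valuation_of_algebraMap, HeightOneSpectrum.intValuation_le_pow_iff_mem]
    exact hDw l' l
  calc w.valuation F (P i l') * w.valuation F (algebraMap (𝓞 F) F (D l' l)) *
        w.valuation F (P j l)
      ≤ WithZero.exp (b : ℤ) * WithZero.exp (-(K : ℤ)) * WithZero.exp (b : ℤ) :=
        mul_le_mul' (mul_le_mul' (hb _ _) e1) (hb _ _)
    _ = WithZero.exp ((b : ℤ) + (-(K : ℤ)) + b) := by rw [WithZero.exp_add, WithZero.exp_add]
    _ ≤ WithZero.exp (-(k : ℤ)) := by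
        rw [WithZero.exp_le_exp, hK]
        push_cast
        linarith

end Pool.Agent.H30T
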