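import Mathlib

/-!
# Piece ODD of project ET (helper30): preparation, without the definitions of the project
-/

set_option autoImplicit false
set_option linter.all false

open Polynomial NumberField

namespace Pool.Agent.H30T.OddP

/-- The square of the Vandermonde determinant of the roots is the discriminant up to sign. -/
theorem det_sq {N : Type} [Field N] [CharZero N] {n : ℕ} {f : ℤ[X]} {x : Fin n → N}
    (hf : f.map (Int.castRingHom N) = ∏ i, (X - C (x i))) (hn : 0 < n) :
    (Matrix.vandermonde x).det ^ 2 = (f.discr : N) ∨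
      (Matrix.vandermonde x).det ^ 2 = -(f.discr : N) := by
  have hinj : Function.Injective (Int.castRingHom N) := RingHom.injective_int _
  have hmon : f.Monic := by
    apply Polynomial.monic_of_injective hinj
    rw [hf]
    exact monic_prod_of_monic _ _ fun i _ => monic_X_sub_C _
  have hdeg : f.natDegree = n := by
    have h1 : (f.map (Int.castRingHom N)).natDegree = n := by
      rw [hf, natDegree_prod_of_monic _ _ fun i _ => monic_X_sub_C _]
      simp
    rwa [natDegree_map_eq_of_injective hinj] at h1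
  have hd0 : 0 < f.degree := by
    rw [← natDegree_pos_iff_degree_pos, hdeg]; exact hn
  have h1 := resultant_deriv hd0
  rw [hmon.leadingCoeff, mul_one, hdeg] at h1
  have h2 := congrArg (Int.castRingHom N) h1
  rw [← resultant_map_map, ← derivative_map] at h2
  have h3 : (∏ i, (X - C (x i))).natDegree = n := by
    rw [natDegree_prod_of_monic _ _ fun i _ => monic_X_sub_C _]
    simp
  have h4 : resultant (f.map (Int.castRingHom N)) (derivative (f.map (Int.castRingHom N))) n (n - 1)
      = ∏ i, ∏ j ∈ Finset.univ.erase i, (x i - x j) := by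
    rw [hf]
    have h5 := resultant_prod_left Finset.univ (fun i : Fin n => X - C (x i))
      (derivative (∏ i, (X - C (x i)))) (n - 1) (by simp) (by
        refine (natDegree_derivative_le _).trans ?_
        rw [h3])
    rw [h3] at h5
    rw [h5]
    refine Finset.prod_congr rfl fun i _ => ?_
    rw [natDegree_X_sub_C, resultant_X_sub_C_left]
    · rw [derivative_prod_finset, eval_finset_sum, Finset.sum_eq_single i]
      · simp [eval_prod]
      · intro j _ hji
        rw [eval_mul, eval_prod, Finset.prod_eq_zero (i := i)]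
        · simp
        · exact Finset.mem_erase.2 ⟨fun h => hji h.symm, Finset.mem_univ _⟩
        · simp
      · simp
    · refine (natDegree_derivative_le _).trans ?_
      rw [h3]
  rw [h4] at h2
  have h6 : ∏ i, ∏ j ∈ Finset.univ.erase i, (x i - x j) =
      (∏ i : Fin n, ∏ j ∈ Finset.Ioi i, (-1 : N)) * (Matrix.vandermonde x).det ^ 2 := by
    rw [Matrix.det_vandermonde, pow_two, ← mul_assoc, ← Finset.prod_mul_distrib]
    have h7 : ∀ i : Fin n, ∏ j ∈ Finset.univ.erase i, (x i - x j) =
        (∏ j ∈ Finset.Ioi i, (x i - x j)) * ∏ j ∈ Finset.Iio i, (x i - x j) := by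
      intro i
      rw [← Finset.prod_union]
      · refine Finset.prod_congr ?_ fun _ _ => rfl
        ext j
        simp only [Finset.mem_erase, Finset.mem_univ, and_true, Finset.mem_union, Finset.mem_Ioi,
          Finset.mem_Iio]
        exact ⟨fun h => (lt_or_gt_of_ne h).symm, fun h => h.elim (fun h => h.ne') fun h => h.ne⟩
      · rw [Finset.disjoint_left]
        intro j hj hj'
        exact absurd (Finset.mem_Ioi.1 hj) (not_lt.2 (Finset.mem_Iio.1 hj').le)
    rw [Finset.prod_congr rfl fun i _ => h7 i, Finset.prod_mul_distrib]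
    have h8 : ∏ i : Fin n, ∏ j ∈ Finset.Iio i, (x i - x j) =
        ∏ i : Fin n, ∏ j ∈ Finset.Ioi i, (x j - x i) := by
      rw [Finset.prod_comm' (t' := Finset.univ) (s' := fun j => Finset.Ioi j)]
      intro i j
      simp
    rw [h8]
    congr 1
    refine Finset.prod_congr rfl fun i _ => ?_
    rw [← Finset.prod_mul_distrib]
    refine Finset.prod_congr rfl fun j _ => ?_
    ring
  rw [h6] at h2
  have h9 : ∀ (ι : Type) (s : Finset ι), (∏ i ∈ s, (-1 : N)) = 1 ∨ (∏ i ∈ s, (-1 : N)) = -1 := by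
    intro ι s
    rw [Finset.prod_const]
    exact neg_one_pow_eq_or N _
  have h10 : (∏ i : Fin n, ∏ j ∈ Finset.Ioi i, (-1 : N)) = 1 ∨
      (∏ i : Fin n, ∏ j ∈ Finset.Ioi i, (-1 : N)) = -1 := by
    rw [Finset.prod_sigma']
    exact h9 _ _
  have h11 : (Int.castRingHom N) ((-1) ^ (n * (n - 1) / 2) * f.discr) = (f.discr : N) ∨
      (Int.castRingHom N) ((-1) ^ (n * (n - 1) / 2) * f.discr) = -(f.discr : N) := by
    rcases neg_one_pow_eq_or ℤ (n * (n - 1) / 2) with h | h
    · left; rw [h]; simp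
    · right; rw [h]; simp
  rcases h10 with h | h <;> rcases h11 with h' | h' <;> rw [h, h'] at h2
  · left; simpa using h2
  · right; simpa using h2
  · right
    linear_combination -h2
  · left
    linear_combination -h2

/-- In a cyclotomic field of order prime to `p` a square cannot be divisible by `p` exactly once. -/
theorem not_sq {K : Type*} [Field K] [NumberField K] (m p : ℕ) [hp : Fact p.Prime] [NeZero m]
    [IsCyclotomicExtension {m} ℚ K] (hm : ¬ p ∣ m) (a : 𝓞 K) (d : ℤ) (hd : (p : ℤ) ∣ d)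
    (hd2 : ¬ (p : ℤ) ^ 2 ∣ d) (h : a ^ 2 = (d : 𝓞 K)) : False := by
  have hpp := hp.out
  let pI : Ideal ℤ := Ideal.span {(p : ℤ)}
  haveI hpI : Ideal.IsMaximal pI := Int.ideal_span_isMaximal_of_prime p
  obtain ⟨P, hP1, hP2⟩ := Ideal.exists_maximal_ideal_liesOver_of_isIntegral pI (S := 𝓞 K)
  have hmem : ∀ k : ℤ, (k : 𝓞 K) ∈ P ↔ (p : ℤ) ∣ k := by
    intro k
    rw [← Ideal.mem_span_singleton]
    have h1 : pI = P.under ℤ := hP2.over
    change _ ↔ k ∈ pI
    rw [h1, Ideal.mem_comap]
    simp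
  have he := IsCyclotomicExtension.Rat.ramificationIdx_eq_of_not_dvd (m := m) p K P hm
  have hmap : Ideal.map (algebraMap ℤ (𝓞 K)) pI ≠ ⊥ := by
    apply Ideal.map_ne_bot_of_ne_bot
    intro h0
    rw [Ideal.span_singleton_eq_bot] at h0
    exact hpp.ne_zero (by exact_mod_cast h0)
  rw [Ideal.IsDedekindDomain.ramificationIdx_eq_multiplicity pI _ hmap] at he
  have hfin : FiniteMultiplicity P (Ideal.map (algebraMap ℤ (𝓞 K)) pI) := by
    apply FiniteMultiplicity.of_not_isUnit
    · intro hu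
      rw [Ideal.isUnit_iff] at hu
      exact hP1.ne_top hu
    · exact hmap
  have hP2' : ¬ P ^ 2 ∣ Ideal.map (algebraMap ℤ (𝓞 K)) pI := by
    intro h1
    have h2 := hfin.le_multiplicity_of_pow_dvd h1
    omega
  apply hP2'
  rw [Ideal.dvd_iff_le, Ideal.map_span, Set.image_singleton, Ideal.span_singleton_le_iff_mem]
  obtain ⟨u, hu⟩ := hd
  have hu2 : (u : 𝓞 K) ∉ P := by
    rw [hmem]
    rintro ⟨v, hv⟩
    apply hd2
    exact ⟨v, by rw [hu, hv]; ring⟩
  have ha : a ∈ P := by
    apply hP1.isPrime.mem_of_pow_mem 2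
    rw [h, hmem]
    exact ⟨u, hu⟩
  have ha2 : (p : 𝓞 K) * (u : 𝓞 K) ∈ P ^ 2 := by
    have h1 : (p : 𝓞 K) * (u : 𝓞 K) = a ^ 2 := by rw [h, hu]; push_cast; ring
    rw [h1]
    exact Ideal.pow_mem_pow ha 2
  have h3 := Ideal.IsPrime.mem_pow_mul P ha2
  rcases h3 with h3 | h3
  · simpa using h3
  · exact absurd h3 hu2

/-- An automorphism which permutes the roots multiplies the Vandermonde determinant by the sign. -/
theorem perm_sign {N : Type} [Field N] [NumberField N] {n : ℕ} {f : ℤ[X]} {x : Fin n → N}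
    (hf : f.map (Int.castRingHom N) = ∏ i, (X - C (x i))) (hx : Function.Injective x)
    (σ : N ≃ₐ[ℚ] N) : ∃ π : Equiv.Perm (Fin n), (∀ i, σ (x i) = x (π i)) ∧
      σ (Matrix.vandermonde x).det = (Equiv.Perm.sign π : ℤ) * (Matrix.vandermonde x).det := by
  have h1 : ∀ i, ∃ j, σ (x i) = x j := by
    intro i
    have h2 : eval (x i) (f.map (Int.castRingHom N)) = 0 := by
      rw [hf, eval_prod]
      exact Finset.prod_eq_zero (Finset.mem_univ i) (by simp)
    have h3 : eval (σ (x i)) (f.map (Int.castRingHom N)) = 0 := by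
      have h4 := congrArg σ h2
      rw [map_zero, eval_map, ← RingHom.coe_coe, hom_eval₂] at h4
      rw [eval_map]
      have h5 : ((σ : N →+* N)).comp (Int.castRingHom N) = Int.castRingHom N :=
        Subsingleton.elim _ _
      rw [h5] at h4
      exact h4
    rw [hf, eval_prod, Finset.prod_eq_zero_iff] at h3
    obtain ⟨j, _, hj⟩ := h3
    refine ⟨j, ?_⟩
    simpa [sub_eq_zero] using hj
  choose π hπ using h1
  have hinj : Function.Injective π := by
    intro i j hij
    apply hx
    apply σ.injective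
    rw [hπ, hπ, hij]
  refine ⟨Equiv.ofBijective π (Finite.injective_iff_bijective.1 hinj), hπ, ?_⟩
  rw [← AlgEquiv.coe_ringEquiv, ← RingEquiv.coe_toRingHom, RingHom.map_det]
  have h5 : ((σ.toRingEquiv : N ≃+* N) : N →+* N).mapMatrix (Matrix.vandermonde x) =
      (Matrix.vandermonde x).submatrix (Equiv.ofBijective π (Finite.injective_iff_bijective.1 hinj))
        id := by
    ext i j
    simp [Matrix.vandermonde_apply, hπ]
  rw [h5, Matrix.det_permute]

theorem main (N : Type) [Field N] [NumberField N] [IsGalois ℚ N] (n : ℕ) (f : ℤ[X])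
    (x : Fin n → N) (hf : f.map (Int.castRingHom N) = ∏ i, (X - C (x i)))
    (hx : Function.Injective x) (p₀ : ℕ) (hp : p₀.Prime) (hd : (p₀ : ℤ) ∣ f.discr)
    (hd2 : ¬ (p₀ : ℤ) ^ 2 ∣ f.discr) (m : ℕ) (hm0 : m ≠ 0) (hm : ¬ p₀ ∣ m) :
    ∃ (σ : N ≃ₐ[ℚ] N) (π : Equiv.Perm (Fin n)), (∀ ζ : N, ζ ^ m = 1 → σ ζ = ζ) ∧
      (∀ i, σ (x i) = x (π i)) ∧ Equiv.Perm.sign π = -1 := by
  haveI : Fact p₀.Prime := ⟨hp⟩
  haveI : NeZero m := ⟨hm0⟩
  have hn : 0 < n := by
    rcases Nat.eq_zero_or_pos n with h | h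
    · exfalso
      subst h
      have h1 : f = C 1 := by
        apply Polynomial.map_injective (Int.castRingHom N) (RingHom.injective_int _)
        rw [hf]; simp
      rw [h1, discr_C] at hd
      exact hp.one_lt.ne' (by exact_mod_cast Int.eq_one_of_dvd_one (by positivity) hd)
    · exact h
  obtain ⟨g, hg⟩ := IsCyclic.exists_generator (α := rootsOfUnity m N)
  let ζ : N := ((g : Nˣ) : N)
  have hζm : ζ ^ m = 1 := by
    have h1 := g.2
    rw [mem_rootsOfUnity] at h1
    have h2 := congrArg Units.val h1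
    rw [Units.val_pow_eq_pow_val, Units.val_one] at h2
    exact h2
  have hord : 0 < orderOf ζ := by
    rw [orderOf_pos_iff, isOfFinOrder_iff_pow_eq_one]
    exact ⟨m, Nat.pos_of_ne_zero hm0, hζm⟩
  haveI : NeZero (orderOf ζ) := ⟨hord.ne'⟩
  have hζ : IsPrimitiveRoot ζ (orderOf ζ) := IsPrimitiveRoot.orderOf ζ
  have hdvd : orderOf ζ ∣ m := orderOf_dvd_of_pow_eq_one hζm
  have hall : ∀ z : N, z ^ m = 1 → ∃ k : ℕ, z = ζ ^ k := by
    intro z hz
    have hz0 : z ≠ 0 := by
      rintro rfl
      rw [zero_pow hm0] at hz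
      exact zero_ne_one hz
    have hu : Units.mk0 z hz0 ∈ rootsOfUnity m N := by
      rw [mem_rootsOfUnity]
      ext
      simpa using hz
    have h1 := hg ⟨_, hu⟩
    rw [← mem_powers_iff_mem_zpowers] at h1
    obtain ⟨k, hk⟩ := h1
    refine ⟨k, ?_⟩
    have h2 := congrArg (fun w : rootsOfUnity m N => ((w : Nˣ) : N)) hk
    simp only [SubmonoidClass.coe_pow, Units.val_pow_eq_pow_val, Units.val_mk0] at h2
    exact h2.symm
  let K : IntermediateField ℚ N := IntermediateField.adjoin ℚ {ζ}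
  haveI : IsCyclotomicExtension {orderOf ζ} ℚ K :=
    hζ.intermediateField_adjoin_isCyclotomicExtension ℚ
  let δ : N := (Matrix.vandermonde x).det
  have hδ2 : ∃ e : ℤ, δ ^ 2 = (e : N) ∧ (p₀ : ℤ) ∣ e ∧ ¬ (p₀ : ℤ) ^ 2 ∣ e := by
    rcases det_sq hf hn with h | h
    · exact ⟨_, h, hd, hd2⟩
    · exact ⟨-f.discr, by push_cast; exact h, (dvd_neg).2 hd, fun h => hd2 ((dvd_neg).1 h)⟩
  obtain ⟨e, he, he1, he2⟩ := hδ2
  have hδK : δ ∉ K := by
    intro hK
    have hint : IsIntegral ℤ δ := by
      apply IsIntegral.of_pow (n := 2) (by norm_num)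
      rw [he]
      exact isIntegral_algebraMap (R := ℤ) (A := N) (x := e)
    have hint' : IsIntegral ℤ (⟨δ, hK⟩ : K) := by
      rw [← isIntegral_algebraMap_iff (algebraMap K N).injective]
      exact hint
    obtain ⟨a, ha⟩ : ∃ a : 𝓞 K, algebraMap (𝓞 K) K a = ⟨δ, hK⟩ := ⟨⟨⟨δ, hK⟩, hint'⟩, rfl⟩
    refine not_sq (K := K) (orderOf ζ) p₀ (fun h => hm (h.trans hdvd)) a e he1 he2 ?_
    apply RingOfIntegers.ext
    apply Subtype.ext
    rw [RingOfIntegers.coe_eq_algebraMap, RingOfIntegers.coe_eq_algebraMap, map_pow, map_intCast,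
      ha]
    change δ ^ 2 = ((e : K) : N)
    rw [he]
    simp
  have h1 : ∃ σ ∈ K.fixingSubgroup, σ δ ≠ δ := by
    by_contra hcon
    push Not at hcon
    apply hδK
    rw [← IsGalois.fixedField_fixingSubgroup K, IntermediateField.mem_fixedField_iff]
    exact hcon
  obtain ⟨σ, hσ, hσδ⟩ := h1
  obtain ⟨π, hπ, hπ2⟩ := perm_sign hf hx σ
  refine ⟨σ, π, ?_, hπ, ?_⟩
  · intro z hz
    obtain ⟨k, rfl⟩ := hall z hz
    rw [map_pow]
    congr 1
    exact (IntermediateField.mem_fixingSubgroup_iff K σ).1 hσ ζ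
      (IntermediateField.mem_adjoin_simple_self ℚ ζ)
  · rcases Int.units_eq_one_or (Equiv.Perm.sign π) with h | h
    · exfalso
      apply hσδ
      have h2 := hπ2
      rw [h] at h2
      simpa using h2
    · exact h

end Pool.Agent.H30T.OddP
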