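import Pool.Agent.H30T.Stm
import Pool.Agent.H30T.OddP

/-!
# Piece ODD of project ET (helper30), by helper79
-/

set_option autoImplicit false
set_option linter.all false

open Polynomial NumberField

namespace Pool.Agent.H30T

theorem odd : T_ODD := by
  intro N _ _ _ n f x hf hx p₀ hp _ hd hd2 m hm0 hm
  exact OddP.main N n f x hf hx p₀ hp hd hd2 m hm0 hm

end Pool.Agent.H30T
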