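import Pool.Agent.N783.PF.Loc

/-!
# Project ET (helper30): for EVERY odd hyperelliptic curve `y ^ 2 = f(x)` over `ℚ` with Galois group
`S_n` and an odd prime `p₀` which divides the discriminant exactly once, twists without 2-Selmer group
over all the admissible 2-extensions. Definitions and statements of the pieces.

The statements `T_..` are those of `N783/PF/Lat.lean` and `N783/PF/Loc.lean` (`S_..`) with two changes:
`GoodS` is replaced by `GoodT` (no condition on the trace of `A q`), and the global hypothesis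
`SqF g f` (squarefree discriminant) is dropped or replaced by its local version at the prime considered.
-/

set_option autoImplicit false
set_option linter.all false

open Polynomial IsDedekindDomain Matrix NumberField
open scoped Classical

namespace Pool.Agent.H30T

open Pool.Agent.N783.PF
open Pool.Agent.N874.PP (Ev Sq1 U0)
open Pool.Agent.N783.PQ (LocIm tp Gm sg)
open Pool.Agent.N874.JM (LocF)

/-- `GoodS` without the condition on the trace. -/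
def GoodT {F : Type} [Field F] [NumberField F] (g W : ℕ) (S : Finset ℕ) (𝔮 : ℕ → Ideal (𝓞 F))
    (h A : ℕ → (𝓞 F)[X]) : Prop :=
  ∀ q ∈ S, q.Prime ∧ W < q ∧ 2 * g + 1 < q ∧ q % 8 = 1 ∧
    (∀ 𝔭 : Ideal (𝓞 F), 𝔭.IsPrime → (q : 𝓞 F) ∉ 𝔭 ^ 2) ∧
    (𝔮 q).IsPrime ∧ (q : 𝓞 F) ∈ 𝔮 q ∧
    (h q).Monic ∧ (h q).natDegree = 2 * g ∧ Irreducible (rd (𝔮 q) (h q)) ∧
    (A q).Monic ∧ (A q).natDegree = 2 * g + 1 ∧ True ∧
    Cg (𝔮 q) (A q) (X * h q) ∧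
    ∀ 𝔭 : Ideal (𝓞 F), 𝔭.IsPrime → (q : 𝓞 F) ∈ 𝔭 → 𝔭 ≠ 𝔮 q → Irreducible (rd 𝔭 (A q))

/-- `w` is a good prime for `f`: it does not divide two and its square does not divide the
discriminant. -/
def Gd {F : Type} [Field F] [NumberField F] (g : ℕ) (f : (𝓞 F)[X])
    (w : HeightOneSpectrum (𝓞 F)) : Prop :=
  (2 : 𝓞 F) ∉ w.asIdeal ∧ dsc g f ∉ w.asIdeal ^ 2

/-! ### Group A: local statements (ports of existing files) -/

/-- Piece INT (port of `N31/PF/Int.lean`): locally at `𝔭` the ring of integers is `𝓞 F [θ]`. -/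
def T_INT : Prop := ∀ (g : ℕ) (F L : Type) [Field F] [NumberField F] [Field L] [NumberField L]
  [Algebra F L] (f : (𝓞 F)[X]) (θ : L), IsGen g f θ →
  ∀ 𝔭 : Ideal (𝓞 F), 𝔭.IsPrime → 𝔭 ≠ ⊥ → dsc g f ∉ 𝔭 ^ 2 → ∀ x : L, IsIntegral ℤ x →
  ∃ (s : 𝓞 F) (v : Fin (2 * g + 1) → 𝓞 F), s ∉ 𝔭 ∧
    algebraMap F L (s : F) * x = ∑ i, algebraMap F L (v i : F) * θ ^ (i : ℕ)

/-- Piece EXQ (port of `N73/PF/Exq.lean`, with `T_INT`): the two primes over `𝔮 q`. -/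
def T_EXQ : Prop := ∀ (g W : ℕ) (F L : Type) [Field F] [NumberField F] [Field L] [NumberField L]
  [Algebra F L] (f : (𝓞 F)[X]) (θ : L) (S : Finset ℕ) (𝔮 : ℕ → Ideal (𝓞 F))
  (h P : ℕ → (𝓞 F)[X]), 1 ≤ g → IsGen g f θ → GoodT g W S 𝔮 h P →
  ∀ q ∈ S, Cg (𝔮 q) f (X * h q) → ∃ 𝔓₁ 𝔓₂ : HeightOneSpectrum (𝓞 L), Ov (𝔮 q) 𝔓₁ ∧
    Ov (𝔮 q) 𝔓₂ ∧ 𝔓₁.valuation L θ < 1 ∧ 𝔓₂.valuation L θ = 1 ∧
    𝔓₁.valuation L (q : L) = WithZero.exp (-1 : ℤ) ∧
    𝔓₂.valuation L (q : L) = WithZero.exp (-1 : ℤ) ∧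
    ∀ 𝔓 : HeightOneSpectrum (𝓞 L), Ov (𝔮 q) 𝔓 → 𝔓 = 𝔓₁ ∨ 𝔓 = 𝔓₂

/-- Piece CSQ (port of `N73/PF/Exq.lean`, with `T_INT`). -/
def T_CSQ : Prop := ∀ (g W : ℕ) (F L : Type) [Field F] [NumberField F] [Field L] [NumberField L]
  [Algebra F L] (f : (𝓞 F)[X]) (θ : L) (S : Finset ℕ) (𝔮 : ℕ → Ideal (𝓞 F))
  (h P : ℕ → (𝓞 F)[X]), 1 ≤ g → IsGen g f θ → GoodT g W S 𝔮 h P →
  ∀ q ∈ S, Cg (𝔮 q) f (X * h q) →
  ∀ 𝔓 : HeightOneSpectrum (𝓞 L), Ov (𝔮 q) 𝔓 → 𝔓.valuation L θ = 1 →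
    (∀ c : 𝓞 F, c ∉ 𝔮 q → Sq1 𝔓 (algebraMap F L (c : F))) ∧
    (∃ m : ℕ, Nat.card (𝓞 L ⧸ 𝔓.asIdeal) = q ^ (2 * m)) ∧
    𝔓.valuation L (aeval θ (derivative (fF f))) = 1 ∧
    ¬ Sq1 𝔓 (θ * aeval θ (derivative (fF f)))

/-- Piece RAM (port of `N459/PF/Ram.lean`): the primes which divide `f'(θ)`. -/
def T_RAM : Prop := ∀ (g : ℕ) (F L : Type) [Field F] [NumberField F] [Field L] [NumberField L]
  [Algebra F L] (f : (𝓞 F)[X]) (θ : L), IsGen g f θ →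
  ∀ 𝔭 : Ideal (𝓞 F), 𝔭.IsPrime → 𝔭 ≠ ⊥ → dsc g f ∉ 𝔭 ^ 2 →
  ∀ 𝔓₀ : HeightOneSpectrum (𝓞 L), Ov 𝔭 𝔓₀ →
    𝔓₀.valuation L (aeval θ (derivative (fF f))) < 1 →
    (∃ c : 𝓞 F, 𝔓₀.valuation L (θ - algebraMap F L (c : F)) < 1) ∧
    ∀ 𝔓 : HeightOneSpectrum (𝓞 L), Ov 𝔭 𝔓 → 𝔓 ≠ 𝔓₀ →
      𝔓.valuation L (aeval θ (derivative (fF f))) = 1

/-- Piece PAR (port of `N426/PF/Par.lean`, with `T_INT`; the theorem `parity` there is general): the
parity at a prime of degree one from the norm. -/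
def T_PAR : Prop := ∀ (g : ℕ) (F L : Type) [Field F] [NumberField F] [Field L] [NumberField L]
  [Algebra F L] (f : (𝓞 F)[X]) (θ : L), IsGen g f θ →
  ∀ 𝔭 : Ideal (𝓞 F), 𝔭.IsPrime → 𝔭 ≠ ⊥ → dsc g f ∉ 𝔭 ^ 2 →
  ∀ (𝔓₀ : HeightOneSpectrum (𝓞 L)) (c : 𝓞 F), Ov 𝔭 𝔓₀ →
    𝔓₀.valuation L (θ - algebraMap F L (c : F)) < 1 → ∀ x : L, x ≠ 0 →
    IsSquare (Algebra.norm F x) →
    (∀ 𝔓 : HeightOneSpectrum (𝓞 L), Ov 𝔭 𝔓 → 𝔓 ≠ 𝔓₀ → Ev 𝔓 x) → Ev 𝔓₀ x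

/-- Piece PARQ (port of `N426/PF/Par.lean`, with `T_INT` and `T_EXQ`). -/
def T_PARQ : Prop := ∀ (g W : ℕ) (F L : Type) [Field F] [NumberField F] [Field L] [NumberField L]
  [Algebra F L] (f : (𝓞 F)[X]) (θ : L) (S : Finset ℕ) (𝔮 : ℕ → Ideal (𝓞 F))
  (h P : ℕ → (𝓞 F)[X]), 1 ≤ g → IsGen g f θ → GoodT g W S 𝔮 h P →
  ∀ q ∈ S, Cg (𝔮 q) f (X * h q) → ∀ x : L, x ≠ 0 → IsSquare (Algebra.norm F x) →
    ∀ 𝔓 : HeightOneSpectrum (𝓞 L), Ov (𝔮 q) 𝔓 → 𝔓.valuation L θ < 1 → Ev 𝔓 x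

/-- Piece PIN (port of `N426/PF/Par.lean`): the parity at a prime modulo which `f` is irreducible. -/
def T_PIN : Prop := ∀ (g : ℕ) (F L : Type) [Field F] [NumberField F] [Field L] [NumberField L]
  [Algebra F L] (f : (𝓞 F)[X]) (θ : L), IsGen g f θ →
  ∀ 𝔭 : Ideal (𝓞 F), 𝔭.IsPrime → 𝔭 ≠ ⊥ → Irreducible (rd 𝔭 f) → ∀ x : L, x ≠ 0 →
    IsSquare (Algebra.norm F x) → ∀ 𝔓 : HeightOneSpectrum (𝓞 L), Ov 𝔭 𝔓 → Ev 𝔓 x

/-- Piece ISO2 (port of `N747/PF/Iso2.lean`, with `T_INT`): unramified classes at good primes give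
isometric forms. -/
def T_ISO2 : Prop := ∀ (g : ℕ) (F L : Type) [Field F] [NumberField F] [Field L] [NumberField L]
  [Algebra F L] (f : (𝓞 F)[X]) (θ : L), IsGen g f θ →
  ∀ w : HeightOneSpectrum (𝓞 F), Gd g f w → ∀ h : F[X], aeval θ h ≠ 0 →
  IsSquare (Algebra.norm F (aeval θ h)) →
  (∀ 𝔓 : HeightOneSpectrum (𝓞 L), Ov w.asIdeal 𝔓 → Ev 𝔓 (aeval θ h)) →
  Apx w (Gm g (fF f) 1) (Gm g (fF f) h)

/-- Piece HQ (port of `N849/PF/Hq.lean`, with `S_TFQ`, `S_HVG` (both proved), `T_INT`, `T_EXQ`,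
`T_CSQ`): the invariant at `q` in `S`. -/
def T_HQ : Prop := ∀ (g W : ℕ) (F L : Type) [Field F] [NumberField F] [Field L] [NumberField L]
  [Algebra F L] (f : (𝓞 F)[X]) (θ : L) (S : Finset ℕ) (𝔮 : ℕ → Ideal (𝓞 F))
  (r P : ℕ → (𝓞 F)[X]), 1 ≤ g → IsGen g f θ → GoodT g W S 𝔮 r P →
  ∀ q ∈ S, ∀ [Fact q.Prime], Cg (sp F q) f (P q) →
  ∀ 𝔔 : HeightOneSpectrum (𝓞 L), Ov (𝔮 q) 𝔔 → 𝔔.valuation L θ = 1 →
  ∀ h : F[X], aeval θ h ≠ 0 →
  (∀ 𝔓 : HeightOneSpectrum (𝓞 L), (q : 𝓞 L) ∈ 𝔓.asIdeal → 𝔓 ≠ 𝔔 → Ev 𝔓 (aeval θ h)) →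
  HV ((Tf (Gm g (fF f) h)).map (Rat.castHom ℚ_[q]))
    (if ¬ Ev 𝔔 (aeval θ h) ∧ ¬ Sq1 𝔔 (aeval θ h * (q * θ)) then -1 else 1)

/-! ### Group B: finiteness and translation -/

/-- Piece FIN: the elements whose valuations are even outside a finite set of primes, modulo
squares (finiteness of the class group and of the `T`-units modulo squares). -/
def T_FIN : Prop := ∀ (L : Type) [Field L] [NumberField L] (T : Set (HeightOneSpectrum (𝓞 L))),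
  T.Finite → ∃ R : Finset L, (∀ r ∈ R, r ≠ 0) ∧ ∀ α : L, α ≠ 0 →
    (∀ 𝔓 : HeightOneSpectrum (𝓞 L), 𝔓 ∉ T → Ev 𝔓 α) → ∃ r ∈ R, ∃ s : L, s ≠ 0 ∧ α = r * s ^ 2

/-- Piece TRL: translation of the polynomial. -/
def T_TRL : Prop := ∀ (F : Type) [Field F] [NumberField F] (f : (𝓞 F)[X]) (c : 𝓞 F), f.Monic →
  SelZero (f.comp (X + C c)) → SelZero f

/-- Piece DSC: the discriminant is invariant under translation and multiplied by a power of `D`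
for the twist by `D`. -/
def T_DSC : Prop := ∀ (F : Type) [Field F] [NumberField F] (g : ℕ) (f : (𝓞 F)[X]), f.Monic →
  f.natDegree = 2 * g + 1 → (∀ c : 𝓞 F, dsc g (f.comp (X + C c)) = dsc g f) ∧
  ∀ D : 𝓞 F, D ≠ 0 → dsc g (f.scaleRoots D) = D ^ ((2 * g + 1) * (2 * g)) * dsc g f

/-! ### Group C: Galois theory and Chebotarev's theorem -/

/-- Piece GRP (pure group theory). `G` acts on the `2 g + 1` points of `ι` through all the
permutations, `H` is normal with abelian quotient and contains an element which acts by an odd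
permutation, `ψ` is a quadratic character of the stabiliser of `i₁` which satisfies the norm condition
for the elements `v` acting trivially. Then `ψ` is trivial or some element of `H` fixes `i₁`,
permutes the other points cyclically and has `ψ = -1`.
Proof: `H` acts through all the permutations (in the abelian quotient of `Perm ι` by the image of `H`
all transpositions have the same image, which is trivial because of the odd element). Suppose that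
`ψ = 1` for all elements of `H` which fix `i₁` and permute the others cyclically. The elements of `H`
acting trivially have `ψ = 1`. So on the stabiliser `H₁` of `i₁` in `H` the character `ψ` factors
through the permutations of the other `2 g` points, is trivial on the `2 g`-cycles, which are odd, so
it is trivial (`Equiv.Perm.eq_sign_of_surjective_hom`). If `v` acts trivially, then
`ψ (t⁻¹ v t) = ψ v * ψ (v⁻¹ t⁻¹ v t)` for `t` in `H` and the commutator is in `H` and acts trivially;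
so the norm condition gives `ψ v ^ (2 g + 1) = 1`, `ψ v = 1`. Every element of the stabiliser is a
product of an element of `H₁` and an element acting trivially. -/
def T_GRP : Prop := ∀ (g : ℕ) (G ι : Type) [Group G] [Fintype ι] [DecidableEq ι]
  (ρ : G →* Equiv.Perm ι) (H : Subgroup G) (i₁ : ι) (ψ : G → ℤˣ), 1 ≤ g →
  Fintype.card ι = 2 * g + 1 → Function.Surjective ρ → H.Normal →
  (∀ a b : G, a * b * a⁻¹ * b⁻¹ ∈ H) → (∃ a ∈ H, Equiv.Perm.sign (ρ a) = -1) →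
  (∀ a b : G, ρ a i₁ = i₁ → ρ b i₁ = i₁ → ψ (a * b) = ψ a * ψ b) →
  (∀ v : G, ρ v = 1 → ∀ t : ι → G, (∀ i, ρ (t i) i₁ = i) → ∏ i, ψ ((t i)⁻¹ * v * t i) = 1) →
  (∃ σ ∈ H, ρ σ i₁ = i₁ ∧ (ρ σ).IsCycle ∧ (ρ σ).support = Finset.univ.erase i₁ ∧ ψ σ = -1) ∨
    ∀ a : G, ρ a i₁ = i₁ → ψ a = 1

/-- Piece ODD: an element of the Galois group which fixes the roots of unity of order `m` and acts on
the roots of `f` by an odd permutation.
Proof: by Dirichlet's theorem and quadratic reciprocity there is a large prime `q`, `q = 1` modulo `8 m`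
and modulo the primes dividing `disc f` other than `p₀`, not a square modulo `p₀`; then `disc f` is
not a square modulo `q`. Take a ring homomorphism `φ : 𝓞 N → F̄_q` and its Frobenius element `σ`
(`φ (σ x) = φ x ^ q`; see `Pool/Agent/W401/Cheb`, `torsor`, or Mathlib). It fixes the roots of unity of
order `m` and changes the sign of `∏_{i<j} (x i - x j)`. -/
def T_ODD : Prop := ∀ (N : Type) [Field N] [NumberField N] [IsGalois ℚ N] (n : ℕ) (f : ℤ[X])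
  (x : Fin n → N), f.map (Int.castRingHom N) = ∏ i, (X - C (x i)) → Function.Injective x →
  ∀ p₀ : ℕ, p₀.Prime → p₀ ≠ 2 → (p₀ : ℤ) ∣ f.discr → ¬ (p₀ : ℤ) ^ 2 ∣ f.discr →
  ∀ m : ℕ, m ≠ 0 → ¬ p₀ ∣ m →
  ∃ (σ : N ≃ₐ[ℚ] N) (π : Equiv.Perm (Fin n)), (∀ ζ : N, ζ ^ m = 1 → σ ζ = ζ) ∧
    (∀ i, σ (x i) = x (π i)) ∧ Equiv.Perm.sign π = -1

/-- The hypotheses on the polynomial: monic of degree `2 g + 1`, the Galois group is the full
symmetric group, the odd prime `p₀` divides the discriminant exactly once. -/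
structure Hyp (g : ℕ) (f : ℤ[X]) (p₀ : ℕ) : Prop where
  one : 1 ≤ g
  mon : f.Monic
  deg : f.natDegree = 2 * g + 1
  gal : Nat.card (f.map (Int.castRingHom ℚ)).Gal = (2 * g + 1).factorial
  prime : p₀.Prime
  ne : p₀ ≠ 2
  dvd : (p₀ : ℤ) ∣ f.discr
  ndvd : ¬ (p₀ : ℤ) ^ 2 ∣ f.discr

/-- Piece GAL (from `T_GRP` and `T_ODD`). `L = ℚ(θ)`, `α` in `L` is not a square, its norm is a square.
Proof: `N` is the Galois closure of the field generated by the roots `θ_i` of `f`, `β₁ = √α(θ₁)` and a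
primitive root of unity of order `m`. Apply GRP to `G = Gal(N/ℚ)`, the action on the roots of `f` (all
permutations because of the order of the Galois group), `H` the elements which fix `ζ`,
`a β₁ = ψ a * β₁`; the norm condition holds because `∏ t_i β₁` is rational. If `ψ` is trivial then `β₁`
is in `ℚ(θ₁)` and `α` is a square. So there is `σ`; `θ₂` is any other root, `β₂ = t β₁` with
`t θ₁ = θ₂`; since `β₁ * ∏_{j < 2 g} σ ^ j β₂` is rational and `σ β₁ = - β₁` we get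
`σ ^ (2 g) β₂ = - β₂`. -/
def T_GAL : Prop := ∀ (g : ℕ) (f : ℤ[X]) (p₀ : ℕ), Hyp g f p₀ →
  ∀ (L : Type) [Field L] [NumberField L] (θ : L), aeval θ f = 0 →
  Module.finrank ℚ L = 2 * g + 1 → ∀ α : L, α ≠ 0 → IsSquare (Algebra.norm ℚ α) → ¬ IsSquare α →
  ∀ m : ℕ, m ≠ 0 → ¬ p₀ ∣ m →
  ∃ (N : Type) (_ : Field N) (_ : NumberField N) (_ : IsGalois ℚ N) (σ : N ≃ₐ[ℚ] N) (ζ β₂ : N)
    (ι₁ ι₂ : L →+* N), IsPrimitiveRoot ζ m ∧ σ ζ = ζ ∧ σ (ι₁ θ) = ι₁ θ ∧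
    f.map (Int.castRingHom N) =
      (X - C (ι₁ θ)) * ∏ j ∈ Finset.range (2 * g), (X - C ((σ ^ j) (ι₂ θ))) ∧
    (σ ^ (2 * g)) (ι₂ θ) = ι₂ θ ∧ β₂ ^ 2 = ι₂ α ∧ (σ ^ (2 * g)) β₂ = -β₂

/-- The prime: the conclusion of the part on Chebotarev's theorem. -/
def T_CHEB : Prop := ∀ (g : ℕ) (f : ℤ[X]) (p₀ : ℕ), Hyp g f p₀ →
  ∀ (L : Type) [Field L] [NumberField L] (θ : L), aeval θ f = 0 →
  Module.finrank ℚ L = 2 * g + 1 → ∀ α : L, α ≠ 0 → IsSquare (Algebra.norm ℚ α) → ¬ IsSquare α →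
  ∀ m B : ℕ, m ≠ 0 → ¬ p₀ ∣ m →
  ∃ (q : ℕ) (e : ℤ) (h : ℤ[X]), q.Prime ∧ B < q ∧ q % m = 1 % m ∧ h.Monic ∧
    h.natDegree = 2 * g ∧ Irreducible (h.map (Int.castRingHom (ZMod q))) ∧
    f.map (Int.castRingHom (ZMod q)) = ((X - C e) * h).map (Int.castRingHom (ZMod q)) ∧
    ∀ 𝔓 : HeightOneSpectrum (𝓞 L), (q : 𝓞 L) ∈ 𝔓.asIdeal →
      𝔓.valuation L (θ - (e : L)) = 1 → ¬ Sq1 𝔓 α

/-- Piece RES (from `T_GAL` and `Pool.Agent.W401.Cheb.infinite_frob`).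
Proof: take `N`, `σ`, ... from GAL and a large prime `q` with a ring homomorphism `φ : 𝓞 N → F̄_q`,
`φ (σ x) = φ x ^ q`. Then `φ ζ = φ ζ ^ q` gives `q = 1` modulo `m`; `φ (ι₁ θ)` is in `F_q`, it is the
class of `e`; the elements `φ (σ ^ j (ι₂ θ)) = t ^ (q ^ j)`, `j < 2 g`, are distinct (`q` does not divide the
discriminant), they are the roots of the irreducible polynomial `h` modulo `q`. If `𝔓` is over `q` and
`θ - e` is a unit at `𝔓`, then `𝓞 L → 𝓞 L / 𝔓 → F̄_q` sends `θ` to some `t ^ (q ^ j)`, so it is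
`φ ∘ σ ^ j ∘ ι₂` (they agree on `ℤ[θ]`, whose index divides the discriminant). If
`α = s ^ 2` modulo `𝔓` then `φ (σ ^ j β₂) = ± φ (σ ^ j (ι₂ s))` is fixed by the power `q ^ (2 g)`, but
`φ (σ ^ (2 g) σ ^ j β₂) = - φ (σ ^ j β₂)`. -/
def T_RES : Prop := T_GAL → T_CHEB

end Pool.Agent.H30T
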