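import Pool.Agent.N426.PF.Par
import Pool.Agent.H30T.Stm

/-!
# Project ET (helper30), pieces PAR, PARQ and PIN (helper98)

After `N426/PF/Par.lean`; here the ring of integers has no power basis, only the local statement
`T_INT` is used in `par`; `pin` needs nothing and `parq` only `T_EXQ`.
-/

set_option autoImplicit false
set_option linter.all false

open Polynomial IsDedekindDomain WithZero UniqueFactorizationMonoid NumberField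
open scoped Classical

namespace Pool.Agent.H30T.Par

open Pool.Agent.N874.PP (Ev Sq1)
open Pool.Agent.N862.PP (cn cn_sum cn_pow val_eq)
open Pool.Agent.N783.PF (IsGen fF rd Cg Ov)
open Pool.Agent.N426.PF (toG exists_t parity cn_eq cn_deg_one ov_comap ov_iff mem_nf fd perf map_ne
  tf_O cn_irr fac)

variable {F L : Type} [Field F] [NumberField F] [Field L] [NumberField L] [Algebra F L] {g : ℕ}
  {f : (𝓞 F)[X]} {θ : L}

theorem fin_O : Module.Finite (𝓞 F) (𝓞 L) := inferInstance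

theorem finrk (h0 : IsGen g f θ) : Module.finrank (𝓞 F) (𝓞 L) = 2 * g + 1 := by
  rw [← h0.rank]
  exact (IsFractionRing.finrank_eq (𝓞 F) F (𝓞 L) L).symm

/-- the norm of `𝔭 𝓞_L` -/
theorem cn_map' (h0 : IsGen g f θ) {𝔭 : Ideal (𝓞 F)} (hpp : 𝔭.IsPrime) (hpb : 𝔭 ≠ ⊥) :
    cn (𝓞 F) 𝔭 (𝔭.map (algebraMap (𝓞 F) (𝓞 L))) = 2 * g + 1 := by
  have hirr : Irreducible 𝔭 := (Ideal.prime_of_isPrime hpb hpp).irreducible
  unfold cn
  rw [Ideal.relNorm_algebraMap, finrk h0,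
    normalizedFactors_pow, Multiset.count_nsmul,
    normalizedFactors_irreducible hirr, normalize_eq, Multiset.count_singleton_self, mul_one]

/-- **PAR.** -/
theorem par (hInt : T_INT) : T_PAR := by
  intro g F L _ _ _ _ _ f θ h0 𝔭 hp hp0 hd 𝔓₀ c hov hθ x hx hnx hoth
  have h := toG h0
  obtain ⟨t, ht⟩ := exists_t (O := 𝓞 L) h
  have hfd := fd h
  have hpf := perf (F := F)
  have hc : t - algebraMap (𝓞 F) (𝓞 L) c ∈ 𝔓₀.asIdeal := by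
    rw [← 𝔓₀.valuation_lt_one_iff_mem (K := L)]
    change 𝔓₀.valuation L (algebraMap (𝓞 L) L (t - algebraMap (𝓞 F) (𝓞 L) c)) < 1
    rw [map_sub, ht]
    exact hθ
  have hm : 𝔭.IsMaximal := hp.isMaximal hp0
  have hres : ∀ y : 𝓞 L, ∃ r : 𝓞 F, y - algebraMap (𝓞 F) (𝓞 L) r ∈ 𝔓₀.asIdeal := by
    intro y
    obtain ⟨s, v, hs, hv⟩ := hInt g F L f θ h0 𝔭 hp hp0 hd (y : L) (RingOfIntegers.isIntegral_coe y)
    -- an inverse of `s` modulo `𝔭`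
    obtain ⟨s', hs'⟩ : ∃ s' : 𝓞 F, s' * s - 1 ∈ 𝔭 := by
      obtain ⟨s', hs'⟩ := hm.exists_inv hs
      obtain ⟨a, ha, h2⟩ := hs'
      refine ⟨s', ?_⟩
      have h3 : s' * s - 1 = -a := by rw [← h2]; ring
      rw [h3]
      exact 𝔭.neg_mem ha
    have hv' : algebraMap (𝓞 F) (𝓞 L) s * y = ∑ i, algebraMap (𝓞 F) (𝓞 L) (v i) * t ^ (i : ℕ) := by
      apply IsFractionRing.injective (𝓞 L) L
      rw [map_mul, map_sum]
      have e1 : algebraMap (𝓞 L) L (algebraMap (𝓞 F) (𝓞 L) s) * algebraMap (𝓞 L) L y =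
          algebraMap F L (s : F) * (y : L) := rfl
      rw [e1, hv]
      refine Finset.sum_congr rfl fun i _ => ?_
      rw [map_mul, map_pow, ht]
      rfl
    have hsum : algebraMap (𝓞 F) (𝓞 L) s * y -
        algebraMap (𝓞 F) (𝓞 L) (∑ i, v i * c ^ (i : ℕ)) ∈ 𝔓₀.asIdeal := by
      have h1 : algebraMap (𝓞 F) (𝓞 L) s * y - algebraMap (𝓞 F) (𝓞 L) (∑ i, v i * c ^ (i : ℕ)) =
          ∑ i, algebraMap (𝓞 F) (𝓞 L) (v i) *
            (t ^ (i : ℕ) - algebraMap (𝓞 F) (𝓞 L) c ^ (i : ℕ)) := by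
        simp only [mul_sub, Finset.sum_sub_distrib, hv', map_sum, map_mul, map_pow]
      rw [h1]
      refine Ideal.sum_mem _ fun i _ => Ideal.mul_mem_left _ _ ?_
      exact Ideal.mem_of_dvd _ (sub_dvd_pow_sub_pow _ _ _) hc
    refine ⟨s' * ∑ i, v i * c ^ (i : ℕ), ?_⟩
    have h5 : algebraMap (𝓞 F) (𝓞 L) (s' * s - 1) ∈ 𝔓₀.asIdeal := hov _ hs'
    have h6 : y - algebraMap (𝓞 F) (𝓞 L) (s' * ∑ i, v i * c ^ (i : ℕ)) =
        algebraMap (𝓞 F) (𝓞 L) s' * (algebraMap (𝓞 F) (𝓞 L) s * y -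
        algebraMap (𝓞 F) (𝓞 L) (∑ i, v i * c ^ (i : ℕ))) -
        y * algebraMap (𝓞 F) (𝓞 L) (s' * s - 1) := by
      rw [map_mul, map_sub, map_mul, map_one]
      ring
    rw [h6]
    exact 𝔓₀.asIdeal.sub_mem (Ideal.mul_mem_left _ _ hsum) (Ideal.mul_mem_left _ _ h5)
  have h1 := cn_deg_one (R := 𝓞 F) hp hp0 hov hres
  exact parity (K := F) hp hp0 𝔓₀ (by rw [h1]; exact odd_one) hx hnx
    fun 𝔓 ho hne => Or.inl (hoth 𝔓 ho hne)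

/-- **PIN.** -/
theorem pin : T_PIN := by
  intro g F L _ _ _ _ _ f θ h0 𝔭 hp hp0 hf x hx hnx 𝔓 hov
  have h := toG h0
  obtain ⟨t, ht⟩ := exists_t (O := 𝓞 L) h
  have hfd := fd h
  have hI := map_ne (L := L) hp0
  have hsum := cn_map' h0 hp hp0
  rw [cn_sum _ hI] at hsum
  have hterm : ∀ 𝔔 : HeightOneSpectrum (𝓞 L), Ov 𝔭 𝔔 →
      𝔔.asIdeal ∈ (normalizedFactors (𝔭.map (algebraMap (𝓞 F) (𝓞 L)))).toFinset ∧
      cn (𝓞 F) 𝔭 𝔔.asIdeal ≤ (normalizedFactors (𝔭.map (algebraMap (𝓞 F) (𝓞 L)))).count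
        𝔔.asIdeal * cn (𝓞 F) 𝔭 𝔔.asIdeal := by
    intro 𝔔 h𝔔
    have h1 := (mem_nf hI 𝔔).2 h𝔔
    refine ⟨Multiset.mem_toFinset.2 h1, ?_⟩
    exact Nat.le_mul_of_pos_left _ (Multiset.count_pos.2 h1)
  have hle : ∀ 𝔔 : HeightOneSpectrum (𝓞 L), Ov 𝔭 𝔔 → cn (𝓞 F) 𝔭 𝔔.asIdeal = 2 * g + 1 := by
    intro 𝔔 h𝔔
    obtain ⟨h1, h2⟩ := hterm 𝔔 h𝔔
    have h3 := Finset.single_le_sum (f := fun J => (normalizedFactors (𝔭.map
      (algebraMap (𝓞 F) (𝓞 L)))).count J * cn (𝓞 F) 𝔭 J) (fun i _ => Nat.zero_le _) h1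
    rw [hsum] at h3
    have h4 := cn_irr h0 ht hp hp0 hf h𝔔
    omega
  refine parity (K := F) hp hp0 𝔓 (by rw [hle 𝔓 hov]; exact ⟨g, rfl⟩) hx hnx fun 𝔔 ho hne => ?_
  exfalso
  obtain ⟨h1, h2⟩ := hterm 𝔓 hov
  obtain ⟨h3, h4⟩ := hterm 𝔔 ho
  have hne' : 𝔔.asIdeal ≠ 𝔓.asIdeal := fun h' => hne (HeightOneSpectrum.ext h')
  have h5 : ∑ J ∈ {𝔔.asIdeal, 𝔓.asIdeal}, (normalizedFactors (𝔭.map
      (algebraMap (𝓞 F) (𝓞 L)))).count J * cn (𝓞 F) 𝔭 J ≤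
      ∑ J ∈ (normalizedFactors (𝔭.map (algebraMap (𝓞 F) (𝓞 L)))).toFinset, (normalizedFactors
        (𝔭.map (algebraMap (𝓞 F) (𝓞 L)))).count J * cn (𝓞 F) 𝔭 J := by
    refine Finset.sum_le_sum_of_subset ?_
    intro J hJ
    rw [Finset.mem_insert, Finset.mem_singleton] at hJ
    rcases hJ with rfl | rfl
    · exact h3
    · exact h1
  rw [Finset.sum_pair hne', hsum] at h5
  rw [hle 𝔓 hov] at h2 h5
  rw [hle 𝔔 ho] at h4 h5
  omega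

/-- the degree of the residue field of a prime over `𝔭` at which `θ` is not zero if
`f = X h` modulo `𝔭` and `h` is irreducible modulo `𝔭` -/
theorem cn_irr' (h0 : IsGen g f θ) {t : 𝓞 L} (ht : algebraMap (𝓞 L) L t = θ)
    {𝔭 : Ideal (𝓞 F)} (hp : 𝔭.IsPrime) (hp0 : 𝔭 ≠ ⊥) {r : (𝓞 F)[X]} (hr1 : r.Monic)
    (hr2 : r.natDegree = 2 * g) (hr3 : Irreducible (rd 𝔭 r)) (hCg : Cg 𝔭 f (X * r))
    {𝔓 : HeightOneSpectrum (𝓞 L)} (hov : Ov 𝔭 𝔓) (hu : t ∉ 𝔓.asIdeal) :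
    2 * g ≤ cn (𝓞 F) 𝔭 𝔓.asIdeal := by
  have h := toG h0
  have hpf := perf (F := F)
  have hcm := ov_comap hp hp0 hov
  have hlo : 𝔓.asIdeal.LiesOver 𝔭 := ⟨hcm.symm⟩
  have hm : 𝔭.IsMaximal := hp.isMaximal hp0
  have h1 := cn_eq (R := 𝓞 F) hp hp0 𝔓
  have h2 := (cn_pow hp hp0 𝔓.isPrime hcm).2
  have hm' : 𝔓.asIdeal.IsMaximal := 𝔓.isMaximal
  let _ : Field (𝓞 F ⧸ 𝔭) := Ideal.Quotient.field 𝔭
  let _ : Field (𝓞 L ⧸ 𝔓.asIdeal) := Ideal.Quotient.field 𝔓.asIdeal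
  have hfin : Module.Finite (𝓞 F ⧸ 𝔭) (𝓞 L ⧸ 𝔓.asIdeal) :=
    Module.finite_of_finrank_pos (by rw [← h1]; omega)
  have hroot : eval₂ (algebraMap (𝓞 F) (𝓞 L)) t f = 0 := by
    apply IsFractionRing.injective (𝓞 L) L
    rw [hom_eval₂, ht, map_zero, ← IsScalarTower.algebraMap_eq]
    exact h.root
  have hfr : rd 𝔭 f = X * rd 𝔭 r := by
    have e : rd 𝔭 f = rd 𝔭 (X * r) := by
      ext j
      rw [coeff_map, coeff_map]
      exact Ideal.Quotient.eq.2 (hCg j)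
    rw [e, rd, Polynomial.map_mul, map_X]
  have hr : aeval (Ideal.Quotient.mk 𝔓.asIdeal t) (rd 𝔭 r) = 0 := by
    have h4 : aeval (Ideal.Quotient.mk 𝔓.asIdeal t) (rd 𝔭 f) = 0 := by
      rw [aeval_def, eval₂_map]
      have h3 : (algebraMap (𝓞 F ⧸ 𝔭) (𝓞 L ⧸ 𝔓.asIdeal)).comp (Ideal.Quotient.mk 𝔭) =
          (Ideal.Quotient.mk 𝔓.asIdeal).comp (algebraMap (𝓞 F) (𝓞 L)) := by
        ext x
        rfl
      rw [h3, ← hom_eval₂, hroot, map_zero]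
    rw [hfr, map_mul, aeval_X] at h4
    rcases mul_eq_zero.1 h4 with h5 | h5
    · exact absurd (Ideal.Quotient.eq_zero_iff_mem.1 h5) hu
    · exact h5
  have hmin := minpoly.eq_of_irreducible_of_monic hr3 hr (hr1.map _)
  have hd := minpoly.natDegree_le (A := 𝓞 F ⧸ 𝔭) (Ideal.Quotient.mk 𝔓.asIdeal t)
  rw [← hmin, hr1.natDegree_map, hr2, ← h1] at hd
  exact hd

/-- **PARQ.** -/
theorem parq (hE : T_EXQ) : T_PARQ := by
  intro g W F L _ _ _ _ _ f θ S 𝔮 hh P hg h0 hS q hQS hCg x hx hnx 𝔓 hov hθ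
  have h := toG h0
  obtain ⟨t, ht⟩ := exists_t (O := 𝓞 L) h
  have hfd := fd h
  have hpf := perf (F := F)
  obtain ⟨𝔓₁, 𝔓₂, ov1, ov2, hv1, hv2, hQ1, hQ2, hall⟩ :=
    hE g W F L f θ S 𝔮 hh P hg h0 hS q hQS hCg
  obtain ⟨hqp, -, -, -, -, hp, hqm, hr1, hr2, hr3, -⟩ := hS q hQS
  have hq0 : (q : 𝓞 F) ≠ 0 := Nat.cast_ne_zero.2 hqp.ne_zero
  have hp0 : 𝔮 q ≠ ⊥ := by
    intro h'
    rw [h', Ideal.mem_bot] at hqm
    exact hq0 hqm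
  have h𝔓 : 𝔓 = 𝔓₁ := by
    rcases hall 𝔓 hov with h' | h'
    · exact h'
    · rw [h', hv2] at hθ
      exact absurd hθ (lt_irrefl _)
  have hne : 𝔓₁ ≠ 𝔓₂ := by
    intro h'
    rw [h', hv2] at hv1
    exact absurd hv1 (lt_irrefl _)
  obtain ⟨hc1, hc2, hset⟩ := fac hp0 hqm hqp.ne_zero hne ov1 ov2 hQ1 hQ2 hall
  have ht2 : t ∉ 𝔓₂.asIdeal := by
    intro hmem
    rw [← 𝔓₂.valuation_lt_one_iff_mem (K := L)] at hmem
    change 𝔓₂.valuation L (algebraMap (𝓞 L) L t) < 1 at hmem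
    rw [ht, hv2] at hmem
    exact absurd hmem (lt_irrefl _)
  have h2 := cn_irr' h0 ht hp hp0 hr1 hr2 hr3 hCg ov2 ht2
  have h1 : 0 < cn (𝓞 F) (𝔮 q) 𝔓₁.asIdeal := by
    have := (cn_pow hp hp0 𝔓₁.isPrime (ov_comap hp hp0 ov1)).2
    omega
  have hsum := cn_map' h0 hp hp0
  rw [cn_sum _ (map_ne (L := L) hp0), hset,
    Finset.sum_pair (fun h' => hne (HeightOneSpectrum.ext h')), hc1, hc2] at hsum
  have h3 : cn (𝓞 F) (𝔮 q) 𝔓₁.asIdeal = 1 := by omega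
  have h4 : cn (𝓞 F) (𝔮 q) 𝔓₂.asIdeal = 2 * g := by omega
  rw [h𝔓]
  refine parity (K := F) hp hp0 𝔓₁ (by rw [h3]; exact odd_one) hx hnx fun 𝔓' ho hne' => Or.inr ?_
  rcases hall 𝔓' ho with h' | h'
  · exact absurd h' hne'
  · rw [h', h4]
    exact even_two_mul g

end Pool.Agent.H30T.Par
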