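import Pool.Agent.W54.Cheb.Tor

/-!
# Project ET, piece RES: auxiliary statements
-/

set_option autoImplicit false

open Polynomial IsDedekindDomain NumberField

namespace Pool.Agent.H30T.ResA

open Pool.Agent.W401.Cheb

/-- Nonzero integral elements are units at the large primes. -/
theorem exists_large {N : Type} [Field N] [NumberField N] (z : 𝓞 N) (hz : z ≠ 0) :
    ∃ M : ℕ, ∀ q : ℕ, M < q → ∀ (k : Type) [Field k] [CharP k q] (φ : 𝓞 N →+* k), φ z ≠ 0 := by
  refine ⟨(Algebra.norm ℤ z).natAbs, fun q hq k _ _ φ h => ?_⟩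
  have h1 := W54.ChTor.norm_mem z φ h
  rw [CharP.cast_eq_zero_iff k q] at h1
  have h2 : (Algebra.norm ℤ z).natAbs ≠ 0 := by
    rw [Int.natAbs_ne_zero]
    exact Algebra.norm_ne_zero_iff.2 hz
  have h3 := Nat.le_of_dvd (Nat.pos_of_ne_zero h2) h1
  omega

/-- The powers of the Frobenius automorphism. -/
theorem frob_pow {N : Type} [Field N] [NumberField N] {k : Type} [Field k] {q : ℕ}
    {φ : 𝓞 N →+* k} {σ : Gal(N/ℚ)} (h : HasFrob q φ σ) (i : ℕ) (x : 𝓞 N) :
    φ ((σ ^ i) • x) = φ x ^ (q ^ i) := by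
  induction i generalizing x with
  | zero => rw [pow_zero, one_smul, pow_zero, pow_one]
  | succ i ih => rw [pow_succ', mul_smul, h, ih, ← pow_mul, pow_succ]

/-- The residue field at a prime over `q`. -/
theorem exists_residue {L : Type} [Field L] [NumberField L] (q : ℕ) [Fact q.Prime]
    (𝔓 : HeightOneSpectrum (𝓞 L)) (hq : (q : 𝓞 L) ∈ 𝔓.asIdeal) :
    ∃ ψ : 𝓞 L →+* AlgebraicClosure (ZMod q), ∀ x, ψ x = 0 ↔ x ∈ 𝔓.asIdeal := by
  have hm : 𝔓.asIdeal.IsMaximal := 𝔓.isMaximal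
  let _ : Field (𝓞 L ⧸ 𝔓.asIdeal) := Ideal.Quotient.field 𝔓.asIdeal
  have hp0 : ((q : ℕ) : 𝓞 L ⧸ 𝔓.asIdeal) = 0 := by
    have h2 := Ideal.Quotient.eq_zero_iff_mem.mpr hq
    rwa [map_natCast] at h2
  have : CharP (𝓞 L ⧸ 𝔓.asIdeal) q := (CharP.charP_iff_prime_eq_zero Fact.out).mpr hp0
  let _ : Algebra (ZMod q) (𝓞 L ⧸ 𝔓.asIdeal) := ZMod.algebra _ q
  have : Algebra.IsAlgebraic (ZMod q) (𝓞 L ⧸ 𝔓.asIdeal) := by
    constructor
    intro y
    obtain ⟨b, rfl⟩ := Ideal.Quotient.mk_surjective y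
    obtain ⟨P, hP, hP'⟩ := Algebra.IsIntegral.isIntegral (R := ℤ) b
    apply IsIntegral.isAlgebraic
    refine ⟨P.map (Int.castRingHom (ZMod q)), hP.map _, ?_⟩
    rw [eval₂_map]
    have h3 : (algebraMap (ZMod q) (𝓞 L ⧸ 𝔓.asIdeal)).comp (Int.castRingHom (ZMod q)) =
        (Ideal.Quotient.mk 𝔓.asIdeal).comp (algebraMap ℤ (𝓞 L)) := Subsingleton.elim _ _
    rw [h3, ← hom_eval₂, hP', map_zero]
  let ℓ : (𝓞 L ⧸ 𝔓.asIdeal) →ₐ[ZMod q] AlgebraicClosure (ZMod q) := IsAlgClosed.lift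
  refine ⟨(ℓ : (𝓞 L ⧸ 𝔓.asIdeal) →+* AlgebraicClosure (ZMod q)).comp
    (Ideal.Quotient.mk 𝔓.asIdeal), fun x => ?_⟩
  rw [RingHom.comp_apply, map_eq_zero, Ideal.Quotient.eq_zero_iff_mem]

/-- The index. -/
theorem exists_index {L : Type} [Field L] [NumberField L] (t : 𝓞 L)
    (ht : ∀ x : L, ∃ P : ℚ[X], x = aeval (t : L) P) :
    ∃ D : ℕ, D ≠ 0 ∧ ∀ x : 𝓞 L, ∃ P : ℤ[X], (D : 𝓞 L) * x = aeval t P := by
  classical
  have h1 : ∀ x : 𝓞 L, ∃ D : ℕ, D ≠ 0 ∧ ∃ P : ℤ[X], (D : 𝓞 L) * x = aeval t P := by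
    intro x
    obtain ⟨P, hP⟩ := ht x
    obtain ⟨b, hb, hbP⟩ := IsLocalization.integerNormalization_spec (nonZeroDivisors ℤ) P
    have hb0 : b ≠ 0 := nonZeroDivisors.ne_zero hb
    have h2 : ((b : 𝓞 L) * x : 𝓞 L) =
        aeval t (IsLocalization.integerNormalization (nonZeroDivisors ℤ) P) := by
      apply RingOfIntegers.coe_injective
      rw [← aeval_algebraMap_apply L t, ← aeval_map_algebraMap ℚ, hbP, map_zsmul, ← hP, map_mul,
        map_intCast, zsmul_eq_mul]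
    refine ⟨b.natAbs, Int.natAbs_ne_zero.2 hb0, ?_⟩
    have h4 : ∀ n : ℕ, (n : 𝓞 L) = ((n : ℤ) : 𝓞 L) := fun n => (Int.cast_natCast n).symm
    rcases Int.natAbs_eq b with h3 | h3
    · refine ⟨IsLocalization.integerNormalization (nonZeroDivisors ℤ) P, ?_⟩
      rw [← h2, h4, ← h3]
    · refine ⟨-IsLocalization.integerNormalization (nonZeroDivisors ℤ) P, ?_⟩
      have h5 : ((b.natAbs : ℕ) : ℤ) = -b := by omega
      rw [map_neg, ← h2, h4, h5, Int.cast_neg, neg_mul]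
  choose D hD P hP using h1
  obtain ⟨s, hs⟩ := Module.Finite.fg_top (R := ℤ) (M := 𝓞 L)
  refine ⟨∏ x ∈ s, D x, Finset.prod_ne_zero_iff.2 fun x _ => hD x, fun x => ?_⟩
  have hx : x ∈ Submodule.span ℤ (s : Set (𝓞 L)) := hs ▸ Submodule.mem_top
  induction hx using Submodule.span_induction with
  | mem x hx =>
    rw [← Finset.mul_prod_erase s D hx]
    refine ⟨((∏ y ∈ s.erase x, D y : ℕ) : ℤ[X]) * P x, ?_⟩
    rw [map_mul, ← hP, map_natCast]
    push_cast
    ring
  | zero => exact ⟨0, by simp⟩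
  | add x y _ _ hx hy =>
    obtain ⟨P, hP⟩ := hx
    obtain ⟨Q, hQ⟩ := hy
    exact ⟨P + Q, by rw [map_add, ← hP, ← hQ, mul_add]⟩
  | smul a x _ hx =>
    obtain ⟨P, hP⟩ := hx
    refine ⟨(a : ℤ[X]) * P, ?_⟩
    rw [map_mul, ← hP, map_intCast, zsmul_eq_mul]
    ring

/-- Homomorphisms which agree at a generator. -/
theorem hom_eq {L : Type} [Field L] [NumberField L] (t : 𝓞 L) (D : ℕ)
    (hD : ∀ x : 𝓞 L, ∃ P : ℤ[X], (D : 𝓞 L) * x = aeval t P) {k : Type} [Field k]
    (hk : (D : k) ≠ 0) (ψ ψ' : 𝓞 L →+* k) (h : ψ t = ψ' t) : ψ = ψ' := by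
  ext x
  obtain ⟨P, hP⟩ := hD x
  have key : ∀ φ : 𝓞 L →+* k, φ (aeval t P) = eval₂ (Int.castRingHom k) (φ t) P := by
    intro φ
    rw [aeval_def, hom_eval₂]
    congr 1
    exact Subsingleton.elim _ _
  have h1 := congrArg ψ hP
  have h2 := congrArg ψ' hP
  rw [key, map_mul, map_natCast] at h1 h2
  rw [h] at h1
  exact mul_left_cancel₀ hk (h1.trans h2.symm)

/-- The polynomial modulo `q`. -/
theorem poly_part (g q : ℕ) [Fact q.Prime] (f : ℤ[X]) (hmon : f.Monic)
    (hdeg : f.natDegree = 2 * g + 1) (e₀ t : AlgebraicClosure (ZMod q)) (he₀ : e₀ ^ q = e₀)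
    (hf : f.map (Int.castRingHom (AlgebraicClosure (ZMod q))) =
      (X - C e₀) * ∏ j ∈ Finset.range (2 * g), (X - C (t ^ (q ^ j))))
    (hinj : ∀ i < 2 * g, ∀ j < 2 * g, t ^ (q ^ i) = t ^ (q ^ j) → i = j) (hg : 1 ≤ g) :
    ∃ (e : ℤ) (h : ℤ[X]), (e : AlgebraicClosure (ZMod q)) = e₀ ∧ h.Monic ∧ h.natDegree = 2 * g ∧
      Irreducible (h.map (Int.castRingHom (ZMod q))) ∧
      f.map (Int.castRingHom (ZMod q)) = ((X - C e) * h).map (Int.castRingHom (ZMod q)) := by
  classical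
  obtain ⟨z, hz⟩ := W54.ChTor.frob_fixed q e₀ he₀
  obtain ⟨e, he⟩ := ZMod.intCast_surjective z
  set fF := f.map (Int.castRingHom (ZMod q)) with hfF
  have hmap : fF.map (algebraMap (ZMod q) (AlgebraicClosure (ZMod q))) = f.map (Int.castRingHom (AlgebraicClosure (ZMod q))) := by
    rw [hfF, Polynomial.map_map]
    congr 1
  have hfm : fF.Monic := hmon.map _
  have hroot : fF.IsRoot z := by
    rw [IsRoot.def]
    apply (algebraMap (ZMod q) (AlgebraicClosure (ZMod q))).injective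
    rw [map_zero, ← eval_map_apply, hmap, hf, hz, eval_mul, eval_sub, eval_X, eval_C, sub_self,
      zero_mul]
  obtain ⟨hF, hhF⟩ := dvd_iff_isRoot.2 hroot
  have hhm : hF.Monic := (monic_X_sub_C z).of_mul_monic_left (hhF ▸ hfm)
  have hfd : fF.natDegree = 2 * g + 1 := by rw [hfF, hmon.natDegree_map, hdeg]
  have hhd : hF.natDegree = 2 * g := by
    rw [hhF, (monic_X_sub_C z).natDegree_mul hhm, natDegree_X_sub_C] at hfd
    omega
  have hprod : hF.map (algebraMap (ZMod q) (AlgebraicClosure (ZMod q))) =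
      ∏ j ∈ Finset.range (2 * g), (X - C (t ^ (q ^ j))) := by
    have h1 := hmap
    rw [hf, hhF, Polynomial.map_mul, Polynomial.map_sub, map_X, map_C, hz] at h1
    exact mul_left_cancel₀ (X_sub_C_ne_zero e₀) h1
  have hint : IsIntegral (ZMod q) t := (Algebra.IsAlgebraic.isAlgebraic t).isIntegral
  have hroots : ∀ j, aeval (t ^ (q ^ j)) (minpoly (ZMod q) t) = 0 := by
    intro j
    induction j with
    | zero => rw [pow_zero, pow_one, minpoly.aeval]
    | succ j ih =>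
      rw [pow_succ, pow_mul, ← expand_aeval, ZMod.expand_card, map_pow, ih,
        zero_pow (Fact.out : q.Prime).ne_zero]
  have hdvd : minpoly (ZMod q) t ∣ hF := by
    apply minpoly.dvd
    rw [← eval_map_algebraMap, hprod, eval_prod]
    apply Finset.prod_eq_zero (Finset.mem_range.2 (show 0 < 2 * g by omega))
    rw [pow_zero, pow_one, eval_sub, eval_X, eval_C, sub_self]
  have hcard : 2 * g ≤ (minpoly (ZMod q) t).natDegree := by
    have h0 : (minpoly (ZMod q) t).map (algebraMap (ZMod q) (AlgebraicClosure (ZMod q))) ≠ 0 :=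
      ((minpoly.monic hint).map _).ne_zero
    have h1 : ((Finset.range (2 * g)).image fun j => t ^ (q ^ j)).card = 2 * g := by
      rw [Finset.card_image_of_injOn, Finset.card_range]
      intro i hi j hj hij
      exact hinj i (Finset.mem_range.1 hi) j (Finset.mem_range.1 hj) hij
    have h2 : ((Finset.range (2 * g)).image fun j => t ^ (q ^ j)) ⊆
        ((minpoly (ZMod q) t).map (algebraMap (ZMod q) (AlgebraicClosure (ZMod q)))).roots.toFinset := by
      intro y hy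
      obtain ⟨j, -, rfl⟩ := Finset.mem_image.1 hy
      rw [Multiset.mem_toFinset, mem_roots h0, IsRoot.def, eval_map_algebraMap]
      exact hroots j
    have h3 := Finset.card_le_card h2
    rw [h1] at h3
    refine h3.trans ((Multiset.toFinset_card_le _).trans ((card_roots' _).trans ?_))
    rw [(minpoly.monic hint).natDegree_map]
  have heq : hF = minpoly (ZMod q) t :=
    eq_of_monic_of_dvd_of_natDegree_le (minpoly.monic hint) hhm hdvd (by rw [hhd]; exact hcard)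
  obtain ⟨h, hh1, hh2, hh3⟩ := lifts_and_natDegree_eq_and_monic (f := Int.castRingHom (ZMod q))
    (p := hF) (by
      rw [lifts_iff_coeff_lifts]
      intro i
      exact ZMod.intCast_surjective _) hhm
  refine ⟨e, h, ?_, hh3, hh2.trans hhd, ?_, ?_⟩
  · rw [← hz, ← he, map_intCast]
  · rw [hh1, heq]
    exact minpoly.irreducible hint
  · rw [Polynomial.map_mul, hh1, hhF, Polynomial.map_sub, map_X, map_C]
    congr 3
    rw [← he]
    rfl

/-- The roots are simple. -/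
theorem separable_of_discr (f : ℤ[X]) (hmon : f.Monic) (hd : 0 < f.natDegree)
    (hdisc : f.discr ≠ 0) (N : Type) [Field N] [CharZero N] :
    (f.map (Int.castRingHom N)).Separable := by
  obtain ⟨p, r, -, -, h⟩ := exists_mul_add_mul_eq_C_resultant f (derivative f)
    (m := f.natDegree) (n := f.natDegree - 1) le_rfl (natDegree_derivative_le f) (Or.inl hd.ne')
  rw [resultant_deriv (natDegree_pos_iff_degree_pos.1 hd), hmon.leadingCoeff, mul_one] at h
  set c : ℤ := (-1) ^ (f.natDegree * (f.natDegree - 1) / 2) * f.discr with hc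
  have hc0 : c ≠ 0 := mul_ne_zero (pow_ne_zero _ (by norm_num)) hdisc
  have hcN : (c : N) ≠ 0 := Int.cast_ne_zero.2 hc0
  have h1 := congrArg (Polynomial.map (Int.castRingHom N)) h
  rw [Polynomial.map_add, Polynomial.map_mul, Polynomial.map_mul, map_C] at h1
  refine ⟨C ((c : N)⁻¹) * p.map (Int.castRingHom N), C ((c : N)⁻¹) * r.map (Int.castRingHom N), ?_⟩
  rw [derivative_map]
  have h2 : C ((c : N)⁻¹) * (f.map (Int.castRingHom N) * p.map (Int.castRingHom N) +
      (derivative f).map (Int.castRingHom N) * r.map (Int.castRingHom N)) = 1 := by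
    rw [h1, ← C_mul]
    have : (c : N)⁻¹ * (Int.castRingHom N) c = 1 := inv_mul_cancel₀ hcN
    rw [this, C_1]
  rw [← h2]
  ring

end Pool.Agent.H30T.ResA
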