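import Pool.Agent.H30T.Stm
import Pool.Agent.H30T.ResA
import Pool.Agent.W401.Cheb.Main

/-!
# Project ET, piece RES: the prime `q` from Chebotarev's theorem
-/

set_option autoImplicit false

open Polynomial IsDedekindDomain NumberField

namespace Pool.Agent.H30T

open Pool.Agent.W401.Cheb
open Pool.Agent.N874.PP (Ev Sq1 U0)

namespace ResA

/-- The case where `α` is a square at `𝔓` is impossible. -/
theorem sq_part {L N : Type} [Field L] [NumberField L] [Field N] [NumberField N]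
    (σ : Gal(N/ℚ)) (ι₂ : L →+* N) (β₂ : N) (g q j : ℕ) [Fact q.Prime] (hq2 : q ≠ 2)
    (φ : 𝓞 N →+* AlgebraicClosure (ZMod q)) (hφ : HasFrob q φ σ)
    (hfix : ∀ x : L, (σ ^ (2 * g)) (ι₂ x) = ι₂ x) (α : L) (hβ : β₂ ^ 2 = ι₂ α)
    (hσβ : (σ ^ (2 * g)) β₂ = -β₂) (a b : 𝓞 L) (hb : b ≠ 0) (hα : α = algebraMap (𝓞 L) L a / algebraMap (𝓞 L) L b)
    (hc : φ (RingOfIntegers.mapRingHom ι₂ (a * b)) ≠ 0)
    (𝔓 : HeightOneSpectrum (𝓞 L)) (ψ : 𝓞 L →+* AlgebraicClosure (ZMod q))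
    (hψ : ∀ x, ψ x = 0 ↔ x ∈ 𝔓.asIdeal)
    (hψφ : ∀ x, ψ x = φ ((σ ^ j) • RingOfIntegers.mapRingHom ι₂ x)) : ¬ Sq1 𝔓 α := by
  rintro ⟨s, hs⟩
  have hbL : (algebraMap (𝓞 L) L b) ≠ 0 := RingOfIntegers.coe_ne_zero_iff.2 hb
  -- the element `β`
  have hβint : IsIntegral ℤ (ι₂ (algebraMap (𝓞 L) L b) * β₂) := by
    have h1 : (ι₂ (algebraMap (𝓞 L) L b) * β₂) ^ 2 = algebraMap (𝓞 N) N (RingOfIntegers.mapRingHom ι₂ (a * b)) := by
      rw [mul_pow, hβ, hα]
      show _ = ι₂ (algebraMap (𝓞 L) L (a * b))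
      rw [← map_pow, ← map_mul]
      congr 1
      rw [map_mul]
      field_simp
    exact IsIntegral.of_pow (n := 2) (by norm_num) (by rw [h1]; exact RingOfIntegers.isIntegral_coe _)
  obtain ⟨β, hβ'⟩ : ∃ β : 𝓞 N, (algebraMap (𝓞 N) N β) = ι₂ (algebraMap (𝓞 L) L b) * β₂ := ⟨⟨_, hβint⟩, rfl⟩
  have hββ : β ^ 2 = RingOfIntegers.mapRingHom ι₂ (a * b) := by
    apply RingOfIntegers.coe_injective
    rw [map_pow, hβ', mul_pow, hβ, hα]
    show _ = ι₂ (algebraMap (𝓞 L) L (a * b))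
    rw [← map_pow, ← map_mul]
    congr 1
    rw [map_mul]
    field_simp
  have hσβ' : (σ ^ (2 * g)) • β = -β := by
    apply RingOfIntegers.coe_injective
    show (σ ^ (2 * g)) (algebraMap (𝓞 N) N β) = -(algebraMap (𝓞 N) N β)
    rw [hβ', map_mul, hfix, hσβ]
    ring
  have hfix' : ∀ x : 𝓞 L, (σ ^ (2 * g)) • RingOfIntegers.mapRingHom ι₂ x =
      RingOfIntegers.mapRingHom ι₂ x := by
    intro x
    apply RingOfIntegers.coe_injective
    exact hfix (algebraMap (𝓞 L) L x)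
  -- the valuations
  have hcψ : ψ (a * b) ≠ 0 := by
    rw [hψφ, frob_pow hφ]
    exact pow_ne_zero _ hc
  have hcv : 𝔓.valuation L (algebraMap (𝓞 L) L (a * b)) = 1 := by
    rw [𝔓.valuation_eq_one_iff_notMem]
    intro h
    exact hcψ ((hψ _).2 h)
  have hlt : 𝔓.valuation L ((algebraMap (𝓞 L) L (a * b)) - ((algebraMap (𝓞 L) L b) * s) ^ 2) < 1 := by
    have h1 : (algebraMap (𝓞 L) L (a * b)) - ((algebraMap (𝓞 L) L b) * s) ^ 2 = (algebraMap (𝓞 L) L b) ^ 2 * (α - s ^ 2) := by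
      rw [hα, map_mul]
      field_simp
    have h2 : (algebraMap (𝓞 L) L (a * b)) = (algebraMap (𝓞 L) L b) ^ 2 * α := by
      rw [hα, map_mul]
      field_simp
    rw [h1, map_mul, ← hcv, h2, map_mul]
    refine (mul_lt_mul_iff_right₀ ?_).2 hs
    rw [zero_lt_iff, Valuation.ne_zero_iff]
    exact pow_ne_zero _ hbL
  have hle : 𝔓.valuation L ((algebraMap (𝓞 L) L b) * s) ≤ 1 := by
    have h1 : 𝔓.valuation L (((algebraMap (𝓞 L) L b) * s) ^ 2) ≤ 1 := by
      have h2 : ((algebraMap (𝓞 L) L b) * s) ^ 2 = (algebraMap (𝓞 L) L (a * b)) - ((algebraMap (𝓞 L) L (a * b)) - ((algebraMap (𝓞 L) L b) * s) ^ 2) := by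
        ring
      rw [h2]
      exact (Valuation.map_sub _ _ _).trans (max_le hcv.le hlt.le)
    rw [map_pow] at h1
    exact (pow_le_one_iff (by norm_num)).1 h1
  obtain ⟨x, ⟨y, hy⟩, hxy⟩ := HeightOneSpectrum.exists_primeCompl_mul_eq_of_integer 𝔓 _ hle
  have hyv : 𝔓.valuation L (algebraMap (𝓞 L) L y) = 1 := by
    rw [𝔓.valuation_eq_one_iff_notMem]
    exact hy
  have hmem : a * b * y ^ 2 - x ^ 2 ∈ 𝔓.asIdeal := by
    refine (𝔓.valuation_lt_one_iff_mem (K := L) _).1 ?_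
    show 𝔓.valuation L (algebraMap (𝓞 L) L (a * b * y ^ 2 - x ^ 2)) < 1
    have h1 : (algebraMap (𝓞 L) L (a * b * y ^ 2 - x ^ 2)) =
        (algebraMap (𝓞 L) L y) ^ 2 * ((algebraMap (𝓞 L) L (a * b)) - ((algebraMap (𝓞 L) L b) * s) ^ 2) := by
      have h2 : ((algebraMap (𝓞 L) L b) * s) * (algebraMap (𝓞 L) L y) = (algebraMap (𝓞 L) L x) := hxy
      rw [map_sub, map_mul, map_pow, map_pow, ← h2]
      ring
    rw [h1, map_mul, map_pow, hyv, one_pow, one_mul]
    exact hlt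
  have hψxy := (hψ _).2 hmem
  rw [map_sub, map_mul, map_pow, map_pow, sub_eq_zero] at hψxy
  have hyψ : ψ y ≠ 0 := fun h => hy ((hψ _).1 h)
  -- the Frobenius automorphism
  obtain ⟨u, hu⟩ : ∃ u, u = φ ((σ ^ j) • β) := ⟨_, rfl⟩
  have hu2 : u ^ 2 = ψ (a * b) := by
    rw [hu, hψφ, ← hββ, ← map_pow, smul_pow']
  have hu0 : u ≠ 0 := by
    intro h
    rw [h] at hu2
    exact hcψ (by rw [← hu2]; ring)
  have hcomm : ∀ z : 𝓞 N, φ ((σ ^ j) • z) ^ (q ^ (2 * g)) = φ ((σ ^ j) • ((σ ^ (2 * g)) • z)) := by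
    intro z
    rw [← frob_pow hφ, ← mul_smul, ← mul_smul, ← pow_add, ← pow_add, add_comm]
  have hxF : ψ x ^ (q ^ (2 * g)) = ψ x := by
    rw [hψφ, hcomm, hfix']
  have hyF : ψ y ^ (q ^ (2 * g)) = ψ y := by
    rw [hψφ, hcomm, hfix']
  have huF : u ^ (q ^ (2 * g)) = -u := by
    rw [hu, hcomm, hσβ', smul_neg, map_neg]
  have hq := (Fact.out : q.Prime)
  have hsq : (u * ψ y - ψ x) * (u * ψ y + ψ x) = 0 := by
    have h1 : u ^ 2 * ψ y ^ 2 = ψ x ^ 2 := by rw [hu2]; exact hψxy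
    linear_combination h1
  have hodd : Odd (q ^ (2 * g)) := (hq.odd_of_ne_two hq2).pow
  have key : -(u * ψ y) = u * ψ y := by
    rcases mul_eq_zero.1 hsq with h | h
    · have h1 : u * ψ y = ψ x := sub_eq_zero.1 h
      have h2 := congrArg (fun z => z ^ (q ^ (2 * g))) h1
      simp only [mul_pow, huF, hyF, hxF] at h2
      rw [← neg_mul, h2, h1]
    · have h1 : u * ψ y = -ψ x := eq_neg_of_add_eq_zero_left h
      have h2 := congrArg (fun z => z ^ (q ^ (2 * g))) h1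
      simp only [mul_pow, huF, hyF] at h2
      rw [hodd.neg_pow, hxF] at h2
      rw [← neg_mul, h2, h1]
  have h2 : (2 : AlgebraicClosure (ZMod q)) * (u * ψ y) = 0 := by
    linear_combination -key
  rcases mul_eq_zero.1 h2 with h | h
  · have h3 : ((2 : ℕ) : AlgebraicClosure (ZMod q)) = 0 := by exact_mod_cast h
    rw [CharP.cast_eq_zero_iff (AlgebraicClosure (ZMod q)) q] at h3
    exact hq2 ((Nat.prime_dvd_prime_iff_eq hq Nat.prime_two).1 h3)
  · exact mul_ne_zero hu0 hyψ h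

/-- The field is generated by `θ`. -/
theorem gen_part {L N : Type} [Field L] [NumberField L] [Field N] [NumberField N]
    (g : ℕ) (hg : 1 ≤ g) (ι₂ : L →+* N) (σ : Gal(N/ℚ)) (θ : L)
    (hrk : Module.finrank ℚ L = 2 * g + 1)
    (hinj : ∀ i < 2 * g, ∀ j < 2 * g, (σ ^ i) (ι₂ θ) = (σ ^ j) (ι₂ θ) → i = j) (x : L) :
    ∃ P : ℚ[X], x = aeval θ P := by
  classical
  have hint : IsIntegral ℚ θ := (Algebra.IsAlgebraic.isAlgebraic θ).isIntegral
  have hroots : ∀ j, aeval ((σ ^ j) (ι₂ θ)) (minpoly ℚ θ) = 0 := by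
    intro j
    have h1 : aeval (ι₂ θ) (minpoly ℚ θ) = 0 := by
      have h2 := congrArg ι₂ (minpoly.aeval ℚ θ)
      rw [map_zero, aeval_def, hom_eval₂] at h2
      rw [aeval_def, Subsingleton.elim (algebraMap ℚ N) (ι₂.comp (algebraMap ℚ L))]
      exact h2
    rw [aeval_algHom_apply (σ ^ j : Gal(N/ℚ)), h1, map_zero]
  have hcard : 2 * g ≤ (minpoly ℚ θ).natDegree := by
    have h0 : (minpoly ℚ θ).map (algebraMap ℚ N) ≠ 0 := ((minpoly.monic hint).map _).ne_zero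
    have h1 : ((Finset.range (2 * g)).image fun j => (σ ^ j) (ι₂ θ)).card = 2 * g := by
      rw [Finset.card_image_of_injOn, Finset.card_range]
      intro i hi j hj hij
      exact hinj i (Finset.mem_range.1 hi) j (Finset.mem_range.1 hj) hij
    have h2 : ((Finset.range (2 * g)).image fun j => (σ ^ j) (ι₂ θ)) ⊆
        ((minpoly ℚ θ).map (algebraMap ℚ N)).roots.toFinset := by
      intro y hy
      obtain ⟨j, -, rfl⟩ := Finset.mem_image.1 hy
      rw [Multiset.mem_toFinset, mem_roots h0, IsRoot.def, eval_map_algebraMap]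
      exact hroots j
    have h3 := Finset.card_le_card h2
    rw [h1] at h3
    refine h3.trans ((Multiset.toFinset_card_le _).trans ((card_roots' _).trans ?_))
    rw [(minpoly.monic hint).natDegree_map]
  have hfr := IntermediateField.adjoin.finrank hint
  have hmul : Module.finrank ℚ (IntermediateField.adjoin ℚ {θ}) *
      Module.finrank (IntermediateField.adjoin ℚ {θ}) L = Module.finrank ℚ L :=
    Module.finrank_mul_finrank _ _ _
  rw [hfr, hrk] at hmul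
  have h1 : Module.finrank (IntermediateField.adjoin ℚ {θ}) L = 1 := by
    have hpos : 0 < Module.finrank (IntermediateField.adjoin ℚ {θ}) L := Module.finrank_pos
    by_contra hne
    have h2 : 2 ≤ Module.finrank (IntermediateField.adjoin ℚ {θ}) L := by omega
    have h3 := Nat.mul_le_mul hcard h2
    omega
  have htop : IntermediateField.adjoin ℚ {θ} = ⊤ := IntermediateField.finrank_eq_one_iff_eq_top.1 h1
  have hx : x ∈ IntermediateField.adjoin ℚ {θ} := htop ▸ IntermediateField.mem_top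
  have hx' : x ∈ (IntermediateField.adjoin ℚ {θ}).toSubalgebra := hx
  rw [IntermediateField.adjoin_simple_toSubalgebra_of_isAlgebraic hint.isAlgebraic,
    Algebra.adjoin_singleton_eq_range_aeval] at hx'
  obtain ⟨P, hP⟩ := hx'
  exact ⟨P, hP.symm⟩

end ResA

open ResA

/-- **RES.** The prime `q`. -/
theorem res : T_RES := by
  intro hGAL g f p₀ hyp L _ _ θ hθ hrk α hα hnorm hns m B hm hpm
  classical
  obtain ⟨N, _, _, _, σ, ζ, β₂, ι₁, ι₂, hζ, hσζ, hσθ, hf, hσ2, hβ, hσβ⟩ :=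
    hGAL g f p₀ hyp L θ hθ hrk α hα hnorm hns m hm hpm
  have hg := hyp.one
  have hdisc : f.discr ≠ 0 := by
    intro h
    apply hyp.ndvd
    rw [h]
    exact dvd_zero _
  have hsep := separable_of_discr f hyp.mon (by rw [hyp.deg]; omega) hdisc N
  rw [hf] at hsep
  have hinj : ∀ i < 2 * g, ∀ j < 2 * g, (σ ^ i) (ι₂ θ) = (σ ^ j) (ι₂ θ) → i = j := by
    have h1 := separable_prod_X_sub_C_iff'.1 hsep.of_mul_right
    intro i hi j hj hij
    exact h1 i (Finset.mem_range.2 hi) j (Finset.mem_range.2 hj) hij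
  have hne : ∀ j < 2 * g, ι₁ θ ≠ (σ ^ j) (ι₂ θ) := by
    intro j hj heq
    have h1 := hsep.isCoprime
    obtain ⟨u, v, huv⟩ := h1
    have h2 := congrArg (eval (ι₁ θ)) huv
    rw [eval_add, eval_mul, eval_mul, eval_sub, eval_X, eval_C, sub_self, mul_zero, zero_add,
      eval_prod, Finset.prod_eq_zero (Finset.mem_range.2 hj), mul_zero, eval_one] at h2
    · exact one_ne_zero h2.symm
    · rw [eval_sub, eval_X, eval_C, heq, sub_self]
  have hgen := gen_part g hg ι₂ σ θ hrk hinj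
  have hfix : ∀ x : L, (σ ^ (2 * g)) (ι₂ x) = ι₂ x := by
    intro x
    obtain ⟨P, rfl⟩ := hgen x
    have h1 : ι₂ (aeval θ P) = aeval (ι₂ θ) P := by
      rw [aeval_def, hom_eval₂, aeval_def,
        Subsingleton.elim (algebraMap ℚ N) (ι₂.comp (algebraMap ℚ L))]
    rw [h1, ← aeval_algHom_apply (σ ^ (2 * g) : Gal(N/ℚ)), hσ2]
  -- the integral elements
  have hθint : IsIntegral ℤ θ := ⟨f, hyp.mon, hθ⟩
  obtain ⟨t₁, ht₁⟩ : ∃ t₁ : 𝓞 L, algebraMap (𝓞 L) L t₁ = θ := ⟨⟨θ, hθint⟩, rfl⟩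
  obtain ⟨D, hD0, hD⟩ := exists_index t₁ (fun x => by
    obtain ⟨P, hP⟩ := hgen x
    refine ⟨P, ?_⟩
    show x = aeval (algebraMap (𝓞 L) L t₁) P
    rw [hP, ht₁])
  obtain ⟨a, b, hb, hab⟩ := IsFractionRing.div_surjective (A := 𝓞 L) α
  have hb0 : b ≠ 0 := nonZeroDivisors.ne_zero hb
  have ha0 : a ≠ 0 := by
    intro h
    rw [h, map_zero, zero_div] at hab
    exact hα hab.symm
  have hζint : IsIntegral ℤ ζ := hζ.isIntegral (Nat.pos_of_ne_zero hm)
  obtain ⟨ζ', hζ'⟩ : ∃ ζ' : 𝓞 N, algebraMap (𝓞 N) N ζ' = ζ := ⟨⟨ζ, hζint⟩, rfl⟩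
  set i1 : 𝓞 L →+* 𝓞 N := RingOfIntegers.mapRingHom ι₁ with hi1
  set i2 : 𝓞 L →+* 𝓞 N := RingOfIntegers.mapRingHom ι₂ with hi2
  have hc1 : ∀ x : 𝓞 L, algebraMap (𝓞 N) N (i1 x) = ι₁ (algebraMap (𝓞 L) L x) := fun x => rfl
  have hc2 : ∀ x : 𝓞 L, algebraMap (𝓞 N) N (i2 x) = ι₂ (algebraMap (𝓞 L) L x) := fun x => rfl
  have hcs : ∀ (τ : Gal(N/ℚ)) (x : 𝓞 N), algebraMap (𝓞 N) N (τ • x) = τ (algebraMap (𝓞 N) N x) :=
    fun τ x => rfl
  have hi2inj : Function.Injective i2 := by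
    intro x y hxy
    apply RingOfIntegers.coe_injective
    apply ι₂.injective
    show ι₂ (algebraMap (𝓞 L) L x) = ι₂ (algebraMap (𝓞 L) L y)
    rw [← hc2, ← hc2, hxy]
  -- the product of the elements which have to be units
  set E : 𝓞 N := (m : 𝓞 N) * (D : 𝓞 N) * i2 (a * b) *
    (∏ j ∈ Finset.range (2 * g), (i1 t₁ - (σ ^ j) • i2 t₁)) *
    ∏ i ∈ Finset.range (2 * g), ∏ j ∈ Finset.range (2 * g),
      (if i = j then 1 else (σ ^ i) • i2 t₁ - (σ ^ j) • i2 t₁) with hE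
  have hE0 : E ≠ 0 := by
    rw [hE]
    refine mul_ne_zero (mul_ne_zero (mul_ne_zero (mul_ne_zero (Nat.cast_ne_zero.2 hm)
      (Nat.cast_ne_zero.2 hD0)) ?_) ?_) ?_
    · rw [Ne, map_eq_zero_iff _ hi2inj]
      exact mul_ne_zero ha0 hb0
    · rw [Finset.prod_ne_zero_iff]
      intro j hj h
      apply hne j (Finset.mem_range.1 hj)
      have h1 := congrArg (algebraMap (𝓞 N) N) (sub_eq_zero.1 h)
      rwa [hc1, hcs, hc2, ht₁] at h1
    · rw [Finset.prod_ne_zero_iff]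
      intro i hi
      rw [Finset.prod_ne_zero_iff]
      intro j hj
      split_ifs with hij
      · exact one_ne_zero
      · intro h
        apply hij
        have h1 := congrArg (algebraMap (𝓞 N) N) (sub_eq_zero.1 h)
        rw [hcs, hcs, hc2, ht₁] at h1
        exact hinj i (Finset.mem_range.1 hi) j (Finset.mem_range.1 hj) h1
  obtain ⟨M, hM⟩ := exists_large E hE0
  obtain ⟨q, ⟨hq, hxp⟩, hqgt⟩ := (infinite_frob N σ).exists_gt (max (max M B) 2)
  simp only [max_lt_iff] at hqgt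
  obtain ⟨⟨hqM, hqB⟩, hq2⟩ := hqgt
  have : Fact q.Prime := ⟨hq⟩
  obtain ⟨φ, hφ⟩ : ∃ φ : 𝓞 N →+* AlgebraicClosure (ZMod q), HasFrob q φ σ := by
    unfold xp at hxp
    rw [dif_pos hq] at hxp
    by_contra h
    push Not at h
    apply hxp
    rw [Nat.card_eq_zero]
    left
    exact ⟨fun x => h x.1 x.2⟩
  have hφE : φ E ≠ 0 := hM q hqM _ φ
  rw [hE, map_mul, map_mul, map_mul, map_mul, map_natCast, map_natCast, map_prod, map_prod] at hφE
  have hu1 := left_ne_zero_of_mul hφE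
  have hu2 := right_ne_zero_of_mul hφE
  have hu3 := right_ne_zero_of_mul hu1
  have hu4 := left_ne_zero_of_mul hu1
  have hc := right_ne_zero_of_mul hu4
  have hu5 := left_ne_zero_of_mul hu4
  have hmΩ := left_ne_zero_of_mul hu5
  have hDΩ := right_ne_zero_of_mul hu5
  rw [Finset.prod_ne_zero_iff] at hu3 hu2
  have hv1 : ∀ j, φ ((σ ^ j) • i2 t₁) = φ (i2 t₁) ^ (q ^ j) := fun j => frob_pow hφ j _
  have hv2 : ∀ i < 2 * g, ∀ j < 2 * g, φ (i2 t₁) ^ (q ^ i) = φ (i2 t₁) ^ (q ^ j) → i = j := by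
    intro i hi j hj hij
    by_contra hne
    have h1 := hu2 i (Finset.mem_range.2 hi)
    rw [map_prod, Finset.prod_ne_zero_iff] at h1
    have h2 := h1 j (Finset.mem_range.2 hj)
    rw [if_neg hne, map_sub, hv1, hv1, hij, sub_self] at h2
    exact h2 rfl
  -- the roots of unity
  have hmod : q % m = 1 % m := by
    have h1 : φ ζ' ^ q = φ ζ' := by
      rw [← hφ]
      congr 1
      apply RingOfIntegers.coe_injective
      show algebraMap (𝓞 N) N (σ • ζ') = algebraMap (𝓞 N) N ζ'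
      rw [hcs, hζ', hσζ]
    have h2 : IsPrimitiveRoot ζ' m := by
      rw [← hζ'] at hζ
      exact hζ.of_map_of_injective (RingOfIntegers.coe_injective)
    have h3 := h2.isRoot_cyclotomic (Nat.pos_of_ne_zero hm)
    have h4 : (cyclotomic m (AlgebraicClosure (ZMod q))).IsRoot (φ ζ') := by
      rw [← map_cyclotomic m φ]
      exact h3.map
    have : NeZero ((m : ℕ) : AlgebraicClosure (ZMod q)) := ⟨hmΩ⟩
    rw [isRoot_cyclotomic_iff] at h4
    have h5 : φ ζ' ^ (q - 1) = 1 := by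
      have h6 : φ ζ' ≠ 0 := h4.ne_zero hm
      apply mul_right_cancel₀ h6
      rw [← pow_succ, Nat.sub_add_cancel hq.one_lt.le, h1, one_mul]
    have h6 := h4.dvd_of_pow_eq_one _ h5
    exact ((Nat.modEq_iff_dvd' hq.one_lt.le).2 h6).symm
  -- the factorization
  have hfO : f.map (Int.castRingHom (𝓞 N)) = (X - C (i1 t₁)) *
      ∏ j ∈ Finset.range (2 * g), (X - C ((σ ^ j) • i2 t₁)) := by
    apply Polynomial.map_injective (algebraMap (𝓞 N) N) RingOfIntegers.coe_injective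
    rw [Polynomial.map_map, Polynomial.map_mul, Polynomial.map_prod]
    simp only [Polynomial.map_sub, map_X, map_C, hcs, hc1, hc2, ht₁]
    rw [← hf]
    exact congrArg (fun r => Polynomial.map r f) (Subsingleton.elim _ _)
  have hfΩ : f.map (Int.castRingHom (AlgebraicClosure (ZMod q))) = (X - C (φ (i1 t₁))) *
      ∏ j ∈ Finset.range (2 * g), (X - C (φ (i2 t₁) ^ (q ^ j))) := by
    have h1 := congrArg (Polynomial.map φ) hfO
    rw [Polynomial.map_map, Polynomial.map_mul, Polynomial.map_prod] at h1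
    simp only [Polynomial.map_sub, map_X, map_C, hv1] at h1
    rw [← h1]
    exact congrArg (fun r => Polynomial.map r f) (Subsingleton.elim _ _)
  have he₀ : φ (i1 t₁) ^ q = φ (i1 t₁) := by
    rw [← hφ]
    congr 1
    apply RingOfIntegers.coe_injective
    show algebraMap (𝓞 N) N (σ • i1 t₁) = algebraMap (𝓞 N) N (i1 t₁)
    rw [hcs, hc1, ht₁, hσθ]
  obtain ⟨e, h, he, hh1, hh2, hh3, hh4⟩ := poly_part g q f hyp.mon hyp.deg (φ (i1 t₁))
    (φ (i2 t₁)) he₀ hfΩ hv2 hg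
  refine ⟨q, e, h, hq, hqB, hmod, hh1, hh2, hh3, hh4, fun 𝔓 hq𝔓 hval => ?_⟩
  obtain ⟨ψ, hψ⟩ := exists_residue q 𝔓 hq𝔓
  have hψroot : ∃ j < 2 * g, ψ t₁ = φ (i2 t₁) ^ (q ^ j) := by
    have h1 : eval (ψ t₁) (f.map (Int.castRingHom (AlgebraicClosure (ZMod q)))) = 0 := by
      have h2 : aeval t₁ f = 0 := by
        apply RingOfIntegers.coe_injective
        show algebraMap (𝓞 L) L (aeval t₁ f) = algebraMap (𝓞 L) L 0
        rw [← aeval_algebraMap_apply, ht₁, hθ, map_zero]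
      have h3 := congrArg ψ h2
      rw [map_zero, aeval_def, hom_eval₂] at h3
      rw [eval_map, Subsingleton.elim (Int.castRingHom (AlgebraicClosure (ZMod q)))
        (ψ.comp (algebraMap ℤ (𝓞 L)))]
      exact h3
    rw [hfΩ, eval_mul, eval_prod, mul_eq_zero, Finset.prod_eq_zero_iff] at h1
    rcases h1 with h1 | ⟨j, hj, h1⟩
    · exfalso
      rw [eval_sub, eval_X, eval_C, ← he, sub_eq_zero] at h1
      have h2 : ψ (t₁ - (e : 𝓞 L)) = 0 := by rw [map_sub, map_intCast, h1, sub_self]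
      have h3 := (hψ _).1 h2
      have h4 := (𝔓.valuation_lt_one_iff_mem (K := L) _).2 h3
      have h5 : algebraMap (𝓞 L) L (t₁ - (e : 𝓞 L)) = θ - (e : L) := by
        rw [map_sub, map_intCast, ht₁]
      have h6 : 𝔓.valuation L (algebraMap (𝓞 L) L (t₁ - (e : 𝓞 L))) < 1 := h4
      rw [h5, hval] at h6
      exact lt_irrefl _ h6
    · rw [eval_sub, eval_X, eval_C, sub_eq_zero] at h1
      exact ⟨j, Finset.mem_range.1 hj, h1⟩
  obtain ⟨j, hj, hψj⟩ := hψroot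
  have hψeq : ψ = (W54.ChTor.cmp φ (σ ^ j)).comp i2 := by
    apply hom_eq t₁ D hD hDΩ
    rw [hψj, ← hv1]
    rfl
  have hψφ : ∀ x, ψ x = φ ((σ ^ j) • i2 x) := by
    intro x
    rw [hψeq]
    rfl
  exact sq_part σ ι₂ β₂ g q j (by omega) φ hφ hfix α hβ hσβ a b hb0 hab.symm hc 𝔓 ψ hψ hψφ

end Pool.Agent.H30T
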