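import Pool.Agent.H30T.Stm2
import Pool.Agent.H30T.ResA

/-!
# Project ET, piece SELECT: finitely many primes which detect the squares
-/

set_option autoImplicit false

open Polynomial IsDedekindDomain NumberField

namespace Pool.Agent.H30T

open Pool.Agent.N874.PP (Ev Sq1 U0)

namespace SelectP

/-- The prime over `q` which corresponds to the factor `h` of `f`. -/
theorem exists_prime (g : ℕ) (hg : 1 ≤ g) (f : ℤ[X]) (hmon : f.Monic)
    (hirr : Irreducible (f.map (Int.castRingHom ℚ))) {L : Type} [Field L] [NumberField L] (θ : L)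
    (hθ : aeval θ f = 0) (q : ℕ) (hq : q.Prime) (e : ℤ) (h : ℤ[X]) (hh : h.Monic)
    (hdeg : h.natDegree = 2 * g)
    (hhirr : Irreducible (h.map (Int.castRingHom (ZMod q))))
    (hfac : f.map (Int.castRingHom (ZMod q)) = ((X - C e) * h).map (Int.castRingHom (ZMod q))) :
    ∃ 𝔓 : HeightOneSpectrum (𝓞 L), (q : 𝓞 L) ∈ 𝔓.asIdeal ∧ 𝔓.valuation L (θ - (e : L)) = 1 := by
  have : Fact q.Prime := ⟨hq⟩
  have hθint : IsIntegral ℤ θ := ⟨f, hmon, hθ⟩
  obtain ⟨t₁, ht₁⟩ : ∃ t₁ : 𝓞 L, algebraMap (𝓞 L) L t₁ = θ := ⟨⟨θ, hθint⟩, rfl⟩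
  have ht0 : aeval t₁ f = 0 := by
    apply RingOfIntegers.coe_injective
    show algebraMap (𝓞 L) L (aeval t₁ f) = algebraMap (𝓞 L) L 0
    rw [← aeval_algebraMap_apply, ht₁, hθ, map_zero]
  have hdvd : ∀ P : ℤ[X], aeval t₁ P = 0 → f ∣ P := by
    intro P hP
    have h1 : aeval θ P = 0 := by
      rw [← ht₁, aeval_algebraMap_apply, hP, map_zero]
    have h2 : aeval θ (P.map (Int.castRingHom ℚ)) = 0 := by
      rw [← h1]
      exact aeval_map_algebraMap ℚ θ P
    have h3 : aeval θ (f.map (Int.castRingHom ℚ)) = 0 := by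
      rw [← hθ]
      exact aeval_map_algebraMap ℚ θ f
    have h4 : f.map (Int.castRingHom ℚ) = minpoly ℚ θ :=
      minpoly.eq_of_irreducible_of_monic hirr h3 (hmon.map _)
    have h5 : f.map (Int.castRingHom ℚ) ∣ P.map (Int.castRingHom ℚ) := by
      rw [h4]
      exact minpoly.dvd ℚ θ h2
    exact (map_dvd_map (Int.castRingHom ℚ) Int.cast_injective hmon).1 h5
  -- the residue field
  have hF : Fact (Irreducible (h.map (Int.castRingHom (ZMod q)))) := ⟨hhirr⟩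
  let K' := AdjoinRoot (h.map (Int.castRingHom (ZMod q)))
  let _ : Field K' := AdjoinRoot.instField
  let r : K' := AdjoinRoot.root (h.map (Int.castRingHom (ZMod q)))
  have hr : eval₂ (Int.castRingHom K') r h = 0 := by
    have h1 : eval₂ (AdjoinRoot.of (h.map (Int.castRingHom (ZMod q)))) r
        (h.map (Int.castRingHom (ZMod q))) = 0 := AdjoinRoot.eval₂_root _
    rw [eval₂_map] at h1
    rw [← h1]
    congr 1
  have hrf : eval₂ (Int.castRingHom K') r f = 0 := by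
    have h1 : eval₂ (AdjoinRoot.of (h.map (Int.castRingHom (ZMod q)))) r
        (f.map (Int.castRingHom (ZMod q))) = 0 := by
      rw [hfac, Polynomial.map_mul, eval₂_mul, AdjoinRoot.eval₂_root, mul_zero]
    rw [eval₂_map] at h1
    rw [← h1]
    congr 1
  let ψ₀ : AdjoinRoot f →+* K' := AdjoinRoot.lift (Int.castRingHom K') r hrf
  let i : AdjoinRoot f →+* 𝓞 L := AdjoinRoot.lift (Int.castRingHom (𝓞 L)) t₁ ht0
  have hi : Function.Injective i := by
    rw [injective_iff_map_eq_zero]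
    intro x hx
    obtain ⟨P, rfl⟩ := AdjoinRoot.mk_surjective x
    have h1 : i (AdjoinRoot.mk f P) = aeval t₁ P := AdjoinRoot.lift_mk _ _
    rw [h1] at hx
    exact AdjoinRoot.mk_eq_zero.2 (hdvd P hx)
  let _ : Algebra (AdjoinRoot f) (𝓞 L) := i.toAlgebra
  have htower : IsScalarTower ℤ (AdjoinRoot f) (𝓞 L) :=
    IsScalarTower.of_algebraMap_eq' (Subsingleton.elim _ _)
  have hint : Algebra.IsIntegral (AdjoinRoot f) (𝓞 L) := Algebra.IsIntegral.tower_top (R := ℤ)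
  have hP0 : (RingHom.ker ψ₀).IsPrime := RingHom.ker_isPrime ψ₀
  obtain ⟨Q, -, hQ, hQP⟩ := Ideal.exists_ideal_over_prime_of_isIntegral (RingHom.ker ψ₀)
    (⊥ : Ideal (𝓞 L)) (by
      intro x hx
      rw [Ideal.mem_comap, Ideal.mem_bot] at hx
      have : x = 0 := hi (by rw [map_zero]; exact hx)
      rw [this]
      exact Ideal.zero_mem _)
  have hqQ : (q : 𝓞 L) ∈ Q := by
    have h1 : ((q : ℕ) : AdjoinRoot f) ∈ Ideal.comap (algebraMap (AdjoinRoot f) (𝓞 L)) Q := by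
      rw [hQP, RingHom.mem_ker, map_natCast]
      have : ((q : ℕ) : ZMod q) = 0 := ZMod.natCast_self q
      have h2 := congrArg (AdjoinRoot.of (h.map (Int.castRingHom (ZMod q)))) this
      rwa [map_natCast, map_zero] at h2
    rw [Ideal.mem_comap, map_natCast] at h1
    exact h1
  have hQ0 : Q ≠ ⊥ := by
    intro h0
    rw [h0, Ideal.mem_bot] at hqQ
    exact hq.ne_zero (by exact_mod_cast hqQ)
  refine ⟨⟨Q, hQ, hQ0⟩, hqQ, ?_⟩
  have h1 : θ - (e : L) = algebraMap (𝓞 L) L (t₁ - (e : 𝓞 L)) := by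
    rw [map_sub, map_intCast, ht₁]
  rw [h1, HeightOneSpectrum.valuation_eq_one_iff_notMem]
  intro h2
  have h3 : AdjoinRoot.root f - ((e : ℤ) : AdjoinRoot f) ∈
      Ideal.comap (algebraMap (AdjoinRoot f) (𝓞 L)) Q := by
    rw [Ideal.mem_comap, map_sub, map_intCast]
    have h4 : algebraMap (AdjoinRoot f) (𝓞 L) (AdjoinRoot.root f) = t₁ := AdjoinRoot.lift_root _
    rw [h4]
    exact h2
  rw [hQP, RingHom.mem_ker, map_sub, map_intCast] at h3
  have h4 : ψ₀ (AdjoinRoot.root f) = r := AdjoinRoot.lift_root _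
  rw [h4, sub_eq_zero] at h3
  -- `h` has a root modulo `q`
  have h5 : AdjoinRoot.mk (h.map (Int.castRingHom (ZMod q))) (X - C ((e : ℤ) : ZMod q)) = 0 := by
    rw [map_sub, AdjoinRoot.mk_X, AdjoinRoot.mk_C, map_intCast, sub_eq_zero]
    exact h3
  rw [AdjoinRoot.mk_eq_zero] at h5
  have h6 := natDegree_le_of_dvd h5 (X_sub_C_ne_zero _)
  rw [natDegree_X_sub_C, hh.natDegree_map, hdeg] at h6
  omega

/-- squares at a prime -/
theorem sq1_of_mul {L : Type} [Field L] [NumberField L] (𝔓 : HeightOneSpectrum (𝓞 L)) (r s : L)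
    (hs : s ≠ 0) (h : Sq1 𝔓 (r * s ^ 2)) : Sq1 𝔓 r := by
  obtain ⟨u, hu⟩ := h
  refine ⟨u / s, ?_⟩
  have h1 : r - (u / s) ^ 2 = (r * s ^ 2 - u ^ 2) * (s ^ 2)⁻¹ := by
    field_simp
  have h2 : r = (r * s ^ 2) * (s ^ 2)⁻¹ := by
    field_simp
  rw [h1, map_mul]
  nth_rewrite 2 [h2]
  rw [map_mul]
  refine (mul_lt_mul_iff_left₀ ?_).2 hu
  rw [zero_lt_iff, Valuation.ne_zero_iff]
  exact inv_ne_zero (pow_ne_zero _ hs)

end SelectP

open SelectP

/-- **SELECT.** -/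
theorem select (hI : T_IRR) (hF : T_FIN) (hC : T_CHEB) : T_SELECT := by
  classical
  intro g f p₀ hyp L _ _ θ hθ hrk m B hm hpm
  have hdisc : f.discr ≠ 0 := by
    intro h
    apply hyp.ndvd
    rw [h]
    exact dvd_zero _
  have hfin : {𝔓 : HeightOneSpectrum (𝓞 L) | ((2 * f.discr : ℤ) : 𝓞 L) ∈ 𝔓.asIdeal}.Finite := by
    have h1 := Ideal.finite_factors (I := Ideal.span {((2 * f.discr : ℤ) : 𝓞 L)}) (by
      rw [Ne, Ideal.zero_eq_bot, Ideal.span_singleton_eq_bot]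
      exact Int.cast_ne_zero.2 (mul_ne_zero (by norm_num) hdisc))
    refine h1.subset fun 𝔓 h𝔓 => ?_
    show 𝔓.asIdeal ∣ Ideal.span {((2 * f.discr : ℤ) : 𝓞 L)}
    rw [Ideal.dvd_span_singleton]
    exact h𝔓
  obtain ⟨R, hR0, hR⟩ := hF L _ hfin
  -- the choice of the primes
  have key : ∀ R' : Finset L, (∀ r ∈ R', r ≠ 0 ∧ IsSquare (Algebra.norm ℚ r) ∧ ¬ IsSquare r) →
      ∃ (S : Finset ℕ) (e : ℕ → ℤ) (h : ℕ → ℤ[X]),
      (∀ q ∈ S, q.Prime ∧ B < q ∧ q % m = 1 % m ∧ (h q).Monic ∧ (h q).natDegree = 2 * g ∧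
        Irreducible ((h q).map (Int.castRingHom (ZMod q))) ∧
        f.map (Int.castRingHom (ZMod q)) =
          ((X - C (e q)) * h q).map (Int.castRingHom (ZMod q))) ∧
      ∀ r ∈ R', ∃ q ∈ S, ∀ 𝔓 : HeightOneSpectrum (𝓞 L), (q : 𝓞 L) ∈ 𝔓.asIdeal →
        𝔓.valuation L (θ - (e q : L)) = 1 → ¬ Sq1 𝔓 r := by
    intro R'
    induction R' using Finset.induction_on with
    | empty => exact fun _ => ⟨∅, fun _ => 0, fun _ => 0, by simp, by simp⟩
    | insert r R' hr ih =>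
      intro hR'
      obtain ⟨S, e, h, h1, h2⟩ := ih fun x hx => hR' x (Finset.mem_insert_of_mem hx)
      obtain ⟨hr1, hr2, hr3⟩ := hR' r (Finset.mem_insert_self _ _)
      obtain ⟨q, e₀, h₀, c1, c2, c3, c4, c5, c6, c7, c8⟩ := hC g f p₀ hyp L θ hθ hrk r hr1 hr2 hr3 m
        (max B (S.sup id)) hm hpm
      have hqS : q ∉ S := by
        intro hq
        have h3 : q ≤ S.sup id := Finset.le_sup (f := id) hq
        have h4 := lt_of_le_of_lt (le_max_right B (S.sup id)) c2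
        omega
      refine ⟨insert q S, Function.update e q e₀, Function.update h q h₀, ?_, ?_⟩
      · intro q' hq'
        rcases Finset.mem_insert.1 hq' with rfl | hq''
        · rw [Function.update_self, Function.update_self]
          exact ⟨c1, lt_of_le_of_lt (le_max_left _ _) c2, c3, c4, c5, c6, c7⟩
        · have hne : q' ≠ q := fun h => hqS (h ▸ hq'')
          rw [Function.update_of_ne hne, Function.update_of_ne hne]
          exact h1 q' hq''
      · intro x hx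
        rcases Finset.mem_insert.1 hx with rfl | hx'
        · refine ⟨q, Finset.mem_insert_self _ _, ?_⟩
          rw [Function.update_self]
          exact c8
        · obtain ⟨q', hq', h3⟩ := h2 x hx'
          have hne : q' ≠ q := fun h => hqS (h ▸ hq')
          refine ⟨q', Finset.mem_insert_of_mem hq', ?_⟩
          rw [Function.update_of_ne hne]
          exact h3
  obtain ⟨S, e, h, h1, h2⟩ := key (R.filter fun r => IsSquare (Algebra.norm ℚ r) ∧ ¬ IsSquare r)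
    (fun r hr => ⟨hR0 r (Finset.mem_filter.1 hr).1, (Finset.mem_filter.1 hr).2⟩)
  refine ⟨S, e, h, h1, fun α hα hN hEv hSq => ?_⟩
  by_contra hns
  obtain ⟨r, hr, s, hs, hrs⟩ := hR α hα fun 𝔓 h𝔓 => hEv 𝔓 h𝔓
  have hr0 := hR0 r hr
  have hrns : ¬ IsSquare r := by
    rintro ⟨u, hu⟩
    exact hns ⟨u * s, by rw [hrs, hu]; ring⟩
  have hrN : IsSquare (Algebra.norm ℚ r) := by
    obtain ⟨c, hc⟩ := hN
    have hsN : Algebra.norm ℚ s ≠ 0 := Algebra.norm_ne_zero_iff.2 hs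
    refine ⟨c / Algebra.norm ℚ s, ?_⟩
    rw [hrs, map_mul, map_pow] at hc
    field_simp
    linarith
  obtain ⟨q, hq, h3⟩ := h2 r (Finset.mem_filter.2 ⟨hr, hrN, hrns⟩)
  obtain ⟨c1, -, -, c4, c5, c6, c7⟩ := h1 q hq
  obtain ⟨𝔓, h𝔓1, h𝔓2⟩ := exists_prime g hyp.one f hyp.mon (hI g f p₀ hyp) θ hθ q c1 (e q) (h q)
    c4 c5 c6 c7
  have h4 := hSq q hq 𝔓 h𝔓1 h𝔓2
  rw [hrs] at h4
  exact h3 𝔓 h𝔓1 h𝔓2 (sq1_of_mul 𝔓 r s hs h4)

end Pool.Agent.H30T
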