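import Pool.Agent.H30T.Stm

/-!
# Project ET, pieces TRL and DSC: translation of the polynomial
-/

set_option autoImplicit false
set_option linter.all false

open Polynomial IsDedekindDomain Matrix NumberField
open scoped Classical

namespace Pool.Agent.H30T

open Pool.Agent.N783.PF
open Pool.Agent.N783.PQ (LocIm)
open Pool.Agent.N874.JM (LocF)

section trl

/-- Translation of the class. -/
theorem locIm_comp {E : Type} [Field E] (f h : E[X]) (a : E) (H : LocIm E f h) :
    LocIm E (f.comp (X + C a)) (h.comp (X + C a)) := by
  obtain ⟨l, s, h1, h2⟩ := H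
  refine ⟨l.map fun p => (p.1.comp (X + C a), p.2.comp (X + C a)), s.comp (X + C a), ?_, ?_⟩
  · intro p hp
    rw [List.mem_map] at hp
    obtain ⟨p', hp', rfl⟩ := hp
    obtain ⟨hm, hc, hd⟩ := h1 p' hp'
    refine ⟨hm.comp_X_add_C a, ?_, ?_⟩
    · have := hc.map (compRingHom (X + C a))
      simpa using this
    · have := map_dvd (compRingHom (X + C a)) hd
      simpa using this
  · have h3 := map_dvd (compRingHom (X + C a)) h2
    have e : (compRingHom (X + C a)) (l.map fun p => (-1) ^ p.1.natDegree * p.1).prod =
        ((l.map fun p => (p.1.comp (X + C a), p.2.comp (X + C a))).map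
          fun p => (-1) ^ p.1.natDegree * p.1).prod := by
      rw [map_list_prod, List.map_map, List.map_map]
      congr 1
      apply List.map_congr_left
      intro p _
      have e1 : (p.1.comp (X + C a)).natDegree = p.1.natDegree := by
        rw [natDegree_comp, natDegree_X_add_C, mul_one]
      simp only [Function.comp_apply, e1]
      rw [map_mul, map_pow, map_neg, map_one]
      rfl
    rw [map_sub, map_mul, map_pow, e] at h3
    simpa using h3

/-- The translation of the quotient ring. -/
noncomputable def trEquiv {F : Type} [Field F] (f : F[X]) (a : F) :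
    AdjoinRoot f ≃ₐ[F] AdjoinRoot (f.comp (X + C a)) :=
  Ideal.quotientEquivAlg (Ideal.span {f}) (Ideal.span {f.comp (X + C a)}) (algEquivAevalXAddC a)
    (by
      rw [Ideal.map_span, Set.image_singleton]
      congr 2)

theorem trEquiv_mk {F : Type} [Field F] (f h : F[X]) (a : F) :
    trEquiv f a (AdjoinRoot.mk f h) = AdjoinRoot.mk (f.comp (X + C a)) (h.comp (X + C a)) := by
  rfl

theorem trl : T_TRL := by
  intro F _ _ f c hf hS h hc hn hl hr
  have e : fF (f.comp (X + C c)) = (fF f).comp (X + C (c : F)) := by
    simp [fF, Polynomial.map_comp]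
  have key := hS (h.comp (X + C (c : F))) ?_ ?_ ?_ ?_
  · obtain ⟨s, hs⟩ := key
    refine ⟨s.comp (X + C (-(c : F))), ?_⟩
    rw [e] at hs
    have h3 := map_dvd (compRingHom (X + C (-(c : F)))) hs
    have e2 : ∀ p : F[X], (p.comp (X + C (c : F))).comp (X + C (-(c : F))) = p := by
      intro p
      rw [comp_assoc]
      simp
    rw [map_sub, map_pow] at h3
    simp only [coe_compRingHom] at h3
    rw [e2, e2] at h3
    exact h3
  · rw [e]
    have := hc.map (compRingHom (X + C (c : F)))
    simpa using this
  · rw [e, ← trEquiv_mk, Algebra.norm_eq_of_algEquiv (trEquiv (fF f) (c : F))]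
    exact hn
  · intro w
    have h1 := hl w
    have h2 := locIm_comp _ _ (algebraMap F (w.adicCompletion F) (c : F)) h1
    rw [e]
    have e3 : ∀ p : F[X], (p.map (algebraMap F (w.adicCompletion F))).comp
        (X + C (algebraMap F (w.adicCompletion F) (c : F))) =
        (p.comp (X + C (c : F))).map (algebraMap F (w.adicCompletion F)) := by
      intro p
      rw [Polynomial.map_comp]
      simp
    rw [e3, e3] at h2
    exact h2
  · intro σ
    have h1 := hr σ
    have h2 := locIm_comp _ _ (σ (c : F)) h1
    rw [e]
    have e3 : ∀ p : F[X], (p.map σ).comp (X + C (σ (c : F))) = (p.comp (X + C (c : F))).map σ := by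
      intro p
      rw [Polynomial.map_comp]
      simp
    rw [e3, e3] at h2
    exact h2

end trl

theorem dsc_inv : T_DSC := by
  intro F _ _ g f hf hd
  have hn : (derivative f).natDegree = 2 * g := by
    rw [natDegree_derivative, hd]
    omega
  refine ⟨fun c => ?_, fun D hD => ?_⟩
  · have h1 := resultant_taylor f (derivative f) c
    rw [natDegree_taylor, natDegree_taylor, hn, hd] at h1
    have e1 : taylor c f = f.comp (X + C c) := taylor_apply c f
    have e2 : taylor c (derivative f) = derivative (f.comp (X + C c)) := by
      rw [taylor_apply, derivative_comp]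
      simp
    rw [e1, e2] at h1
    exact h1
  · have h1 := resultant_scaleRoots f (derivative f) D
    rw [natDegree_scaleRoots, natDegree_scaleRoots, hn, hd] at h1
    have e2 : (derivative f).scaleRoots D = derivative (f.scaleRoots D) := by
      ext i
      rw [coeff_scaleRoots, coeff_derivative, coeff_derivative, coeff_scaleRoots, hn, hd]
      by_cases hi : i ≤ 2 * g
      · have : 2 * g + 1 - (i + 1) = 2 * g - i := by omega
        rw [this]
        ring_nf
      · have : f.coeff (i + 1) = 0 := coeff_eq_zero_of_natDegree_lt (by omega)
        rw [this]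
        ring_nf
    rw [e2] at h1
    exact h1

end Pool.Agent.H30T
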