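import Pool.Agent.H30T.Asm2
import Pool.Agent.H30T.Exq
import Pool.Agent.H30T.Fin
import Pool.Agent.H30T.Gal
import Pool.Agent.H30T.Grp
import Pool.Agent.H30T.Hq
import Pool.Agent.H30T.Int
import Pool.Agent.H30T.Iso2
import Pool.Agent.H30T.Odd
import Pool.Agent.H30T.Par
import Pool.Agent.H30T.Res
import Pool.Agent.H30T.Select
import Pool.Agent.H30T.Trl
import Pool.Agent.N783.PF.Final

/-!
# The pieces of the first group
-/

set_option autoImplicit false

namespace Pool.Agent.H30T

open Pool.Agent.N783.PF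

theorem a_int : T_INT := t_int
theorem a_exq : T_EXQ := t_exq a_int
theorem a_csq : T_CSQ := t_csq a_int
theorem a_par : T_PAR := Par.par a_int
theorem a_parq : T_PARQ := Par.parq a_exq
theorem a_pin : T_PIN := Par.pin
theorem a_ram : T_RAM := ram
theorem a_iso2 : T_ISO2 := iso2 a_int
theorem a_hq : T_HQ := hq a_int a_exq a_csq

theorem a_rec : T_REC :=
  rec Pool.Agent.N286.PF.hvg (Pool.Agent.N935.PF.TRP.trp Pool.Agent.N286.PF.hvg
    Pool.Agent.N286.PF.hvc) (Pool.Agent.N783.PF.R2.trr Pool.Agent.N286.PF.hvg)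
    Pool.Agent.N591.PF.iso1 a_iso2 a_hq Pool.Agent.N352.PF.dscT
    (fun g W F L _ _ _ _ _ f θ S 𝔮 r P hg hG hS hF q hq w hw =>
      gd_of (gd_q hg hG.mon hG.deg hS hF hq w hw))

theorem a_core : T_CORE := core a_exq a_rec

theorem a_cheb : T_CHEB := res (gal grp odd)

end Pool.Agent.H30T
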