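import Pool.Agent.H30T.Stm2
import Pool.Agent.H30EV.Fin
import Pool.Agent.N783.PF.Final
import Pool.Agent.N713.QM.GFC
import Pool.Agent.N459.QM.FinC

/-!
# Project ET (helper30): piece ELL
-/

set_option autoImplicit false
set_option linter.all false

open Polynomial IsDedekindDomain NumberField WeierstrassCurve
open Pool.Agent.TH115.GD
open scoped Classical

namespace Pool.Agent.H30T

open Pool.Agent.N783.PF
open Pool.Agent.H30EV
open Pool.Agent.N874.PP (sW)
open Pool.Agent.N874.QM (SelM SelC ShaC IsLoc)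

section

variable {F : Type} [Field F] [NumberField F]

theorem isLoc_of {W : WeierstrassCurve F} {f : Coch W} (h : ShaCocycle W f) :
    IsLoc W (f : (Sep F ≃ₐ[F] Sep F) → Pt W (Sep F)) where
  fin v := loc_of h v
  real ρ := by
    letI := ρ.toAlgebra
    exact lt_of (L := ℝ) (h.real ρ)

theorem sel_ofC {W : WeierstrassCurve F} (h : SelC W) : SelmerTrivial W := by
  intro f hf h2
  obtain ⟨T, hT, h1⟩ := h f (coc_of hf) h2 (isLoc_of hf)
  exact ⟨T, hT, funext fun σ => h1 σ⟩

theorem sha_ofC {W : WeierstrassCurve F} (h : ShaC W) : ShaTrivial W := by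
  rintro f hf ⟨n, Q, hQ⟩
  obtain ⟨T, h1⟩ := h f (coc_of hf) (isLoc_of hf) ⟨n, Q, fun σ => congrFun hQ σ⟩
  exact ⟨T, funext fun σ => h1 σ⟩

end

theorem ell : T_ELL := by
  intro M _ _ A B hAB hirr hsel
  have hd : 4 * (A : M) ^ 3 + 27 * (B : M) ^ 2 ≠ 0 := by
    have : ((4 * A ^ 3 + 27 * B ^ 2 : ℤ) : M) ≠ 0 := by exact_mod_cast hAB
    push_cast at this
    exact this
  have e : fF ((X ^ 3 + C A * X + C B : ℤ[X]).map (algebraMap ℤ (𝓞 M))) =
      X ^ 3 + C (A : M) * X + C (B : M) := by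
    unfold fF
    rw [Polynomial.map_map]
    simp [Polynomial.map_add, Polynomial.map_mul, Polynomial.map_pow]
  have hs : SelM M (X ^ 3 + C (A : M) * X + C (B : M)) := by
    rw [← e]
    exact hsel
  have hc := Pool.Agent.N783.PF.selc M _ _ hd hirr hs
  obtain ⟨hdiv, hsha⟩ := Pool.Agent.N713.QM.gfc M _ _ hd hc
  obtain ⟨hf, ho⟩ := Pool.Agent.N459.QM.finc M _ _ hd hdiv
  have e0 : (sW (A : M) (B : M)).baseChange M = curve M (A, B) := coef0 (A : M) (B : M)
  have hf' : Finite (curve M (A, B)).toAffine.Point := by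
    rw [← e0]
    exact hf
  have ho' : Odd (Nat.card (curve M (A, B)).toAffine.Point) := by
    rw [← e0]
    exact ho
  exact ⟨hf', ho', sel_ofC hc, sha_ofC hsha⟩

end Pool.Agent.H30T
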