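import Pool.Agent.H30T.Defs

/-!
# Project ET, piece INF: the real quadratic field of prime discriminant
-/

set_option autoImplicit false
set_option linter.all false

open Polynomial IsDedekindDomain NumberField
open scoped Classical IntermediateField

namespace Pool.Agent.H30T.InfQ

/-- The conjugation. -/
theorem conj {M : Type} [Field M] [NumberField M] (l : ℕ) (s : M) (hs : s ^ 2 = (l : M))
    (hns : ¬ ∃ z : ℚ, (z : M) = s) (hrank : Module.finrank ℚ M = 2) :
    IsGalois ℚ M ∧ ∃ σ : M ≃ₐ[ℚ] M, σ s = -s ∧ (∀ z, σ (σ z) = z) ∧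
      ∀ z, σ z = z → ∃ z' : ℚ, (z' : M) = z := by
  have hint : IsIntegral ℚ s := ⟨X ^ 2 - C (l : ℚ), monic_X_pow_sub_C _ two_ne_zero, by simp [hs]⟩
  have hmon : (X ^ 2 - C (l : ℚ) : ℚ[X]).Monic := monic_X_pow_sub_C _ two_ne_zero
  have hnd : (X ^ 2 - C (l : ℚ) : ℚ[X]).natDegree = 2 := natDegree_X_pow_sub_C
  have hroot : ∀ z : ℚ, z ^ 2 ≠ (l : ℚ) := by
    intro z hz
    have h1 : (s - (z : M)) * (s + (z : M)) = 0 := by
      have h2 : ((z ^ 2 : ℚ) : M) = (l : M) := by rw [hz]; norm_cast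
      push_cast at h2
      linear_combination hs - h2
    rcases mul_eq_zero.1 h1 with h2 | h2
    · exact hns ⟨z, by linear_combination -h2⟩
    · exact hns ⟨-z, by push_cast; linear_combination -h2⟩
  have hirr : Irreducible (X ^ 2 - C (l : ℚ) : ℚ[X]) := by
    rw [Monic.irreducible_iff_roots_eq_zero_of_degree_le_three hmon (by omega) (by omega)]
    rw [Multiset.eq_zero_iff_forall_notMem]
    intro z hz
    have hz' := (mem_roots hmon.ne_zero).1 hz
    apply hroot z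
    have : z ^ 2 - (l : ℚ) = 0 := by simpa [IsRoot.def] using hz'
    linear_combination this
  have hmin : minpoly ℚ s = X ^ 2 - C (l : ℚ) :=
    (minpoly.eq_of_irreducible_of_monic hirr (by simp [hs]) hmon).symm
  have htop : ℚ⟮s⟯ = ⊤ := by
    rw [Field.primitive_element_iff_minpoly_natDegree_eq ℚ s, hmin, hnd, hrank]
  have ext_top : ∀ τ τ' : M ≃ₐ[ℚ] M, τ s = τ' s → τ = τ' := by
    intro τ τ' h
    apply AlgEquiv.ext
    intro x
    have hx : x ∈ ℚ⟮s⟯ := by rw [htop]; trivial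
    refine IntermediateField.adjoin_induction ℚ (p := fun x _ => τ x = τ' x) ?_ ?_ ?_ ?_ ?_ hx
    · intro y hy
      rw [Set.mem_singleton_iff] at hy
      rw [hy, h]
    · intro y
      rw [AlgEquiv.commutes, AlgEquiv.commutes]
    · intro y z _ _ hy hz
      rw [map_add, map_add, hy, hz]
    · intro y _ hy
      rw [map_inv₀, map_inv₀, hy]
    · intro y z _ _ hy hz
      rw [map_mul, map_mul, hy, hz]
  haveI : Algebra.IsQuadraticExtension ℚ M := ⟨hrank⟩
  haveI : IsGalois ℚ M := inferInstance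
  have hcard : Nat.card (M ≃ₐ[ℚ] M) = 2 := by
    rw [IsGalois.card_aut_eq_finrank, hrank]
  haveI : Finite (M ≃ₐ[ℚ] M) := Nat.finite_of_card_ne_zero (by rw [hcard]; norm_num)
  haveI : Nontrivial (M ≃ₐ[ℚ] M) := by
    rw [← Finite.one_lt_card_iff_nontrivial, hcard]
    norm_num
  obtain ⟨σ, hσ⟩ := exists_ne (1 : M ≃ₐ[ℚ] M)
  have hpm : ∀ τ : M ≃ₐ[ℚ] M, τ s = s ∨ τ s = -s := by
    intro τ
    have h1 : (τ s - s) * (τ s + s) = 0 := by
      have : (τ s - s) * (τ s + s) = τ (s ^ 2) - s ^ 2 := by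
        rw [map_pow]
        ring
      rw [this, hs, map_natCast, sub_self]
    rcases mul_eq_zero.1 h1 with h2 | h2
    · left; linear_combination h2
    · right; linear_combination h2
  have hσs : σ s = -s := by
    rcases hpm σ with h | h
    · exact absurd (ext_top σ 1 (by rw [h]; rfl)) hσ
    · exact h
  have hσ2 : σ.trans σ = 1 := by
    apply ext_top
    show σ (σ s) = s
    rw [hσs, map_neg, hσs, neg_neg]
  refine ⟨inferInstance, σ, hσs, fun z => ?_, fun z hz => ?_⟩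
  · have h1 : (σ.trans σ) z = z := by rw [hσ2]; rfl
    exact h1
  · have h1 := (IsGalois.mem_range_algebraMap_iff_fixed (F := ℚ) z).2 (by
      intro τ
      rcases hpm τ with h | h
      · rw [ext_top τ 1 (by rw [h]; rfl)]
        rfl
      · rw [ext_top τ σ (by rw [h, hσs])]
        exact hz)
    obtain ⟨q, hq⟩ := h1
    exact ⟨q, by rw [← hq, eq_ratCast]⟩

/-- the field -/
theorem exists_field (l : ℕ) (hl : l.Prime) :
    ∃ (M : Type) (_ : Field M) (_ : NumberField M) (s : M), s ^ 2 = (l : M) ∧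
      Module.finrank ℚ M = 2 ∧ Nonempty (M →+* ℝ) ∧ ¬ ∃ z : ℚ, (z : M) = s := by
  set r : ℝ := Real.sqrt l with hrdef
  have hr : r ^ 2 = l := Real.sq_sqrt (Nat.cast_nonneg l)
  have hirr : Irrational r := hl.irrational_sqrt
  have hint : IsIntegral ℚ r := ⟨X ^ 2 - C (l : ℚ), monic_X_pow_sub_C _ two_ne_zero, by simp [hr]⟩
  have hmon : (X ^ 2 - C (l : ℚ) : ℚ[X]).Monic := monic_X_pow_sub_C _ two_ne_zero
  have hnd : (X ^ 2 - C (l : ℚ) : ℚ[X]).natDegree = 2 := natDegree_X_pow_sub_C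
  have hroot : ∀ z : ℚ, z ^ 2 ≠ (l : ℚ) := by
    intro z hz
    have h1 : ((z : ℝ)) ^ 2 = l := by exact_mod_cast hz
    rw [← hr] at h1
    rcases sq_eq_sq_iff_eq_or_eq_neg.1 h1 with h2 | h2
    · exact hirr ⟨z, h2⟩
    · exact hirr ⟨-z, by push_cast; rw [h2, neg_neg]⟩
  have hirr' : Irreducible (X ^ 2 - C (l : ℚ) : ℚ[X]) := by
    rw [Monic.irreducible_iff_roots_eq_zero_of_degree_le_three hmon (by omega) (by omega)]
    rw [Multiset.eq_zero_iff_forall_notMem]
    intro z hz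
    have hz' := (mem_roots hmon.ne_zero).1 hz
    apply hroot z
    have : z ^ 2 - (l : ℚ) = 0 := by simpa [IsRoot.def] using hz'
    linear_combination this
  have hmin : minpoly ℚ r = X ^ 2 - C (l : ℚ) :=
    (minpoly.eq_of_irreducible_of_monic hirr' (by simp [hr]) hmon).symm
  let M := ℚ⟮r⟯
  haveI : FiniteDimensional ℚ M := IntermediateField.adjoin.finiteDimensional hint
  haveI : CharZero M := charZero_of_injective_algebraMap (algebraMap ℚ M).injective
  haveI : NumberField M := ⟨⟩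
  have hrank : Module.finrank ℚ M = 2 := by
    rw [IntermediateField.adjoin.finrank hint, hmin, hnd]
  let s : M := IntermediateField.AdjoinSimple.gen ℚ r
  have hs : (s : ℝ) = r := rfl
  refine ⟨M, inferInstance, inferInstance, s, ?_, ?_, ⟨(algebraMap M ℝ)⟩, ?_⟩
  · apply (algebraMap M ℝ).injective
    rw [map_pow, map_natCast]
    show (s : ℝ) ^ 2 = l
    rw [hs, hr]
  · convert hrank
  · rintro ⟨z, hz⟩
    have h1 := congrArg (algebraMap M ℝ) hz
    rw [map_ratCast] at h1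
    exact hirr ⟨z, h1⟩

section arith

variable {M : Type} [Field M] [NumberField M]

/-- rational integral elements are integers -/
theorem int_of_rat (x : 𝓞 M) (z : ℚ) (hz : (z : M) = algebraMap (𝓞 M) M x) : ∃ u : ℤ, (u : 𝓞 M) = x := by
  have h1 : IsIntegral ℤ (algebraMap ℚ M z) := by
    rw [eq_ratCast, hz]
    exact RingOfIntegers.isIntegral_coe x
  have h2 : IsIntegral ℤ z := (isIntegral_algebraMap_iff (algebraMap ℚ M).injective).1 h1
  obtain ⟨u, hu⟩ := IsIntegrallyClosed.isIntegral_iff.1 h2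
  refine ⟨u, ?_⟩
  apply RingOfIntegers.coe_injective
  rw [← hz, ← hu]
  simp

/-- the residue field -/
theorem res_iff (w : HeightOneSpectrum (𝓞 M)) (p : ℕ) (hp : p.Prime) (hpw : (p : 𝓞 M) ∈ w.asIdeal) :
    Nat.card (𝓞 M ⧸ w.asIdeal) = p ↔ ∀ x : 𝓞 M, ∃ c : ℤ, x - (c : 𝓞 M) ∈ w.asIdeal := by
  haveI : Fact p.Prime := ⟨hp⟩
  have hm : w.asIdeal.IsMaximal := w.isMaximal
  letI : Field (𝓞 M ⧸ w.asIdeal) := Ideal.Quotient.field w.asIdeal
  have hp0 : ((p : ℕ) : 𝓞 M ⧸ w.asIdeal) = 0 := by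
    have h2 := Ideal.Quotient.eq_zero_iff_mem.mpr hpw
    rwa [map_natCast] at h2
  haveI : CharP (𝓞 M ⧸ w.asIdeal) p := (CharP.charP_iff_prime_eq_zero Fact.out).mpr hp0
  let φ : ZMod p →+* 𝓞 M ⧸ w.asIdeal := ZMod.castHom dvd_rfl _
  have hφ : Function.Injective φ := φ.injective
  have hiff : Function.Surjective φ ↔ ∀ x : 𝓞 M, ∃ c : ℤ, x - (c : 𝓞 M) ∈ w.asIdeal := by
    constructor
    · intro h x
      obtain ⟨z, hz⟩ := h (Ideal.Quotient.mk w.asIdeal x)
      obtain ⟨c, rfl⟩ := ZMod.intCast_surjective z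
      refine ⟨c, ?_⟩
      rw [← Ideal.Quotient.eq_zero_iff_mem, map_sub, map_intCast, ← hz, map_intCast, sub_self]
    · intro h y
      obtain ⟨x, rfl⟩ := Ideal.Quotient.mk_surjective y
      obtain ⟨c, hc⟩ := h x
      refine ⟨(c : ZMod p), ?_⟩
      rw [← Ideal.Quotient.eq_zero_iff_mem, map_sub, map_intCast, sub_eq_zero] at hc
      rw [hc, map_intCast]
  rw [← hiff]
  constructor
  · intro h
    haveI : Finite (𝓞 M ⧸ w.asIdeal) := Nat.finite_of_card_ne_zero (by rw [h]; exact hp.ne_zero)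
    exact ((Nat.bijective_iff_injective_and_card φ).2 ⟨hφ, by rw [h, Nat.card_zmod]⟩).2
  · intro h
    rw [← Nat.card_eq_of_bijective φ ⟨hφ, h⟩, Nat.card_zmod]

/-- integers in a prime over `p` -/
theorem int_mem (w : HeightOneSpectrum (𝓞 M)) (p : ℕ) (hp : p.Prime) (hpw : (p : 𝓞 M) ∈ w.asIdeal)
    (n : ℤ) (hn : (n : 𝓞 M) ∈ w.asIdeal) : (p : ℤ) ∣ n := by
  by_contra h
  have h1 : IsCoprime (p : ℤ) n := (Nat.prime_iff_prime_int.1 hp).coprime_iff_not_dvd.2 h
  obtain ⟨a, b, hab⟩ := h1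
  apply w.isPrime.ne_top
  rw [Ideal.eq_top_iff_one]
  have h2 : ((a : ℤ) : 𝓞 M) * (p : 𝓞 M) + (b : 𝓞 M) * (n : 𝓞 M) = 1 := by
    exact_mod_cast congrArg (fun z : ℤ => (z : 𝓞 M)) hab
  rw [← h2]
  exact Ideal.add_mem _ (Ideal.mul_mem_left _ _ hpw) (Ideal.mul_mem_left _ _ hn)

/-- the ramified primes -/
theorem sq_eq (hrank : Module.finrank ℚ M = 2) (w : HeightOneSpectrum (𝓞 M)) (p : ℕ) (hp : p.Prime)
    (h : (p : 𝓞 M) ∈ w.asIdeal ^ 2) :
    Ideal.span {(p : 𝓞 M)} = w.asIdeal ^ 2 ∧ Nat.card (𝓞 M ⧸ w.asIdeal) = p := by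
  have hpw : (p : 𝓞 M) ∈ w.asIdeal := Ideal.pow_le_self two_ne_zero h
  obtain ⟨J, hJ⟩ := (Ideal.dvd_span_singleton).2 h
  have h1 := congrArg Ideal.absNorm hJ
  rw [map_mul, map_pow, Ideal.absNorm_span_singleton] at h1
  have h2 : (Algebra.norm ℤ (p : 𝓞 M)).natAbs = p ^ 2 := by
    have h3 := Algebra.norm_algebraMap (S := 𝓞 M) (p : ℤ)
    rw [RingOfIntegers.rank, hrank] at h3
    have h4 : (algebraMap ℤ (𝓞 M)) (p : ℤ) = (p : 𝓞 M) := by simp
    rw [h4] at h3
    rw [h3, Int.natAbs_pow, Int.natAbs_natCast]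
  rw [h2] at h1
  have h3 : (Ideal.absNorm w.asIdeal : 𝓞 M) ∈ w.asIdeal := Ideal.absNorm_mem _
  have h4 : (p : ℤ) ∣ (Ideal.absNorm w.asIdeal : ℤ) := int_mem w p hp hpw _ (by push_cast; exact h3)
  obtain ⟨a, ha⟩ : p ∣ Ideal.absNorm w.asIdeal := by exact_mod_cast h4
  have h5 : a ^ 2 * Ideal.absNorm J = 1 := by
    rw [ha, mul_pow, mul_assoc] at h1
    have h6 : p ^ 2 * (a ^ 2 * Ideal.absNorm J) = p ^ 2 * 1 := by rw [← h1, mul_one]
    exact Nat.eq_of_mul_eq_mul_left (pow_pos hp.pos 2) h6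
  have h6 : a = 1 := by
    have := Nat.eq_one_of_mul_eq_one_right h5
    rcases pow_eq_one_iff.1 this with h | h
    · exact h
    · exact absurd h two_ne_zero
  have h7 : Ideal.absNorm J = 1 := Nat.eq_one_of_mul_eq_one_left h5
  rw [Ideal.absNorm_eq_one_iff] at h7
  refine ⟨by rw [hJ, h7, Ideal.mul_top], ?_⟩
  rw [h6, mul_one] at ha
  rw [← ha, Ideal.absNorm_apply, Submodule.cardQuot_apply]

end arith

/-- the arithmetic of the quadratic field -/
theorem main (l : ℕ) (hl : l.Prime) (hl8 : l % 8 = 1) :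
    ∃ (M : Type) (_ : Field M) (_ : NumberField M) (s : M), s ^ 2 = (l : M) ∧
      Module.finrank ℚ M = 2 ∧ Nonempty (M →+* ℝ) ∧ IsGalois ℚ M ∧
      (∀ p : ℕ, p.Prime → RamifiedAt M p → p = l) ∧
      (∀ p : ℕ, p.Prime → l % p = 1 % p → SplitsAt M p) := by
  obtain ⟨M, _, _, s, hs, hrank, hreal, hns⟩ := exists_field l hl
  obtain ⟨hG, σ, hσs, hσ2, hσf⟩ := conj l s hs hns hrank
  have hl0 : (l : 𝓞 M) ≠ 0 := Nat.cast_ne_zero.2 hl.ne_zero
  -- the conjugation on the integers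
  obtain ⟨τ, hτ⟩ : ∃ τ : 𝓞 M →+* 𝓞 M, ∀ x, algebraMap (𝓞 M) M (τ x) = σ (algebraMap (𝓞 M) M x) :=
    ⟨RingOfIntegers.mapRingHom (σ : M →+* M), fun x => rfl⟩
  have hτ2 : ∀ x, τ (τ x) = x := by
    intro x
    apply RingOfIntegers.coe_injective
    rw [hτ, hτ, hσ2]
  have hτf : ∀ x, τ x = x → ∃ u : ℤ, (u : 𝓞 M) = x := by
    intro x hx
    have h1 := congrArg (algebraMap (𝓞 M) M) hx
    rw [hτ] at h1
    obtain ⟨z, hz⟩ := hσf _ h1
    exact int_of_rat x z hz
  have hsint : IsIntegral ℤ s := ⟨X ^ 2 - C (l : ℤ), monic_X_pow_sub_C _ two_ne_zero, by simp [hs]⟩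
  obtain ⟨S, hS⟩ : ∃ S : 𝓞 M, algebraMap (𝓞 M) M S = s := ⟨⟨s, hsint⟩, rfl⟩
  have hS2 : S ^ 2 = (l : 𝓞 M) := by
    apply RingOfIntegers.coe_injective
    rw [map_pow, hS, hs, map_natCast]
  have hτS : τ S = -S := by
    apply RingOfIntegers.coe_injective
    rw [hτ, hS, hσs, map_neg, hS]
  -- the element `(1 + S) / 2`
  obtain ⟨k, hk⟩ : ∃ k : ℕ, l = 8 * k + 1 := ⟨l / 8, by omega⟩
  obtain ⟨W, hW⟩ : ∃ W : 𝓞 M, 2 * W = 1 + S := by
    have h1 : IsIntegral ℤ ((1 + s) / 2) := by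
      refine ⟨X ^ 2 - X - C (2 * k : ℤ), by monicity!, ?_⟩
      have hsk : s ^ 2 = 8 * (k : M) + 1 := by rw [hs, hk]; push_cast; ring
      simp
      field_simp
      linear_combination hsk
    obtain ⟨W, hW⟩ : ∃ W : 𝓞 M, algebraMap (𝓞 M) M W = (1 + s) / 2 := ⟨⟨_, h1⟩, rfl⟩
    refine ⟨W, ?_⟩
    apply RingOfIntegers.coe_injective
    rw [map_mul, map_ofNat, map_add, map_one, hS, hW]
    field_simp
  have h20 : (2 : 𝓞 M) ≠ 0 := by exact_mod_cast (Nat.cast_ne_zero (R := 𝓞 M)).2 (two_ne_zero)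
  have hWW : W ^ 2 = W + 2 * (k : 𝓞 M) := by
    have h4 : (4 : 𝓞 M) ≠ 0 := by
      have : (4 : 𝓞 M) = 2 * 2 := by norm_num
      rw [this]
      exact mul_ne_zero h20 h20
    apply mul_left_cancel₀ h4
    have hSk : S ^ 2 = 8 * (k : 𝓞 M) + 1 := by rw [hS2, hk]; push_cast; ring
    linear_combination (2 * W + S - 1) * hW + hSk
  have hτW : τ W = 1 - W := by
    apply mul_left_cancel₀ h20
    have h1 := congrArg τ hW
    rw [map_mul, map_add, map_one, map_ofNat, hτS] at h1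
    linear_combination h1 + hW
  have hgen : ∀ x : 𝓞 M, ∃ u v : ℤ, 2 * (l : 𝓞 M) * x = (l : 𝓞 M) * u + v * S := by
    intro x
    obtain ⟨u, hu⟩ := hτf (x + τ x) (by rw [map_add, hτ2]; ring)
    obtain ⟨v, hv⟩ := hτf ((x - τ x) * S) (by rw [map_mul, map_sub, hτ2, hτS]; ring)
    refine ⟨u, v, ?_⟩
    rw [hu, hv, ← hS2]
    ring
  have hramp : ∀ p : ℕ, p.Prime → p ≠ l → ∀ w : HeightOneSpectrum (𝓞 M), (p : 𝓞 M) ∉ w.asIdeal ^ 2 := by
    intro p hp hpl w hw
    have hpw : (p : 𝓞 M) ∈ w.asIdeal := Ideal.pow_le_self two_ne_zero hw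
    obtain ⟨h1, h2⟩ := sq_eq hrank w p hp hw
    rw [res_iff w p hp hpw] at h2
    have hτw : ∀ x ∈ w.asIdeal, τ x ∈ w.asIdeal := by
      intro x hx
      have h3 : (τ x) ^ 2 ∈ w.asIdeal := by
        have h4 : x ^ 2 ∈ Ideal.span {(p : 𝓞 M)} := by
          rw [h1]
          exact Ideal.pow_mem_pow hx 2
        obtain ⟨y, hy⟩ := Ideal.mem_span_singleton'.1 h4
        rw [← map_pow, ← hy, map_mul, map_natCast]
        exact Ideal.mul_mem_left _ _ hpw
      exact w.isPrime.mem_of_pow_mem 2 h3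
    rcases hp.eq_two_or_odd' with hp2 | hp2
    · obtain ⟨c, hc⟩ := h2 W
      have h3 := hτw _ hc
      rw [map_sub, hτW, map_intCast] at h3
      apply w.isPrime.ne_top
      rw [Ideal.eq_top_iff_one]
      have h4 : (2 : 𝓞 M) ∈ w.asIdeal := by
        rw [hp2] at hpw
        exact_mod_cast hpw
      have h5 : (1 : 𝓞 M) = (W - (c : 𝓞 M)) + (1 - W - (c : 𝓞 M)) + (c : 𝓞 M) * 2 := by ring
      rw [h5]
      exact Ideal.add_mem _ (Ideal.add_mem _ hc h3) (Ideal.mul_mem_left _ _ h4)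
    · obtain ⟨c, hc⟩ := h2 S
      have h3 := hτw _ hc
      rw [map_sub, hτS, map_intCast] at h3
      have h4 : (2 * S : 𝓞 M) ∈ w.asIdeal := by
        have h5 : (2 * S : 𝓞 M) = (S - (c : 𝓞 M)) - (-S - (c : 𝓞 M)) := by ring
        rw [h5]
        exact Ideal.sub_mem _ hc h3
      rcases w.isPrime.mem_or_mem h4 with h5 | h5
      · have h6 : (p : ℤ) ∣ 2 := int_mem w p hp hpw 2 (by exact_mod_cast h5)
        have h7 : p ∣ 2 := by exact_mod_cast h6
        have h8 := (Nat.prime_dvd_prime_iff_eq hp Nat.prime_two).1 h7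
        rw [h8] at hp2
        exact absurd hp2 (by decide)
      · have h6 : ((l : ℤ) : 𝓞 M) ∈ w.asIdeal := by
          push_cast
          rw [← hS2, sq]
          exact Ideal.mul_mem_left _ _ h5
        have h7 : (p : ℤ) ∣ (l : ℤ) := int_mem w p hp hpw _ h6
        have h8 : p ∣ l := by exact_mod_cast h7
        exact hpl ((Nat.prime_dvd_prime_iff_eq hp hl).1 h8)
  refine ⟨M, inferInstance, inferInstance, s, hs, hrank, hreal, hG, ?_, ?_⟩
  · intro p hp ⟨w, hw⟩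
    by_contra hne
    exact hramp p hp hne w hw
  · intro p hp hlp w hpw
    have hpl : p ≠ l := by
      intro h
      rw [h, Nat.mod_self, Nat.mod_eq_of_lt hl.one_lt] at hlp
      exact zero_ne_one hlp
    refine ⟨hramp p hp hpl w, ?_⟩
    rw [res_iff w p hp hpw]
    -- `l` is one modulo `w`
    have hl1 : (l : 𝓞 M) - 1 ∈ w.asIdeal := by
      have h1 : p ∣ l - 1 := (Nat.modEq_iff_dvd' hl.one_lt.le).1 hlp.symm
      obtain ⟨a, ha⟩ := h1
      have h2 : (l : 𝓞 M) - 1 = (a : 𝓞 M) * (p : 𝓞 M) := by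
        have h3 : l = p * a + 1 := by
          have := hl.one_lt
          omega
        rw [h3]
        push_cast
        ring
      rw [h2]
      exact Ideal.mul_mem_left _ _ hpw
    intro x
    obtain ⟨u, v, huv⟩ := hgen x
    rcases hp.eq_two_or_odd' with hp2 | hp2
    · have h4 : (2 : 𝓞 M) ∈ w.asIdeal := by
        rw [hp2] at hpw
        exact_mod_cast hpw
      -- `l u - v` is even
      have h5 : 2 * ((l : 𝓞 M) * x - v * W) = (((l : ℤ) * u - v : ℤ) : 𝓞 M) := by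
        push_cast
        linear_combination huv - (v : 𝓞 M) * hW
      have h6 : (2 : ℤ) ∣ (l : ℤ) * u - v := by
        have h7 : ((((l : ℤ) * u - v : ℤ)) : 𝓞 M) ∈ w.asIdeal := by
          rw [← h5]
          exact Ideal.mul_mem_right _ _ h4
        have := int_mem w p hp hpw _ h7
        rw [hp2] at this
        exact_mod_cast this
      obtain ⟨t, ht⟩ := h6
      have h7 : (l : 𝓞 M) * x = (t : 𝓞 M) + v * W := by
        apply mul_left_cancel₀ h20
        rw [ht] at h5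
        push_cast at h5
        linear_combination h5
      -- `W` is zero or one
      have h8 : W * (W - 1) ∈ w.asIdeal := by
        have h9 : W * (W - 1) = (k : 𝓞 M) * 2 := by linear_combination hWW
        rw [h9]
        exact Ideal.mul_mem_left _ _ h4
      rcases w.isPrime.mem_or_mem h8 with h9 | h9
      · refine ⟨t, ?_⟩
        have h10 : x - (t : 𝓞 M) = v * W - x * ((l : 𝓞 M) - 1) := by linear_combination h7
        rw [h10]
        exact Ideal.sub_mem _ (Ideal.mul_mem_left _ _ h9) (Ideal.mul_mem_left _ _ hl1)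
      · refine ⟨t + v, ?_⟩
        have h10 : x - ((t + v : ℤ) : 𝓞 M) = v * (W - 1) - x * ((l : 𝓞 M) - 1) := by
          push_cast
          linear_combination h7
        rw [h10]
        exact Ideal.sub_mem _ (Ideal.mul_mem_left _ _ h9) (Ideal.mul_mem_left _ _ hl1)
    · -- `p` odd: `2 b = 1` modulo `p`
      obtain ⟨b, hb⟩ := hp2
      have hbm : 2 * ((b : 𝓞 M) + 1) - 1 ∈ w.asIdeal := by
        have h5 : 2 * ((b : 𝓞 M) + 1) - 1 = (p : 𝓞 M) := by
          rw [hb]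
          push_cast
          ring
        rw [h5]
        exact hpw
      have h8 : (S - 1) * (S + 1) ∈ w.asIdeal := by
        have h9 : (S - 1) * (S + 1) = (l : 𝓞 M) - 1 := by linear_combination hS2
        rw [h9]
        exact hl1
      rcases w.isPrime.mem_or_mem h8 with h9 | h9
      · refine ⟨(b + 1) * (u + v), ?_⟩
        have h10 : x - (((b + 1) * (u + v) : ℤ) : 𝓞 M) =
            ((b : 𝓞 M) + 1) * (v * (S - 1)) + (((b : 𝓞 M) + 1) * u - 2 * ((b : 𝓞 M) + 1) * x) * ((l : 𝓞 M) - 1)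
              - x * (2 * ((b : 𝓞 M) + 1) - 1) := by
          push_cast
          linear_combination ((b : 𝓞 M) + 1) * huv
        rw [h10]
        exact Ideal.sub_mem _ (Ideal.add_mem _ (Ideal.mul_mem_left _ _ (Ideal.mul_mem_left _ _ h9))
          (Ideal.mul_mem_left _ _ hl1)) (Ideal.mul_mem_left _ _ hbm)
      · refine ⟨(b + 1) * (u - v), ?_⟩
        have h10 : x - (((b + 1) * (u - v) : ℤ) : 𝓞 M) =
            ((b : 𝓞 M) + 1) * (v * (S + 1)) + (((b : 𝓞 M) + 1) * u - 2 * ((b : 𝓞 M) + 1) * x) * ((l : 𝓞 M) - 1)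
              - x * (2 * ((b : 𝓞 M) + 1) - 1) := by
          push_cast
          linear_combination ((b : 𝓞 M) + 1) * huv
        rw [h10]
        exact Ideal.sub_mem _ (Ideal.add_mem _ (Ideal.mul_mem_left _ _ (Ideal.mul_mem_left _ _ h9))
          (Ideal.mul_mem_left _ _ hl1)) (Ideal.mul_mem_left _ _ hbm)

end Pool.Agent.H30T.InfQ
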