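import Pool.Agent.H30T.Stm2

/-!
# The ring of integers of `ℚ`, translations
-/

set_option autoImplicit false
set_option linter.all false

open Polynomial IsDedekindDomain NumberField
open scoped Classical

namespace Pool.Agent.H30T

open Pool.Agent.N783.PF

/-- integers in the powers of a prime of `𝓞 ℚ` -/
theorem ratp (v : HeightOneSpectrum (𝓞 ℚ)) : ∃ p : ℕ, p.Prime ∧ v.asIdeal = Ideal.span {(p : 𝓞 ℚ)} ∧
    ∀ (k : ℕ) (n : ℤ), (n : 𝓞 ℚ) ∈ v.asIdeal ^ k ↔ (p : ℤ) ^ k ∣ n := by
  let φ := Rat.ringOfIntegersEquiv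
  haveI := v.isPrime
  haveI hpr : (Ideal.comap φ.symm.toRingHom v.asIdeal).IsPrime := Ideal.comap_isPrime _ _
  obtain ⟨a, ha⟩ := (IsPrincipalIdealRing.principal (Ideal.comap φ.symm.toRingHom v.asIdeal)).1
  rw [← Ideal.span] at ha
  have hv : v.asIdeal = Ideal.span {((a : ℤ) : 𝓞 ℚ)} := by
    have h1 : v.asIdeal = Ideal.map φ.symm.toRingHom (Ideal.comap φ.symm.toRingHom v.asIdeal) :=
      (Ideal.map_comap_of_surjective _ φ.symm.surjective _).symm
    rw [h1, ha, Ideal.map_span, Set.image_singleton]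
    congr 2
    exact map_intCast φ.symm.toRingHom a
  have ha0 : a ≠ 0 := by
    rintro rfl
    apply v.ne_bot
    rw [hv, Int.cast_zero, Ideal.span_singleton_eq_bot]
  have hpa : Prime a := by
    rw [← Ideal.span_singleton_prime ha0, ← ha]
    exact hpr
  have hspan : v.asIdeal = Ideal.span {((a.natAbs : ℕ) : 𝓞 ℚ)} := by
    rw [hv, Ideal.span_singleton_eq_span_singleton]
    obtain ⟨n, hn⟩ := Int.eq_nat_or_neg a
    rcases hn with rfl | rfl
    · rw [Int.natAbs_natCast, Int.cast_natCast]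
    · rw [Int.natAbs_neg, Int.natAbs_natCast, Int.cast_neg, Int.cast_natCast]
      exact (Associated.refl _).neg_left
  refine ⟨a.natAbs, Int.prime_iff_natAbs_prime.1 hpa, hspan, fun k n => ?_⟩
  rw [hspan, Ideal.span_singleton_pow, Ideal.mem_span_singleton]
  constructor
  · intro h
    have h1 := map_dvd φ.toRingHom h
    simpa using h1
  · intro h
    have h1 := map_dvd (algebraMap ℤ (𝓞 ℚ)) h
    simpa using h1

/-- Chinese remainder theorem -/
theorem crt (e : ℕ → ℤ) (S : Finset ℕ) (hS : ∀ q ∈ S, q.Prime) :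
    ∃ c : ℤ, ∀ q ∈ S, (q : ℤ) ∣ c - e q := by
  induction S using Finset.induction_on with
  | empty => exact ⟨0, fun q hq => absurd hq (Finset.notMem_empty q)⟩
  | insert a S ha ih =>
    obtain ⟨c, hc⟩ := ih fun q hq => hS q (Finset.mem_insert_of_mem hq)
    have hap := hS a (Finset.mem_insert_self _ _)
    have hcop : IsCoprime ((∏ q ∈ S, (q : ℤ))) (a : ℤ) := by
      apply IsCoprime.prod_left
      intro q hq
      rw [Nat.isCoprime_iff_coprime]
      refine (Nat.coprime_primes (hS q (Finset.mem_insert_of_mem hq)) hap).2 ?_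
      rintro rfl
      exact ha hq
    obtain ⟨u, v, huv⟩ := hcop
    refine ⟨c + (e a - c) * (u * ∏ q ∈ S, (q : ℤ)), fun q hq => ?_⟩
    rcases Finset.mem_insert.1 hq with rfl | hq
    · have e1 : c + (e q - c) * (u * ∏ q ∈ S, (q : ℤ)) - e q = (c - e q) * v * (q : ℤ) := by
        linear_combination (e q - c) * huv
      rw [e1]
      exact dvd_mul_left _ _
    · have e1 : c + (e a - c) * (u * ∏ q ∈ S, (q : ℤ)) - e q =
          (c - e q) + (e a - c) * u * ∏ q ∈ S, (q : ℤ) := by ring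
      rw [e1]
      exact dvd_add (hc q hq) (Dvd.dvd.mul_left (Finset.dvd_prod_of_mem _ hq) _)

/-- the twist of the translate -/
theorem scale_comp {R : Type} [CommRing R] [IsDomain R] (p : R[X]) (s c : R) (hs : s ≠ 0) :
    (p.comp (X + C c)).scaleRoots s = (p.scaleRoots s).comp (X + C (s * c)) := by
  have key : ∀ q : R[X], (q.scaleRoots s).comp (C s * X) = C (s ^ q.natDegree) * q := by
    intro q
    ext i
    rw [comp_C_mul_X_coeff, coeff_scaleRoots, coeff_C_mul]
    by_cases hi : i ≤ q.natDegree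
    · have e1 : s ^ q.natDegree = s ^ (q.natDegree - i) * s ^ i := by
        rw [← pow_add, Nat.sub_add_cancel hi]
      rw [e1]
      ring
    · rw [coeff_eq_zero_of_natDegree_lt (not_le.1 hi)]
      ring
  have hinj : ∀ q q' : R[X], q.comp (C s * X) = q'.comp (C s * X) → q = q' := by
    intro q q' h
    ext i
    have h1 := congrArg (fun r => coeff r i) h
    simp only [comp_C_mul_X_coeff] at h1
    exact mul_right_cancel₀ (pow_ne_zero _ hs) h1
  apply hinj
  rw [key, comp_assoc]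
  have e1 : (X + C (s * c)).comp (C s * X) = (C s * X : R[X]).comp (X + C c) := by
    rw [add_comp, X_comp, C_comp, mul_comp, C_comp, X_comp, C_mul]
    ring
  rw [e1, ← comp_assoc, key, mul_comp, C_comp, natDegree_comp, natDegree_X_add_C, mul_one]

section gen

variable {L : Type} [Field L] [NumberField L]

/-- the polynomial over `𝓞 ℚ` -/
noncomputable abbrev fO (f : ℤ[X]) : (𝓞 ℚ)[X] := f.map (algebraMap ℤ (𝓞 ℚ))

theorem fF_fO (f : ℤ[X]) : fF (fO f) = f.map (Int.castRingHom ℚ) := by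
  rw [fF, fO, Polynomial.map_map]
  congr 1

theorem fO_mon {f : ℤ[X]} (h : f.Monic) : (fO f).Monic := h.map _

theorem fO_deg {f : ℤ[X]} (h : f.Monic) : (fO f).natDegree = f.natDegree := h.natDegree_map _

/-- the translate of a generator -/
theorem gen_comp {F : Type} [Field F] [NumberField F] [Algebra F L] {g : ℕ} {f : (𝓞 F)[X]}
    {θ : L} (hG : IsGen g f θ) (c : 𝓞 F) :
    IsGen g (f.comp (X + C c)) (θ - algebraMap F L (c : F)) where
  mon := hG.mon.comp_X_add_C c
  deg := by rw [natDegree_comp, natDegree_X_add_C, mul_one, hG.deg]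
  root := by
    have h1 := hG.root
    rw [fF, Polynomial.map_comp, Polynomial.map_add, map_X, map_C, aeval_comp, map_add, aeval_X,
      aeval_C]
    rw [sub_add_cancel]
    exact h1
  rank := hG.rank
  gen x := by
    obtain ⟨a, ha⟩ := hG.gen x
    obtain ⟨P, hP⟩ : ∃ P : F[X], P = ∑ i : Fin (2 * g + 1), C (a i) * X ^ (i : ℕ) := ⟨_, rfl⟩
    have hPd : P.natDegree < 2 * g + 1 := by
      rw [hP]
      refine lt_of_le_of_lt (natDegree_sum_le_of_forall_le _ _ (n := 2 * g) fun i _ => ?_) (by omega)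
      exact (natDegree_C_mul_X_pow_le _ _).trans (by omega)
    have hPx : aeval θ P = x := by
      rw [hP, ha, map_sum]
      refine Finset.sum_congr rfl fun i _ => ?_
      rw [map_mul, aeval_C, map_pow, aeval_X]
    obtain ⟨Q, hQ⟩ : ∃ Q : F[X], Q = P.comp (X + C (c : F)) := ⟨_, rfl⟩
    have hQd : Q.natDegree < 2 * g + 1 := by
      rw [hQ, natDegree_comp, natDegree_X_add_C, mul_one]
      exact hPd
    have hQx : aeval (θ - algebraMap F L (c : F)) Q = x := by
      rw [hQ, aeval_comp, map_add, aeval_X, aeval_C, sub_add_cancel, hPx]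
    refine ⟨fun i => Q.coeff i, ?_⟩
    rw [← hQx, aeval_eq_sum_range' hQd, ← Fin.sum_univ_eq_sum_range
      (fun i => Q.coeff i • (θ - algebraMap F L (c : F)) ^ i)]
    refine Finset.sum_congr rfl fun i _ => ?_
    rw [Algebra.smul_def]

end gen

/-- the resultant and the discriminant -/
theorem dsc_fO {g : ℕ} {f : ℤ[X]} (hg : 1 ≤ g) (hm : f.Monic) (hd : f.natDegree = 2 * g + 1) :
    ∃ ε : ℤ, (ε = 1 ∨ ε = -1) ∧ dsc g (fO f) = ((ε * f.discr : ℤ) : 𝓞 ℚ) := by
  have h0 : 0 < f.degree := by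
    rw [← natDegree_pos_iff_degree_pos, hd]
    omega
  have h1 := resultant_deriv (f := f) h0
  rw [hm.leadingCoeff, mul_one, hd] at h1
  refine ⟨(-1) ^ ((2 * g + 1) * (2 * g + 1 - 1) / 2), neg_one_pow_eq_or ℤ _, ?_⟩
  have e1 : dsc g (fO f) = algebraMap ℤ (𝓞 ℚ) (f.resultant (derivative f) (2 * g + 1) (2 * g)) := by
    rw [dsc, fO, derivative_map, resultant_map_map]
  rw [e1]
  have e2 : 2 * g + 1 - 1 = 2 * g := by omega
  rw [e2] at h1 ⊢
  rw [h1]
  simp

end Pool.Agent.H30T
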