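import Pool.Agent.H30T.Stm
import Pool.Agent.H30H.Two

/-!
# The conditions at a set of primes which split completely and at infinity
-/

set_option autoImplicit false
set_option linter.all false

open Polynomial IsDedekindDomain NumberField Module
open scoped Classical IntermediateField

namespace Pool.Agent.H30T

open Pool.Agent.N692.PMTOW (im)
open Pool.Agent.N783.PF
open Pool.Agent.N783.PQ (LocIm)
open Pool.Agent.H30H

/-- automorphisms and completions -/
theorem ext' {M : Type} [Field M] [NumberField M] (σ : M ≃+* M) (w : HeightOneSpectrum (𝓞 M)) :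
    ∃ (w' : HeightOneSpectrum (𝓞 M)) (s : w'.adicCompletion M →+* w.adicCompletion M),
      (∀ x : M, s (algebraMap M (w'.adicCompletion M) x) =
        algebraMap M (w.adicCompletion M) (σ x)) ∧
      ∀ x : M, w'.valuation M x = w.valuation M (σ x) := by
  obtain ⟨w', hv, hO⟩ := Pool.Agent.N415.PQ.sig M (𝓞 M) σ w
  refine ⟨w', (HeightOneSpectrum.adicCompletion.equiv M w).symm.toRingHom.comp
    ((UniformSpace.Completion.mapRingHom (Pool.Agent.N667.PV.gg σ w w')
      (Pool.Agent.N667.PV.gg_cont σ w w' hv)).comp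
      (HeightOneSpectrum.adicCompletion.equiv M w').toRingHom), fun x => ?_, hv⟩
  have h1 := UniformSpace.Completion.mapRingHom_coe (Pool.Agent.N667.PV.gg_cont σ w w' hv)
    (WithVal.toVal _ x)
  exact congrArg (HeightOneSpectrum.adicCompletion.equiv M w).symm h1

variable {F L M Ω : Type} [Field F] [NumberField F] [Field L] [NumberField L] [Field M]
  [NumberField M] [Field Ω] [NumberField Ω] [Algebra F L] [Algebra F M] [Algebra L Ω] [Algebra M Ω]
  [Algebra F Ω] [IsScalarTower F L Ω] [IsScalarTower F M Ω]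

/-- The conditions at the places above the set `T` and infinity. -/
structure CB (M : Type) [Field M] [NumberField M] [Algebra F M] [Algebra M Ω]
    (T : Set (HeightOneSpectrum (𝓞 F))) (f : (𝓞 F)[X]) (θ x : Ω) : Prop where
  bad : ∀ w : HeightOneSpectrum (𝓞 M), w.under (𝓞 F) ∈ T →
    CE (fF f) θ (algebraMap M (w.adicCompletion M)) x
  real : ∀ ρ : M →+* ℝ, CE (fF f) θ ρ x

variable {T : Set (HeightOneSpectrum (𝓞 F))} {f : (𝓞 F)[X]} {θ : Ω}

theorem cb_sq (htop : M⟮θ⟯ = ⊤) (hmin : minpoly M θ = (fF f).map (algebraMap F M)) (x : Ω) :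
    CB M T f θ (x ^ 2) := by
  haveI : FiniteDimensional M Ω := Module.Finite.of_restrictScalars_finite ℚ M Ω
  haveI : Algebra.IsAlgebraic M Ω := inferInstance
  exact ⟨fun w hw => ce_sq htop hmin x, fun ρ => ce_sq htop hmin x⟩

theorem cb_mul (htop : M⟮θ⟯ = ⊤) (hmin : minpoly M θ = (fF f).map (algebraMap F M)) {x y : Ω}
    (hx : CB M T f θ x) (hy : CB M T f θ y) : CB M T f θ (x * y) := by
  haveI : FiniteDimensional M Ω := Module.Finite.of_restrictScalars_finite ℚ M Ω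
  haveI : Algebra.IsAlgebraic M Ω := inferInstance
  exact ⟨fun w hw => ce_mul htop hmin (hx.bad w hw) (hy.bad w hw),
    fun ρ => ce_mul htop hmin (hx.real ρ) (hy.real ρ)⟩

theorem under_sig (τ : M ≃ₐ[F] M) {w w' : HeightOneSpectrum (𝓞 M)}
    (hv : ∀ x : M, w'.valuation M x = w.valuation M (τ x)) : w'.under (𝓞 F) = w.under (𝓞 F) := by
  ext a
  rw [mem_under, mem_under, ← HeightOneSpectrum.valuation_lt_one_iff_mem (K := M),
    ← HeightOneSpectrum.valuation_lt_one_iff_mem (K := M) w]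
  have e : algebraMap (𝓞 M) M (algebraMap (𝓞 F) (𝓞 M) a) = algebraMap F M (a : F) := rfl
  change w'.valuation M (algebraMap (𝓞 M) M (algebraMap (𝓞 F) (𝓞 M) a)) < 1 ↔
    w.valuation M (algebraMap (𝓞 M) M (algebraMap (𝓞 F) (𝓞 M) a)) < 1
  rw [e, hv, τ.commutes]

theorem cb_sig [IsGalois F M] (htop' : im F M Ω ⊔ im F L Ω = ⊤) (htop : M⟮θ⟯ = ⊤)
    (hmin : minpoly M θ = (fF f).map (algebraMap F M)) {θ₀ : L} (hθ : θ = algebraMap L Ω θ₀)
    (σ : Ω ≃ₐ[L] Ω) {x : Ω} (hx : CB M T f θ x) : CB M T f θ (σ x) := by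
  haveI : FiniteDimensional M Ω := Module.Finite.of_restrictScalars_finite ℚ M Ω
  haveI : Algebra.IsAlgebraic M Ω := inferInstance
  obtain ⟨τ, hτ, -⟩ := restr htop' σ
  have hσθ : (σ : Ω →+* Ω) θ = θ := by
    rw [hθ]
    exact σ.commutes θ₀
  refine ⟨fun w hw => ?_, fun ρ => ?_⟩
  · obtain ⟨w', s, h1, h2⟩ := ext' (τ : M ≃+* M) w
    have hu : w'.under (𝓞 F) = w.under (𝓞 F) := under_sig τ h2
    exact ce_sig htop hmin s (σ : Ω →+* Ω) (τ : M →+* M) hτ hσθ (fun a => τ.commutes a) h1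
      (hx.bad w' (by rw [hu]; exact hw))
  · exact ce_sig (φ' := ρ.comp (τ : M →+* M)) htop hmin (RingHom.id ℝ) (σ : Ω →+* Ω)
      (τ : M →+* M) hτ hσθ (fun a => τ.commutes a) (fun m => rfl) (hx.real _)

theorem base_bad {θ₀ : L} {h₀ : F[X]}
    (hx : CB M T f (algebraMap L Ω θ₀) (algebraMap L Ω (aeval θ₀ h₀)))
    (hspl : ∀ w : HeightOneSpectrum (𝓞 M), w.under (𝓞 F) ∈ T →
      UnrW F w ∧ ResW F w) (v : HeightOneSpectrum (𝓞 F)) (hv : v ∈ T) :
    LocIm (v.adicCompletion F) ((fF f).map (algebraMap F (v.adicCompletion F)))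
      (h₀.map (algebraMap F (v.adicCompletion F))) := by
  obtain ⟨w, hw⟩ := Pool.Agent.H30EV.exists_above (Ω := M) v
  obtain ⟨hu, hr⟩ := hspl w (by rw [hw]; exact hv)
  obtain ⟨j, hj⟩ := exists_back v w (fun x => by rw [hu, hw]) (dens_of_res w hu hr)
  exact ce_base j _ hj (hx.bad w (by rw [hw]; exact hv))

theorem base_real' {θ₀ : L} {h₀ : F[X]}
    (hx : CB M T f (algebraMap L Ω θ₀) (algebraMap L Ω (aeval θ₀ h₀)))
    (hreal : ∀ ρ : F →+* ℝ, ∃ ρ' : M →+* ℝ, ρ'.comp (algebraMap F M) = ρ) (ρ : F →+* ℝ) :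
    LocIm ℝ ((fF f).map ρ) (h₀.map ρ) := by
  obtain ⟨ρ', rfl⟩ := hreal ρ
  exact ce_base (RingHom.id ℝ) _ (fun a => rfl) (hx.real ρ')

end Pool.Agent.H30T
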