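import Pool.Agent.H30T.Core
import Pool.Agent.H30T.Bad
import Pool.Agent.H30H.Sel

/-!
# The 2-Selmer group over all the admissible extensions, with arbitrary bad primes
-/

set_option autoImplicit false
set_option linter.all false

open Polynomial IsDedekindDomain NumberField Module
open scoped Classical IntermediateField

namespace Pool.Agent.H30T

open Pool.Agent.N692.PMTOW (im)
open Pool.Agent.N783.PF
open Pool.Agent.N783.PQ (LocIm)
open Pool.Agent.N874.PP (Ev Sq1 U0)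
open Pool.Agent.N874.PM (Lies)
open Pool.Agent.N874.JM (LocF exists_field irr_up)
open Pool.Agent.N922.PQ (ev_sq ev_mul ev_down sq_down)
open Pool.Agent.H30EV (exists_above)
open Pool.Agent.N78.PF (rd_eq sp_le val_theta val_der LOC1 LOC2 map_locF)
open Pool.Agent.N170.PF (irr_scale fF_scale)
open Pool.Agent.H30H

section base

variable {F L M Ω : Type} [Field F] [NumberField F] [Field L] [NumberField L] [Field M]
  [NumberField M] [Field Ω] [NumberField Ω] [Algebra F L] [Algebra F M] [Algebra L Ω] [Algebra M Ω]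
  [Algebra F Ω] [IsScalarTower F L Ω] [IsScalarTower F M Ω]

/-- The excluded primes: the bad primes, the primes dividing an element of `J` and the primes which
are ramified in `M`. -/
def TT (F M : Type) [Field F] [NumberField F] [Field M] [NumberField M] [Algebra F M] (g : ℕ)
    (f : (𝓞 F)[X]) (J : Finset ℕ) : Set (HeightOneSpectrum (𝓞 F)) :=
  {v | ¬ Gd g f v ∨ (∃ q ∈ J, (q : 𝓞 F) ∈ v.asIdeal) ∨
    ∃ w : HeightOneSpectrum (𝓞 M), w.under (𝓞 F) = v ∧ ¬ UnrW F w}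

/-- the primes of `F` below `𝔓` -/
theorem ov_under {v : HeightOneSpectrum (𝓞 F)} {𝔓 : HeightOneSpectrum (𝓞 L)}
    (h : Ov v.asIdeal 𝔓) : v = 𝔓.under (𝓞 F) := by
  ext1
  exact v.isMaximal.eq_of_le (𝔓.under (𝓞 F)).isPrime.ne_top (ov_iff.1 h)

variable [IsGalois F M] {g W : ℕ} {f : (𝓞 F)[X]} {θ : L} {S J : Finset ℕ}
  {𝔮 : ℕ → Ideal (𝓞 F)} {r P : ℕ → (𝓞 F)[X]}

theorem q_ne (hS : GoodT g W S 𝔮 r P) : ∀ q ∈ S, 𝔮 q ≠ ⊥ := by
  intro q hq h0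
  obtain ⟨a1, -, -, -, -, -, a2, -⟩ := hS q hq
  rw [h0, Ideal.mem_bot] at a2
  exact a1.ne_zero (by exact_mod_cast a2)

theorem q_pr (hS : GoodT g W S 𝔮 r P) : ∀ q ∈ S, (𝔮 q).IsPrime := by
  intro q hq
  obtain ⟨-, -, -, -, -, a1, -⟩ := hS q hq
  exact a1

/-- the prime `𝔮 q` -/
theorem under_q {K : Type} [Field K] [NumberField K] [Algebra F K] (hS : GoodT g W S 𝔮 r P)
    {q : ℕ} (hq : q ∈ S) {𝔓 : HeightOneSpectrum (𝓞 K)} (h : Ov (𝔮 q) 𝔓) :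
    𝔮 q = (𝔓.under (𝓞 F)).asIdeal := by
  have hmax : (𝔮 q).IsMaximal := (q_pr hS q hq).isMaximal (q_ne hS q hq)
  exact hmax.eq_of_le (𝔓.under (𝓞 F)).isPrime.ne_top (ov_iff.1 h)

theorem base_ev (pin : T_PIN) (par : T_PAR) (parq : T_PARQ) (hram' : T_RAM)
    (hg : 1 ≤ g) (hG : IsGen g f θ)
    (hS : GoodT g W S 𝔮 r P) (hcq : ∀ q ∈ S, Cg (sp F q) f (P q))
    (hJS : J ⊆ S) (htop : im F M Ω ⊔ im F L Ω = ⊤)
    (hram : ∀ w : HeightOneSpectrum (𝓞 M), ¬ UnrW F w →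
      Irreducible (rd (w.under (𝓞 F)).asIdeal f))
    {x : L} (hx : x ≠ 0) (hN : IsSquare (Algebra.norm F x))
    (hC : Cs (TT F M g f J) 𝔮 J (algebraMap L Ω θ)
      (algebraMap L Ω (aeval θ (derivative (fF f)))) (algebraMap L Ω x)) :
    ∀ 𝔓 : HeightOneSpectrum (𝓞 L),
      (∀ w : HeightOneSpectrum (𝓞 F), Ov w.asIdeal 𝔓 → Gd g f w) →
      (∀ q ∈ J, Ov (𝔮 q) 𝔓 → 𝔓.valuation L θ ≠ 1) →
      Ev 𝔓 x := by
  have hcQ := cg_q hS hcq
  have key : ∀ 𝔓 : HeightOneSpectrum (𝓞 L), 𝔓.under (𝓞 F) ∉ TT F M g f J →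
      𝔓.valuation L (aeval θ (derivative (fF f))) = 1 → Ev 𝔓 x := by
    intro 𝔓 h1 h2
    obtain ⟨𝔓', h3⟩ := exists_above (Ω := Ω) 𝔓
    have hu : UnrW L 𝔓' := by
      refine unr_top htop 𝔓' ?_
      by_contra hc
      apply h1
      right
      right
      refine ⟨𝔓'.under (𝓞 M), ?_, hc⟩
      rw [under_under (L := L), h3]
    have hv : ∀ y : L, 𝔓'.valuation Ω (algebraMap L Ω y) = 𝔓.valuation L y := by
      intro y
      rw [hu y, h3]
    rw [← ev_down hv]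
    refine hC.ev 𝔓' ?_ ?_
    · rw [← under_tower (L := L), h3]
      exact h1
    · rw [hv]
      exact h2
  intro 𝔓 hgd h𝔓
  obtain ⟨v, hv⟩ : ∃ v : HeightOneSpectrum (𝓞 F), v = 𝔓.under (𝓞 F) := ⟨_, rfl⟩
  have w1 : Ov v.asIdeal 𝔓 := by
    rw [hv]
    exact ov_iff.2 le_rfl
  have hgv := hgd v w1
  by_cases cq : ∃ q ∈ J, (q : 𝓞 F) ∈ v.asIdeal
  · obtain ⟨q, hq, hqw⟩ := cq
    have hqS := hJS hq
    by_cases cw : v.asIdeal = 𝔮 q
    · have o1 : Ov (𝔮 q) 𝔓 := by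
        rw [← cw]
        exact w1
      have v1 : 𝔓.valuation L θ < 1 := lt_of_le_of_ne (val_theta hG 𝔓) (h𝔓 q hq o1)
      exact parq g W F L f θ S 𝔮 r P hg hG hS q hqS (hcQ q hqS) _ hx hN 𝔓 o1 v1
    · have e1 := rd_eq (sp_le hqw) (hcq q hqS)
      obtain ⟨-, -, -, -, -, -, -, -, -, -, -, -, -, -, a1⟩ := hS q hqS
      exact pin g F L f θ hG v.asIdeal v.isPrime v.ne_bot
        (by rw [e1]; exact a1 _ v.isPrime hqw cw) _ hx hN 𝔓 w1
  by_cases cr : ∃ w : HeightOneSpectrum (𝓞 M), w.under (𝓞 F) = v ∧ ¬ UnrW F w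
  · obtain ⟨w, hw, hwu⟩ := cr
    have := hram w hwu
    rw [hw] at this
    exact pin g F L f θ hG v.asIdeal v.isPrime v.ne_bot this _ hx hN 𝔓 w1
  have hvT : v ∉ TT F M g f J := by
    rintro (h | h | h)
    · exact h hgv
    · exact cq h
    · exact cr h
  by_cases cu : 𝔓.valuation L (aeval θ (derivative (fF f))) = 1
  · exact key 𝔓 (hv ▸ hvT) cu
  · have v1 : 𝔓.valuation L (aeval θ (derivative (fF f))) < 1 :=
      lt_of_le_of_ne (val_der hG 𝔓) cu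
    obtain ⟨⟨c, hc⟩, hother⟩ := hram' g F L f θ hG v.asIdeal v.isPrime v.ne_bot hgv.2 𝔓 w1 v1
    refine par g F L f θ hG v.asIdeal v.isPrime v.ne_bot hgv.2 𝔓 c w1 hc _ hx hN ?_
    intro 𝔓' o' n'
    have ew : v = 𝔓'.under (𝓞 F) := ov_under o'
    exact key 𝔓' (ew ▸ hvT) (hother 𝔓' o' n')

theorem base_u0 (hS : GoodT g W S 𝔮 r P)
    (hJS : J ⊆ S) (htop : im F M Ω ⊔ im F L Ω = ⊤)
    (hspl : ∀ w : HeightOneSpectrum (𝓞 M), (∃ q ∈ J, (q : 𝓞 F) ∈ (w.under (𝓞 F)).asIdeal) →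
      UnrW F w ∧ ResW F w) {T : Set (HeightOneSpectrum (𝓞 F))}
    {x η : L} (hC : Cs T 𝔮 J (algebraMap L Ω θ) (algebraMap L Ω η) (algebraMap L Ω x)) :
    ∀ q ∈ J, ∀ 𝔓 : HeightOneSpectrum (𝓞 L), Ov (𝔮 q) 𝔓 → 𝔓.valuation L θ = 1 →
      U0 𝔓 ((q : L) * θ) x := by
  intro q hq 𝔓 h1 h2
  obtain ⟨𝔓', h3⟩ := exists_above (Ω := Ω) 𝔓
  have hqS := hJS hq
  have e1 : (𝔓'.under (𝓞 M)).under (𝓞 F) = 𝔓.under (𝓞 F) := by
    rw [under_under (L := L), h3]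
  have hqm : (q : 𝓞 F) ∈ ((𝔓'.under (𝓞 M)).under (𝓞 F)).asIdeal := by
    rw [e1, ← under_q hS hqS h1]
    exact (hS q hqS).2.2.2.2.2.2.1
  obtain ⟨hu0, hr0⟩ := hspl (𝔓'.under (𝓞 M)) ⟨q, hq, hqm⟩
  have hu : UnrW L 𝔓' := unr_top htop 𝔓' hu0
  have hv : ∀ y : L, 𝔓'.valuation Ω (algebraMap L Ω y) = 𝔓.valuation L y := by
    intro y
    rw [hu y, h3]
  have hd := dens_top htop 𝔓' hu0 hr0
  have hQ' : Ov (𝔮 q) 𝔓' := by
    rw [ov_iff, ← under_tower (L := L), h3, ← ov_iff]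
    exact h1
  have h5 := hC.u0 q hq 𝔓' hQ' (by rw [hv]; exact h2)
  refine ⟨fun h4 => sq_down hv hd (h5.1 ((ev_down hv x).2 h4)), fun h4 => ?_⟩
  have h6 := h5.2 fun h7 => h4 ((ev_down hv x).1 h7)
  have e : algebraMap L Ω x * ((q : Ω) * algebraMap L Ω θ) =
      algebraMap L Ω (x * ((q : L) * θ)) := by
    rw [map_mul, map_mul, map_natCast]
  rw [e] at h6
  exact sq_down hv hd h6

/-- the valuation of `q` and square classes at the primes over `𝔮 q` at which `θ` is a unit -/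
theorem q_top (exq : T_EXQ) (csq : T_CSQ) (hg : 1 ≤ g) (hG : IsGen g f θ)
    (hS : GoodT g W S 𝔮 r P) (hcq : ∀ q ∈ S, Cg (sp F q) f (P q))
    (hJS : J ⊆ S) (htop : im F M Ω ⊔ im F L Ω = ⊤)
    (hspl : ∀ w : HeightOneSpectrum (𝓞 M), (∃ q ∈ J, (q : 𝓞 F) ∈ (w.under (𝓞 F)).asIdeal) →
      UnrW F w ∧ ResW F w)
    {q : ℕ} (hq : q ∈ J) (𝔓 : HeightOneSpectrum (𝓞 Ω)) (h1 : Ov (𝔮 q) 𝔓)
    (h2 : 𝔓.valuation Ω (algebraMap L Ω θ) = 1) :
    𝔓.valuation Ω (q : Ω) = WithZero.exp (-1 : ℤ) ∧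
    (∀ c : 𝓞 F, c ∉ 𝔮 q → Sq1 𝔓 (algebraMap F Ω (c : F))) ∧
    UnrW F (𝔓.under (𝓞 M)) ∧ ResW F (𝔓.under (𝓞 M)) ∧
    ¬ Ev 𝔓 ((q : Ω) * algebraMap L Ω θ) := by
  have hqS := hJS hq
  have e1 : (𝔓.under (𝓞 M)).under (𝓞 F) = 𝔓.under (𝓞 F) := under_tower (L := M) 𝔓
  have hqm : (q : 𝓞 F) ∈ ((𝔓.under (𝓞 M)).under (𝓞 F)).asIdeal := by
    rw [e1, ← under_q hS hqS h1]
    exact (hS q hqS).2.2.2.2.2.2.1
  obtain ⟨hu0, hr0⟩ := hspl (𝔓.under (𝓞 M)) ⟨q, hq, hqm⟩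
  have hu : UnrW L 𝔓 := unr_top htop 𝔓 hu0
  have o1 : Ov (𝔮 q) (𝔓.under (𝓞 L)) := by
    rw [ov_iff, under_tower, ← ov_iff]
    exact h1
  have v1 : (𝔓.under (𝓞 L)).valuation L θ = 1 := by
    rw [← hu]
    exact h2
  have hcQ := cg_q hS hcq
  obtain ⟨𝔓₁, 𝔓₂, a1, a2, a3, a4, a5, a6, a7⟩ := exq g W F L f θ S 𝔮 r P hg hG hS q hqS
    (hcQ q hqS)
  have vq : (𝔓.under (𝓞 L)).valuation L (q : L) = WithZero.exp (-1 : ℤ) := by
    rcases a7 _ o1 with h | h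
    · rw [h]
      exact a5
    · rw [h]
      exact a6
  have vq' : 𝔓.valuation Ω (q : Ω) = WithZero.exp (-1 : ℤ) := by
    rw [← map_natCast (algebraMap L Ω), hu]
    exact vq
  obtain ⟨c1, -, -, -⟩ := csq g W F L f θ S 𝔮 r P hg hG hS q hqS (hcQ q hqS) _ o1 v1
  refine ⟨vq', fun c hc => ?_, hu0, hr0, ?_⟩
  · rw [IsScalarTower.algebraMap_apply F L Ω]
    exact sq_up hu (c1 c hc)
  · apply Pool.Agent.N891.PQ.not_ev_exp
    rw [map_mul, vq', h2, mul_one]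

theorem cs_top (exq : T_EXQ) (csq : T_CSQ) (hg : 1 ≤ g) (hG : IsGen g f θ)
    (hS : GoodT g W S 𝔮 r P) (hcq : ∀ q ∈ S, Cg (sp F q) f (P q))
    (hJS : J ⊆ S) (htop : im F M Ω ⊔ im F L Ω = ⊤)
    (hspl : ∀ w : HeightOneSpectrum (𝓞 M), (∃ q ∈ J, (q : 𝓞 F) ∈ (w.under (𝓞 F)).asIdeal) →
      UnrW F w ∧ ResW F w)
    {D : ℕ} (hD : D = Dp J) {h : M[X]}
    (hloc : ∀ w : HeightOneSpectrum (𝓞 M), LocF (w.adicCompletion M)
      (((fF f).map (algebraMap F M)).scaleRoots (D : M)) h)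
    (hne : aeval ((D : Ω) * algebraMap L Ω θ) h ≠ 0) :
    Cs (TT F M g f J) 𝔮 J (algebraMap L Ω θ) (algebraMap L Ω (aeval θ (derivative (fF f))))
      (aeval ((D : Ω) * algebraMap L Ω θ) h) := by
  have hqp : ∀ q ∈ S, q.Prime := fun q hq => (hS q hq).1
  have hcQ := cg_q hS hcq
  have hmM : ((fF f).map (algebraMap F M)).Monic := (hG.mon.map _).map _
  have hdM : ((fF f).map (algebraMap F M)).natDegree = 2 * g + 1 := by
    rw [(hG.mon.map _).natDegree_map, hG.mon.natDegree_map, hG.deg]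
  have hroot := fM_root (M := M) (Ω := Ω) hG
  refine ⟨fun 𝔓 h1 h2 => ?_, fun q hq 𝔓 h1 h2 => ?_⟩
  · have hund : (𝔓.under (𝓞 M)).under (𝓞 F) = 𝔓.under (𝓞 F) := under_tower (L := M) 𝔓
    have n2 : ((2 : ℕ) : 𝓞 F) ∉ ((𝔓.under (𝓞 M)).under (𝓞 F)).asIdeal := by
      rw [hund]
      intro h3
      exact h1 (Or.inl fun h4 => h4.1 (by exact_mod_cast h3))
    have nD : ((D : ℕ) : 𝓞 F) ∉ ((𝔓.under (𝓞 M)).under (𝓞 F)).asIdeal := by
      rw [hund]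
      intro h3
      rw [hD, Dp, Nat.cast_prod] at h3
      haveI := (𝔓.under (𝓞 F)).isPrime
      obtain ⟨q, hq, hqw⟩ := (Ideal.IsPrime.prod_mem_iff).1 h3
      exact h1 (Or.inr (Or.inl ⟨q, hq, hqw⟩))
    have v2 := val_nat n2
    have vD := val_nat nD
    rw [Nat.cast_ofNat] at v2
    have e1 : (D : Ω) = algebraMap M Ω (D : M) := by simp
    rw [e1] at hne ⊢
    exact LOC1 M Ω (𝓞 M) (𝓞 Ω) (𝔓.under (𝓞 M)) 𝔓 (lies_under 𝔓) v2 _ h (D : M)
      (algebraMap L Ω θ) hmM (by rw [hdM]; exact ⟨g, rfl⟩) (fM_coeff _) hroot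
      (by rw [fM_der]; exact h2) vD (hloc _) hne
  · have hqS := hJS hq
    obtain ⟨a1, a2, a3, a4, a5, a6, a7, a8, a9, a10, a11, a12, a13, a14, a15⟩ := hS q hqS
    obtain ⟨vq, hsqc, hu0, hr0, -⟩ := q_top exq csq hg hG hS hcq hJS htop hspl hq 𝔓 h1 h2
    obtain ⟨w, hw⟩ : ∃ w : HeightOneSpectrum (𝓞 M), w = 𝔓.under (𝓞 M) := ⟨_, rfl⟩
    rw [← hw] at hu0 hr0
    have hund : w.under (𝓞 F) = 𝔓.under (𝓞 F) := by
      rw [hw]
      exact under_tower (L := M) 𝔓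
    have hwq : 𝔮 q = (w.under (𝓞 F)).asIdeal := by
      rw [hund]
      exact under_q hS hqS h1
    haveI : Finite (𝓞 M ⧸ w.asIdeal) := Ideal.finiteQuotientOfFreeOfNeBot _ w.ne_bot
    haveI : Finite (𝓞 Ω ⧸ 𝔓.asIdeal) := Ideal.finiteQuotientOfFreeOfNeBot _ 𝔓.ne_bot
    have nat_mem : ∀ p : ℕ, p.Prime → (p : 𝓞 F) ∈ 𝔮 q → p = q :=
      fun p hp hpm => nat_mem hp a1 a6 hpm a7
    have q2 : q ≠ 2 := by
      rintro rfl
      omega
    have n2 : ((2 : ℕ) : 𝓞 F) ∉ (w.under (𝓞 F)).asIdeal := by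
      rw [← hwq]
      intro h3
      exact q2 (nat_mem 2 Nat.prime_two h3).symm
    obtain ⟨D', hD'⟩ : ∃ D' : ℕ, D' = ∏ p ∈ J.erase q, p := ⟨_, rfl⟩
    have hDD : D = q * D' := by
      rw [hD, hD']
      exact (Finset.mul_prod_erase J (fun P => P) hq).symm
    have hD'm : (D' : 𝓞 F) ∉ 𝔮 q := by
      intro hd
      rw [hD', Nat.cast_prod] at hd
      haveI := a6
      obtain ⟨p, hp, hpm⟩ := (Ideal.IsPrime.prod_mem_iff).1 hd
      have hp' := Finset.mem_erase.1 hp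
      exact hp'.1 (nat_mem p (hqp p (hJS hp'.2)) hpm)
    have v2 := val_nat n2
    rw [Nat.cast_ofNat] at v2
    have vD' := val_nat (w := w) (by rw [← hwq]; exact hD'm)
    have s1 : Sq1 𝔓 (-1 : Ω) := by
      have := hsqc (-1) (by
        intro hm
        apply a6.ne_top
        rw [Ideal.eq_top_iff_one]
        have := Ideal.neg_mem_iff _ |>.2 hm
        simpa using this)
      simpa using this
    have s2 : Sq1 𝔓 (algebraMap M Ω (D' : M)) := by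
      have := hsqc (D' : 𝓞 F) hD'm
      simpa using this
    have hl := hloc w
    have e7 : (D : M) = (q : M) * (D' : M) := by
      rw [hDD, Nat.cast_mul]
    rw [e7] at hl
    have e8 : (D : Ω) = algebraMap M Ω ((q : M) * (D' : M)) := by
      rw [← e7, map_natCast]
    have e9 : (q : Ω) = algebraMap M Ω (q : M) := by simp
    rw [e8] at hne ⊢
    rw [e9]
    refine LOC2 M Ω (𝓞 M) (𝓞 Ω) w 𝔓 (hw ▸ lies_under 𝔓) v2 g _ h
      ((r q).map (algebraMap (𝓞 F) (𝓞 M))) (q : M) (D' : M) (algebraMap L Ω θ) hg hmM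
      hdM (a8.map _) (by rw [a8.natDegree_map, a9]) ?_ ?_ hroot h2 (by rw [← e9]; exact vq) vD' s1 s2
      hl hne
    · exact irr_res hr0 (hwq ▸ a10)
    · intro j
      have e1 : ((fF f).map (algebraMap F M)).coeff j -
          algebraMap (𝓞 M) M ((X * (r q).map (algebraMap (𝓞 F) (𝓞 M))).coeff j) =
          algebraMap (𝓞 M) M (algebraMap (𝓞 F) (𝓞 M) (f.coeff j - (X * r q).coeff j)) := by
        have e2 : (X * (r q).map (algebraMap (𝓞 F) (𝓞 M))) =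
            (X * r q).map (algebraMap (𝓞 F) (𝓞 M)) := by
          rw [Polynomial.map_mul, map_X]
        rw [e2, coeff_map, coeff_map, coeff_map, map_sub, map_sub]
        rfl
      rw [e1]
      refine (HeightOneSpectrum.valuation_lt_one_iff_mem (K := M) w _).2 ?_
      rw [← mem_under, ← hwq]
      exact hcQ q hqS j

end base

/-- The field `M` is admissible for `f` and the primes in `J`. -/
structure AdmT (F M : Type) [Field F] [NumberField F] [Field M] [NumberField M] [Algebra F M]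
    (g : ℕ) (f : (𝓞 F)[X]) (J : Finset ℕ) : Prop where
  spl : ∀ w : HeightOneSpectrum (𝓞 M), (¬ Gd g f (w.under (𝓞 F)) ∨
    ∃ q ∈ J, (q : 𝓞 F) ∈ (w.under (𝓞 F)).asIdeal) → UnrW F w ∧ ResW F w
  ram : ∀ w : HeightOneSpectrum (𝓞 M), ¬ UnrW F w → Irreducible (rd (w.under (𝓞 F)).asIdeal f)
  real : ∀ ρ : F →+* ℝ, ∃ ρ' : M →+* ℝ, ρ'.comp (algebraMap F M) = ρ

section abs

variable {F L M Ω : Type} [Field F] [NumberField F] [Field L] [NumberField L] [Field M]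
  [NumberField M] [Field Ω] [NumberField Ω] [Algebra F L] [Algebra F M] [Algebra L Ω] [Algebra M Ω]
  [Algebra F Ω] [IsScalarTower F L Ω] [IsScalarTower F M Ω]
  [IsGalois F M] {g W : ℕ} {f : (𝓞 F)[X]} {θ : L} {S J : Finset ℕ}
  {𝔮 : ℕ → Ideal (𝓞 F)} {r P : ℕ → (𝓞 F)[X]}

theorem sel_abs (exq : T_EXQ) (csq : T_CSQ) (pin : T_PIN) (par : T_PAR) (parq : T_PARQ)
    (hram' : T_RAM) (hg : 1 ≤ g) (hG : IsGen g f θ)
    (hS : GoodT g W S 𝔮 r P) (hcq : ∀ q ∈ S, Cg (sp F q) f (P q))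
    (hJS : J ⊆ S)
    (hcore : ∀ h : F[X], aeval θ h ≠ 0 → IsSquare (Algebra.norm F (aeval θ h)) →
      (∀ 𝔓 : HeightOneSpectrum (𝓞 L),
        (∀ w : HeightOneSpectrum (𝓞 F), Ov w.asIdeal 𝔓 → Gd g f w) →
        (∀ q ∈ J, Ov (𝔮 q) 𝔓 → 𝔓.valuation L θ ≠ 1) → Ev 𝔓 (aeval θ h)) →
      (∀ q ∈ J, ∀ 𝔓 : HeightOneSpectrum (𝓞 L), Ov (𝔮 q) 𝔓 → 𝔓.valuation L θ = 1 →
        U0 𝔓 ((q : L) * θ) (aeval θ h)) →
      (∀ w : HeightOneSpectrum (𝓞 F), ¬ Gd g f w → LocF (w.adicCompletion F) (fF f) h) →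
      (∀ σ : F →+* ℝ, LocIm ℝ ((fF f).map σ) (h.map σ)) → IsSquare (aeval θ h))
    (hadm : AdmT F M g f J) {n : ℕ} (hM : Module.finrank F M = 2 ^ n)
    (hΩ : Module.finrank M Ω = 2 * g + 1) (htop : M⟮algebraMap L Ω θ⟯ = ⊤)
    (hmin : minpoly M (algebraMap L Ω θ) = (fF f).map (algebraMap F M))
    {D : ℕ} (hD : D = Dp J)
    (hDsq : ∀ w : HeightOneSpectrum (𝓞 M), ¬ Gd g f (w.under (𝓞 F)) →
      ∃ δ : w.adicCompletion M, δ ^ 2 = (D : w.adicCompletion M))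
    {h : M[X]} (hne : aeval ((D : Ω) * algebraMap L Ω θ) h ≠ 0)
    (hN : IsSquare (Algebra.norm M (aeval ((D : Ω) * algebraMap L Ω θ) h)))
    (hloc : ∀ w : HeightOneSpectrum (𝓞 M), LocF (w.adicCompletion M)
      (((fF f).map (algebraMap F M)).scaleRoots (D : M)) h)
    (hreal : ∀ ρ : M →+* ℝ, LocIm ℝ ((((fF f).map (algebraMap F M)).scaleRoots (D : M)).map ρ)
      (h.map ρ)) :
    IsSquare (aeval ((D : Ω) * algebraMap L Ω θ) h) := by
  have htop2 : im F M Ω ⊔ im F L Ω = ⊤ := sup_top hM hG.rank hΩ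
  have hsplq : ∀ w : HeightOneSpectrum (𝓞 M), (∃ q ∈ J, (q : 𝓞 F) ∈ (w.under (𝓞 F)).asIdeal) →
      UnrW F w ∧ ResW F w := fun w hw => hadm.spl w (Or.inr hw)
  have hD0 : D ≠ 0 := by
    rw [hD, Dp, Finset.prod_ne_zero_iff]
    exact fun q hq => (hS q (hJS hq)).1.ne_zero
  have hmf : (f.map (algebraMap (𝓞 F) (𝓞 M))).Monic := hG.mon.map _
  have hdf : (f.map (algebraMap (𝓞 F) (𝓞 M))).natDegree = 2 * g + 1 := by
    rw [hG.mon.natDegree_map, hG.deg]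
  have efs : fF ((f.map (algebraMap (𝓞 F) (𝓞 M))).scaleRoots ((D : ℕ) : 𝓞 M)) =
      ((fF f).map (algebraMap F M)).scaleRoots (D : M) := by
    rw [fF_scale hmf, fF_map]
  have hrepD : aeval (algebraMap L Ω θ) (h.comp (C (D : M) * X)) =
      aeval ((D : Ω) * algebraMap L Ω θ) h := by
    rw [aeval_comp, map_mul, aeval_C, aeval_X, map_natCast]
  -- the conditions
  have hcs := cs_top exq csq hg hG hS hcq hJS htop2 hsplq hD hloc hne
  have hc2 : CB M {v | ¬ Gd g f v} f (algebraMap L Ω θ)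
      (aeval ((D : Ω) * algebraMap L Ω θ) h) := by
    refine ⟨fun w hw => ce_of hmin hrepD ?_, fun ρ => ce_of hmin hrepD ?_⟩
    · obtain ⟨δ, hδ⟩ := hDsq w hw
      haveI : CharZero (w.adicCompletion M) :=
        charZero_of_injective_algebraMap (algebraMap M (w.adicCompletion M)).injective
      have h1 := map_locF (E := w.adicCompletion M) hmf hdf hD0 δ hδ h
        (by rw [efs]; exact hloc w)
      rw [fF_map] at h1
      exact h1
    · letI : Algebra M ℝ := ρ.toAlgebra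
      have h1 := map_locF (E := ℝ) hmf hdf hD0 (Real.sqrt D) (Real.sq_sqrt (Nat.cast_nonneg D)) h
        (by rw [efs]; exact hreal ρ)
      rw [fF_map] at h1
      exact h1
  -- the descent
  have h2F : (2 : F) ≠ 0 := two_ne_zero
  refine Pool.Agent.N301.JM.tow' n F L M Ω h2F hM (by rw [hG.rank]; exact ⟨g, rfl⟩)
    (by rw [hΩ, hG.rank])
    (fun x => Cs (TT F M g f J) 𝔮 J (algebraMap L Ω θ)
      (algebraMap L Ω (aeval θ (derivative (fF f)))) x ∧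
      CB M {v | ¬ Gd g f v} f (algebraMap L Ω θ) x)
    (fun x hx => ⟨cs_sq hx, cb_sq htop hmin x⟩)
    (fun x y hx hy hcx hcy => ⟨cs_mul (fun q hq 𝔓 h1 h2 =>
      (q_top exq csq hg hG hS hcq hJS htop2 hsplq hq 𝔓 h1 h2).2.2.2.2) hx hy hcx.1 hcy.1,
      cb_mul htop hmin hcx.2 hcy.2⟩)
    (fun σ x hcx => ⟨cs_sig rfl rfl σ hcx.1, cb_sig htop2 htop hmin rfl σ hcx.2⟩)
    (fun x hx hcx hNx => ?_) _ hne ⟨hcs, hc2⟩ hN
  obtain ⟨h₀, rfl⟩ := rep_L hG x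
  exact hcore h₀ hx hNx
    (base_ev pin par parq hram' hg hG hS hcq hJS htop2 hadm.ram hx hNx hcx.1)
    (base_u0 hS hJS htop2 hsplq hcx.1)
    (fun v hv => base_bad hcx.2 (fun w hw => hadm.spl w (Or.inl hw)) v hv)
    (fun ρ => base_real' hcx.2 hadm.real ρ)

end abs

section main

variable {F : Type} [Field F] [NumberField F] {L : Type} [Field L] [NumberField L] [Algebra F L]
  {g W : ℕ} {f : (𝓞 F)[X]} {θ : L} {S J : Finset ℕ}
  {𝔮 : ℕ → Ideal (𝓞 F)} {r P : ℕ → (𝓞 F)[X]}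

/-- The 2-Selmer group over the extension `M`. -/
theorem sel_M (exq : T_EXQ) (csq : T_CSQ) (pin : T_PIN) (par : T_PAR) (parq : T_PARQ)
    (hram' : T_RAM) (hg : 1 ≤ g) (hirr : Irreducible (fF f)) (hG : IsGen g f θ)
    (hS : GoodT g W S 𝔮 r P) (hcq : ∀ q ∈ S, Cg (sp F q) f (P q))
    (hJS : J ⊆ S)
    (hcore : ∀ h : F[X], aeval θ h ≠ 0 → IsSquare (Algebra.norm F (aeval θ h)) →
      (∀ 𝔓 : HeightOneSpectrum (𝓞 L),
        (∀ w : HeightOneSpectrum (𝓞 F), Ov w.asIdeal 𝔓 → Gd g f w) →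
        (∀ q ∈ J, Ov (𝔮 q) 𝔓 → 𝔓.valuation L θ ≠ 1) → Ev 𝔓 (aeval θ h)) →
      (∀ q ∈ J, ∀ 𝔓 : HeightOneSpectrum (𝓞 L), Ov (𝔮 q) 𝔓 → 𝔓.valuation L θ = 1 →
        U0 𝔓 ((q : L) * θ) (aeval θ h)) →
      (∀ w : HeightOneSpectrum (𝓞 F), ¬ Gd g f w → LocF (w.adicCompletion F) (fF f) h) →
      (∀ σ : F →+* ℝ, LocIm ℝ ((fF f).map σ) (h.map σ)) → IsSquare (aeval θ h))
    (M : Type) [Field M] [NumberField M] [Algebra F M] [IsGalois F M]
    (hadm : AdmT F M g f J) {n : ℕ} (hM : Module.finrank F M = 2 ^ n)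
    (hDsq : ∀ w : HeightOneSpectrum (𝓞 M), ¬ Gd g f (w.under (𝓞 F)) →
      ∃ δ : w.adicCompletion M, δ ^ 2 = ((Dp J : ℕ) : w.adicCompletion M)) :
    SelZero ((f.scaleRoots ((Dp J : ℕ) : 𝓞 F)).map (algebraMap (𝓞 F) (𝓞 M))) ∧
      Irreducible (fF ((f.scaleRoots ((Dp J : ℕ) : 𝓞 F)).map (algebraMap (𝓞 F) (𝓞 M)))) := by
  have hm := hG.mon
  have hd := hG.deg
  have hmF : (fF f).Monic := hm.map _
  have hdF : (fF f).natDegree = 2 * g + 1 := by rw [hm.natDegree_map, hd]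
  haveI : FiniteDimensional F M := Module.Finite.of_restrictScalars_finite ℚ F M
  haveI : FiniteDimensional F M := Module.Finite.of_restrictScalars_finite ℚ F M
  have hirrM : Irreducible ((fF f).map (algebraMap F M)) :=
    irr_up hM hirr hmF (by rw [hdF]; exact ⟨g, rfl⟩)
  have hmM : ((fF f).map (algebraMap F M)).Monic := hmF.map _
  have hdM : ((fF f).map (algebraMap F M)).natDegree = 2 * g + 1 := by
    rw [hmF.natDegree_map, hdF]
  obtain ⟨D, hDD⟩ : ∃ D : ℕ, D = Dp J := ⟨_, rfl⟩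
  have hD0 : D ≠ 0 := by
    rw [hDD, Dp, Finset.prod_ne_zero_iff]
    exact fun q hq => (hS q (hJS hq)).1.ne_zero
  have hDM0 : (D : M) ≠ 0 := Nat.cast_ne_zero.2 hD0
  rw [← hDD] at hDsq ⊢
  have hirrD : Irreducible (fF ((f.scaleRoots ((D : ℕ) : 𝓞 F)).map
      (algebraMap (𝓞 F) (𝓞 M)))) := by
    rw [fF_sc_map hm]
    exact irr_scale hDM0 hirrM
  refine ⟨?_, hirrD⟩
  obtain ⟨Ω, instF, instA, t, ht, hrk, htop, hfin, hmin⟩ := exists_field hirrM hmM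
  rw [hdM] at hrk
  haveI : NumberField Ω := NumberField.of_module_finite M Ω
  letI : Algebra F Ω := ((algebraMap M Ω).comp (algebraMap F M)).toAlgebra
  haveI : IsScalarTower F M Ω := IsScalarTower.of_algebraMap_eq fun x => rfl
  -- the embedding of `L`
  haveI : Fact (Irreducible (fF f)) := ⟨hirr⟩
  have htf : aeval t (fF f) = 0 := by
    rw [aeval_map_algebraMap] at ht
    exact ht
  haveI : FiniteDimensional F (AdjoinRoot (fF f)) := hmF.finite_adjoinRoot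
  haveI : FiniteDimensional F L := Module.finite_of_finrank_pos (by rw [hG.rank]; omega)
  obtain ⟨φ₁, hφ₁⟩ : ∃ φ : AdjoinRoot (fF f) →ₐ[F] L, φ (AdjoinRoot.root (fF f)) = θ := by
    refine ⟨AdjoinRoot.liftAlgHom (fF f) (Algebra.ofId F L) θ ?_, ?_⟩
    · rw [Algebra.toRingHom_ofId, ← aeval_def]
      exact hG.root
    · rw [AdjoinRoot.liftAlgHom_root]
  obtain ⟨φ₂, hφ₂⟩ : ∃ φ : AdjoinRoot (fF f) →ₐ[F] Ω, φ (AdjoinRoot.root (fF f)) = t := by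
    refine ⟨AdjoinRoot.liftAlgHom (fF f) (Algebra.ofId F Ω) t ?_, ?_⟩
    · rw [Algebra.toRingHom_ofId, ← aeval_def]
      exact htf
    · rw [AdjoinRoot.liftAlgHom_root]
  have hrk1 : Module.finrank F (AdjoinRoot (fF f)) = Module.finrank F L := by
    rw [hG.rank, (AdjoinRoot.powerBasis hmF.ne_zero).finrank, AdjoinRoot.powerBasis_dim, hdF]
  have hsur : Function.Surjective φ₁ :=
    (LinearMap.injective_iff_surjective_of_finrank_eq_finrank (f := φ₁.toLinearMap) hrk1).1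
      φ₁.toRingHom.injective
  obtain ⟨e, he⟩ : ∃ e : AdjoinRoot (fF f) ≃ₐ[F] L, ∀ x, e x = φ₁ x :=
    ⟨AlgEquiv.ofBijective φ₁ ⟨φ₁.toRingHom.injective, hsur⟩, fun _ => rfl⟩
  obtain ⟨ψ, hψ⟩ : ∃ ψ : L →ₐ[F] Ω, ψ θ = t := by
    refine ⟨φ₂.comp e.symm.toAlgHom, ?_⟩
    have h1 : e.symm θ = AdjoinRoot.root (fF f) := by
      rw [AlgEquiv.symm_apply_eq, he, hφ₁]
    change φ₂ (e.symm θ) = t
    rw [h1, hφ₂]
  letI : Algebra L Ω := ψ.toRingHom.toAlgebra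
  have hL : ∀ x : L, algebraMap L Ω x = ψ x := fun x => rfl
  haveI : IsScalarTower F L Ω := by
    refine IsScalarTower.of_algebraMap_eq fun x => ?_
    rw [hL, ψ.commutes]
  have hθt : algebraMap L Ω θ = t := by rw [hL, hψ]
  intro h hcop hnorm hloc hlocR
  obtain ⟨F', hF'⟩ : ∃ F' : M[X], F' = fF ((f.scaleRoots ((D : ℕ) : 𝓞 F)).map
    (algebraMap (𝓞 F) (𝓞 M))) := ⟨_, rfl⟩
  have hF'2 : F' = ((fF f).map (algebraMap F M)).scaleRoots (D : M) := by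
    rw [hF', fF_sc_map hm]
  rw [← hF'] at hirrD hcop hnorm hloc hlocR ⊢
  haveI hfact' : Fact (Irreducible F') := ⟨hirrD⟩
  obtain ⟨Θ, hΘ⟩ : ∃ Θ : Ω, Θ = (D : Ω) * t := ⟨_, rfl⟩
  have hroot : aeval Θ F' = 0 := by
    have e1 := scaleRoots_eval₂_mul (p := (fF f).map (algebraMap F M)) (algebraMap M Ω) t (D : M)
    have e2 : eval₂ (algebraMap M Ω) t ((fF f).map (algebraMap F M)) = 0 := by
      rw [← aeval_def]
      exact ht
    rw [e2, mul_zero, map_natCast] at e1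
    rw [hF'2, aeval_def, hΘ]
    exact e1
  have hmF' : F'.Monic := by
    rw [hF'2]
    exact (monic_scaleRoots_iff (D : M)).2 hmM
  have hdF' : F'.natDegree = 2 * g + 1 := by
    rw [hF'2, natDegree_scaleRoots, hdM]
  obtain ⟨φ, hφ⟩ : ∃ φ : AdjoinRoot F' →ₐ[M] Ω,
      φ = AdjoinRoot.liftAlgHom F' (Algebra.ofId M _) Θ hroot := ⟨_, rfl⟩
  have hφmk : ∀ p : M[X], φ (AdjoinRoot.mk F' p) = aeval Θ p := by
    intro p
    have h1 := AdjoinRoot.liftAlgHom_mk F' (Algebra.ofId M Ω) Θ hroot p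
    rw [Algebra.toRingHom_ofId, ← Polynomial.aeval_def] at h1
    rw [hφ]
    exact h1
  have hφinj : Function.Injective φ := φ.toRingHom.injective
  haveI : FiniteDimensional M (AdjoinRoot F') := hmF'.finite_adjoinRoot
  have hrk' : Module.finrank M (AdjoinRoot F') = Module.finrank M Ω := by
    rw [hrk, (AdjoinRoot.powerBasis hmF'.ne_zero).finrank, AdjoinRoot.powerBasis_dim, hdF']
  have hφsurj : Function.Surjective φ :=
    (LinearMap.injective_iff_surjective_of_finrank_eq_finrank (f := φ.toLinearMap) hrk').1 hφinj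
  obtain ⟨e', he'⟩ : ∃ e' : AdjoinRoot F' ≃ₐ[M] Ω, ∀ x, e' x = φ x :=
    ⟨AlgEquiv.ofBijective φ ⟨hφinj, hφsurj⟩, fun _ => rfl⟩
  have hemk : ∀ p : M[X], e' (AdjoinRoot.mk F' p) = aeval Θ p := fun p => (he' _).trans (hφmk p)
  have hne : aeval Θ h ≠ 0 := by
    intro h0
    obtain ⟨u, v, huv⟩ := hcop
    have := congrArg (aeval Θ) huv
    rw [map_add, map_mul, map_mul, hroot, h0, mul_zero, mul_zero, add_zero, map_one] at this
    exact zero_ne_one this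
  have hnorm' : IsSquare (Algebra.norm M (aeval Θ h)) := by
    rw [← hemk, Algebra.norm_eq_of_algEquiv]
    exact hnorm
  have hΘ' : Θ = (D : Ω) * algebraMap L Ω θ := by rw [hΘ, hθt]
  rw [hΘ'] at hne hnorm'
  rw [hF'2] at hloc hlocR
  obtain ⟨y, hy⟩ := sel_abs exq csq pin par parq hram' hg hG hS hcq hJS hcore hadm hM hrk
    (by rw [hθt]; exact htop) (by rw [hθt]; exact hmin) hDD hDsq hne hnorm' hloc hlocR
  rw [← hΘ'] at hy
  obtain ⟨z, rfl⟩ := hφsurj y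
  obtain ⟨s, rfl⟩ := AdjoinRoot.mk_surjective z
  refine ⟨s, ?_⟩
  rw [← AdjoinRoot.mk_eq_zero]
  apply hφinj
  rw [map_zero, hφmk, map_sub, map_pow, sub_eq_zero]
  rw [hφmk] at hy
  rw [pow_two]
  exact hy

end main

end Pool.Agent.H30T
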