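import Mathlib

/-!
# Project ET (helper30): admissible extensions for a monic integral polynomial
-/

set_option autoImplicit false

open Polynomial IsDedekindDomain NumberField

namespace Pool.Agent.H30T

/-- The prime number `p` is ramified in `M`. -/
def RamifiedAt (M : Type) [Field M] [NumberField M] (p : ℕ) : Prop :=
  ∃ w : HeightOneSpectrum (𝓞 M), (p : 𝓞 M) ∈ w.asIdeal ^ 2

/-- The prime number `p` splits completely in `M`: it is unramified and the residue fields of the
primes above `p` have `p` elements. -/
def SplitsAt (M : Type) [Field M] [NumberField M] (p : ℕ) : Prop :=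
  ∀ w : HeightOneSpectrum (𝓞 M), (p : 𝓞 M) ∈ w.asIdeal →
    (p : 𝓞 M) ∉ w.asIdeal ^ 2 ∧ Nat.card (𝓞 M ⧸ w.asIdeal) = p

/-- The number field `M` is admissible for the polynomial `f` with integral coefficients: it is a real
Galois extension of `ℚ` of degree a power of two, the prime `2` and the primes whose square
divides the discriminant of `f` split completely in `M`, and `f` is irreducible modulo the primes which are
ramified in `M`. -/
structure AdmissibleFor (M : Type) [Field M] [NumberField M] (f : ℤ[X]) : Prop where
  galois : IsGalois ℚ M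
  degree : ∃ n : ℕ, Module.finrank ℚ M = 2 ^ n
  real : Nonempty (M →+* ℝ)
  split : ∀ p : ℕ, p.Prime → (p = 2 ∨ (p : ℤ) ^ 2 ∣ f.discr) → SplitsAt M p
  ram : ∀ p : ℕ, p.Prime → RamifiedAt M p → Irreducible (f.map (Int.castRingHom (ZMod p)))

end Pool.Agent.H30T
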