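import Pool.Agent.H30T.Sel
import Pool.Agent.H30T.Defs
import Pool.Agent.H30EV.Defs

/-!
# Project ET (helper30): statements of the second group of pieces
-/

set_option autoImplicit false
set_option linter.all false

open Polynomial IsDedekindDomain NumberField
open scoped Classical

namespace Pool.Agent.H30T

open Pool.Agent.N783.PF
open Pool.Agent.N874.PP (Ev Sq1 U0)

/-- Piece IRR: the polynomial is irreducible (its Galois group is transitive on the roots). -/
def T_IRR : Prop := ∀ (g : ℕ) (f : ℤ[X]) (p₀ : ℕ), Hyp g f p₀ →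
  Irreducible (f.map (Int.castRingHom ℚ))

/-- Piece DSQ: integers which are one modulo eight and modulo `p` are squares in the completions
over `p` (for `p = 2` see `Pool.Agent.N891.PQ.sq_two`; the embedding of `ℚ_[p]` in the completion is
`Pool.Agent.N498.PQ.cpl`). -/
def T_DSQ : Prop := ∀ (M : Type) [Field M] [NumberField M] (p : ℕ)
  (w : HeightOneSpectrum (𝓞 M)), p.Prime → (p : 𝓞 M) ∈ w.asIdeal → ∀ D : ℕ, D % 8 = 1 →
  D % p = 1 % p → ∃ δ : w.adicCompletion M, δ ^ 2 = (D : w.adicCompletion M)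

/-- Piece SELECT (from `T_FIN` and `T_CHEB`). Proof: `T_FIN` for the set of primes which contain
`2 * disc f` gives a finite set `R`; for every `r` in `R` which is not a square and whose norm is a
square choose by `T_CHEB` a prime `q` larger than the primes chosen before (induction over `R`);
if `α = r * s ^ 2` then `Sq1 𝔓 α` implies `Sq1 𝔓 r`. -/
def T_SELECT : Prop := ∀ (g : ℕ) (f : ℤ[X]) (p₀ : ℕ), Hyp g f p₀ →
  ∀ (L : Type) [Field L] [NumberField L] (θ : L), aeval θ f = 0 →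
  Module.finrank ℚ L = 2 * g + 1 → ∀ m B : ℕ, m ≠ 0 → ¬ p₀ ∣ m →
  ∃ (S : Finset ℕ) (e : ℕ → ℤ) (h : ℕ → ℤ[X]),
    (∀ q ∈ S, q.Prime ∧ B < q ∧ q % m = 1 % m ∧ (h q).Monic ∧ (h q).natDegree = 2 * g ∧
      Irreducible ((h q).map (Int.castRingHom (ZMod q))) ∧
      f.map (Int.castRingHom (ZMod q)) =
        ((X - C (e q)) * h q).map (Int.castRingHom (ZMod q))) ∧
    ∀ α : L, α ≠ 0 → IsSquare (Algebra.norm ℚ α) →
      (∀ 𝔓 : HeightOneSpectrum (𝓞 L), ((2 * f.discr : ℤ) : 𝓞 L) ∉ 𝔓.asIdeal → Ev 𝔓 α) →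
      (∀ q ∈ S, ∀ 𝔓 : HeightOneSpectrum (𝓞 L), (q : 𝓞 L) ∈ 𝔓.asIdeal →
        𝔓.valuation L (θ - (e q : L)) = 1 → Sq1 𝔓 α) → IsSquare α

/-- Piece ADM: from the admissibility of `M` for the twist by `Dp J` of the polynomial `f` over `ℤ` to
`AdmT` for the translated polynomial over the ring of integers of `ℚ` (`f.discr` is up to sign the resultant in
`dsc`, `Polynomial.resultant_deriv`; the discriminants of the twist and of the translate are in `T_DSC`; the
primes of `𝓞 ℚ` are generated by prime numbers; see `Pool/Agent/H30H/Adm.lean` for `UnrW`, `ResW`). -/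
def T_ADM : Prop := ∀ (g : ℕ) (f : ℤ[X]) (J : Finset ℕ) (c : ℤ), 1 ≤ g → f.Monic →
  f.natDegree = 2 * g + 1 → f.discr ≠ 0 → (∀ q ∈ J, q.Prime) →
  ∀ (M : Type) [Field M] [NumberField M], AdmissibleFor M (f.scaleRoots ((Dp J : ℕ) : ℤ)) →
  AdmT ℚ M g ((f.comp (X + C c)).map (algebraMap ℤ (𝓞 ℚ))) J

/-- Piece ELL: elliptic curves over a number field; from the explicit 2-Selmer group to points,
the 2-Selmer group and the Tate-Shafarevich group in terms of cocycles (the library has this; see e.g.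
`Pool.Agent.N783.PF.selc`, `N713.QM.GFC`, `N459.QM.FinC`, `N783/PF/Jac.lean` and the files `H30EV`,
`Helper29K` of the hand-ins of MP_f50388_nt). -/
def T_ELL : Prop := ∀ (M : Type) [Field M] [NumberField M] (A B : ℤ), 4 * A ^ 3 + 27 * B ^ 2 ≠ 0 →
  Irreducible (X ^ 3 + C (A : M) * X + C (B : M)) →
  SelZero ((X ^ 3 + C A * X + C B : ℤ[X]).map (algebraMap ℤ (𝓞 M))) →
  Finite (Pool.Agent.H30EV.curve M (A, B)).toAffine.Point ∧
    Odd (Nat.card (Pool.Agent.H30EV.curve M (A, B)).toAffine.Point) ∧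
    Pool.Agent.H30EV.SelmerTrivial (Pool.Agent.H30EV.curve M (A, B)) ∧
    Pool.Agent.H30EV.ShaTrivial (Pool.Agent.H30EV.curve M (A, B))

end Pool.Agent.H30T
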