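import Pool.Agent.H30T.Defs

/-!
# Admissible fields for elliptic curves over `ℚ`
-/

set_option autoImplicit false

open NumberField

namespace Pool.Agent.H30T

/-- The number field `F` is admissible for the equation `y ^ 2 = x ^ 3 + A x + B`: it is a real Galois
extension of `ℚ` of degree a power of two; the prime `2` and the primes whose square divides
`4 A ^ 3 + 27 B ^ 2` split completely in `F`; and `x ^ 3 + A x + B` has no zero modulo the primes which
are ramified in `F`. -/
structure AdmissibleE (F : Type) [Field F] [NumberField F] (A B : ℤ) : Prop where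
  galois : IsGalois ℚ F
  degree : ∃ n : ℕ, Module.finrank ℚ F = 2 ^ n
  real : Nonempty (F →+* ℝ)
  split : ∀ p : ℕ, p.Prime → (p = 2 ∨ (p : ℤ) ^ 2 ∣ 4 * A ^ 3 + 27 * B ^ 2) → SplitsAt F p
  ram : ∀ p : ℕ, p.Prime → RamifiedAt F p → ∀ x : ℤ, ¬ (p : ℤ) ∣ x ^ 3 + A * x + B

/-- There are infinitely many real quadratic fields `ℚ(√l)`, `l` a prime number, which are admissible
for `y ^ 2 = x ^ 3 + A x + B`. -/
def ManyQuadraticE (A B : ℤ) : Prop :=
  ∀ N : ℕ, ∃ (l : ℕ) (F : Type) (_ : Field F) (_ : NumberField F) (s : F), l.Prime ∧ N < l ∧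
    s ^ 2 = (l : F) ∧ Module.finrank ℚ F = 2 ∧ AdmissibleE F A B

end Pool.Agent.H30T
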