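import Pool.Agent.H30T.Stm3
import Pool.Agent.Helper29J.Core

/-!
# Project ET (helper30): statements of the fourth group of pieces, the rational points

Aim: for every `f` there is `B₁` such that for all twists `D > 1` whose prime factors are larger than `B₁` the
curve `y ^ 2 = f_D(x)` has only the point at infinity over all the admissible fields `M`, and the number of
the points over the completion of `M` at a prime above two whose class is infinitely divisible by two is
bounded by a constant which only depends on `f`.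
-/

set_option autoImplicit false
set_option linter.all false

open Polynomial IsDedekindDomain NumberField
open scoped Classical

namespace Pool.Agent.H30T

open Pool.Agent.Y160.SE Pool.Agent.Helper29J
open Pool.Agent.TH115.GD (incl)

/-- The class of the point `(a, b)` of `y ^ 2 = F(x)` over `E` is infinitely divisible by two in the classes
over `E`, seen over the extension `Ω`. -/
def InfDiv {E Ω : Type} [Field E] [Field Ω] [Algebra E Ω] (F : E[X]) (G : Polynomial Ω)
    (h : F.map (algebraMap E Ω) = G) (a b : E) : Prop :=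
  ∀ k : ℕ, ∃ (J : Ideal (CR 2 F)) (α β : CR 2 G), J ≠ ⊥ ∧ α ≠ 0 ∧ β ≠ 0 ∧
    Ideal.span {α} * ptI 2 G (algebraMap E Ω a) (algebraMap E Ω b) =
      Ideal.span {β} * (J.map (crMap 2 (algebraMap E Ω) F G h)) ^ 2 ^ k

/-- The same in terms of `Jac` of the library. -/
def JacDiv {K : Type} [Field K] {f : K[X]} (hg : Good 2 (-1 : K) f) (E : Type) [Field E]
    [Algebra K E] (a b : E) : Prop :=
  ∀ k : ℕ, ∃ D : Jac 2 f E, (2 ^ k : ℕ) • jm 2 f (incl K E (SeparableClosure E)) D =
    dc hg {(algebraMap E (SeparableClosure E) a, algebraMap E (SeparableClosure E) b)}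

/-- Piece CONV: the two notions agree (`cl_exists`, `exists_cl`, `cl_eq_iff`, `cl_mul`, `cl_map` of
`Pool.Agent.Y160.SE`, with `hyps`; `dc` of one point is the class of `ptI`, see `Helper29J/Grp.lean` and
`jm_pt` in `Helper29J/LocalTwo.lean`). -/
def V_CONV : Prop := ∀ (K : Type) [Field K] (f : K[X]) (hg : Good 2 (-1 : K) f) (E : Type) [Field E]
  [Algebra K E] (h : (fu f E).map (algebraMap E (SeparableClosure E)) = fu f (SeparableClosure E))
  (a b : E), b ^ 2 = (fu f E).eval a →
  (JacDiv hg E a b ↔ InfDiv (fu f E) (fu f (SeparableClosure E)) h a b)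

/-- Piece SCL: change of the field and scaling. Proof: the homomorphism `x ↦ δ ^ 2 x`,
`y ↦ δ ^ (2 g + 1) y` of the coordinate rings over the separable closures (which exists and is injective,
`IsSepClosed.lift` gives the embedding of the separable closures) maps the ideals. -/
def V_SCL : Prop := ∀ (E E' : Type) [Field E] [Field E'] [CharZero E] [CharZero E']
  (φ : E →+* E') (g : ℕ) (F : E[X]) (F' : E'[X]) (δ : E'), δ ≠ 0 → F.Monic → F'.Monic →
  F.natDegree = 2 * g + 1 → F.map φ = F'.scaleRoots (δ ^ 2) → ∀ a b : E, b ^ 2 = F.eval a →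
  InfDiv F (F.map (algebraMap E (SeparableClosure E))) rfl a b →
  (φ b / δ ^ (2 * g + 1)) ^ 2 = F'.eval (φ a / δ ^ 2) ∧
  InfDiv F' (F'.map (algebraMap E' (SeparableClosure E'))) rfl (φ a / δ ^ 2)
    (φ b / δ ^ (2 * g + 1))

/-- Piece SEP: two points whose difference is a sum of points arbitrarily close to infinity have the
same first coordinate. Proof (after `sep_pt` in `Helper29J/Grp.lean`): for `ρ` large there is a function
`α + β y` with divisor `P + cj Q + (points with w x > ρ)`, so `Top w ρ (α ^ 2 - β ^ 2 f) 2`; by parity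
`Top w ρ α 1` and `w (β.coeff j) ^ 2 * ρ ^ (2 * j) * ρ ^ (2 g + 1) < w (α.coeff 1) ^ 2 * ρ ^ 2`. As
`α (x_P) = - β (x_P) y_P`, `α (x_Q) = β (x_Q) y_Q` and `w (α (x_P) - α (x_Q)) = w (α.coeff 1) * w (x_P - x_Q)`,
`w (x_P - x_Q) ^ 2 ≤ max (w y_P) (w y_Q) ^ 2 / ρ`. -/
def V_SEP : Prop := ∀ (K W : Type) [Field K] [Field W] [Algebra K W] (w : AbsoluteValue W ℝ)
  (f : K[X]) (hg : Good 2 (-1 : K) f) (g : ℕ), Na w → Int w f g →
  ∀ P Q : W × W, On (fu f W) P → On (fu f W) Q →
  (∀ ρ : ℝ, 1 ≤ ρ → dc hg {P} - dc hg {Q} ∈ GG hg w ρ) → P.1 = Q.1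

/-- Piece NET (from `V_SEP`): finitely many points are infinitely divisible by two. Proof: as in
`local_two` and `not_divisible`; there is no such point with `w x > 1`; by `net2` (with degree one) and
`close` the others are in finitely many classes modulo `GG hg w 1`; the difference `z` of two of them in the
same class is in all `GG hg w (l ^ k)` (as in the proof of `not_divisible`: `M' • z` and `2 ^ k • z` are),
so by `V_SEP` they have the same first coordinate. -/
def V_NET : Prop := ∀ (F : Type) [Field F] [NumberField F] (v : HeightOneSpectrum (𝓞 F)),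
  (2 : 𝓞 F) ∈ v.asIdeal → ∀ (g : ℕ), 1 ≤ g → ∀ f : (𝓞 F)[X], f.Monic → f.natDegree = 2 * g + 1 →
  ∀ hg : Good 2 (-1 : F) (f.map (algebraMap (𝓞 F) F)),
  {P : v.adicCompletion F × v.adicCompletion F |
    P.2 ^ 2 = (fu (f.map (algebraMap (𝓞 F) F)) (v.adicCompletion F)).eval P.1 ∧
    JacDiv hg (v.adicCompletion F) P.1 P.2}.Finite

/-- Piece EMB: if `w` is unramified over `p` of degree one then the completion at `w` is `ℚ_[p]`.
(`Pool.Agent.N498.PQ.cpl` is the map in the other direction; it is surjective: the integers are dense in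
the integers of the completion.) -/
def V_EMB : Prop := ∀ (M : Type) [Field M] [NumberField M] (p : ℕ) [Fact p.Prime]
  (w : HeightOneSpectrum (𝓞 M)), (p : 𝓞 M) ∈ w.asIdeal → (p : 𝓞 M) ∉ w.asIdeal ^ 2 →
  Nat.card (𝓞 M ⧸ w.asIdeal) = p → Nonempty (w.adicCompletion M →+* ℚ_[p])

/-- Piece ALG. Proof: let `ζ` be in `Z`, algebraic over `ℚ` with `f(ζ) ≠ 0`, and `μ` an irreducible integral
polynomial with `μ(ζ) = 0`; `u f + v μ = r ≠ 0` with integral polynomials and an integer `r`. If a prime
`q` does not divide `r` and the leading coefficient of `μ`, and `ξ = a / D` in `M` is a zero of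
`μ`, then `f(ξ)` is a unit at the primes `w` over `q`. But `b ^ 2 = D ^ (2 g + 1) f(ξ)` and the valuation of `D`
at `w` is one. -/
def V_ALG : Prop := ∀ (E : Type) [Field E] [CharZero E] (Z : Set E), Z.Finite → ∀ (g : ℕ)
  (f : ℤ[X]), f.Monic → f.natDegree = 2 * g + 1 → ∃ B₁ : ℕ, ∀ (M : Type) [Field M] [NumberField M]
  (ψ : M →+* E) (D q : ℕ) (a b : M), Squarefree D → q.Prime → q ∣ D → B₁ < q →
  ¬ RamifiedAt M q → b ^ 2 = aeval a (f.scaleRoots (D : ℤ)) → ψ (a / D) ∈ Z →
  aeval (a / D) f = 0

end Pool.Agent.H30T
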