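import Mathlib
import Pool.Agent.H30T.Stm4

set_option autoImplicit false
set_option linter.all false

open Polynomial IsDedekindDomain NumberField
open scoped Classical

namespace Pool.Agent.H30T.Alg4

theorem not_mem {M : Type} [Field M] [NumberField M] (w : HeightOneSpectrum (𝓞 M)) {q : ℕ}
    (hq : q.Prime) (h : (q : 𝓞 M) ∈ w.asIdeal) {c : ℤ} (hc : ¬ (q : ℤ) ∣ c) :
    (c : 𝓞 M) ∉ w.asIdeal := by
  intro h1
  have h2 : IsCoprime (q : ℤ) c := (Nat.prime_iff_prime_int.1 hq).coprime_iff_not_dvd.2 hc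
  obtain ⟨u, v, huv⟩ := h2
  have h3 : ((u * q + v * c : ℤ) : 𝓞 M) = 1 := by rw [huv]; simp
  apply w.isPrime.ne_top
  rw [Ideal.eq_top_iff_one, ← h3]
  push_cast
  exact Ideal.add_mem _ (Ideal.mul_mem_left _ _ h) (Ideal.mul_mem_left _ _ h1)

theorem exists_above (M : Type) [Field M] [NumberField M] {q : ℕ} (hq : q.Prime) :
    ∃ w : HeightOneSpectrum (𝓞 M), (q : 𝓞 M) ∈ w.asIdeal := by
  have hq' : Prime (q : ℤ) := Nat.prime_iff_prime_int.1 hq
  have hmax : (Ideal.span {(q : ℤ)}).IsMaximal :=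
    PrincipalIdealRing.isMaximal_of_irreducible hq'.irreducible
  obtain ⟨Q, hQ, hQ2⟩ := Ideal.exists_maximal_ideal_liesOver_of_isIntegral (S := 𝓞 M)
    (Ideal.span {(q : ℤ)})
  have hmem : (q : 𝓞 M) ∈ Q := by
    have h1 : (q : ℤ) ∈ Ideal.span {(q : ℤ)} := Ideal.mem_span_singleton_self _
    rw [hQ2.over, Ideal.mem_comap] at h1
    simpa using h1
  refine ⟨⟨Q, hQ.isPrime, ?_⟩, hmem⟩
  intro h
  rw [h] at hmem
  have h2 : (q : 𝓞 M) = 0 := by simpa using hmem
  have : q = 0 := by exact_mod_cast h2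
  exact hq.ne_zero this

/-- the valuation of an element outside the prime -/
theorem val_one {M : Type} [Field M] [NumberField M] (w : HeightOneSpectrum (𝓞 M)) {x : 𝓞 M}
    (hx : x ∉ w.asIdeal) : w.valuation M (x : M) = 1 := by
  have h1 := w.valuation_le_one (K := M) x
  have h2 := (w.valuation_lt_one_iff_mem (K := M) x).not.2 hx
  exact le_antisymm h1 (not_lt.1 h2)

theorem val_le {M : Type} [Field M] [NumberField M] (w : HeightOneSpectrum (𝓞 M)) {x : M}
    (hx : IsIntegral ℤ x) : w.valuation M x ≤ 1 := by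
  have h1 := w.valuation_le_one (K := M) (⟨x, hx⟩ : 𝓞 M)
  exact h1

theorem val_q {M : Type} [Field M] [NumberField M] (w : HeightOneSpectrum (𝓞 M)) {x : 𝓞 M}
    (hx : x ∈ w.asIdeal) (hx2 : x ∉ w.asIdeal ^ 2) :
    w.valuation M (x : M) = WithZero.exp (-1 : ℤ) := by
  have e : w.valuation M (x : M) = w.intValuation x := w.valuation_of_algebraMap x
  rw [e]
  have h1 := (w.intValuation_le_pow_iff_mem x 1).2 (by simpa using hx)
  have h2 := (w.intValuation_le_pow_iff_mem x 2).not.2 hx2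
  have h0 : w.intValuation x ≠ 0 := by
    intro h
    apply h2
    rw [h]
    exact zero_le
  obtain ⟨k, hk⟩ : ∃ k : ℤ, w.intValuation x = WithZero.exp k :=
    ⟨_, (WithZero.exp_log h0).symm⟩
  rw [hk] at h1 h2 ⊢
  rw [WithZero.exp_le_exp] at h1 h2
  congr 1
  push_cast at h1 h2
  omega

/-- the parity argument -/
theorem parity {M : Type} [Field M] [NumberField M] (w : HeightOneSpectrum (𝓞 M)) {q D g : ℕ}
    (hq : q.Prime) (hD : Squarefree D) (hqD : q ∣ D) (hw : (q : 𝓞 M) ∈ w.asIdeal)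
    (hw2 : (q : 𝓞 M) ∉ w.asIdeal ^ 2) {b η : M} (hη : w.valuation M η = 1)
    (hb : b ^ 2 = (D : M) ^ (2 * g + 1) * η) : False := by
  obtain ⟨D', rfl⟩ := hqD
  have hcop : ¬ (q : ℤ) ∣ (D' : ℤ) := by
    intro h
    have h1 : q ∣ D' := by exact_mod_cast h
    obtain ⟨k, rfl⟩ := h1
    have h2 := hD q ⟨k, by ring⟩
    exact hq.one_lt.ne' (Nat.isUnit_iff.1 h2)
  have h1 : w.valuation M ((D' : ℕ) : M) = 1 := by
    have h2 := not_mem w hq hw hcop
    have h3 := val_one w h2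
    simpa using h3
  have h2 : w.valuation M ((q : ℕ) : M) = WithZero.exp (-1 : ℤ) := by
    have h3 := val_q w hw hw2
    simpa using h3
  have h3 := congrArg (w.valuation M) hb
  rw [map_pow, map_mul, map_pow, Nat.cast_mul, map_mul, h1, h2, hη, mul_one, mul_one] at h3
  have h4 := congrArg WithZero.log h3
  rw [WithZero.log_pow, WithZero.log_pow, WithZero.log_exp] at h4
  simp only [nsmul_eq_mul] at h4
  push_cast at h4
  omega

/-- one element -/
theorem single {E : Type} [Field E] [CharZero E] (ζ : E) (g : ℕ) (f : ℤ[X]) (hf : f.Monic)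
    (hg : f.natDegree = 2 * g + 1) : ∃ B₁ : ℕ, ∀ (M : Type) [Field M] [NumberField M]
    (ψ : M →+* E) (D q : ℕ) (a b : M), Squarefree D → q.Prime → q ∣ D → B₁ < q →
    ¬ RamifiedAt M q → b ^ 2 = aeval a (f.scaleRoots (D : ℤ)) → ψ (a / D) = ζ →
    aeval (a / D) f = 0 := by
  by_cases h0 : aeval ζ f = 0
  · refine ⟨0, ?_⟩
    intro M _ _ ψ D q a b _ _ _ _ _ _ hζ
    have h1 := Polynomial.aeval_algHom_apply ψ.toIntAlgHom (a / (D : M)) f
    have h2 : ψ.toIntAlgHom (a / (D : M)) = ζ := hζ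
    rw [h2, h0] at h1
    exact (map_eq_zero ψ).1 h1.symm
  by_cases hal : IsAlgebraic ℤ ζ
  swap
  · refine ⟨0, ?_⟩
    intro M _ _ ψ D q a b _ _ _ _ _ _ hζ
    exfalso
    apply hal
    have h1 : IsAlgebraic ℚ (a / (D : M)) := Algebra.IsAlgebraic.isAlgebraic _
    have h2 : IsAlgebraic ℤ (a / (D : M)) := (IsFractionRing.isAlgebraic_iff ℤ ℚ M).2 h1
    have h3 := h2.algHom ψ.toIntAlgHom
    rw [← hζ]
    exact h3
  have hη : IsAlgebraic ℤ (aeval ζ f) := by
    have h1 : ζ ∈ Subalgebra.algebraicClosure ℤ E := hal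
    have h2 : Algebra.adjoin ℤ {ζ} ≤ Subalgebra.algebraicClosure ℤ E := by
      rw [Algebra.adjoin_le_iff]
      simpa using h1
    exact h2 (aeval_mem_adjoin_singleton ℤ ζ)
  obtain ⟨c, hc0, hc⟩ := hη.exists_integral_multiple
  obtain ⟨c', hc0', hc'⟩ := hη.inv.exists_integral_multiple
  refine ⟨(c * c').natAbs, ?_⟩
  intro M _ _ ψ D q a b hD hq hqD hB hr hb hζ
  exfalso
  have hψ : Function.Injective ψ := ψ.injective
  obtain ⟨η, hηd⟩ : ∃ η : M, η = aeval (a / (D : M)) f := ⟨_, rfl⟩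
  have hψη : ψ η = aeval ζ f := by
    have h1 := Polynomial.aeval_algHom_apply ψ.toIntAlgHom (a / (D : M)) f
    have h2 : ψ.toIntAlgHom (a / (D : M)) = ζ := hζ
    rw [h2, ← hηd] at h1
    exact h1.symm
  have hη0 : η ≠ 0 := by
    intro h
    rw [h, map_zero] at hψη
    exact h0 hψη.symm
  have hD0 : (D : M) ≠ 0 := by
    have : D ≠ 0 := hD.ne_zero
    exact_mod_cast this
  -- integral multiples in `M`
  have hA : IsIntegral ℤ (c • η) := by
    rw [← isIntegral_algHom_iff ψ.toIntAlgHom hψ]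
    have e : ψ.toIntAlgHom (c • η) = c • aeval ζ f := by
      rw [map_zsmul]
      congr 1
    rw [e]
    exact hc
  have hA' : IsIntegral ℤ (c' • η⁻¹) := by
    rw [← isIntegral_algHom_iff ψ.toIntAlgHom hψ]
    have e : ψ.toIntAlgHom (c' • η⁻¹) = c' • (aeval ζ f)⁻¹ := by
      rw [map_zsmul]
      congr 1
      have : ψ.toIntAlgHom η⁻¹ = ψ η⁻¹ := rfl
      rw [this, map_inv₀, hψη]
    rw [e]
    exact hc'
  obtain ⟨w, hw⟩ := exists_above M hq
  have hw2 : (q : 𝓞 M) ∉ w.asIdeal ^ 2 := fun h => hr ⟨w, h⟩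
  have hcc : ∀ z : ℤ, z ≠ 0 → z ∣ c * c' → ¬ (q : ℤ) ∣ z := by
    intro z hz hzc hqz
    have h1 : (q : ℤ) ∣ c * c' := hqz.trans hzc
    have h2 := Int.le_of_dvd (by positivity : (0 : ℤ) < |c * c'|)
      ((dvd_abs _ _).2 h1)
    have h3 : ((c * c').natAbs : ℤ) = |c * c'| := Int.natCast_natAbs _
    have h4 : ((c * c').natAbs : ℤ) < q := by exact_mod_cast hB
    omega
  have hvc : w.valuation M ((c : ℤ) : M) = 1 := by
    have h1 := val_one w (not_mem w hq hw (hcc c hc0 (dvd_mul_right _ _)))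
    simpa using h1
  have hvc' : w.valuation M ((c' : ℤ) : M) = 1 := by
    have h1 := val_one w (not_mem w hq hw (hcc c' hc0' (dvd_mul_left _ _)))
    simpa using h1
  have hle : w.valuation M η ≤ 1 := by
    have h1 := val_le w hA
    rw [zsmul_eq_mul, map_mul, hvc, one_mul] at h1
    exact h1
  have hge : w.valuation M η⁻¹ ≤ 1 := by
    have h1 := val_le w hA'
    rw [zsmul_eq_mul, map_mul, hvc', one_mul] at h1
    exact h1
  have hv : w.valuation M η = 1 := by
    refine le_antisymm hle ?_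
    have h1 : w.valuation M η * w.valuation M η⁻¹ = 1 := by
      rw [← map_mul, mul_inv_cancel₀ hη0, map_one]
    calc (1 : WithZero (Multiplicative ℤ)) = w.valuation M η * w.valuation M η⁻¹ := h1.symm
      _ ≤ w.valuation M η * 1 := mul_le_mul_right hge _
      _ = w.valuation M η := mul_one _
  have hb' : b ^ 2 = (D : M) ^ (2 * g + 1) * η := by
    rw [hb, hηd, ← hg]
    have h1 := Polynomial.scaleRoots_eval₂_mul (p := f) (algebraMap ℤ M) (a / (D : M)) (D : ℤ)
    have h2 : algebraMap ℤ M (D : ℤ) * (a / (D : M)) = a := by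
      simp only [algebraMap_int_eq, eq_intCast, Int.cast_natCast]
      field_simp
    rw [h2] at h1
    simpa [aeval_def] using h1
  exact parity w hq hD hqD hw hw2 hv hb'

theorem alg : ∀ (E : Type) [Field E] [CharZero E] (Z : Set E), Z.Finite → ∀ (g : ℕ)
  (f : ℤ[X]), f.Monic → f.natDegree = 2 * g + 1 → ∃ B₁ : ℕ, ∀ (M : Type) [Field M] [NumberField M]
  (ψ : M →+* E) (D q : ℕ) (a b : M), Squarefree D → q.Prime → q ∣ D → B₁ < q →
  ¬ RamifiedAt M q → b ^ 2 = aeval a (f.scaleRoots (D : ℤ)) → ψ (a / D) ∈ Z →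
  aeval (a / D) f = 0 := by
  intro E _ _ Z hZ g f hf hg
  choose B hB using fun ζ : E => single ζ g f hf hg
  refine ⟨∑ ζ ∈ hZ.toFinset, B ζ, ?_⟩
  intro M _ _ ψ D q a b h1 h2 h3 h4 h5 h6 h7
  refine hB (ψ (a / D)) M ψ D q a b h1 h2 h3 (lt_of_le_of_lt ?_ h4) h5 h6 rfl
  exact Finset.single_le_sum (f := B) (fun _ _ => Nat.zero_le _) (hZ.mem_toFinset.2 h7)

end Pool.Agent.H30T.Alg4

namespace Pool.Agent.H30T

/-- Piece ALG. -/
theorem alg4 : V_ALG := Alg4.alg

end Pool.Agent.H30T
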