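import Pool.Agent.H30T.Stm4
import Pool.Agent.Helper29J.LocalTwo

/-!
# Piece CONV of project ET: the two notions of divisibility agree
-/

set_option autoImplicit false
set_option linter.all false

open Polynomial IsDedekindDomain
open scoped Classical

namespace Pool.Agent.H30T.Conv4

open Pool.Agent.Y160.SE Pool.Agent.Helper29J
open Pool.Agent.TH115.GD (incl)

theorem cl_pow {K : Type} [Field K] {f : K[X]} (hg : Good 2 (-1 : K) f) {Ω : Type} [Field Ω]
    [Algebra K Ω] {I : Ideal (CR 2 (f.map (algebraMap K Ω)))} {x : Jac 2 f Ω} (h : IsCl Ω I x)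
    (n : ℕ) : IsCl Ω (I ^ n) (n • x) := by
  induction n with
  | zero =>
    rw [pow_zero, zero_smul, Ideal.one_eq_top]
    exact cl_top hyps hg
  | succ n ih =>
    rw [pow_succ, succ_nsmul]
    exact cl_mul hyps hg ih h

end Pool.Agent.H30T.Conv4

namespace Pool.Agent.H30T

open Pool.Agent.Y160.SE Pool.Agent.Helper29J
open Pool.Agent.TH115.GD (incl)
open Conv4

/-- Piece CONV. -/
theorem conv : V_CONV := by
  intro K _ f hg E _ _ h a b hab
  have hcm : ∀ J : Ideal (CR 2 (fu f E)), J.map (cm 2 f (incl K E (SeparableClosure E))) =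
      J.map (crMap 2 (algebraMap E (SeparableClosure E)) (fu f E) (fu f (SeparableClosure E)) h) :=
    fun J => rfl
  have hpt : ptI 2 (fu f (SeparableClosure E)) (algebraMap E (SeparableClosure E) a)
      (algebraMap E (SeparableClosure E) b) ≠ ⊥ :=
    pt_ne_bot (algebraMap E (SeparableClosure E) a, algebraMap E (SeparableClosure E) b)
  have hpc := is_cl (W := SeparableClosure E) hg hpt
  constructor
  · intro hJ k
    obtain ⟨D, hD⟩ := hJ k
    obtain ⟨J, hJ0, hJD⟩ := exists_cl (Ω := E) hyps hg D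
    have h1 := cl_pow hg (cl_map hyps hg hJD (incl K E (SeparableClosure E))) (2 ^ k)
    rw [dc_one] at hD
    obtain ⟨α, β, hα, hβ, h2⟩ := (cl_eq_iff hyps hg hpc h1).1 hD.symm
    exact ⟨J, α, β, hJ0, hα, hβ, h2⟩
  · intro hI k
    obtain ⟨J, α, β, hJ0, hα, hβ, h2⟩ := hI k
    obtain ⟨D, hJD⟩ := cl_exists (Ω := E) hyps hg hJ0
    have h1 := cl_pow hg (cl_map hyps hg hJD (incl K E (SeparableClosure E))) (2 ^ k)
    refine ⟨D, ?_⟩
    rw [dc_one]
    exact ((cl_eq_iff hyps hg hpc h1).2 ⟨α, β, hα, hβ, h2⟩).symm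

end Pool.Agent.H30T
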