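import Pool.Agent.N498.PQ.Cpl
import Pool.Agent.H30T.Stm4

/-!
# Piece EMB of project ET: the completion at a prime of degree one, unramified over `p`, is `ℚ_p`
-/

set_option autoImplicit false
set_option linter.all false

open IsDedekindDomain NumberField WithZero Filter Topology

namespace Pool.Agent.H30T.Emb

section

variable {M : Type} [Field M] [NumberField M] {p : ℕ} [hp : Fact p.Prime]
  {w : HeightOneSpectrum (𝓞 M)}

theorem vx (x : M) : Valued.v (algebraMap M (w.adicCompletion M) x) = w.valuation M x :=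
  HeightOneSpectrum.valuedAdicCompletion_eq_valuation' w x

theorem approx (x : w.adicCompletion M) (hx : Valued.v x ≤ 1) :
    ∃ a : 𝓞 M, Valued.v (x - algebraMap M (w.adicCompletion M) (algebraMap (𝓞 M) M a)) ≤
      exp (-1 : ℤ) := by
  obtain ⟨π, hπ⟩ := w.valuation_exists_uniformizer M
  have hπ0 : π ≠ 0 := by
    rintro rfl
    rw [map_zero] at hπ
    exact exp_ne_zero hπ.symm
  have hne : (Valued.v (R := w.adicCompletion M)).restrict
      (algebraMap M (w.adicCompletion M) π) ≠ 0 := by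
    rw [Valuation.ne_zero_iff, _root_.map_ne_zero]
    exact hπ0
  have hU1 : {z : w.adicCompletion M | Valued.v z < exp (-1 : ℤ)} ∈ 𝓝 (0 : w.adicCompletion M) := by
    rw [Valued.mem_nhds_zero]
    refine ⟨Units.mk0 _ hne, fun z hz => ?_⟩
    have h1 := (Valuation.restrict_lt_iff _).1 hz
    rw [vx, hπ] at h1
    exact h1
  have ht : Tendsto (fun z : w.adicCompletion M => x - z) (𝓝 x) (𝓝 0) := by
    have h5 : Tendsto (fun z : w.adicCompletion M => x - z) (𝓝 x) (𝓝 (x - x)) :=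
      tendsto_const_nhds.sub tendsto_id
    rwa [sub_self] at h5
  obtain ⟨z, hz, y, rfl⟩ := mem_closure_iff_nhds.1
    (HeightOneSpectrum.denseRange_algebraMap M w x) _ (ht hU1)
  have hz' : Valued.v (x - algebraMap M (w.adicCompletion M) y) < exp (-1 : ℤ) := hz
  have hy1 : w.valuation M y ≤ 1 := by
    rw [← vx]
    have e : algebraMap M (w.adicCompletion M) y = x - (x - algebraMap M (w.adicCompletion M) y) := by
      ring
    rw [e]
    refine (Valuation.map_sub _ _ _).trans (max_le hx (hz'.le.trans ?_))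
    rw [← exp_zero, exp_le_exp]
    norm_num
  obtain ⟨a, ha⟩ := w.exists_valuation_sub_lt_of_integer hy1 (Units.mk0 (exp (-1 : ℤ)) exp_ne_zero)
  refine ⟨a, ?_⟩
  have e : x - algebraMap M (w.adicCompletion M) (algebraMap (𝓞 M) M a) =
      (x - algebraMap M (w.adicCompletion M) y) -
        algebraMap M (w.adicCompletion M) (algebraMap (𝓞 M) M a - y) := by
    rw [map_sub]
    ring
  rw [e]
  refine (Valuation.map_sub _ _ _).trans (max_le hz'.le ?_)
  rw [vx]
  exact ha.le

theorem int_of_card (hp1 : (p : 𝓞 M) ∈ w.asIdeal) (hc : Nat.card (𝓞 M ⧸ w.asIdeal) = p)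
    (a : 𝓞 M) : ∃ n : ℤ, a - (n : 𝓞 M) ∈ w.asIdeal := by
  have hchar : CharP (𝓞 M ⧸ w.asIdeal) p := by
    haveI : Nontrivial (𝓞 M ⧸ w.asIdeal) := Ideal.Quotient.nontrivial_iff.2 w.isPrime.ne_top
    rw [CharP.charP_iff_prime_eq_zero hp.out]
    have h := Ideal.Quotient.eq_zero_iff_mem.2 hp1
    rwa [map_natCast] at h
  haveI : Finite (𝓞 M ⧸ w.asIdeal) := Nat.finite_of_card_ne_zero (by rw [hc]; exact hp.out.ne_zero)
  haveI : Nontrivial (𝓞 M ⧸ w.asIdeal) := Ideal.Quotient.nontrivial_iff.2 w.isPrime.ne_top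
  have hinj : Function.Injective (ZMod.castHom (dvd_refl p) (𝓞 M ⧸ w.asIdeal)) :=
    (ZMod.castHom (dvd_refl p) (𝓞 M ⧸ w.asIdeal)).injective
  have hbij := hinj.bijective_of_nat_card_le (by rw [hc, Nat.card_zmod])
  obtain ⟨z, hz⟩ := hbij.2 (Ideal.Quotient.mk w.asIdeal a)
  obtain ⟨n, rfl⟩ := ZMod.intCast_surjective z
  refine ⟨n, ?_⟩
  rw [← Ideal.Quotient.eq_zero_iff_mem, map_sub, map_intCast, ← hz, map_intCast, sub_self]

theorem vp (hp1 : (p : 𝓞 M) ∈ w.asIdeal) (hp2 : (p : 𝓞 M) ∉ w.asIdeal ^ 2) :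
    Valued.v ((p : ℕ) : w.adicCompletion M) = exp (-1 : ℤ) := by
  have e : ((p : ℕ) : w.adicCompletion M) =
      algebraMap M (w.adicCompletion M) (algebraMap (𝓞 M) M (p : 𝓞 M)) := by
    rw [map_natCast, map_natCast]
  rw [e, vx, HeightOneSpectrum.valuation_of_algebraMap]
  have h1 : w.intValuation (p : 𝓞 M) ≤ exp (-((1 : ℕ) : ℤ)) := by
    rw [HeightOneSpectrum.intValuation_le_pow_iff_mem, pow_one]
    exact hp1
  have h2 : ¬ w.intValuation (p : 𝓞 M) ≤ exp (-((2 : ℕ) : ℤ)) := by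
    rw [HeightOneSpectrum.intValuation_le_pow_iff_mem]
    exact hp2
  have h0 : w.intValuation (p : 𝓞 M) ≠ 0 := by
    intro h
    rw [h] at h2
    exact h2 zero_le
  rw [← exp_log h0] at h1 h2 ⊢
  rw [exp_le_exp] at h1 h2
  congr 1
  push_cast at h1 h2
  omega

theorem int_approx (hp1 : (p : 𝓞 M) ∈ w.asIdeal) (hp2 : (p : 𝓞 M) ∉ w.asIdeal ^ 2)
    (hc : Nat.card (𝓞 M ⧸ w.asIdeal) = p) (k : ℕ) :
    ∀ x : w.adicCompletion M, Valued.v x ≤ 1 →
      ∃ n : ℤ, Valued.v (x - (n : w.adicCompletion M)) ≤ Valued.v ((p : ℕ) : w.adicCompletion M) ^ k := by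
  have hvp := vp hp1 hp2
  have hp0 : ((p : ℕ) : w.adicCompletion M) ≠ 0 := by
    intro h
    rw [h, map_zero] at hvp
    exact exp_ne_zero hvp.symm
  induction k with
  | zero =>
    intro x hx
    refine ⟨0, ?_⟩
    rw [Int.cast_zero, sub_zero, pow_zero]
    exact hx
  | succ k ih =>
    intro x hx
    obtain ⟨a, ha⟩ := approx x hx
    obtain ⟨n, hn⟩ := int_of_card hp1 hc a
    have h4 : Valued.v (x - (n : w.adicCompletion M)) ≤ exp (-1 : ℤ) := by
      have e : x - (n : w.adicCompletion M) =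
          (x - algebraMap M (w.adicCompletion M) (algebraMap (𝓞 M) M a)) +
            algebraMap M (w.adicCompletion M) (algebraMap (𝓞 M) M (a - (n : 𝓞 M))) := by
        rw [map_sub, map_sub, map_intCast, map_intCast]
        ring
      rw [e]
      refine (Valuation.map_add _ _ _).trans (max_le ha ?_)
      rw [vx, HeightOneSpectrum.valuation_of_algebraMap]
      have h := (HeightOneSpectrum.intValuation_le_pow_iff_mem w (a - (n : 𝓞 M)) 1).2
        (by rwa [pow_one])
      simpa using h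
    have h5 : Valued.v ((x - (n : w.adicCompletion M)) / (p : ℕ)) ≤ 1 := by
      rw [map_div₀, hvp]
      exact (div_le_one₀ (zero_lt_iff.2 exp_ne_zero)).2 h4
    obtain ⟨m, hm⟩ := ih _ h5
    refine ⟨n + p * m, ?_⟩
    have e1 : x - ((n + p * m : ℤ) : w.adicCompletion M) =
        (p : ℕ) * ((x - (n : w.adicCompletion M)) / (p : ℕ) - (m : w.adicCompletion M)) := by
      push_cast
      field_simp
      ring
    rw [e1, map_mul, pow_succ, mul_comm (Valued.v ((p : ℕ) : w.adicCompletion M) ^ k)]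
    exact mul_le_mul' le_rfl hm

end

theorem v_emb : V_EMB := by
  intro M _ _ p hp w hp1 hp2 hc
  obtain ⟨ι, hι, hle, hlt⟩ := Pool.Agent.N498.PQ.cpl M p w hp1
  have hvp := vp hp1 hp2
  have hp0 : ((p : ℕ) : w.adicCompletion M) ≠ 0 := by
    intro h
    rw [h, map_zero] at hvp
    exact exp_ne_zero hvp.symm
  have hιp : ι ((p : ℕ) : ℚ_[p]) = ((p : ℕ) : w.adicCompletion M) := map_natCast ι p
  have key : ∀ x : w.adicCompletion M, Valued.v x ≤ 1 → ∃ y : ℚ_[p], ι y = x := by
    intro x hx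
    choose a ha using fun k => int_approx hp1 hp2 hc k x hx
    obtain ⟨y, -, hy⟩ := (isCompact_univ (X := ℤ_[p])).exists_mapClusterPt
      (f := atTop) (u := fun k : ℕ => ((a k : ℤ) : ℤ_[p])) (by simp)
    refine ⟨y, ?_⟩
    have hall : ∀ k : ℕ, Valued.v (ι (y : ℚ_[p]) - x) ≤ Valued.v ((p : ℕ) : w.adicCompletion M) ^ k := by
      intro k
      have hfreq := hy.frequently (p := fun z : ℤ_[p] => ‖z - y‖ < (p : ℝ) ^ (-(k : ℤ))) (by
        have hpos : (0 : ℝ) < (p : ℝ) ^ (-(k : ℤ)) :=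
          zpow_pos (by exact_mod_cast hp.out.pos) _
        have := Metric.ball_mem_nhds y hpos
        filter_upwards [this] with z hz
        rwa [Metric.mem_ball, dist_eq_norm] at hz)
      obtain ⟨l, hl1, hl2⟩ := (hfreq.and_eventually (eventually_ge_atTop k)).exists
      have h1 : ‖((a l : ℤ) : ℤ_[p]) - y‖ ≤ (p : ℝ) ^ (-(k : ℤ)) := hl1.le
      rw [PadicInt.norm_le_pow_iff_mem_span_pow, Ideal.mem_span_singleton] at h1
      obtain ⟨z, hz⟩ := h1
      have h2 : (y : ℚ_[p]) = ((a l : ℤ) : ℚ_[p]) - ((p : ℕ) : ℚ_[p]) ^ k * (z : ℚ_[p]) := by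
        have := congrArg (fun t : ℤ_[p] => (t : ℚ_[p])) hz
        push_cast at this
        rw [← this]
        ring
      have h3 : ι (y : ℚ_[p]) - x = -(x - ((a l : ℤ) : w.adicCompletion M)) -
          ((p : ℕ) : w.adicCompletion M) ^ k * ι (z : ℚ_[p]) := by
        rw [h2, map_sub, map_mul, map_pow, hιp, map_intCast]
        ring
      rw [h3]
      refine (Valuation.map_sub _ _ _).trans (max_le ?_ ?_)
      · rw [Valuation.map_neg]
        refine (ha l).trans (pow_le_pow_right_of_le_one' ?_ hl2)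
        rw [hvp, ← exp_zero, exp_le_exp]
        norm_num
      · rw [map_mul, map_pow]
        calc _ ≤ Valued.v ((p : ℕ) : w.adicCompletion M) ^ k * 1 :=
              mul_le_mul' le_rfl (hle _ z.2)
          _ = _ := mul_one _
    by_contra hne
    have h0 : Valued.v (ι (y : ℚ_[p]) - x) ≠ 0 := by
      rw [Valuation.ne_zero_iff, sub_ne_zero]
      exact hne
    obtain ⟨l, hl⟩ : ∃ l : ℤ, Valued.v (ι (y : ℚ_[p]) - x) = exp l := ⟨_, (exp_log h0).symm⟩
    have h1 := hall ((-l).toNat + 1)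
    rw [hvp, hl, ← exp_nsmul, exp_le_exp, nsmul_eq_mul] at h1
    push_cast at h1
    have := Int.self_le_toNat (-l)
    omega
  have hsurj : Function.Surjective ι := by
    intro x
    by_cases hx : Valued.v x ≤ 1
    · exact key x hx
    · have hx0 : Valued.v x ≠ 0 := by
        intro h
        rw [h] at hx
        exact hx zero_le
      obtain ⟨l, hl⟩ : ∃ l : ℤ, Valued.v x = exp l := ⟨_, (exp_log hx0).symm⟩
      obtain ⟨k, hk⟩ : ∃ k : ℕ, l ≤ k := ⟨l.toNat, Int.self_le_toNat l⟩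
      have h1 : Valued.v (((p : ℕ) : w.adicCompletion M) ^ k * x) ≤ 1 := by
        rw [map_mul, map_pow, hvp, hl, ← exp_nsmul, ← exp_add, ← exp_zero, exp_le_exp, nsmul_eq_mul]
        omega
      obtain ⟨y, hy⟩ := key _ h1
      refine ⟨y / ((p : ℕ) : ℚ_[p]) ^ k, ?_⟩
      rw [map_div₀, map_pow, hιp, hy, mul_div_cancel_left₀ _ (pow_ne_zero k hp0)]
  exact ⟨(RingEquiv.ofBijective ι ⟨ι.injective, hsurj⟩).symm.toRingHom⟩

end Pool.Agent.H30T.Emb
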