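import Pool.Agent.H30T.Stm4

/-!
# Project ET: piece NET, finitely many points over the completion at a prime above two are infinitely
divisible by two (helper53, for helper30)
-/

set_option autoImplicit false
set_option linter.all false

open Polynomial IsDedekindDomain NumberField

namespace Pool.Agent.H30T.NET4

open Pool.Agent.Y160.SE Pool.Agent.Helper29J
open Pool.Agent.TH115.GD (incl rs ak)
open Pool.Agent.N352.PP (vv vv_coe dense_F)

section levels

variable {K₀ K W : Type} [Field K₀] [Field K] [Field W] [Algebra K₀ K] [Algebra K₀ W] [Algebra K W]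
  [IsScalarTower K₀ K W] {f : K₀[X]} (hg : Good 2 (-1 : K₀) f) {w : AbsoluteValue W ℝ}

/-- a sum of points near infinity which is infinitely divisible by two is a sum of points arbitrarily close
to infinity -/
theorem all_levels [IsAlgClosed W] [Algebra.IsAlgebraic K W] (hL : Loc K w) {g : ℕ}
    (hf : Int w f g) (φ : K →ₐ[K₀] W) (hφ : ∀ x, φ x = algebraMap K W x) {z : Jac 2 f W}
    (hz : z ∈ GG hg w 1) (h : ∀ k : ℕ, ∃ D : Jac 2 f K, (2 ^ k : ℕ) • jm 2 f φ D = z) (ρ : ℝ)
    (hρ : 1 ≤ ρ) : z ∈ GG hg w ρ := by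
  obtain ⟨M, hM, hMD⟩ := exists_mult hg hL hf φ hφ
  obtain ⟨a, M', hM', rfl⟩ := Nat.exists_eq_two_pow_mul_odd hM.ne'
  have h20 : (2 : W) ≠ 0 := two_ne (gup (W := W) hg)
  have hw2 : 0 < w 2 := w.pos h20
  have hg1 := hf.pos
  -- the contraction factor
  obtain ⟨l, hl, hl2⟩ : ∃ l : ℝ, 1 < l ∧ w 2 ^ 2 * l ^ (2 * g - 1) < 1 := by
    have hne : (2 * g - 1 : ℕ) ≠ 0 := by omega
    refine ⟨(1 / w 2) ^ (((2 * g - 1 : ℕ) : ℝ)⁻¹), ?_, ?_⟩
    · apply Real.one_lt_rpow
      · rw [lt_div_iff₀ hw2]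
        linarith [hL.two]
      · have : 0 < ((2 * g - 1 : ℕ) : ℝ) := by exact_mod_cast (Nat.pos_of_ne_zero hne)
        positivity
    · rw [Real.rpow_inv_natCast_pow (by positivity) hne]
      rw [pow_two, mul_assoc, mul_one_div_cancel hw2.ne', mul_one]
      exact hL.two
  have key : ∀ k : ℕ, z ∈ GG hg w (l ^ k) := by
    intro k
    have h1 : M' • z ∈ GG hg w (l ^ k) := by
      obtain ⟨D, hD⟩ := h (k + a)
      have h2 := dbl_pow hg hL.na hL.two hf le_rfl hl.le hl2 (hMD D) k
      rw [mul_one] at h2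
      have e : (2 ^ k : ℕ) • (2 ^ a * M') • jm 2 f φ D = M' • z := by
        rw [← hD, smul_smul, smul_smul]
        congr 1
        rw [pow_add]
        ring
      rwa [e] at h2
    have h3 : (2 ^ k : ℕ) • z ∈ GG hg w (l ^ k) := by
      have := dbl_pow hg hL.na hL.two hf le_rfl hl.le hl2 hz k
      rwa [mul_one] at this
    have hcop : Nat.Coprime M' (2 ^ k) := (Nat.coprime_two_right.2 hM').pow_right k
    have hbez := Nat.gcd_eq_gcd_ab M' (2 ^ k)
    rw [hcop] at hbez
    have e : z = (Nat.gcdA M' (2 ^ k)) • (M' • z) + (Nat.gcdB M' (2 ^ k)) • ((2 ^ k : ℕ) • z) := by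
      have h5 : z = (1 : ℤ) • z := (one_zsmul _).symm
      conv_lhs => rw [h5]
      rw [← natCast_zsmul z M', ← natCast_zsmul z (2 ^ k), smul_smul, smul_smul, ← add_smul]
      congr 1
      rw [show (1 : ℤ) = ((1 : ℕ) : ℤ) from rfl, hbez]
      ring
    rw [e]
    exact AddSubgroup.add_mem _ (AddSubgroup.zsmul_mem _ h1 _) (AddSubgroup.zsmul_mem _ h3 _)
  obtain ⟨k, hk⟩ := pow_unbounded_of_one_lt ρ hl
  exact GG_mono hg w hk.le (key k)

/-- **Finitely many first coordinates.** -/
theorem fin_first (hS : V_SEP) [IsAlgClosed W] [Algebra.IsAlgebraic K W] (hL : Loc K w) {g : ℕ}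
    (hf : Int w f g) (φ : K →ₐ[K₀] W) (hφ : ∀ x, φ x = algebraMap K W x) :
    {x : K | ∃ y : K, On (fu f W) (algebraMap K W x, algebraMap K W y) ∧
      ∀ k : ℕ, ∃ D : Jac 2 f K, (2 ^ k : ℕ) • jm 2 f φ D =
        dc hg {(algebraMap K W x, algebraMap K W y)}}.Finite := by
  classical
  obtain ⟨δ, hδ, hδ1, hcl⟩ := close hg hL.na hL.two hf
  obtain ⟨T, hT, hTon, hT2⟩ := net2 (K := K) hL hf 1 hδ hδ1
  set A : Set K := {x : K | ∃ y : K, On (fu f W) (algebraMap K W x, algebraMap K W y) ∧
      ∀ k : ℕ, ∃ D : Jac 2 f K, (2 ^ k : ℕ) • jm 2 f φ D =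
        dc hg {(algebraMap K W x, algebraMap K W y)}} with hA
  -- the classes of the points
  have hpt : ∀ x ∈ A, ∃ Q ∈ T, ∃ y : K, On (fu f W) (algebraMap K W x, algebraMap K W y) ∧
      (∀ k : ℕ, ∃ D : Jac 2 f K, (2 ^ k : ℕ) • jm 2 f φ D =
        dc hg {(algebraMap K W x, algebraMap K W y)}) ∧
      dc hg {(algebraMap K W x, algebraMap K W y)} - dc hg {Q} ∈ GG hg w 1 := by
    rintro x ⟨y, hon, hdiv⟩
    rcases le_or_gt (w (algebraMap K W x)) 1 with h1 | h1
    · have hdeg : (minpoly K (algebraMap K W x)).natDegree ≤ 1 := by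
        rw [minpoly.eq_X_sub_C]
        exact (natDegree_X_sub_C x).le
      obtain ⟨Q, hQ, h2, h3⟩ := hT2 (algebraMap K W x, algebraMap K W y) hon h1 hdeg
      exact ⟨Q, hQ, y, hon, hdiv, hcl Q.1 Q.2 _ _ (hTon Q hQ).1 hon (hTon Q hQ).2 h1 h2 h3⟩
    · exact absurd (not_divisible hg hL hf φ hφ hon h1 hdiv) not_false
  choose! q hq y hy hdiv hqd using hpt
  refine Set.Finite.of_finite_image (f := q) (hT.subset ?_) ?_
  · rintro _ ⟨x, hx, rfl⟩
    exact hq x hx
  · intro x hx x' hx' he
    have h1 : dc hg {(algebraMap K W x, algebraMap K W (y x))} -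
        dc hg {(algebraMap K W x', algebraMap K W (y x'))} ∈ GG hg w 1 := by
      have h2 := hqd x hx
      have h3 := hqd x' hx'
      rw [← he] at h3
      have h4 := AddSubgroup.sub_mem _ h2 h3
      rwa [sub_sub_sub_cancel_right] at h4
    have h5 : ∀ k : ℕ, ∃ D : Jac 2 f K, (2 ^ k : ℕ) • jm 2 f φ D =
        dc hg {(algebraMap K W x, algebraMap K W (y x))} -
        dc hg {(algebraMap K W x', algebraMap K W (y x'))} := by
      intro k
      obtain ⟨D, hD⟩ := hdiv x hx k
      obtain ⟨D', hD'⟩ := hdiv x' hx' k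
      exact ⟨D - D', by rw [map_sub, nsmul_sub, hD, hD']⟩
    have h6 := hS K₀ W w f hg g hL.na hf _ _ (hy x hx) (hy x' hx')
      (all_levels hg hL hf φ hφ h1 h5)
    exact (algebraMap K W).injective h6

end levels

/-- **Piece NET.** -/
theorem net (hS : V_SEP) : V_NET := by
  intro F _ _ v h2 g hg1 f hm hd hg
  classical
  haveI : CharZero (v.adicCompletion F) := charZero_of_injective_algebraMap
    (algebraMap F (v.adicCompletion F)).injective
  have h2' : v.valuation F 2 < 1 := by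
    have e : algebraMap (𝓞 F) F 2 = 2 := map_ofNat _ 2
    rw [← e, HeightOneSpectrum.valuation_of_algebraMap]
    exact (v.intValuation_lt_one_iff_mem _).2 h2
  obtain ⟨w, hL, hw⟩ := exists_loc v h2' (SeparableClosure (v.adicCompletion F))
  have hw1 : ∀ x : v.adicCompletion F, w (algebraMap _ (SeparableClosure (v.adicCompletion F)) x) ≤ 1
      ↔ vv v x ≤ 1 := by
    intro x
    have h6 := hw x 1
    rwa [map_one, map_one, map_one] at h6
  have hint : Int w (f.map (algebraMap (𝓞 F) F)) g := by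
    refine ⟨hm.map _, by rw [hm.natDegree_map, hd], hg1, fun j => ?_⟩
    have e : (fu (f.map (algebraMap (𝓞 F) F)) (SeparableClosure (v.adicCompletion F))).coeff j =
        algebraMap (v.adicCompletion F) (SeparableClosure (v.adicCompletion F))
          (em v (f.coeff j)) := by
      rw [coeff_map, coeff_map, IsScalarTower.algebraMap_apply F (v.adicCompletion F)
        (SeparableClosure (v.adicCompletion F))]
      rfl
    rw [e, hw1]
    exact vv_em_le v _
  have hfin := fin_first hg hS hL hint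
    (incl F (v.adicCompletion F) (SeparableClosure (v.adicCompletion F))) (fun x => rfl)
  refine Set.Finite.subset (hfin.biUnion (t := fun x => (fun y => (x, y)) ''
    {y : v.adicCompletion F | y ^ 2 =
      (fu (f.map (algebraMap (𝓞 F) F)) (v.adicCompletion F)).eval x}) fun x _ => ?_) ?_
  · apply Set.Finite.image
    have hne : (X ^ 2 - C ((fu (f.map (algebraMap (𝓞 F) F)) (v.adicCompletion F)).eval x) :
        (v.adicCompletion F)[X]) ≠ 0 := X_pow_sub_C_ne_zero (by norm_num) _
    refine ((X ^ 2 - C ((fu (f.map (algebraMap (𝓞 F) F)) (v.adicCompletion F)).eval x) :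
        (v.adicCompletion F)[X]).roots.toFinset.finite_toSet).subset fun y hy => ?_
    rw [Finset.mem_coe, Multiset.mem_toFinset, mem_roots hne]
    show eval y _ = 0
    rw [eval_sub, eval_pow, eval_X, eval_C, sub_eq_zero]
    exact hy
  · rintro ⟨a, b⟩ ⟨hab, hdiv⟩
    rw [Set.mem_iUnion₂]
    refine ⟨a, ⟨b, ?_, hdiv⟩, b, hab, rfl⟩
    show (algebraMap _ _ b) ^ 2 = _
    have hab' : b ^ 2 = (fu (f.map (algebraMap (𝓞 F) F)) (v.adicCompletion F)).eval a := hab
    rw [← map_pow, hab']
    unfold fu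
    rw [IsScalarTower.algebraMap_eq F (v.adicCompletion F)
      (SeparableClosure (v.adicCompletion F)), ← Polynomial.map_map, eval_map_apply]

end Pool.Agent.H30T.NET4
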