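import Pool.Agent.H30T.Stm4

/-!
# Piece SCL of project ET: change of the field and scaling
-/

set_option autoImplicit false
set_option linter.all false

open Polynomial IsDedekindDomain
open scoped Classical

namespace Pool.Agent.H30T.Scl4

open Pool.Agent.Y160.SE

section sc

variable {E E' : Type} [Field E] [Field E']

/-- the homomorphism of the polynomials `x ↦ δ ^ 2 x` -/
noncomputable def jj (φ : E →+* E') (δ : E') : E[X] →+* E'[X] :=
  eval₂RingHom (C.comp φ) (C (δ ^ 2) * X)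

theorem jj_eq (φ : E →+* E') (δ : E') (p : E[X]) : jj φ δ p = (p.map φ).comp (C (δ ^ 2) * X) := by
  show eval₂ (C.comp φ) (C (δ ^ 2) * X) p = _
  rw [comp, eval₂_map]

theorem jj_inj (φ : E →+* E') {δ : E'} (hδ : δ ≠ 0) : Function.Injective (jj φ δ) := by
  rw [injective_iff_map_eq_zero]
  intro p hp
  rw [jj_eq] at hp
  ext n
  have h1 := congrArg (fun q => q.coeff n) hp
  simp only [comp_C_mul_X_coeff, coeff_map, coeff_zero] at h1
  rcases mul_eq_zero.1 h1 with h2 | h2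
  · rw [coeff_zero]
    exact (map_eq_zero φ).1 h2
  · exact absurd h2 (pow_ne_zero _ (pow_ne_zero _ hδ))

theorem jj_F {φ : E →+* E'} {g : ℕ} {F : E[X]} {F' : E'[X]} {δ : E'}
    (h : F.map φ = F'.scaleRoots (δ ^ 2)) (hd : F'.natDegree = 2 * g + 1) :
    jj φ δ F = C (δ ^ (2 * g + 1)) ^ 2 * F' := by
  rw [jj_eq, h, comp, scaleRoots_eval₂_mul, hd, eval₂_C_X, ← C_pow, ← C_pow, ← pow_mul, ← pow_mul,
    mul_comm 2]

/-- `x ↦ δ ^ 2 x`, `y ↦ δ ^ (2 g + 1) y` -/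
noncomputable def sc (φ : E →+* E') (g : ℕ) (F : E[X]) (F' : E'[X]) (δ : E')
    (h : F.map φ = F'.scaleRoots (δ ^ 2)) (hd : F'.natDegree = 2 * g + 1) : CR 2 F →+* CR 2 F' :=
  AdjoinRoot.lift ((AdjoinRoot.of (X ^ 2 - C F' : E'[X][X])).comp (jj φ δ))
    (xp 2 F' (C (δ ^ (2 * g + 1))) * yy 2 F') (by
      rw [eval₂_sub, eval₂_X_pow, eval₂_C, mul_pow, yy_pow, RingHom.comp_apply, jj_F h hd, ← xp_pow,
        ← xp_mul]
      exact sub_self _)

variable {φ : E →+* E'} {g : ℕ} {F : E[X]} {F' : E'[X]} {δ : E'}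
    (h : F.map φ = F'.scaleRoots (δ ^ 2)) (hd : F'.natDegree = 2 * g + 1)

theorem sc_xp (p : E[X]) : sc φ g F F' δ h hd (xp 2 F p) = xp 2 F' (jj φ δ p) := by
  unfold sc
  rw [AdjoinRoot.lift_of]
  rfl

theorem sc_yy : sc φ g F F' δ h hd (yy 2 F) = xp 2 F' (C (δ ^ (2 * g + 1))) * yy 2 F' := by
  unfold sc
  rw [AdjoinRoot.lift_root]

theorem sc_inj (hδ : δ ≠ 0) : Function.Injective (sc φ g F F' δ h hd) := by
  rw [injective_iff_map_eq_zero]
  intro z hz
  obtain ⟨p, hp, rfl⟩ := cr_repr two_ne_zero z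
  have h1 : p = C (p.coeff 1) * X + C (p.coeff 0) :=
    eq_X_add_C_of_natDegree_le_one (by omega)
  have e1 : AdjoinRoot.mk (X ^ 2 - C F : E[X][X]) p =
      xp 2 F (p.coeff 1) * yy 2 F + xp 2 F (p.coeff 0) := by
    conv_lhs => rw [h1, map_add, map_mul]
    rfl
  have e2 : sc φ g F F' δ h hd (AdjoinRoot.mk (X ^ 2 - C F : E[X][X]) p) =
      AdjoinRoot.mk (X ^ 2 - C F' : E'[X][X])
        (C (jj φ δ (p.coeff 1) * C (δ ^ (2 * g + 1))) * X + C (jj φ δ (p.coeff 0))) := by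
    rw [e1, map_add, map_mul, sc_xp, sc_xp, sc_yy, map_add, map_mul, ← mul_assoc, ← xp_mul]
    rfl
  rw [e2] at hz
  have h3 := cr_repr_zero two_ne_zero (lt_of_le_of_lt natDegree_linear_le (by norm_num)) hz
  have h4 : jj φ δ (p.coeff 0) = 0 := by
    have := congrArg (fun q => q.coeff 0) h3
    simpa using this
  have h5 : jj φ δ (p.coeff 1) * C (δ ^ (2 * g + 1)) = 0 := by
    have h6 := congrArg (fun q => q.coeff 1) h3
    simp only [coeff_add, coeff_C_mul, coeff_X_one, mul_one, coeff_C_succ, add_zero,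
      coeff_zero] at h6
    exact h6
  have h6 : jj φ δ (p.coeff 1) = 0 := by
    rcases mul_eq_zero.1 h5 with h6 | h6
    · exact h6
    · exact absurd (C_eq_zero.1 h6) (pow_ne_zero _ hδ)
  have h7 := (injective_iff_map_eq_zero _).1 (jj_inj φ hδ) _ h4
  have h8 := (injective_iff_map_eq_zero _).1 (jj_inj φ hδ) _ h6
  rw [e1, h7, h8, xp_zero, zero_mul, zero_add]

theorem jj_X_sub (hδ : δ ≠ 0) (a : E) : jj φ δ (X - C a) = C (δ ^ 2) * (X - C (φ a / δ ^ 2)) := by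
  rw [jj_eq, Polynomial.map_sub, map_X, map_C, sub_comp, X_comp, C_comp, mul_sub, ← C_mul,
    mul_div_cancel₀ _ (pow_ne_zero 2 hδ)]

theorem jj_C (a : E) : jj φ δ (C a) = C (φ a) := by
  rw [jj_eq, map_C, C_comp]

theorem sc_pt (hδ : δ ≠ 0) (a b : E) : (ptI 2 F a b).map (sc φ g F F' δ h hd) =
    ptI 2 F' (φ a / δ ^ 2) (φ b / δ ^ (2 * g + 1)) := by
  have e1 : sc φ g F F' δ h hd (xp 2 F (X - C a)) =
      xp 2 F' (C (δ ^ 2)) * xp 2 F' (X - C (φ a / δ ^ 2)) := by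
    rw [sc_xp, jj_X_sub hδ, xp_mul]
  have e2 : sc φ g F F' δ h hd (yy 2 F - xp 2 F (C b)) =
      xp 2 F' (C (δ ^ (2 * g + 1))) * (yy 2 F' - xp 2 F' (C (φ b / δ ^ (2 * g + 1)))) := by
    rw [map_sub, sc_yy, sc_xp, jj_C, mul_sub, ← xp_mul, ← C_mul,
      mul_div_cancel₀ _ (pow_ne_zero _ hδ)]
  have hu : ∀ c : E', c ≠ 0 → xp 2 F' (C c⁻¹) * xp 2 F' (C c) = 1 := by
    intro c hc
    rw [← xp_mul, ← C_mul, inv_mul_cancel₀ hc, C_1, xp_one]
  unfold ptI
  rw [Ideal.map_span, Set.image_pair, e1, e2]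
  apply le_antisymm
  · rw [Ideal.span_le]
    rintro z (rfl | rfl)
    · exact Ideal.mul_mem_left _ _ (Ideal.subset_span (Or.inl rfl))
    · exact Ideal.mul_mem_left _ _ (Ideal.subset_span (Or.inr rfl))
  · rw [Ideal.span_le]
    rintro z (rfl | rfl)
    · have h4 : xp 2 F' (C (δ ^ 2)⁻¹) *
          (xp 2 F' (C (δ ^ 2)) * xp 2 F' (X - C (φ a / δ ^ 2))) ∈
          Ideal.span {xp 2 F' (C (δ ^ 2)) * xp 2 F' (X - C (φ a / δ ^ 2)),
            xp 2 F' (C (δ ^ (2 * g + 1))) * (yy 2 F' - xp 2 F' (C (φ b / δ ^ (2 * g + 1))))} :=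
        Ideal.mul_mem_left _ _ (Ideal.subset_span (Or.inl rfl))
      rwa [← mul_assoc, hu _ (pow_ne_zero _ hδ), one_mul] at h4
    · have h4 : xp 2 F' (C (δ ^ (2 * g + 1))⁻¹) *
          (xp 2 F' (C (δ ^ (2 * g + 1))) * (yy 2 F' - xp 2 F' (C (φ b / δ ^ (2 * g + 1))))) ∈
          Ideal.span {xp 2 F' (C (δ ^ 2)) * xp 2 F' (X - C (φ a / δ ^ 2)),
            xp 2 F' (C (δ ^ (2 * g + 1))) * (yy 2 F' - xp 2 F' (C (φ b / δ ^ (2 * g + 1))))} :=
        Ideal.mul_mem_left _ _ (Ideal.subset_span (Or.inr rfl))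
      rwa [← mul_assoc, hu _ (pow_ne_zero _ hδ), one_mul] at h4

end sc

section main

variable {E E' Ω Ω' : Type} [Field E] [Field E'] [Field Ω] [Field Ω'] [Algebra E Ω] [Algebra E' Ω']
  {φ : E →+* E'} {Φ : Ω →+* Ω'} {g : ℕ} {F : E[X]} {F' : E'[X]} {δ : E'}

theorem sc_up (hΦ : ∀ x, Φ (algebraMap E Ω x) = algebraMap E' Ω' (φ x))
    (h : F.map φ = F'.scaleRoots (δ ^ 2)) (hm : F'.Monic) :
    (F.map (algebraMap E Ω)).map Φ =
      (F'.map (algebraMap E' Ω')).scaleRoots (algebraMap E' Ω' δ ^ 2) := by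
  have h1 : Φ.comp (algebraMap E Ω) = (algebraMap E' Ω').comp φ := RingHom.ext hΦ
  rw [Polynomial.map_map, h1, ← Polynomial.map_map, h, map_scaleRoots _ _ _ (by
    rw [hm.leadingCoeff, map_one]
    exact one_ne_zero), map_pow]

theorem sc_comm (hΦ : ∀ x, Φ (algebraMap E Ω x) = algebraMap E' Ω' (φ x))
    (h : F.map φ = F'.scaleRoots (δ ^ 2)) (hd : F'.natDegree = 2 * g + 1)
    (h' : (F.map (algebraMap E Ω)).map Φ =
      (F'.map (algebraMap E' Ω')).scaleRoots (algebraMap E' Ω' δ ^ 2))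
    (hd' : (F'.map (algebraMap E' Ω')).natDegree = 2 * g + 1) :
    (sc Φ g (F.map (algebraMap E Ω)) (F'.map (algebraMap E' Ω')) (algebraMap E' Ω' δ) h' hd').comp
      (crMap 2 (algebraMap E Ω) F _ rfl) =
    (crMap 2 (algebraMap E' Ω') F' _ rfl).comp (sc φ g F F' δ h hd) := by
  apply cr_hom_ext
  · intro c
    simp only [RingHom.comp_apply, crMap_xp, sc_xp, map_C, jj_C, hΦ]
  · simp only [RingHom.comp_apply, crMap_xp, sc_xp, map_X, jj_eq, X_comp, Polynomial.map_mul,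
      map_C, map_pow, Polynomial.map_pow]
  · simp only [RingHom.comp_apply, crMap_xp, crMap_yy, sc_yy, map_mul, map_C, map_pow]

end main

end Pool.Agent.H30T.Scl4

namespace Pool.Agent.H30T

open Pool.Agent.Y160.SE
open Scl4

/-- Piece SCL. -/
theorem scl : V_SCL := by
  intro E E' _ _ _ _ φ g F F' δ hδ hF hF' hdeg h a b hab hinf
  have hd : F'.natDegree = 2 * g + 1 := by
    have h1 := congrArg natDegree h
    rw [natDegree_map, natDegree_scaleRoots, hdeg] at h1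
    exact h1.symm
  refine ⟨?_, ?_⟩
  · have h1 : (F.map φ).eval (φ a) = φ b ^ 2 := by
      rw [eval_map_apply, ← hab, map_pow]
    have h2 := scaleRoots_eval₂_mul (p := F') (RingHom.id E') (φ a / δ ^ 2) (δ ^ 2)
    rw [RingHom.id_apply, mul_div_cancel₀ _ (pow_ne_zero 2 hδ), hd] at h2
    change (F'.scaleRoots (δ ^ 2)).eval (φ a) = (δ ^ 2) ^ (2 * g + 1) * F'.eval (φ a / δ ^ 2) at h2
    rw [← h, h1] at h2
    rw [div_pow, h2, ← pow_mul, ← pow_mul, mul_comm 2, mul_div_cancel_left₀ _ (pow_ne_zero _ hδ)]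
  · letI : Algebra E (SeparableClosure E') :=
      ((algebraMap E' (SeparableClosure E')).comp φ).toAlgebra
    obtain ⟨Φ₀⟩ : Nonempty (SeparableClosure E →ₐ[E] SeparableClosure E') :=
      ⟨IsSepClosed.lift⟩
    obtain ⟨Φ, hΦ⟩ : ∃ Φ : SeparableClosure E →+* SeparableClosure E', ∀ x,
        Φ (algebraMap E (SeparableClosure E) x) = algebraMap E' (SeparableClosure E') (φ x) :=
      ⟨Φ₀, fun x => Φ₀.commutes x⟩
    have hd' : (F'.map (algebraMap E' (SeparableClosure E'))).natDegree = 2 * g + 1 := by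
      rw [natDegree_map]
      exact hd
    have hδ' : algebraMap E' (SeparableClosure E') δ ≠ 0 := (_root_.map_ne_zero _).2 hδ
    intro k
    obtain ⟨J, α, β, hJ, hα, hβ, heq⟩ := hinf k
    have hS := sc_inj (sc_up hΦ h hF') hd' hδ'
    refine ⟨J.map (sc φ g F F' δ h hd), sc Φ g _ _ _ (sc_up hΦ h hF') hd' α,
      sc Φ g _ _ _ (sc_up hΦ h hF') hd' β, ?_, ?_, ?_, ?_⟩
    · rw [Ne, Ideal.map_eq_bot_iff_of_injective (sc_inj h hd hδ)]
      exact hJ
    · intro h0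
      exact hα (hS (by rw [h0, map_zero]))
    · intro h0
      exact hβ (hS (by rw [h0, map_zero]))
    · have h5 := congrArg (Ideal.map (sc Φ g _ _ _ (sc_up hΦ h hF') hd')) heq
      rw [Ideal.map_mul, Ideal.map_mul, Ideal.map_pow, Ideal.map_span, Ideal.map_span,
        Set.image_singleton, Set.image_singleton, sc_pt (sc_up hΦ h hF') hd' hδ', Ideal.map_map,
        sc_comm hΦ h hd (sc_up hΦ h hF') hd', ← Ideal.map_map] at h5
      rw [map_div₀, map_div₀, map_pow, map_pow, ← hΦ, ← hΦ]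
      exact h5

end Pool.Agent.H30T
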