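import Pool.Agent.Helper29J.Grp

/-!
# Piece SEP: two points whose difference is a sum of points arbitrarily close to infinity
-/

set_option autoImplicit false

open Polynomial

namespace Pool.Agent.H30T.Sep4

open Pool.Agent.Y160.SE Pool.Agent.Helper29J

section top

variable {E : Type} [Field E] {w : AbsoluteValue E ℝ}

/-- the larger of two dominating terms dominates the difference -/
theorem top_sub (hna : Na w) {ρ : ℝ} (hρ : 0 < ρ) {p q : E[X]} {s t : ℕ}
    (hp : Top w ρ p s) (hq : Top w ρ q t)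
    (hle : w (q.coeff t) * ρ ^ t ≤ w (p.coeff s) * ρ ^ s)
    (hlt : w (q.coeff t) * ρ ^ t = w (p.coeff s) * ρ ^ s → t < s) : Top w ρ (p - q) s := by
  have hpos : ∀ k : ℕ, 0 < ρ ^ k := fun k => pow_pos hρ k
  have h1 : ∀ k, s ≤ k → w (q.coeff k) * ρ ^ k < w (p.coeff s) * ρ ^ s := by
    intro k hk
    rcases lt_or_eq_of_le hle with h | h
    · exact lt_of_le_of_lt (hq.le k) h
    · rw [← h]
      exact hq.lt k (by have := hlt h; omega)
  have h2 : w ((p - q).coeff s) = w (p.coeff s) := by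
    rw [coeff_sub]
    apply w_sub_eq hna
    exact lt_of_mul_lt_mul_right (h1 s le_rfl) (hpos s).le
  refine ⟨?_, fun k => ?_, fun k hk => ?_⟩
  · rw [← w.pos_iff, h2]
    exact w.pos hp.ne
  · rw [h2, coeff_sub, ← le_div_iff₀ (hpos k)]
    refine (w_sub_le hna _ _).trans (max_le ?_ ?_)
    · rw [le_div_iff₀ (hpos k)]
      exact hp.le k
    · rw [le_div_iff₀ (hpos k)]
      exact (hq.le k).trans hle
  · rw [h2, coeff_sub, ← lt_div_iff₀ (hpos k)]
    refine lt_of_le_of_lt (w_sub_le hna _ _) (max_lt ?_ ?_)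
    · rw [lt_div_iff₀ (hpos k)]
      exact hp.lt k hk
    · rw [lt_div_iff₀ (hpos k)]
      exact h1 k hk.le

theorem top_neg {ρ : ℝ} {p : E[X]} {s : ℕ} (hp : Top w ρ p s) : Top w ρ (-p) s := by
  refine ⟨?_, fun k => ?_, fun k hk => ?_⟩
  · rw [coeff_neg, neg_ne_zero]
    exact hp.ne
  · rw [coeff_neg, coeff_neg, w.map_neg, w.map_neg]
    exact hp.le k
  · rw [coeff_neg, coeff_neg, w.map_neg, w.map_neg]
    exact hp.lt k hk

/-- the value of the dominating coefficient of a product -/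
theorem top_val (hna : Na w) {ρ : ℝ} (hρ : 0 < ρ) {p q : E[X]} {m n : ℕ} (hp : Top w ρ p m)
    (hq : Top w ρ q n) : w ((p * q).coeff (m + n)) * ρ ^ (m + n) =
      (w (p.coeff m) * ρ ^ m) * (w (q.coeff n) * ρ ^ n) := by
  classical
  have hMp := hp.pos hρ
  have hMq := hq.pos hρ
  have hterm : ∀ i j, w (p.coeff i * q.coeff j) * ρ ^ (i + j) =
      (w (p.coeff i) * ρ ^ i) * (w (q.coeff j) * ρ ^ j) := by
    intro i j
    rw [map_mul, pow_add]
    ring
  have hp0 : ∀ i, 0 ≤ w (p.coeff i) * ρ ^ i := fun i => mul_nonneg (w.nonneg _) (pow_nonneg hρ.le _)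
  have hq0 : ∀ i, 0 ≤ w (q.coeff i) * ρ ^ i := fun i => mul_nonneg (w.nonneg _) (pow_nonneg hρ.le _)
  have hc : w ((p * q).coeff (m + n)) = w (p.coeff m * q.coeff n) := by
    rw [coeff_mul]
    refine w_sum_eq hna _ (fun x : ℕ × ℕ => p.coeff x.1 * q.coeff x.2) (m, n)
      (by rw [Finset.HasAntidiagonal.mem_antidiagonal]) (mul_ne_zero hp.ne hq.ne) ?_
    rintro ⟨i, j⟩ hij hne
    rw [Finset.HasAntidiagonal.mem_antidiagonal] at hij
    have h1 : m < i ∨ n < j := by
      by_contra hcon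
      push Not at hcon
      apply hne
      simp only at hij
      have : i = m := by omega
      have : j = n := by omega
      simp [*]
    simp only at hij
    have h2 : w (p.coeff i * q.coeff j) * ρ ^ (i + j) <
        w (p.coeff m * q.coeff n) * ρ ^ (m + n) := by
      rw [hterm, hterm]
      rcases h1 with h | h
      · calc (w (p.coeff i) * ρ ^ i) * (w (q.coeff j) * ρ ^ j)
            ≤ (w (p.coeff i) * ρ ^ i) * (w (q.coeff n) * ρ ^ n) :=
              mul_le_mul_of_nonneg_left (hq.le j) (hp0 i)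
          _ < _ := mul_lt_mul_of_pos_right (hp.lt i h) hMq
      · calc (w (p.coeff i) * ρ ^ i) * (w (q.coeff j) * ρ ^ j)
            ≤ (w (p.coeff m) * ρ ^ m) * (w (q.coeff j) * ρ ^ j) :=
              mul_le_mul_of_nonneg_right (hp.le i) (hq0 j)
          _ < _ := mul_lt_mul_of_pos_left (hq.lt j h) hMp
    rw [hij] at h2
    exact lt_of_mul_lt_mul_right h2 (pow_pos hρ _).le
  rw [hc, hterm]

/-- if `α ^ 2 - β ^ 2 * f` has a dominating term of degree two then it comes from a linear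
dominating term of `α` -/
theorem top_two (hna : Na w) {ρ : ℝ} (hρ : 0 < ρ) {f α β : E[X]} {g : ℕ} (hg : 1 ≤ g)
    (hf : Top w ρ f (2 * g + 1)) (hN : Top w ρ (α ^ 2 - β ^ 2 * f) 2) :
    Top w ρ α 1 ∧ ∀ j, (w (β.coeff j) * ρ ^ j) ^ 2 * (w (f.coeff (2 * g + 1)) * ρ ^ (2 * g + 1)) <
      (w (α.coeff 1) * ρ) ^ 2 := by
  have hfp := hf.pos hρ
  have hsq : ∀ {p : E[X]} {i : ℕ}, Top w ρ p i →
      w ((p ^ 2).coeff (2 * i)) * ρ ^ (2 * i) = (w (p.coeff i) * ρ ^ i) ^ 2 ∧
      Top w ρ (p ^ 2) (2 * i) := by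
    intro p i hp
    have h1 := hp.mul hna hρ hp
    rw [← pow_two, ← two_mul] at h1
    refine ⟨?_, h1⟩
    -- the value of the dominating coefficient of a product
    have h2 := top_val hna hρ hp hp
    rw [← pow_two, ← two_mul] at h2
    rw [h2, pow_two]
  by_cases hα : α = 0
  · exfalso
    by_cases hβ : β = 0
    · apply hN.ne
      rw [hα, hβ]
      simp
    · obtain ⟨j, hj⟩ := exists_top (w := w) hρ hβ
      have h1 := top_neg ((hsq hj).2.mul hna hρ hf)
      rw [hα] at hN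
      have e : (0 : E[X]) ^ 2 - β ^ 2 * f = -(β ^ 2 * f) := by ring
      rw [e] at hN
      have := hN.unique h1
      omega
  obtain ⟨i, hi⟩ := exists_top (w := w) hρ hα
  obtain ⟨hi1, hi2⟩ := hsq hi
  by_cases hβ : β = 0
  · rw [hβ] at hN
    have e : α ^ 2 - (0 : E[X]) ^ 2 * f = α ^ 2 := by ring
    rw [e] at hN
    have h1 := hN.unique hi2
    have h2 : i = 1 := by omega
    subst h2
    refine ⟨hi, fun j => ?_⟩
    rw [hβ, coeff_zero, map_zero]
    have := hi.pos hρ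
    rw [pow_one] at this
    simp only [zero_mul, ne_eq, OfNat.ofNat_ne_zero, not_false_eq_true, zero_pow]
    positivity
  obtain ⟨j, hj⟩ := exists_top (w := w) hρ hβ
  obtain ⟨hj1, hj2⟩ := hsq hj
  have hq := hj2.mul hna hρ hf
  have hqv := top_val hna hρ hj2 hf
  rw [hj1] at hqv
  have hne : 2 * i ≠ 2 * j + (2 * g + 1) := by omega
  rcases lt_trichotomy (w ((β ^ 2 * f).coeff (2 * j + (2 * g + 1))) * ρ ^ (2 * j + (2 * g + 1)))
    (w ((α ^ 2).coeff (2 * i)) * ρ ^ (2 * i)) with h | h | h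
  · have h3 := top_sub hna hρ hi2 hq h.le (fun h' => absurd h' h.ne)
    have h4 := hN.unique h3
    have h5 : i = 1 := by omega
    subst h5
    refine ⟨hi, fun k => ?_⟩
    rw [hqv, hi1, pow_one] at h
    refine lt_of_le_of_lt (mul_le_mul_of_nonneg_right ?_ hfp.le) h
    exact pow_le_pow_left₀ (mul_nonneg (w.nonneg _) (pow_nonneg hρ.le _)) (hj.le k) 2
  · exfalso
    rcases Nat.lt_or_ge (2 * j + (2 * g + 1)) (2 * i) with h4 | h4
    · have h3 := top_sub hna hρ hi2 hq h.le (fun _ => h4)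
      have := hN.unique h3
      omega
    · have h3 := top_neg (top_sub hna hρ hq hi2 h.ge (fun _ => by omega))
      rw [neg_sub] at h3
      have := hN.unique h3
      omega
  · exfalso
    have h3 := top_neg (top_sub hna hρ hq hi2 h.le (fun h' => absurd h' h.ne))
    rw [neg_sub] at h3
    have := hN.unique h3
    omega

/-- the difference of two values of a polynomial with a linear dominating term -/
theorem w_eval_sub (hna : Na w) {ρ : ℝ} (hρ : 0 < ρ) {α : E[X]} (hα : Top w ρ α 1) {x y : E}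
    (hx : w x ≤ ρ) (hy : w y ≤ ρ) (hxy : x ≠ y) :
    w (α.eval x - α.eval y) = w (α.coeff 1) * w (x - y) := by
  classical
  have hd : 0 < w (x - y) := w.pos (sub_ne_zero.2 hxy)
  have h1 : 0 < w (α.coeff 1) := w.pos hα.ne
  have hdeg : 1 ∈ Finset.range (α.natDegree + 1) := by
    rw [Finset.mem_range]
    have := le_natDegree_of_ne_zero hα.ne
    omega
  rw [eval_eq_sum_range, eval_eq_sum_range, ← Finset.sum_sub_distrib]
  have e1 : w (α.coeff 1 * x ^ 1 - α.coeff 1 * y ^ 1) = w (α.coeff 1) * w (x - y) := by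
    rw [← map_mul]
    congr 1
    ring
  rw [w_sum_eq hna _ (fun i => α.coeff i * x ^ i - α.coeff i * y ^ i) 1 hdeg ?_ ?_]
  · exact e1
  · rw [← w.pos_iff, e1]
    exact mul_pos h1 hd
  · intro k _ hk
    have e2 : α.coeff k * x ^ k - α.coeff k * y ^ k =
        (α.coeff k * ∑ i ∈ Finset.range k, x ^ i * y ^ (k - 1 - i)) * (x - y) := by
      rw [mul_assoc, geom_sum₂_mul]
      ring
    rw [e1, e2, map_mul]
    refine mul_lt_mul_of_pos_right ?_ hd
    rcases Nat.eq_zero_or_pos k with rfl | hk0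
    · simpa using h1
    have hs : w (∑ i ∈ Finset.range k, x ^ i * y ^ (k - 1 - i)) ≤ ρ ^ (k - 1) := by
      refine w_sum_le hna _ _ (pow_nonneg hρ.le _) fun i hi => ?_
      rw [Finset.mem_range] at hi
      rw [map_mul, map_pow, map_pow]
      calc w x ^ i * w y ^ (k - 1 - i) ≤ ρ ^ i * ρ ^ (k - 1 - i) :=
            mul_le_mul (pow_le_pow_left₀ (w.nonneg _) hx _) (pow_le_pow_left₀ (w.nonneg _) hy _)
              (pow_nonneg (w.nonneg _) _) (pow_nonneg hρ.le _)
        _ = ρ ^ (k - 1) := by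
          rw [← pow_add]
          congr 1
          omega
    have hlt := hα.lt k (by omega)
    rw [map_mul]
    have h3 : w (α.coeff k) * ρ ^ (k - 1) < w (α.coeff 1) := by
      have h4 : (w (α.coeff k) * ρ ^ (k - 1)) * ρ < w (α.coeff 1) * ρ := by
        have e3 : w (α.coeff k) * ρ ^ (k - 1) * ρ = w (α.coeff k) * ρ ^ k := by
          rw [mul_assoc, ← pow_succ]
          congr 2
          omega
        rw [e3]
        simpa using hlt
      exact lt_of_mul_lt_mul_right h4 hρ.le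
    exact lt_of_le_of_lt (mul_le_mul_of_nonneg_left hs (w.nonneg _)) h3

theorem w_eval_bound (hna : Na w) {ρ : ℝ} {β : E[X]} {B : ℝ} (hB : 0 ≤ B)
    (hβ : ∀ j, w (β.coeff j) * ρ ^ j ≤ B) {x : E} (hx : w x ≤ ρ) : w (β.eval x) ≤ B := by
  rw [eval_eq_sum_range]
  refine w_sum_le hna _ _ hB fun j _ => ?_
  rw [map_mul, map_pow]
  exact (mul_le_mul_of_nonneg_left (pow_le_pow_left₀ (w.nonneg _) hx _) (w.nonneg _)).trans (hβ j)

end top

section main

variable {K W : Type} [Field K] [Field W] [Algebra K W] {w : AbsoluteValue W ℝ}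
  {f : K[X]} (hg : Good 2 (-1 : K) f) {g : ℕ}

/-- the estimate at the radius `r ^ 2` -/
theorem sep_bound (hna : Na w) (hf : Int w f g) {P Q : W × W} (hP : On (fu f W) P)
    (hQ : On (fu f W) Q) {r : ℝ} (hr : 1 ≤ r) (hPr : w P.1 ≤ r ^ 2) (hQr : w Q.1 ≤ r ^ 2)
    (h : dc hg {P} - dc hg {Q} ∈ GG hg w (r ^ 2)) :
    w (P.1 - Q.1) * r ≤ max (w P.2) (w Q.2) := by
  classical
  haveI := dom (W := W) hg
  by_cases hPQ : P.1 = Q.1
  · rw [hPQ, sub_self, map_zero, zero_mul]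
    exact le_max_of_le_left (w.nonneg _)
  obtain ⟨ρ, hρe⟩ : ∃ ρ, ρ = r ^ 2 := ⟨_, rfl⟩
  rw [← hρe] at hPr hQr h
  have hr0 : 0 < r := by linarith
  have hρ : 1 ≤ ρ := by rw [hρe]; exact one_le_pow₀ hr
  have hρ0 : 0 < ρ := by linarith
  obtain ⟨S, hS, hPS⟩ := h
  have hcQ : dc hg {cj Q} = -dc hg {Q} := by
    have := dc_cj' hg (S := {Q}) (fun P hP => by rw [Multiset.mem_singleton.1 hP]; exact hQ)
    rwa [Multiset.map_singleton] at this
  have hon : ∀ R ∈ P ::ₘ cj Q ::ₘ S.map cj, On (fu f W) R := by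
    intro R hR
    rcases Multiset.mem_cons.1 hR with rfl | hR
    · exact hP
    rcases Multiset.mem_cons.1 hR with rfl | hR
    · exact hQ.cj
    · exact on_map_cj (fun P hP => (hS P hP).1) R hR
  have h1 : dc hg (P ::ₘ cj Q ::ₘ S.map cj) = 0 := by
    rw [dc_cons, dc_cons, hcQ, ← add_assoc, ← sub_eq_add_neg, hPS]
    exact dc_cj hg fun P hP => (hS P hP).1
  obtain ⟨z, hz, hzI⟩ := cl_zero hg (dv_ne hg _) h1
  obtain ⟨α, β, rfl⟩ := exists_fn (gup (W := W) hg) z
  obtain ⟨c, hc, hN⟩ := norm_of_dv (gup (W := W) hg) hon hzI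
  have h2 : Top w ρ (dvP (P ::ₘ cj Q ::ₘ S.map cj)) 2 := by
    have e : dvP (P ::ₘ cj Q ::ₘ S.map cj) =
        (((P ::ₘ cj Q ::ₘ S.map cj).map Prod.fst).map fun a => X - C a).prod := by
      unfold dvP
      rw [Multiset.map_map]
      rfl
    rw [e]
    have h3 := top_prod hna hρ0 ((P ::ₘ cj Q ::ₘ S.map cj).map Prod.fst)
    have h4 : (Multiset.filter (fun a => w a ≤ ρ)
        ((P ::ₘ cj Q ::ₘ S.map cj).map Prod.fst)).card = 2 := by
      rw [Multiset.map_cons, Multiset.map_cons,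
        Multiset.filter_cons_of_pos (p := fun a => w a ≤ ρ) _ hPr,
        Multiset.filter_cons_of_pos (p := fun a => w a ≤ ρ) (a := (cj Q).1) _ hQr,
        Multiset.card_cons, Multiset.card_cons, Multiset.card_eq_zero.2]
      rw [Multiset.filter_eq_nil]
      intro a ha
      rw [Multiset.map_map, Multiset.mem_map] at ha
      obtain ⟨R, hR, rfl⟩ := ha
      exact not_le.2 (hS R hR).2
    rwa [h4] at h3
  have h5 : Top w ρ (α ^ 2 - β ^ 2 * fu f W) 2 := by
    rw [hN]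
    have := (top_C (w := w) (ρ := ρ) hc).mul hna hρ0 h2
    rwa [zero_add] at this
  obtain ⟨hα, hβ⟩ := top_two hna hρ0 hf.pos (hf.top hρ) h5
  have e2 : (fu f W).coeff (2 * g + 1) = 1 := by
    rw [← hf.deg']
    exact hf.mon'
  have ha : 0 < w (α.coeff 1) := w.pos hα.ne
  -- the coefficients of `β` are small
  have hβ' : ∀ j, w (β.coeff j) * ρ ^ j ≤ w (α.coeff 1) / r := by
    intro j
    have h6 := hβ j
    rw [e2, map_one, one_mul] at h6
    have h7 : (w (β.coeff j) * ρ ^ j * r ^ (2 * g + 1)) ^ 2 < (w (α.coeff 1) * r ^ 2) ^ 2 := by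
      calc (w (β.coeff j) * ρ ^ j * r ^ (2 * g + 1)) ^ 2 =
            (w (β.coeff j) * ρ ^ j) ^ 2 * (r ^ 2) ^ (2 * g + 1) := by ring
        _ < (w (α.coeff 1) * r ^ 2) ^ 2 := by
          rw [← hρe]
          exact h6
    have h8 : w (β.coeff j) * ρ ^ j * r ^ (2 * g + 1) < w (α.coeff 1) * r ^ 2 :=
      lt_of_pow_lt_pow_left₀ 2 (by positivity) h7
    rw [le_div_iff₀ hr0]
    have h9 : r ^ 3 ≤ r ^ (2 * g + 1) := pow_le_pow_right₀ hr (by have := hf.pos; omega)
    have h10 : w (β.coeff j) * ρ ^ j * r ^ 3 ≤ w (α.coeff 1) * r ^ 2 :=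
      (mul_le_mul_of_nonneg_left h9 (mul_nonneg (w.nonneg _) (pow_nonneg hρ0.le _))).trans h8.le
    have h11 : (w (β.coeff j) * ρ ^ j * r) * r ^ 2 ≤ w (α.coeff 1) * r ^ 2 := by
      calc (w (β.coeff j) * ρ ^ j * r) * r ^ 2 = w (β.coeff j) * ρ ^ j * r ^ 3 := by ring
        _ ≤ _ := h10
    exact le_of_mul_le_mul_right h11 (by positivity)
  have hb : 0 ≤ w (α.coeff 1) / r := by positivity
  have vP := fn_mem hzI (P := P) (Multiset.mem_cons_self _ _) hP
  have vQ := fn_mem hzI (P := cj Q) (Multiset.mem_cons_of_mem (Multiset.mem_cons_self _ _)) hQ.cj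
  have vQ' : α.eval Q.1 + β.eval Q.1 * (-Q.2) = 0 := vQ
  have h12 : α.eval P.1 - α.eval Q.1 = -(β.eval P.1 * P.2 + β.eval Q.1 * Q.2) := by
    linear_combination vP - vQ'
  have h13 := w_eval_sub hna hρ0 hα hPr hQr hPQ
  rw [h12, w.map_neg] at h13
  have h14 : w (β.eval P.1 * P.2 + β.eval Q.1 * Q.2) ≤
      w (α.coeff 1) / r * max (w P.2) (w Q.2) := by
    refine (hna _ _).trans (max_le ?_ ?_)
    · rw [map_mul]
      exact mul_le_mul (w_eval_bound hna hb hβ' hPr) (le_max_left _ _) (w.nonneg _) hb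
    · rw [map_mul]
      exact mul_le_mul (w_eval_bound hna hb hβ' hQr) (le_max_right _ _) (w.nonneg _) hb
  rw [h13] at h14
  have h15 : w (α.coeff 1) * (w (P.1 - Q.1) * r) ≤ w (α.coeff 1) * max (w P.2) (w Q.2) := by
    calc w (α.coeff 1) * (w (P.1 - Q.1) * r) = (w (α.coeff 1) * w (P.1 - Q.1)) * r := by ring
      _ ≤ (w (α.coeff 1) / r * max (w P.2) (w Q.2)) * r := mul_le_mul_of_nonneg_right h14 hr0.le
      _ = w (α.coeff 1) * max (w P.2) (w Q.2) := by
        field_simp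
  exact le_of_mul_le_mul_left h15 ha

theorem sep_main (hna : Na w) (hf : Int w f g) (P Q : W × W) (hP : On (fu f W) P)
    (hQ : On (fu f W) Q) (h : ∀ ρ : ℝ, 1 ≤ ρ → dc hg {P} - dc hg {Q} ∈ GG hg w ρ) :
    P.1 = Q.1 := by
  by_contra hne
  have hd : 0 < w (P.1 - Q.1) := w.pos (sub_ne_zero.2 hne)
  obtain ⟨Y, hY⟩ : ∃ Y, Y = max (w P.2) (w Q.2) := ⟨_, rfl⟩
  have hY0 : 0 ≤ Y := by rw [hY]; exact le_max_of_le_left (w.nonneg _)
  have hP0 := w.nonneg P.1
  have hQ0 := w.nonneg Q.1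
  obtain ⟨r, hr⟩ : ∃ r : ℝ, r = 1 + w P.1 + w Q.1 + Y / w (P.1 - Q.1) := ⟨_, rfl⟩
  have hYd : 0 ≤ Y / w (P.1 - Q.1) := div_nonneg hY0 hd.le
  have hr1 : 1 ≤ r := by rw [hr]; linarith
  have hsq : r ≤ r ^ 2 := by nlinarith
  have h1 := sep_bound hg hna hf hP hQ hr1 (by rw [hr] at hsq ⊢; linarith)
    (by rw [hr] at hsq ⊢; linarith) (h (r ^ 2) (one_le_pow₀ hr1))
  rw [← hY] at h1
  have h2 : Y < w (P.1 - Q.1) * r := by
    have h3 : w (P.1 - Q.1) * (Y / w (P.1 - Q.1)) = Y := by field_simp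
    have h4 : w (P.1 - Q.1) * r = w (P.1 - Q.1) * (1 + w P.1 + w Q.1) + Y := by
      rw [hr, mul_add, h3]
    rw [h4]
    have : 0 < w (P.1 - Q.1) * (1 + w P.1 + w Q.1) := by positivity
    linarith
  linarith

end main

end Pool.Agent.H30T.Sep4
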