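import Pool.Agent.H30T.Stm4
import Pool.Agent.H30T.Sep4a

/-!
# Piece SEP (statement of `Stm4.lean`)
-/

set_option autoImplicit false

namespace Pool.Agent.H30T

theorem sep4 : V_SEP := fun _ _ _ _ _ _ _ hg _ hna hf P Q hP hQ h =>
  Sep4.sep_main hg hna hf P Q hP hQ h

end Pool.Agent.H30T
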