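import Pool.Agent.H30T.Ell7
import Pool.Agent.H30T.Conv4
import Pool.Agent.H30T.Scl4
import Pool.Agent.H30T.Emb4
import Pool.Agent.H30T.NET4
import Pool.Agent.H30T.Sep4
import Pool.Agent.H30T.Alg4

/-!
# Project ET (helper30): all the pieces of phase 3
-/

set_option autoImplicit false

namespace Pool.Agent.H30T

theorem p4 : P4 := ⟨conv, scl, Emb.v_emb, NET4.net sep4, alg4⟩

end Pool.Agent.H30T
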