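import Pool.Agent.H30T.Rat
import Pool.Agent.N667.PF.Sqf

/-!
# Assembly: every curve has a twist without 2-Selmer group over all the admissible extensions
-/

set_option autoImplicit false
set_option linter.all false

open Polynomial IsDedekindDomain NumberField
open scoped Classical

namespace Pool.Agent.H30T

open Pool.Agent.N783.PF
open Pool.Agent.N874.PP (Ev Sq1 U0)
open Pool.Agent.N783.PQ (LocIm)
open Pool.Agent.N874.JM (LocF)

/-- the modulus -/
noncomputable def md (f : ℤ[X]) (p₀ m : ℕ) : ℕ :=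
  8 * m * ∏ p ∈ f.discr.natAbs.primeFactors.erase p₀, p

theorem md_ne {f : ℤ[X]} {p₀ m : ℕ} (hm : m ≠ 0) : md f p₀ m ≠ 0 := by
  refine mul_ne_zero (mul_ne_zero (by norm_num) hm) ?_
  rw [Finset.prod_ne_zero_iff]
  intro p hp
  exact (Nat.prime_of_mem_primeFactors (Finset.mem_of_mem_erase hp)).ne_zero

theorem md_dvd {f : ℤ[X]} {p₀ m : ℕ} (hp : p₀.Prime) (h2 : p₀ ≠ 2) (hm : ¬ p₀ ∣ m) :
    ¬ p₀ ∣ md f p₀ m := by
  intro h
  rw [md, hp.dvd_mul, hp.dvd_mul] at h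
  rcases h with (h | h) | h
  · have h3 : p₀ ∣ 2 ^ 3 := by norm_num; exact h
    have h4 := hp.dvd_of_dvd_pow h3
    exact h2 ((Nat.prime_dvd_prime_iff_eq hp Nat.prime_two).1 h4)
  · exact hm h
  · rw [Prime.dvd_finset_prod_iff hp.prime] at h
    obtain ⟨p, hpm, hpp⟩ := h
    have h3 := (Nat.prime_dvd_prime_iff_eq hp
      (Nat.prime_of_mem_primeFactors (Finset.mem_of_mem_erase hpm))).1 hpp
    exact (Finset.mem_erase.1 hpm).1 h3.symm

theorem mod_of_dvd {q a b : ℕ} (h : q % b = 1 % b) (hab : a ∣ b) : q % a = 1 % a := by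
  rw [← Nat.mod_mod_of_dvd q hab, h, Nat.mod_mod_of_dvd 1 hab]

theorem prod_mod {J : Finset ℕ} {b : ℕ} (h : ∀ q ∈ J, q % b = 1 % b) : (Dp J) % b = 1 % b := by
  unfold Dp
  induction J using Finset.induction_on with
  | empty => rfl
  | insert a T ha ih =>
    rw [Finset.prod_insert ha, Nat.mul_mod, ih fun q hq => h q (Finset.mem_insert_of_mem hq),
      h a (Finset.mem_insert_self _ _), ← Nat.mul_mod, mul_one]

/-- bad primes and the modulus -/
theorem bad_md {g : ℕ} {f : ℤ[X]} {p₀ m : ℕ} (H : Hyp g f p₀) {v : HeightOneSpectrum (𝓞 ℚ)}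
    (hv : ¬ Gd g (fO f) v) : ∃ p : ℕ, p.Prime ∧ v.asIdeal = Ideal.span {(p : 𝓞 ℚ)} ∧
      p ∣ md f p₀ m := by
  obtain ⟨p, hp, hv1, hv2⟩ := ratp v
  refine ⟨p, hp, hv1, ?_⟩
  by_cases h2 : p = 2
  · rw [h2, md]
    exact ((Nat.dvd_mul_right_of_dvd (by norm_num : 2 ∣ 8) m)).mul_right _
  have h3 : (p : ℤ) ^ 2 ∣ f.discr := by
    by_contra h4
    apply hv
    constructor
    · intro h5
      have h6 := (hv2 1 2).1 (by rw [pow_one]; exact_mod_cast h5)
      rw [pow_one] at h6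
      have h7 : p ∣ 2 := by exact_mod_cast h6
      exact h2 ((Nat.prime_dvd_prime_iff_eq hp Nat.prime_two).1 h7)
    · intro h5
      obtain ⟨ε, hε, hd⟩ := dsc_fO H.one H.mon H.deg
      rw [hd, hv2] at h5
      rcases hε with rfl | rfl
      · rw [one_mul] at h5
        exact h4 h5
      · rw [neg_one_mul, dvd_neg] at h5
        exact h4 h5
  have hpd : (p : ℤ) ∣ f.discr := (dvd_pow_self _ two_ne_zero).trans h3
  have hd0 : f.discr ≠ 0 := by
    intro h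
    apply H.ndvd
    rw [h]
    exact dvd_zero _
  have h4 : p ≠ p₀ := by
    rintro rfl
    exact H.ndvd h3
  rw [md]
  refine Dvd.dvd.mul_left (Finset.dvd_prod_of_mem _ ?_) _
  rw [Finset.mem_erase, Nat.mem_primeFactors]
  refine ⟨h4, hp, ?_, Int.natAbs_ne_zero.2 hd0⟩
  have := Int.natAbs_dvd_natAbs.2 hpd
  simpa using this

/-- the residue field of `q` -/
theorem rd_irr {q : ℕ} (hq : q.Prime) {h : ℤ[X]}
    (hirr : Irreducible (h.map (Int.castRingHom (ZMod q)))) :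
    Irreducible (rd (Ideal.span {(q : 𝓞 ℚ)}) (fO h)) := by
  haveI : Fact q.Prime := ⟨hq⟩
  let ψ : 𝓞 ℚ →+* ZMod q := (Int.castRingHom (ZMod q)).comp Rat.ringOfIntegersEquiv.toRingHom
  have hs : Function.Surjective ψ := by
    intro x
    obtain ⟨n, rfl⟩ := ZMod.intCast_surjective x
    exact ⟨(n : 𝓞 ℚ), by simp [ψ]⟩
  have hker : Ideal.span {(q : 𝓞 ℚ)} = RingHom.ker ψ := by
    ext x
    rw [RingHom.mem_ker, Ideal.mem_span_singleton]
    constructor
    · rintro ⟨y, rfl⟩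
      rw [map_mul, map_natCast, ZMod.natCast_self, zero_mul]
    · intro hx
      have h1 : ((Rat.ringOfIntegersEquiv x : ℤ) : ZMod q) = 0 := hx
      rw [ZMod.intCast_zmod_eq_zero_iff_dvd] at h1
      obtain ⟨k, hk⟩ := h1
      refine ⟨(k : 𝓞 ℚ), ?_⟩
      apply Rat.ringOfIntegersEquiv.injective
      rw [hk]
      simp
  let φ : (𝓞 ℚ ⧸ Ideal.span {(q : 𝓞 ℚ)}) ≃+* ZMod q :=
    (Ideal.quotEquivOfEq hker).trans (RingHom.quotientKerEquivOfSurjective hs)
  have e : Polynomial.mapEquiv φ (rd (Ideal.span {(q : 𝓞 ℚ)}) (fO h)) =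
      h.map (Int.castRingHom (ZMod q)) := by
    rw [Polynomial.mapEquiv_apply, rd, fO, Polynomial.map_map, Polynomial.map_map]
    congr 1
    exact RingHom.ext_int _ _
  rw [← MulEquiv.irreducible_iff (Polynomial.mapEquiv φ)]
  rw [e]
  exact hirr

theorem irr_comp {K : Type} [Field K] {h : K[X]} (hirr : Irreducible h) (c : K) :
    Irreducible (h.comp (X + C c)) := by
  let φ : K[X] ≃ₐ[K] K[X] := Polynomial.algEquivAevalXAddC c
  have e : φ h = h.comp (X + C c) := by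
    change aeval (X + C c) h = _
    rw [Polynomial.comp, aeval_def]
    rfl
  rw [← e]
  exact (MulEquiv.irreducible_iff φ).2 hirr

/-- the translated polynomial -/
noncomputable abbrev ft (f : ℤ[X]) (c : ℤ) : (𝓞 ℚ)[X] := fO (f.comp (X + C c))

theorem ft_eq (f : ℤ[X]) (c : ℤ) : ft f c = (fO f).comp (X + C (c : 𝓞 ℚ)) := by
  rw [ft, fO, Polynomial.map_comp, Polynomial.map_add, map_X, map_C, eq_intCast]

theorem gd_ft (hD : T_DSC) {g : ℕ} {f : ℤ[X]} (hm : f.Monic) (hd : f.natDegree = 2 * g + 1)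
    (c : ℤ) (w : HeightOneSpectrum (𝓞 ℚ)) : Gd g (ft f c) w ↔ Gd g (fO f) w := by
  rw [Gd, Gd, ft_eq, (hD ℚ g (fO f) (fO_mon hm) (by rw [fO_deg hm, hd])).1]

/-- the set `S` and the translated polynomial -/
theorem goodT {g : ℕ} {f : ℤ[X]} (hg : 1 ≤ g) (hm : f.Monic) (hd : f.natDegree = 2 * g + 1)
    {S : Finset ℕ} {e : ℕ → ℤ} {h : ℕ → ℤ[X]} {b : ℕ} (hb : 8 ∣ b)
    (hS : ∀ q ∈ S, q.Prime ∧ 2 * g + 1 < q ∧ q % b = 1 % b ∧ (h q).Monic ∧
      (h q).natDegree = 2 * g ∧ Irreducible ((h q).map (Int.castRingHom (ZMod q))) ∧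
      f.map (Int.castRingHom (ZMod q)) =
        ((X - C (e q)) * h q).map (Int.castRingHom (ZMod q)))
    {c : ℤ} (hc : ∀ q ∈ S, (q : ℤ) ∣ c - e q) :
    GoodT g 0 S (fun q => Ideal.span {(q : 𝓞 ℚ)}) (fun q => ft (h q) c) (fun _ => ft f c) := by
  intro q hq
  obtain ⟨h1, h2, h3, h4, h5, h6, h7⟩ := hS q hq
  haveI : Fact q.Prime := ⟨h1⟩
  have hv : ∀ 𝔭 : Ideal (𝓞 ℚ), 𝔭.IsPrime → (q : 𝓞 ℚ) ∈ 𝔭 → 𝔭 = Ideal.span {(q : 𝓞 ℚ)} ∧
      (q : 𝓞 ℚ) ∉ 𝔭 ^ 2 := by
    intro 𝔭 hp hqm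
    have hb : 𝔭 ≠ ⊥ := by
      rintro rfl
      rw [Ideal.mem_bot] at hqm
      exact h1.ne_zero (by exact_mod_cast hqm)
    obtain ⟨p, hp1, hp2, hp3⟩ := ratp ⟨𝔭, hp, hb⟩
    have hp2' : 𝔭 = Ideal.span {(p : 𝓞 ℚ)} := hp2
    have h8 := (hp3 1 q).1 (by rw [pow_one]; exact_mod_cast hqm)
    rw [pow_one] at h8
    have h9 : p = q := (Nat.prime_dvd_prime_iff_eq hp1 h1).1 (by exact_mod_cast h8)
    rw [h9] at hp2' hp3
    refine ⟨hp2', fun h10 => ?_⟩
    have h11 := (hp3 2 q).1 (by exact_mod_cast h10)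
    have h12 : q ^ 2 ∣ q := by exact_mod_cast h11
    have h13 := Nat.le_of_dvd h1.pos h12
    have h14 := h1.two_le
    nlinarith
  have hprime : (Ideal.span {(q : 𝓞 ℚ)}).IsPrime := by
    rw [Ideal.span_singleton_prime (by exact_mod_cast h1.ne_zero)]
    have h8 : Prime ((Rat.ringOfIntegersEquiv (q : 𝓞 ℚ))) := by
      rw [map_natCast]
      exact Nat.prime_iff_prime_int.1 h1
    exact (MulEquiv.prime_iff Rat.ringOfIntegersEquiv.toMulEquiv).1 h8
  have hmem : (q : 𝓞 ℚ) ∈ Ideal.span {(q : 𝓞 ℚ)} := Ideal.mem_span_singleton_self _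
  refine ⟨h1, h1.pos, h2, ?_, fun 𝔭 hp hq2 => (hv 𝔭 hp (Ideal.pow_le_self two_ne_zero hq2)).2 hq2,
    hprime, hmem, fO_mon (h4.comp_X_add_C c), ?_, ?_, fO_mon (hm.comp_X_add_C c), ?_, trivial, ?_,
    fun 𝔭 hp hqm hne => absurd (hv 𝔭 hp hqm).1 hne⟩
  · exact mod_of_dvd h3 hb
  · rw [fO_deg (h4.comp_X_add_C c), natDegree_comp, natDegree_X_add_C, mul_one, h5]
  · apply rd_irr h1
    rw [Polynomial.map_comp, Polynomial.map_add, map_X, map_C]
    exact irr_comp h6 _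
  · rw [fO_deg (hm.comp_X_add_C c), natDegree_comp, natDegree_X_add_C, mul_one, hd]
  · intro j
    have e1 : (X : (𝓞 ℚ)[X]) * ft (h q) c = fO (((X - C c) * h q).comp (X + C c)) := by
      rw [mul_comp, sub_comp, X_comp, C_comp, add_sub_cancel_right, fO, Polynomial.map_mul, map_X]
    have e2 : (f.comp (X + C c)).map (Int.castRingHom (ZMod q)) =
        ((((X - C c) * h q).comp (X + C c)).map (Int.castRingHom (ZMod q))) := by
      rw [Polynomial.map_comp, Polynomial.map_comp, h7]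
      congr 1
      rw [Polynomial.map_mul, Polynomial.map_mul]
      congr 1
      rw [Polynomial.map_sub, Polynomial.map_sub, map_X, map_C, map_C]
      congr 2
      have h8 : ((c - e q : ℤ) : ZMod q) = 0 := (ZMod.intCast_zmod_eq_zero_iff_dvd _ _).2 (hc q hq)
      rw [Int.cast_sub, sub_eq_zero] at h8
      exact h8.symm
    have h8 := congrArg (fun p => coeff p j) e2
    simp only [coeff_map] at h8
    rw [e1, ft, fO, fO, coeff_map, coeff_map, ← map_sub]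
    have h9 : (q : ℤ) ∣ (f.comp (X + C c)).coeff j -
        (((X - C c) * h q).comp (X + C c)).coeff j := by
      rw [← ZMod.intCast_zmod_eq_zero_iff_dvd, Int.cast_sub, sub_eq_zero]
      exact h8
    obtain ⟨k, hk⟩ := h9
    rw [hk, Ideal.mem_span_singleton]
    exact ⟨(k : 𝓞 ℚ), by simp⟩

end Pool.Agent.H30T
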