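import Pool.Agent.H30T.Asm

/-!
# Assembly, second part
-/

set_option autoImplicit false
set_option linter.all false

open Polynomial IsDedekindDomain NumberField
open scoped Classical

namespace Pool.Agent.H30T

open Pool.Agent.N783.PF
open Pool.Agent.N874.PP (Ev Sq1 U0)
open Pool.Agent.N783.PQ (LocIm)
open Pool.Agent.N874.JM (LocF)

/-- The conclusion. -/
def T_MAIN : Prop := ∀ (g : ℕ) (f : ℤ[X]) (p₀ : ℕ), Hyp g f p₀ → ∀ m B : ℕ, m ≠ 0 → ¬ p₀ ∣ m →
  ∃ J : Finset ℕ, (∀ q ∈ J, q.Prime ∧ B < q ∧ q % (8 * m) = 1 % (8 * m)) ∧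
    ∀ (M : Type) [Field M] [NumberField M],
      AdmissibleFor M (f.scaleRoots ((Dp J : ℕ) : ℤ)) →
      SelZero ((f.scaleRoots ((Dp J : ℕ) : ℤ)).map (algebraMap ℤ (𝓞 M))) ∧
        Irreducible (fF ((f.scaleRoots ((Dp J : ℕ) : ℤ)).map (algebraMap ℤ (𝓞 M))))

theorem map_fO {M : Type} [Field M] [NumberField M] (p : ℤ[X]) :
    (fO p).map (algebraMap (𝓞 ℚ) (𝓞 M)) = p.map (algebraMap ℤ (𝓞 M)) := by
  rw [fO, Polynomial.map_map]
  congr 1
  exact RingHom.ext_int _ _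

theorem fO_scale {p : ℤ[X]} (hm : p.Monic) (D : ℕ) :
    fO (p.scaleRoots ((D : ℕ) : ℤ)) = (fO p).scaleRoots ((D : ℕ) : 𝓞 ℚ) := by
  rw [fO, fO, map_scaleRoots]
  · simp
  · rw [hm.leadingCoeff]
    simp

theorem main0 (exq : T_EXQ) (csq : T_CSQ) (pin : T_PIN) (par : T_PAR) (parq : T_PARQ)
    (ram : T_RAM) (hcore : T_CORE) (hD : T_DSC) (htr : T_TRL) (hirrT : T_IRR) (hdsq : T_DSQ)
    (hsel : T_SELECT) (hadm : T_ADM) : T_MAIN := by
  intro g f p₀ H m B hm0 hpm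
  have hg := H.one
  have hm := H.mon
  have hd := H.deg
  have hd0 : f.discr ≠ 0 := by
    intro h
    apply H.ndvd
    rw [h]
    exact dvd_zero _
  have hirr : Irreducible (fF (fO f)) := by
    rw [fF_fO]
    exact hirrT g f p₀ H
  obtain ⟨L, iF, iN, iA, θ, hG⟩ := Pool.Agent.N667.PF.gen ℚ g (fO f) (fO_mon hm)
    (by rw [fO_deg hm, hd]) hirr
  obtain rfl : iA = DivisionRing.toRatAlgebra := Subsingleton.elim _ _
  have hroot : aeval θ f = 0 := by
    have h1 := hG.root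
    rw [fF_fO] at h1
    have e : (Int.castRingHom ℚ) = algebraMap ℤ ℚ := rfl
    rw [e, aeval_map_algebraMap] at h1
    exact h1
  obtain ⟨b, hb⟩ : ∃ b : ℕ, b = md f p₀ m := ⟨_, rfl⟩
  have hb8m : 8 * m ∣ b := by
    rw [hb, md]
    exact dvd_mul_right _ _
  have hb8 : 8 ∣ b := (dvd_mul_right 8 m).trans hb8m
  obtain ⟨S, e, h, hS, hstr⟩ := hsel g f p₀ H L θ hroot hG.rank b (max B (2 * g + 1))
    (by rw [hb]; exact md_ne hm0) (by rw [hb]; exact md_dvd H.prime H.ne hpm)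
  obtain ⟨c, hc⟩ := crt e S fun q hq => (hS q hq).1
  obtain ⟨θ', hθ'⟩ : ∃ θ' : L, θ' = θ - (c : L) := ⟨_, rfl⟩
  have hG' : IsGen g (ft f c) θ' := by
    have h1 := gen_comp hG (c : 𝓞 ℚ)
    rw [← ft_eq] at h1
    have e1 : θ - algebraMap ℚ L (((c : ℤ) : 𝓞 ℚ) : ℚ) = θ' := by
      rw [hθ']
      congr 1
      simp
    rw [e1] at h1
    exact h1
  have hGT : GoodT g 0 S (fun q => Ideal.span {(q : 𝓞 ℚ)}) (fun q => ft (h q) c)
      (fun _ => ft f c) := goodT hg hm hd hb8 (fun q hq => by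
    obtain ⟨a1, a2, a3, a4, a5, a6, a7⟩ := hS q hq
    exact ⟨a1, (le_max_right _ _).trans_lt a2, a3, a4, a5, a6, a7⟩) hc
  have hcon : ∀ q ∈ S, Cg (sp ℚ q) (ft f c) ((fun _ => ft f c) q) := fun q hq j => by
    rw [sub_self]
    exact Ideal.zero_mem _
  obtain ⟨J, hJS, hJ⟩ := hcore g 0 ℚ L (ft f c) θ' S (fun q => Ideal.span {(q : 𝓞 ℚ)})
    (fun q => ft (h q) c) (fun _ => ft f c) hg hG' hGT hcon (by
      intro h₀ hne hN hev hsq
      refine hstr _ hne hN (fun 𝔓 h𝔓 => hev 𝔓 fun w hw => ?_) fun q hq 𝔓 hqm hv => ?_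
      · rw [gd_ft hD hm hd]
        constructor
        · intro h2
          apply h𝔓
          have h3 := hw 2 h2
          rw [map_ofNat] at h3
          push_cast
          exact Ideal.mul_mem_right _ _ h3
        · intro h2
          apply h𝔓
          obtain ⟨ε, hε, hdd⟩ := dsc_fO hg hm hd
          have h3 := hw _ (Ideal.pow_le_self two_ne_zero h2)
          rw [hdd, map_intCast] at h3
          push_cast at h3 ⊢
          have h4 : ((f.discr : ℤ) : 𝓞 L) ∈ 𝔓.asIdeal := by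
            rcases hε with rfl | rfl
            · simpa using h3
            · simpa using h3
          exact Ideal.mul_mem_left _ _ h4
      · refine hsq q hq 𝔓 (fun a ha => ?_) ?_
        · obtain ⟨y, rfl⟩ := Ideal.mem_span_singleton.1 ha
          rw [map_mul, map_natCast]
          exact Ideal.mul_mem_right _ _ hqm
        · have h1 : 𝔓.valuation L ((c - e q : ℤ) : L) < 1 := by
            obtain ⟨k, hk⟩ := hc q hq
            have h2 : ((c - e q : ℤ) : 𝓞 L) ∈ 𝔓.asIdeal := by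
              rw [hk]
              push_cast
              exact Ideal.mul_mem_right _ _ hqm
            have h3 := (HeightOneSpectrum.valuation_lt_one_iff_mem (K := L) 𝔓 _).2 h2
            have h4 : algebraMap (𝓞 L) L ((c - e q : ℤ) : 𝓞 L) = ((c - e q : ℤ) : L) :=
              map_intCast (algebraMap (𝓞 L) L) _
            rw [← h4]
            exact h3
          have e1 : θ' = (θ - (e q : L)) - ((c - e q : ℤ) : L) := by
            rw [hθ']
            push_cast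
            ring
          rw [e1, Valuation.map_sub_eq_of_lt_left _ (by rw [hv]; exact h1), hv])
  refine ⟨J, fun q hq => ?_, fun M _ _ hM => ?_⟩
  · obtain ⟨a1, a2, a3, -⟩ := hS q (hJS hq)
    exact ⟨a1, (le_max_left _ _).trans_lt a2, mod_of_dvd a3 hb8m⟩
  have hJp : ∀ q ∈ J, q.Prime := fun q hq => (hS q (hJS hq)).1
  have hA := hadm g f J c hg hm hd hd0 hJp M hM
  haveI := hM.galois
  obtain ⟨n, hn⟩ := hM.degree
  have hirr' : Irreducible (fF (ft f c)) := by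
    rw [fF_fO, Polynomial.map_comp, Polynomial.map_add, map_X, map_C]
    exact irr_comp (hirrT g f p₀ H) _
  have hmod : ∀ q ∈ J, q % b = 1 % b := fun q hq => (hS q (hJS hq)).2.2.1
  obtain ⟨h1, h2⟩ := sel_M exq csq pin par parq ram hg hirr' hG' hGT hcon hJS hJ M hA hn (by
    intro w hw
    rw [gd_ft hD hm hd] at hw
    obtain ⟨p, hp, hpv, hpb⟩ := bad_md (m := m) H hw
    rw [← hb] at hpb
    have hpw : (p : 𝓞 M) ∈ w.asIdeal := by
      have h3 : (p : 𝓞 ℚ) ∈ (w.under (𝓞 ℚ)).asIdeal := by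
        rw [hpv]
        exact Ideal.mem_span_singleton_self _
      have h4 := (Pool.Agent.H30H.mem_under w _).1 h3
      rwa [map_natCast] at h4
    exact hdsq M p w hp hpw (Dp J) (mod_of_dvd (prod_mod hmod) hb8)
      (mod_of_dvd (prod_mod hmod) hpb))
  have hD0 : (((Dp J : ℕ) : ℤ)) ≠ 0 := by
    have : Dp J ≠ 0 := by
      rw [Dp, Finset.prod_ne_zero_iff]
      exact fun q hq => (hJp q hq).ne_zero
    exact_mod_cast this
  have e1 : (ft f c).scaleRoots ((Dp J : ℕ) : 𝓞 ℚ) =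
      fO ((f.scaleRoots ((Dp J : ℕ) : ℤ)).comp (X + C (((Dp J : ℕ) : ℤ) * c))) := by
    rw [← fO_scale (hm.comp_X_add_C c), scale_comp _ _ _ hD0]
  rw [e1, map_fO] at h1 h2
  have e2 : ((f.scaleRoots ((Dp J : ℕ) : ℤ)).comp (X + C (((Dp J : ℕ) : ℤ) * c))).map
      (algebraMap ℤ (𝓞 M)) = ((f.scaleRoots ((Dp J : ℕ) : ℤ)).map (algebraMap ℤ (𝓞 M))).comp
        (X + C (((((Dp J : ℕ) : ℤ) * c : ℤ)) : 𝓞 M)) := by
    rw [Polynomial.map_comp, Polynomial.map_add, map_X, map_C, eq_intCast]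
  rw [e2] at h1 h2
  have hmD : (f.scaleRoots ((Dp J : ℕ) : ℤ)).Monic := (monic_scaleRoots_iff _).2 hm
  refine ⟨htr M _ _ (hmD.map _) h1, ?_⟩
  have h3 := irr_comp h2 (-((((((Dp J : ℕ) : ℤ) * c : ℤ)) : 𝓞 M) : M))
  have e3 : (fF (((f.scaleRoots ((Dp J : ℕ) : ℤ)).map (algebraMap ℤ (𝓞 M))).comp
      (X + C (((((Dp J : ℕ) : ℤ) * c : ℤ)) : 𝓞 M)))).comp
        (X + C (-((((((Dp J : ℕ) : ℤ) * c : ℤ)) : 𝓞 M) : M))) =
      fF ((f.scaleRoots ((Dp J : ℕ) : ℤ)).map (algebraMap ℤ (𝓞 M))) := by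
    rw [fF, Polynomial.map_comp, Polynomial.map_add, map_X, map_C, comp_assoc, add_comp, X_comp,
      C_comp, C_neg, neg_add_cancel_right, comp_X]
  rw [e3] at h3
  exact h3

end Pool.Agent.H30T
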