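import Pool.Agent.H30T.Stm2

/-!
# Project ET (helper30): statements of the third group of pieces, for a field `M₀` given in advance

The twist `D` shall be a product of primes which split completely in a given Galois extension `M₀` of `ℚ`
in which `p₀` is unramified. The statements `U_..` replace the `T_..` of the same name.
-/

set_option autoImplicit false
set_option linter.all false

open Polynomial IsDedekindDomain NumberField
open scoped Classical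

namespace Pool.Agent.H30T

open Pool.Agent.N783.PF
open Pool.Agent.N874.PP (Ev Sq1 U0)

/-- `p` is unramified in `K`. -/
def UnrAt (K : Type) [Field K] [NumberField K] (p : ℕ) : Prop :=
  ∀ w : HeightOneSpectrum (𝓞 K), (p : 𝓞 K) ∈ w.asIdeal → (p : 𝓞 K) ∉ w.asIdeal ^ 2

/-- Piece SN (group theory; `Equiv.Perm.alternatingGroup_le_of_normal` of Mathlib for at least five
points). -/
def U_SN : Prop := ∀ (ι : Type) [Fintype ι] [DecidableEq ι] (g : ℕ) (P : Subgroup (Equiv.Perm ι)),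
  1 ≤ g → Fintype.card ι = 2 * g + 1 → P.Normal → (∃ a ∈ P, Equiv.Perm.sign a = -1) → P = ⊤

/-- Piece GRP2 (as GRP; `H` is normal and acts through all the permutations). -/
def U_GRP : Prop := ∀ (g : ℕ) (G ι : Type) [Group G] [Fintype ι] [DecidableEq ι]
  (ρ : G →* Equiv.Perm ι) (H : Subgroup G) (i₁ : ι) (ψ : G → ℤˣ), 1 ≤ g →
  Fintype.card ι = 2 * g + 1 → H.Normal → (∀ π : Equiv.Perm ι, ∃ a ∈ H, ρ a = π) →
  (∀ a b : G, ρ a i₁ = i₁ → ρ b i₁ = i₁ → ψ (a * b) = ψ a * ψ b) →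
  (∀ v : G, ρ v = 1 → ∀ t : ι → G, (∀ i, ρ (t i) i₁ = i) → ∏ i, ψ ((t i)⁻¹ * v * t i) = 1) →
  (∃ σ ∈ H, ρ σ i₁ = i₁ ∧ (ρ σ).IsCycle ∧ (ρ σ).support = Finset.univ.erase i₁ ∧ ψ σ = -1) ∨
    ∀ a : G, ρ a i₁ = i₁ → ψ a = 1

/-- Piece ODD2. Proof: let `δ = ∏_{i<j} (x i - x j)`, `δ ^ 2` is the discriminant up to sign. If all
elements of the Galois group of `N` over `K` acted by even permutations they would fix `δ`, so `δ` would be in
`K`, and the valuation of `δ ^ 2` at a prime of `K` over `p₀` would be even; but it is one since `p₀` is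
unramified in `K`. -/
def U_ODD : Prop := ∀ (N : Type) [Field N] [NumberField N] [IsGalois ℚ N] (n : ℕ) (f : ℤ[X])
  (x : Fin n → N), f.map (Int.castRingHom N) = ∏ i, (X - C (x i)) → Function.Injective x →
  ∀ p₀ : ℕ, p₀.Prime → (p₀ : ℤ) ∣ f.discr → ¬ (p₀ : ℤ) ^ 2 ∣ f.discr →
  ∀ (K : Type) [Field K] [NumberField K] (κ : K →+* N), UnrAt K p₀ →
  ∃ (σ : N ≃ₐ[ℚ] N) (π : Equiv.Perm (Fin n)), (∀ y : K, σ (κ y) = κ y) ∧
    (∀ i, σ (x i) = x (π i)) ∧ Equiv.Perm.sign π = -1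

/-- Piece CYC: adjoining the roots of unity of order `m` to a Galois extension in which `p₀` is
unramified (for compositums see `Pool.Agent.H30H.unr_top` in `H30H/Comp.lean`). -/
def U_CYC : Prop := ∀ (M₀ : Type) [Field M₀] [NumberField M₀] [IsGalois ℚ M₀] (p₀ m : ℕ),
  p₀.Prime → UnrAt M₀ p₀ → m ≠ 0 → ¬ p₀ ∣ m →
  ∃ (M₁ : Type) (_ : Field M₁) (_ : NumberField M₁) (_ : IsGalois ℚ M₁) (κ : M₀ →+* M₁) (ζ : M₁),
    IsPrimitiveRoot ζ m ∧ UnrAt M₁ p₀

/-- Piece GAL2 (from `U_GRP`, `U_SN` and `U_ODD`): as GAL, with the field `M₁` in place of the roots of unity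
(`H` is the subgroup which fixes the image of `M₁`; its image in the permutations of the roots is normal
because `M₁` is Galois, and contains an odd element by ODD2, so it is everything by SN). -/
def U_GAL : Prop := ∀ (g : ℕ) (f : ℤ[X]) (p₀ : ℕ), Hyp g f p₀ →
  ∀ (L : Type) [Field L] [NumberField L] (θ : L), aeval θ f = 0 →
  Module.finrank ℚ L = 2 * g + 1 → ∀ α : L, α ≠ 0 → IsSquare (Algebra.norm ℚ α) → ¬ IsSquare α →
  ∀ (M₁ : Type) [Field M₁] [NumberField M₁] [IsGalois ℚ M₁], UnrAt M₁ p₀ →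
  ∃ (N : Type) (_ : Field N) (_ : NumberField N) (_ : IsGalois ℚ N) (σ : N ≃ₐ[ℚ] N) (β₂ : N)
    (ι₁ ι₂ : L →+* N) (κ : M₁ →+* N), (∀ y : M₁, σ (κ y) = κ y) ∧ σ (ι₁ θ) = ι₁ θ ∧
    f.map (Int.castRingHom N) =
      (X - C (ι₁ θ)) * ∏ j ∈ Finset.range (2 * g), (X - C ((σ ^ j) (ι₂ θ))) ∧
    (σ ^ (2 * g)) (ι₂ θ) = ι₂ θ ∧ β₂ ^ 2 = ι₂ α ∧ (σ ^ (2 * g)) β₂ = -β₂

/-- The prime. -/
def U_CHEB : Prop := ∀ (g : ℕ) (f : ℤ[X]) (p₀ : ℕ), Hyp g f p₀ →
  ∀ (L : Type) [Field L] [NumberField L] (θ : L), aeval θ f = 0 →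
  Module.finrank ℚ L = 2 * g + 1 → ∀ α : L, α ≠ 0 → IsSquare (Algebra.norm ℚ α) → ¬ IsSquare α →
  ∀ (M₀ : Type) [Field M₀] [NumberField M₀] [IsGalois ℚ M₀], UnrAt M₀ p₀ →
  ∀ m B : ℕ, m ≠ 0 → ¬ p₀ ∣ m →
  ∃ (q : ℕ) (e : ℤ) (h : ℤ[X]), q.Prime ∧ B < q ∧ q % m = 1 % m ∧ h.Monic ∧
    h.natDegree = 2 * g ∧ Irreducible (h.map (Int.castRingHom (ZMod q))) ∧
    f.map (Int.castRingHom (ZMod q)) = ((X - C e) * h).map (Int.castRingHom (ZMod q)) ∧
    SplitsAt M₀ q ∧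
    ∀ 𝔓 : HeightOneSpectrum (𝓞 L), (q : 𝓞 L) ∈ 𝔓.asIdeal →
      𝔓.valuation L (θ - (e : L)) = 1 → ¬ Sq1 𝔓 α

/-- Piece RES2: as RES; the new part is that `q` splits completely in `M₀`: for `q` large and a prime `w` of
`M₀` over `q` every homomorphism from `𝓞 M₀` to `F̄_q` with kernel `w` is `φ ∘ κ ∘ τ` with `τ` in the
Galois group (or: all primes over `q` are conjugate), and `φ (κ y) ^ q = φ (σ (κ y)) = φ (κ y)`. -/
def U_RES : Prop := U_CYC → U_GAL → U_CHEB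

/-- Piece SELECT2: as SELECT, with `SplitsAt M₀ q` for all `q` in `S`. -/
def U_SELECT : Prop := ∀ (g : ℕ) (f : ℤ[X]) (p₀ : ℕ), Hyp g f p₀ →
  ∀ (L : Type) [Field L] [NumberField L] (θ : L), aeval θ f = 0 →
  Module.finrank ℚ L = 2 * g + 1 →
  ∀ (M₀ : Type) [Field M₀] [NumberField M₀] [IsGalois ℚ M₀], UnrAt M₀ p₀ →
  ∀ m B : ℕ, m ≠ 0 → ¬ p₀ ∣ m →
  ∃ (S : Finset ℕ) (e : ℕ → ℤ) (h : ℕ → ℤ[X]),
    (∀ q ∈ S, q.Prime ∧ B < q ∧ q % m = 1 % m ∧ (h q).Monic ∧ (h q).natDegree = 2 * g ∧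
      Irreducible ((h q).map (Int.castRingHom (ZMod q))) ∧
      f.map (Int.castRingHom (ZMod q)) =
        ((X - C (e q)) * h q).map (Int.castRingHom (ZMod q)) ∧ SplitsAt M₀ q) ∧
    ∀ α : L, α ≠ 0 → IsSquare (Algebra.norm ℚ α) →
      (∀ 𝔓 : HeightOneSpectrum (𝓞 L), ((2 * f.discr : ℤ) : 𝓞 L) ∉ 𝔓.asIdeal → Ev 𝔓 α) →
      (∀ q ∈ S, ∀ 𝔓 : HeightOneSpectrum (𝓞 L), (q : 𝓞 L) ∈ 𝔓.asIdeal →
        𝔓.valuation L (θ - (e q : L)) = 1 → Sq1 𝔓 α) → IsSquare α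

/-- Piece TWF: a field which is admissible for `f` and in which the primes in `J` split completely is
admissible for the twist by the product of `J`; and `p₀` is unramified in it. -/
def U_TWF : Prop := ∀ (g : ℕ) (f : ℤ[X]), 1 ≤ g → f.Monic → f.natDegree = 2 * g + 1 →
  ∀ (M : Type) [Field M] [NumberField M], AdmissibleFor M f →
  (∀ J : Finset ℕ, (∀ q ∈ J, q.Prime ∧ SplitsAt M q) →
    AdmissibleFor M (f.scaleRoots ((Dp J : ℕ) : ℤ))) ∧
  ∀ p : ℕ, p.Prime → (p : ℤ) ∣ f.discr → ¬ (p : ℤ) ^ 2 ∣ f.discr → UnrAt M p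

/-- Piece INF: infinitely many admissible real quadratic fields. Proof: the elements of `Gal(N/ℚ)` which fix the roots
of unity of order `m = 8 * (product of the primes dividing the discriminant or in `T`)` act through all
the even permutations of the roots (commutators), in particular by a cycle of length `2 g + 1`; by `infinite_frob`
there are infinitely many primes `l = 1` modulo `m` modulo which `f` is irreducible, and `ℚ(√l)` is admissible:
it is real, ramified only at `l`, and the primes `p` dividing `m` split because `l` is a square in `ℚ_p`. -/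
def U_INF : Prop := ∀ (g : ℕ) (f : ℤ[X]) (p₀ : ℕ), Hyp g f p₀ → ∀ (T : Finset ℕ) (B : ℕ),
  (∀ p ∈ T, p.Prime) → ∃ (l : ℕ) (M : Type) (_ : Field M) (_ : NumberField M) (s : M), l.Prime ∧
    B < l ∧ s ^ 2 = (l : M) ∧ Module.finrank ℚ M = 2 ∧ AdmissibleFor M f ∧ ∀ p ∈ T, SplitsAt M p

end Pool.Agent.H30T
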