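import Pool.Agent.H30T.Rec
import Pool.Agent.N771.PF.Core
import Pool.Agent.N352.PF.Dsc

/-!
# The choice of the twist

Version of `Pool/Agent/N771/PF/Core.lean`: the absence of strict classes is a hypothesis.
-/

set_option autoImplicit false
set_option linter.all false

open Polynomial IsDedekindDomain Matrix NumberField WithZero
open scoped Classical

namespace Pool.Agent.H30T

open Pool.Agent.N352.PJ (Mt Typ dd)
open Pool.Agent.N874.PP (Ev Sq1 U0 S_LIN)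
open Pool.Agent.N783.PQ (LocIm)
open Pool.Agent.N874.JM (LocF)
open Pool.Agent.N783.PF
open Pool.Agent.N891.PQ (cl cl_add_aux not_ev_exp locIm_one)
open Pool.Agent.N771.PF (locF_one locF_mul rd_eq)

/-- The choice of the twist. -/
def T_CORE : Prop := ∀ (g W : ℕ) (F L : Type) [Field F] [NumberField F] [Field L] [NumberField L]
  [Algebra F L] (f : (𝓞 F)[X]) (θ : L)
  (S : Finset ℕ) (𝔮 : ℕ → Ideal (𝓞 F)) (r P : ℕ → (𝓞 F)[X]), 1 ≤ g → IsGen g f θ →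
  GoodT g W S 𝔮 r P → (∀ q ∈ S, Cg (sp F q) f (P q)) →
  (∀ h : F[X], aeval θ h ≠ 0 → IsSquare (Algebra.norm F (aeval θ h)) →
    (∀ 𝔓 : HeightOneSpectrum (𝓞 L), (∀ w : HeightOneSpectrum (𝓞 F), Ov w.asIdeal 𝔓 → Gd g f w) →
      Ev 𝔓 (aeval θ h)) →
    (∀ q ∈ S, ∀ 𝔓 : HeightOneSpectrum (𝓞 L), Ov (𝔮 q) 𝔓 → 𝔓.valuation L θ = 1 →
      Sq1 𝔓 (aeval θ h)) → IsSquare (aeval θ h)) →
  ∃ J ⊆ S, ∀ h : F[X], aeval θ h ≠ 0 → IsSquare (Algebra.norm F (aeval θ h)) →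
    (∀ 𝔓 : HeightOneSpectrum (𝓞 L), (∀ w : HeightOneSpectrum (𝓞 F), Ov w.asIdeal 𝔓 → Gd g f w) →
      (∀ q ∈ J, Ov (𝔮 q) 𝔓 → 𝔓.valuation L θ ≠ 1) → Ev 𝔓 (aeval θ h)) →
    (∀ q ∈ J, ∀ 𝔓 : HeightOneSpectrum (𝓞 L), Ov (𝔮 q) 𝔓 → 𝔓.valuation L θ = 1 →
      U0 𝔓 ((q : L) * θ) (aeval θ h)) →
    (∀ w : HeightOneSpectrum (𝓞 F), ¬ Gd g f w → LocF (w.adicCompletion F) (fF f) h) →
    (∀ σ : F →+* ℝ, LocIm ℝ ((fF f).map σ) (h.map σ)) → IsSquare (aeval θ h)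

variable {F : Type} [Field F] [NumberField F]

/-- the residues modulo `𝔮 q` -/
theorem cg_q {g W : ℕ} {f : (𝓞 F)[X]} {S : Finset ℕ} {𝔮 : ℕ → Ideal (𝓞 F)}
    {r P : ℕ → (𝓞 F)[X]} (hS : GoodT g W S 𝔮 r P) (hF : ∀ q ∈ S, Cg (sp F q) f (P q)) :
    ∀ q ∈ S, Cg (𝔮 q) f (X * r q) := by
  intro q hq j
  obtain ⟨-, -, -, -, -, -, hmem, -, -, -, -, -, -, hcg, -⟩ := hS q hq
  have h1 := hF q hq j
  have h2 : sp F q ≤ 𝔮 q := by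
    rw [sp, Ideal.span_singleton_le_iff_mem]
    exact hmem
  have h3 := Ideal.add_mem _ (h2 h1) (hcg j)
  have e : f.coeff j - (X * r q).coeff j =
      f.coeff j - (P q).coeff j + ((P q).coeff j - (X * r q).coeff j) := by ring
  rw [e]
  exact h3

/-- `X * irreducible` is separable -/
theorem sep_q {g W : ℕ} {f : (𝓞 F)[X]} {S : Finset ℕ} {𝔮 : ℕ → Ideal (𝓞 F)}
    {r P : ℕ → (𝓞 F)[X]} (hg : 1 ≤ g) (hS : GoodT g W S 𝔮 r P) {q : ℕ} (hq : q ∈ S)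
    (hcg : Cg (𝔮 q) f (X * r q)) : (𝔮 q) ≠ ⊥ ∧ (rd (𝔮 q) f).Separable := by
  obtain ⟨hqp, -, -, -, -, hpr, hmem, hrm, hrd, hirr, -⟩ := hS q hq
  have hbot : 𝔮 q ≠ ⊥ := by
    intro h0
    rw [h0, Ideal.mem_bot] at hmem
    exact hqp.ne_zero (by exact_mod_cast hmem)
  refine ⟨hbot, ?_⟩
  haveI := hpr
  haveI hmax : (𝔮 q).IsMaximal := hpr.isMaximal hbot
  haveI hfin : Finite (𝓞 F ⧸ 𝔮 q) := Ideal.finiteQuotientOfFreeOfNeBot _ hbot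
  letI : Field (𝓞 F ⧸ 𝔮 q) := Ideal.Quotient.field _
  rw [rd_eq hcg]
  have e : rd (𝔮 q) (X * r q) = X * rd (𝔮 q) (r q) := by
    rw [rd, Polynomial.map_mul, map_X]
  rw [e]
  have hm : (rd (𝔮 q) (r q)).Monic := hrm.map _
  have hd : (rd (𝔮 q) (r q)).natDegree = 2 * g := by
    rw [rd, hrm.natDegree_map, hrd]
  refine (separable_X).mul (PerfectField.separable_of_irreducible hirr) ?_
  rw [(irreducible_X).coprime_iff_not_dvd]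
  intro hdv
  have h1 : Associated X (rd (𝔮 q) (r q)) := (irreducible_X).associated_of_dvd hirr hdv
  have h2 := natDegree_eq_of_degree_eq (degree_eq_degree_of_associated h1)
  rw [hd, natDegree_X] at h2
  omega

/-- two primes in a prime ideal -/
theorem nat_mem {p q : ℕ} (hp : p.Prime) (hq : q.Prime) {𝔭 : Ideal (𝓞 F)} (h : 𝔭.IsPrime)
    (hpm : (p : 𝓞 F) ∈ 𝔭) (hqm : (q : 𝓞 F) ∈ 𝔭) : p = q := by
  by_contra hpq
  have hco : Nat.Coprime p q := (Nat.coprime_primes hp hq).2 hpq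
  obtain ⟨u, v, huv⟩ := (Nat.isCoprime_iff_coprime.2 hco)
  apply h.ne_top
  rw [Ideal.eq_top_iff_one]
  have h9 : (1 : 𝓞 F) = (u : 𝓞 F) * (p : 𝓞 F) + (v : 𝓞 F) * (q : 𝓞 F) := by
    have := congrArg (Int.cast (R := 𝓞 F)) huv
    push_cast at this
    exact this.symm
  rw [h9]
  exact Ideal.add_mem _ (Ideal.mul_mem_left _ _ hpm) (Ideal.mul_mem_left _ _ hqm)

/-- the primes over the elements of `S` are good -/
theorem gd_q {g W : ℕ} {f : (𝓞 F)[X]} {S : Finset ℕ} {𝔮 : ℕ → Ideal (𝓞 F)}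
    {r P : ℕ → (𝓞 F)[X]} (hg : 1 ≤ g) (hm : f.Monic) (hd : f.natDegree = 2 * g + 1)
    (hS : GoodT g W S 𝔮 r P) (hF : ∀ q ∈ S, Cg (sp F q) f (P q)) {q : ℕ} (hq : q ∈ S)
    (w : HeightOneSpectrum (𝓞 F)) (hw : (q : 𝓞 F) ∈ w.asIdeal) :
    (2 : 𝓞 F) ∉ w.asIdeal ∧ dsc g f ∉ w.asIdeal := by
  obtain ⟨hqp, -, -, h8, -, hpr, hmem, -, -, -, -, -, -, -, hir⟩ := hS q hq
  constructor
  · intro h2
    have := nat_mem Nat.prime_two hqp w.isPrime (by exact_mod_cast h2) hw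
    omega
  · refine Pool.Agent.N352.PF.dscT F g w.asIdeal f f hg w.isPrime w.ne_bot hm hd
      (fun j => by rw [sub_self]; exact Ideal.zero_mem _) ?_
    by_cases hwq : w.asIdeal = 𝔮 q
    · rw [hwq]
      exact (sep_q hg hS hq (cg_q hS hF q hq)).2
    · have h1 : Cg w.asIdeal f (P q) := fun j => by
        have h2 : sp F q ≤ w.asIdeal := by
          rw [sp, Ideal.span_singleton_le_iff_mem]
          exact hw
        exact h2 (hF q hq j)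
      rw [rd_eq h1]
      have hirr := hir w.asIdeal w.isPrime hw hwq
      haveI := w.isMaximal
      haveI hfin : Finite (𝓞 F ⧸ w.asIdeal) := Ideal.finiteQuotientOfFreeOfNeBot _ w.ne_bot
      letI : Field (𝓞 F ⧸ w.asIdeal) := Ideal.Quotient.field _
      exact PerfectField.separable_of_irreducible hirr

theorem gd_of {g : ℕ} {f : (𝓞 F)[X]} {w : HeightOneSpectrum (𝓞 F)}
    (h : (2 : 𝓞 F) ∉ w.asIdeal ∧ dsc g f ∉ w.asIdeal) : Gd g f w :=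
  ⟨h.1, fun h2 => h.2 (Ideal.pow_le_self two_ne_zero h2)⟩

theorem core (hEXQ : T_EXQ) (hREC : T_REC) : T_CORE := by
  have hCLS := Pool.Agent.N457.PQ.cls
  have hLIN := Pool.Agent.N498.PP.lin
  intro g W F L _ _ _ _ _ f θ S 𝔮 r P hg hc hS hcon hstr
  have hqp : ∀ q ∈ S, q.Prime := fun q hq => (hS q hq).1
  have hq2 : ∀ q ∈ S, q ≠ 2 := by
    intro q hq h
    have := (hS q hq).2.2.2.1
    rw [h] at this
    omega
  have hcg := cg_q hS hcon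
  have hov : ∀ q ∈ S, ∀ 𝔓 : HeightOneSpectrum (𝓞 L), Ov (𝔮 q) 𝔓 → Pool.Agent.N783.PQ.Ov q 𝔓 := by
    intro q hq 𝔓 h
    have h1 := h _ (hS q hq).2.2.2.2.2.2.1
    rw [map_natCast] at h1
    exact h1
  have huniq : ∀ q ∈ S, ∀ q' ∈ S, ∀ 𝔓 : HeightOneSpectrum (𝓞 L), Ov (𝔮 q) 𝔓 → Ov (𝔮 q') 𝔓 →
      q = q' := by
    intro q hq q' hq' 𝔓 h h'
    have h1 : (q : 𝓞 L) ∈ 𝔓.asIdeal := hov q hq 𝔓 h
    have h2 : (q' : 𝓞 L) ∈ 𝔓.asIdeal := hov q' hq' 𝔓 h'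
    exact nat_mem (hqp q hq) (hqp q' hq') 𝔓.isPrime h1 h2
  have hex : ∀ q ∈ S, ∃ 𝔓₁ 𝔔 : HeightOneSpectrum (𝓞 L), Ov (𝔮 q) 𝔓₁ ∧ Ov (𝔮 q) 𝔔 ∧
      𝔓₁.valuation L θ < 1 ∧ 𝔔.valuation L θ = 1 ∧ ¬ Ev 𝔔 ((q : L) * θ) ∧
      ∀ 𝔓 : HeightOneSpectrum (𝓞 L), Ov (𝔮 q) 𝔓 → 𝔓 = 𝔓₁ ∨ 𝔓 = 𝔔 := by
    intro q hq
    obtain ⟨𝔓₁, 𝔔, a1, a2, a3, a4, a5, a6, a7⟩ :=
      hEXQ g W F L f θ S 𝔮 r P hg hc hS q hq (hcg q hq)
    refine ⟨𝔓₁, 𝔔, a1, a2, a3, a4, not_ev_exp ?_, a7⟩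
    rw [map_mul, a6, a4, mul_one]
  haveI hne : Nonempty (HeightOneSpectrum (𝓞 L)) := by
    obtain ⟨m, hm⟩ := Ideal.exists_maximal (𝓞 L)
    exact ⟨⟨m, hm.isPrime, Ring.ne_bot_of_isMaximal_of_not_isField hm
      (NumberField.RingOfIntegers.not_isField L)⟩⟩
  obtain ⟨𝔭, h𝔭⟩ : ∃ 𝔭 : ℕ → HeightOneSpectrum (𝓞 L), 𝔭 = fun q =>
    if hq : q ∈ S then (hex q hq).choose else Classical.arbitrary _ := ⟨_, rfl⟩
  obtain ⟨𝔔, h𝔔⟩ : ∃ 𝔔 : ℕ → HeightOneSpectrum (𝓞 L), 𝔔 = fun q =>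
    if hq : q ∈ S then (hex q hq).choose_spec.choose else Classical.arbitrary _ := ⟨_, rfl⟩
  have hpq : ∀ q ∈ S, Ov (𝔮 q) (𝔭 q) ∧ Ov (𝔮 q) (𝔔 q) ∧ (𝔭 q).valuation L θ < 1 ∧
      (𝔔 q).valuation L θ = 1 ∧ ¬ Ev (𝔔 q) ((q : L) * θ) ∧
      ∀ 𝔓 : HeightOneSpectrum (𝓞 L), Ov (𝔮 q) 𝔓 → 𝔓 = 𝔭 q ∨ 𝔓 = 𝔔 q := by
    intro q hq
    have h := (hex q hq).choose_spec.choose_spec
    rw [h𝔭, h𝔔]
    simp only [dif_pos hq]
    exact h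
  -- the group `M`
  obtain ⟨M, hMd⟩ : ∃ M : Set L, M = {α | α ≠ 0 ∧ IsSquare (Algebra.norm F α) ∧
    (∀ 𝔓 : HeightOneSpectrum (𝓞 L), (∀ w : HeightOneSpectrum (𝓞 F), Ov w.asIdeal 𝔓 → Gd g f w) →
      (∀ q ∈ S, 𝔓 ≠ 𝔔 q) → Ev 𝔓 α) ∧
    ∃ h₀ : F[X], aeval θ h₀ = α ∧ (∀ w : HeightOneSpectrum (𝓞 F), ¬ Gd g f w →
      LocF (w.adicCompletion F) (fF f) h₀) ∧
      (∀ σ : F →+* ℝ, LocIm ℝ ((fF f).map σ) (h₀.map σ))} := ⟨_, rfl⟩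
  have hMm : ∀ α, α ∈ M ↔ α ≠ 0 ∧ IsSquare (Algebra.norm F α) ∧
    (∀ 𝔓 : HeightOneSpectrum (𝓞 L), (∀ w : HeightOneSpectrum (𝓞 F), Ov w.asIdeal 𝔓 → Gd g f w) →
      (∀ q ∈ S, 𝔓 ≠ 𝔔 q) → Ev 𝔓 α) ∧
    ∃ h₀ : F[X], aeval θ h₀ = α ∧ (∀ w : HeightOneSpectrum (𝓞 F), ¬ Gd g f w →
      LocF (w.adicCompletion F) (fF f) h₀) ∧
      (∀ σ : F →+* ℝ, LocIm ℝ ((fF f).map σ) (h₀.map σ)) := by
    intro α
    rw [hMd]
    rfl
  obtain ⟨ψ, hψd⟩ : ∃ ψ : L → (S → ZMod 2 × ZMod 2), ψ = fun (α : L) (q : S) =>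
    cl (𝔔 (q : ℕ)) (((q : ℕ) : L) * θ) α := ⟨_, rfl⟩
  have hϖ : ∀ q ∈ S, (q : L) * θ ≠ 0 := by
    intro q hq h0
    exact (hpq q hq).2.2.2.2.1 (by rw [h0]; exact ⟨0, by simp⟩)
  have hψ : ∀ α β : L, α ≠ 0 → β ≠ 0 → ψ (α * β) = ψ α + ψ β := by
    intro α β hα hβ
    rw [hψd]
    funext q
    have h := hCLS L q (𝔔 q) ((q : L) * θ) (hqp q q.2) (hq2 q q.2)
      (hov q q.2 _ (hpq q q.2).2.1) (hϖ q q.2) (hpq q q.2).2.2.2.2.1 α β hα hβ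
    exact Prod.ext (cl_add_aux h.1) (cl_add_aux h.2)
  have hEvmul : ∀ (𝔓 : HeightOneSpectrum (𝓞 L)) (x y : L), Ev 𝔓 x → Ev 𝔓 y → Ev 𝔓 (x * y) := by
    rintro 𝔓 x y ⟨u, hu⟩ ⟨v, hv⟩
    exact ⟨u * v, by rw [map_mul, map_mul, hu, hv, mul_pow]⟩
  have hMmul : ∀ α β, α ∈ M → β ∈ M → α * β ∈ M := by
    intro α β hα hβ
    rw [hMm] at hα hβ ⊢
    obtain ⟨h1, h2, h3, a, h4, h5, h6⟩ := hα
    obtain ⟨h1', h2', h3', b, h4', h5', h6'⟩ := hβ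
    refine ⟨mul_ne_zero h1 h1', ?_,
      fun 𝔓 hgd h𝔓 => hEvmul 𝔓 _ _ (h3 𝔓 hgd h𝔓) (h3' 𝔓 hgd h𝔓), a * b, ?_, ?_, ?_⟩
    · rw [map_mul]
      exact h2.mul h2'
    · rw [map_mul, h4, h4']
    · intro w hw
      exact locF_mul (h5 w hw) (h5' w hw)
    · intro σ
      rw [Polynomial.map_mul]
      exact Pool.Agent.N891.PQ.LocIm.mul (h6 σ) (h6' σ)
  have hM1 : (1 : L) ∈ M := by
    rw [hMm]
    refine ⟨one_ne_zero, by rw [map_one]; exact IsSquare.one,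
      fun 𝔓 _ _ => ⟨1, by rw [map_one, one_pow]⟩,
      1, by rw [map_one], ?_, ?_⟩
    · intro w _
      exact locF_one _ _
    · intro σ
      rw [Polynomial.map_one]
      exact locIm_one _ _
  let Λ : AddSubgroup (S → ZMod 2 × ZMod 2) :=
    { carrier := {l | ∃ α ∈ M, ψ α = l}
      add_mem' := by
        rintro _ _ ⟨α, hα, rfl⟩ ⟨β, hβ, rfl⟩
        exact ⟨α * β, hMmul α β hα hβ, hψ α β ((hMm α).1 hα).1 ((hMm β).1 hβ).1⟩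
      zero_mem' := by
        refine ⟨1, hM1, ?_⟩
        have h := hψ 1 1 one_ne_zero one_ne_zero
        rw [mul_one] at h
        exact left_eq_add.1 h
      neg_mem' := by
        rintro _ ⟨α, hα, rfl⟩
        refine ⟨α, hα, ?_⟩
        rw [eq_neg_iff_add_eq_zero]
        funext Q
        exact Prod.ext (CharTwo.add_self_eq_zero _) (CharTwo.add_self_eq_zero _) }
  have hiso : ∀ l ∈ Λ, ∑ q : S, (l q).1 * (l q).2 = 0 := by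
    rintro _ ⟨α, hα, rfl⟩
    obtain ⟨b1, b2, b3, h₀, b4, b5, b6⟩ := (hMm α).1 hα
    have h := hREC g W F L f θ S 𝔮 r P hg hc hS hcon 𝔔
      (fun q hq => ⟨(hpq q hq).2.1, (hpq q hq).2.2.2.1⟩) h₀ (by rw [b4]; exact b1)
      (by rw [b4]; exact b2) (by rw [b4]; exact b3) b5 b6
    rw [b4] at h
    have e1 : ∑ q : S, (ψ α q).1 * (ψ α q).2 = ∑ q ∈ S,
        (if ¬ Ev (𝔔 q) α ∧ ¬ Sq1 (𝔔 q) (α * ((q : L) * θ)) then (1 : ZMod 2) else 0) := by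
      rw [← Finset.sum_coe_sort S]
      refine Finset.sum_congr rfl fun q _ => ?_
      simp only [hψd, cl]
      by_cases he : Ev (𝔔 q) α
      · rw [if_pos he, zero_mul, if_neg (fun h => h.1 he)]
      · by_cases hs : Sq1 (𝔔 q) (α * (((q : ℕ) : L) * θ))
        · have hu : U0 (𝔔 q) (((q : ℕ) : L) * θ) α := ⟨fun h => absurd h he, fun _ => hs⟩
          rw [if_neg he, if_pos hu, mul_zero, if_neg (fun h => h.2 hs)]
        · have hu : ¬ U0 (𝔔 q) (((q : ℕ) : L) * θ) α := fun h => hs (h.2 he)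
          rw [if_neg he, if_neg hu, mul_one, if_pos ⟨he, hs⟩]
    rw [e1, Finset.sum_ite, Finset.sum_const_zero, add_zero, Finset.sum_const, nsmul_eq_mul,
      mul_one]
    exact (ZMod.natCast_eq_zero_iff_even).2 h
  obtain ⟨J, hJ⟩ := hLIN S Λ hiso
  obtain ⟨J', hJ'd⟩ : ∃ J' : Finset ℕ, J' = S.filter fun q => ∃ h : q ∈ S, (⟨q, h⟩ : S) ∈ J :=
    ⟨_, rfl⟩
  have hJ'S : J' ⊆ S := by rw [hJ'd]; exact Finset.filter_subset _ _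
  refine ⟨J', hJ'S, fun h hα hN hev0 hu0 hloc hlocR => ?_⟩
  obtain ⟨α, hαdef⟩ : ∃ α : L, α = aeval θ h := ⟨_, rfl⟩
  rw [← hαdef] at hα hN hev0 hu0 ⊢
  have hαM : α ∈ M := by
    rw [hMm]
    refine ⟨hα, hN, fun 𝔓 hgd h𝔓 => ?_, h, hαdef.symm, hloc, hlocR⟩
    refine hev0 𝔓 hgd fun q hq hO => ?_
    rcases (hpq q (hJ'S hq)).2.2.2.2.2 𝔓 hO with rfl | rfl
    · exact (hpq q (hJ'S hq)).2.2.1.ne
    · exact absurd rfl (h𝔓 q (hJ'S hq))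
  have hgdQ : ∀ q ∈ S, ∀ w : HeightOneSpectrum (𝓞 F), Ov w.asIdeal (𝔔 q) → Gd g f w := by
    intro q hq w hw
    refine gd_of (gd_q hg hc.mon hc.deg hS hcon hq w ?_)
    obtain ⟨w', w1, w2, -⟩ := Pool.Agent.N459.PF.lie F L (𝔔 q)
    rw [ov_unique hw w1, w2, map_natCast]
    exact hov q hq _ (hpq q hq).2.1
  have hz : ψ α = 0 := by
    refine hJ _ ⟨α, hαM, rfl⟩ (fun q hq => ?_) (fun q hq => ?_)
    · have hqJ : (q : ℕ) ∈ J' := by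
        rw [hJ'd]
        exact Finset.mem_filter.2 ⟨q.2, q.2, hq⟩
      rw [hψd]
      exact if_pos (hu0 q hqJ _ (hpq q q.2).2.1 (hpq q q.2).2.2.2.1)
    · have hqJ : (q : ℕ) ∉ J' := by
        rw [hJ'd]
        exact fun h => hq (Finset.mem_filter.1 h).2.2
      rw [hψd]
      refine if_pos (hev0 (𝔔 q) (hgdQ q q.2) fun q' hq' hO => ?_)
      have : q' = (q : ℕ) := huniq q' (hJ'S hq') q q.2 _ hO (hpq q q.2).2.1
      rw [this] at hq'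
      exact absurd hq' hqJ
  have hz1 : ∀ q ∈ S, Ev (𝔔 q) α ∧ U0 (𝔔 q) ((q : L) * θ) α := by
    intro q hq
    have h1 := congrFun hz ⟨q, hq⟩
    rw [hψd] at h1
    have h2 := congrArg Prod.fst h1
    have h3 := congrArg Prod.snd h1
    constructor
    · by_contra hn
      have : (if Ev (𝔔 q) α then (0 : ZMod 2) else 1) = 0 := h2
      rw [if_neg hn] at this
      exact one_ne_zero this
    · by_contra hn
      have : (if U0 (𝔔 q) ((q : L) * θ) α then (0 : ZMod 2) else 1) = 0 := h3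
      rw [if_neg hn] at this
      exact one_ne_zero this
  rw [hαdef]
  refine hstr h (hαdef ▸ hα) (hαdef ▸ hN) (fun 𝔓 hgd => ?_) fun q hq 𝔓 h𝔓 hv => ?_
  · rw [← hαdef]
    by_cases h : ∀ q ∈ S, 𝔓 ≠ 𝔔 q
    · exact ((hMm α).1 hαM).2.2.1 𝔓 hgd h
    · push Not at h
      obtain ⟨q, hq, rfl⟩ := h
      exact (hz1 q hq).1
  · rw [← hαdef]
    rcases (hpq q hq).2.2.2.2.2 𝔓 h𝔓 with rfl | rfl
    · exact absurd hv (hpq q hq).2.2.1.ne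
    · exact (hz1 q hq).2.1 (hz1 q hq).1

end Pool.Agent.H30T
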