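import Pool.Agent.H30T.Stm3
import Pool.Agent.H30EV.Ram

/-! # Piece CYC: adjoining roots of unity to a Galois extension -/

set_option autoImplicit false
set_option linter.all false

open Polynomial IsDedekindDomain NumberField
open scoped Classical Pointwise

namespace Pool.Agent.H30T

namespace CycP

/-- the congruence for roots of unity -/
theorem mem_of_cong {R : Type} [CommRing R] [IsDomain R] (I : Ideal R) [hI : I.IsPrime] {m : ℕ}
    {x y : R} (hx : x ^ m = 1) (hy : y ^ m = 1) (hm : m ≠ 0) (h : x - y ∈ I) (hne : x ≠ y) :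
    (m : R) ∈ I := by
  have h1 : (∑ i ∈ Finset.range m, x ^ i * y ^ (m - 1 - i)) * (x - y) = x ^ m - y ^ m :=
    geom_sum₂_mul x y m
  rw [hx, hy, sub_self, mul_eq_zero, or_iff_left (sub_ne_zero.2 hne)] at h1
  have h2 : Ideal.Quotient.mk I x = Ideal.Quotient.mk I y := by
    rw [Ideal.Quotient.eq]
    exact h
  have h3 := congrArg (Ideal.Quotient.mk I) h1
  rw [map_sum] at h3
  simp only [map_mul, map_pow, map_zero, h2] at h3
  rw [geom_sum₂_self] at h3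
  have h4 : IsUnit (Ideal.Quotient.mk I y) := by
    refine IsUnit.of_pow_eq_one (n := m) ?_ hm
    rw [← map_pow, hy, map_one]
  have h5 := (h4.pow (m - 1)).mul_left_eq_zero.1 h3
  rw [← map_natCast (Ideal.Quotient.mk I), Ideal.Quotient.eq_zero_iff_mem] at h5
  exact h5

theorem natCast_not_mem {R : Type} [CommRing R] (I : Ideal R) [hI : I.IsPrime] {m p : ℕ}
    (hp : p.Prime) (hpm : ¬ p ∣ m) (h : (p : R) ∈ I) : (m : R) ∉ I := by
  intro hm
  apply hI.ne_top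
  rw [Ideal.eq_top_iff_one]
  have h1 : IsCoprime (p : ℤ) (m : ℤ) :=
    Nat.isCoprime_iff_coprime.2 ((Nat.Prime.coprime_iff_not_dvd hp).2 hpm)
  obtain ⟨a, b, hab⟩ := h1
  have h2 := congrArg (Int.cast : ℤ → R) hab
  push_cast at h2
  rw [← h2]
  exact I.add_mem (I.mul_mem_left _ h) (I.mul_mem_left _ hm)

end CycP

open CycP in
theorem cyc : U_CYC := by
  intro M₀ _ _ _ p₀ m hp hun hm hpm
  haveI : NeZero m := ⟨hm⟩
  let M₁ := CyclotomicField m M₀
  have hζ : IsPrimitiveRoot (IsCyclotomicExtension.zeta m M₀ M₁) m :=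
    IsCyclotomicExtension.zeta_spec m M₀ M₁
  set ζ := IsCyclotomicExtension.zeta m M₀ M₁ with hζd
  have hgal : IsGalois ℚ M₁ := by
    obtain ⟨p, hps, hsp⟩ := IsGalois.is_separable_splitting_field ℚ M₀
    haveI := hsp
    haveI : IsSplittingField M₀ M₁ ((X ^ m - 1 : ℚ[X]).map (algebraMap ℚ M₀)) := by
      have := IsCyclotomicExtension.isSplittingField_X_pow_sub_one m M₀ M₁
      simpa using this
    haveI : IsSplittingField ℚ M₁ (p * (X ^ m - 1 : ℚ[X])) := by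
      refine IsSplittingField.mul (K := M₀) (L := M₁) p (X ^ m - 1 : ℚ[X]) hps.ne_zero ?_
      exact X_pow_sub_C_ne_zero (Nat.pos_of_ne_zero hm) (1 : ℚ)
    haveI : Normal ℚ M₁ := Normal.of_isSplittingField (p * (X ^ m - 1 : ℚ[X]))
    exact {}
  haveI : IsGalois M₀ M₁ := IsCyclotomicExtension.isGalois {m} M₀ M₁
  refine ⟨M₁, inferInstance, inferInstance, hgal, algebraMap M₀ M₁, ζ, hζ, ?_⟩
  intro w hw
  haveI := w.isPrime
  have hin : ∀ σ : Gal(M₁/M₀), (∀ y : 𝓞 M₁, σ • y - y ∈ w.asIdeal) → σ = 1 := by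
    intro σ hσ
    obtain ⟨z, hz⟩ : ∃ z : 𝓞 M₁, (z : M₁) = ζ := ⟨⟨ζ, hζ.isIntegral (Nat.pos_of_ne_zero hm)⟩, rfl⟩
    have hz1 : z ^ m = 1 := by
      apply RingOfIntegers.ext
      have e1 : ((z ^ m : 𝓞 M₁) : M₁) = (z : M₁) ^ m := rfl
      rw [e1, hz, hζ.pow_eq_one]
      rfl
    have hz2 : (σ • z) ^ m = 1 := by
      rw [← smul_pow', hz1, smul_one]
    have hz3 : σ • z = z := by
      by_contra hne
      exact natCast_not_mem w.asIdeal hp hpm hw (mem_of_cong w.asIdeal hz2 hz1 hm (hσ z) hne)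
    have hz4 : σ ζ = ζ := by
      rw [← hz]
      exact congrArg (fun t : 𝓞 M₁ => (t : M₁)) hz3
    have h5 : (σ : M₁ →ₐ[M₀] M₁) = ((1 : Gal(M₁/M₀)) : M₁ →ₐ[M₀] M₁) := by
      apply (hζ.powerBasis M₀).algHom_ext
      rw [IsPrimitiveRoot.powerBasis_gen]
      exact hz4
    ext x
    exact DFunLike.congr_fun h5 x
  have hval := Pool.Agent.H30EV.val_of_inertia w hin (p₀ : M₀)
  have h1 : (p₀ : 𝓞 M₀) ∈ (w.under (𝓞 M₀)).asIdeal := by
    change algebraMap (𝓞 M₀) (𝓞 M₁) (p₀ : 𝓞 M₀) ∈ w.asIdeal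
    rw [map_natCast]
    exact hw
  have h2 := hun (w.under (𝓞 M₀)) h1
  intro hw2
  apply h2
  rw [← HeightOneSpectrum.intValuation_le_pow_iff_mem] at hw2 ⊢
  rw [← HeightOneSpectrum.valuation_of_algebraMap (K := M₁)] at hw2
  rw [← HeightOneSpectrum.valuation_of_algebraMap (K := M₀)]
  have e1 : algebraMap (𝓞 M₀) M₀ (p₀ : 𝓞 M₀) = (p₀ : M₀) := rfl
  have e2 : algebraMap (𝓞 M₁) M₁ (p₀ : 𝓞 M₁) = algebraMap M₀ M₁ (p₀ : M₀) :=
    (map_natCast (algebraMap M₀ M₁) p₀).symm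
  have key : w.valuation M₁ (algebraMap (𝓞 M₁) M₁ (p₀ : 𝓞 M₁)) =
      (w.under (𝓞 M₀)).valuation M₀ (algebraMap (𝓞 M₀) M₀ (p₀ : 𝓞 M₀)) := by
    rw [e1, e2]
    exact hval
  rw [← key]
  exact hw2

end Pool.Agent.H30T
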