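import Pool.Agent.H30T.Stm2
import Pool.Agent.N891.PQ.TwA
import Pool.Agent.N498.PQ.Cpl

/-!
# Project ET (helper30): piece DSQ
-/

set_option autoImplicit false
set_option linter.all false

open Polynomial IsDedekindDomain NumberField
open scoped Classical

namespace Pool.Agent.H30T

/-- an integer which is `1` modulo the odd prime `p` is a square in `ℚ_p` -/
theorem sq_odd (p : ℕ) [hp : Fact p.Prime] (h2 : p ≠ 2) (D : ℕ) (hD : D % p = 1 % p) :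
    ∃ δ : ℚ_[p], δ ^ 2 = (D : ℚ_[p]) := by
  obtain ⟨F, hF⟩ : ∃ F : ℤ[X], F = X ^ 2 - C (D : ℤ) := ⟨_, rfl⟩
  have h1 : F.aeval (1 : ℤ_[p]) = ((1 - (D : ℤ) : ℤ) : ℤ_[p]) := by
    rw [hF, map_sub, map_pow, aeval_X, aeval_C]
    simp
  have h2' : F.derivative.aeval (1 : ℤ_[p]) = 2 := by
    rw [hF]
    simp only [derivative_sub, derivative_X_pow, derivative_C, sub_zero, map_mul, aeval_C, map_pow,
      aeval_X, one_pow, mul_one]
    simp
  have hn2 : ‖(2 : ℤ_[p])‖ = 1 := by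
    have h : ((2 : ℕ) : ℤ_[p]) = 2 := by norm_num
    rw [← h, PadicInt.norm_natCast_eq_one_iff]
    exact (Nat.coprime_primes hp.out Nat.prime_two).2 h2
  have h3 : ‖F.aeval (1 : ℤ_[p])‖ < ‖F.derivative.aeval (1 : ℤ_[p])‖ ^ 2 := by
    rw [h1, h2', hn2, one_pow, PadicInt.norm_intCast_lt_one_iff]
    have : ((D : ℤ)) % (p : ℤ) = 1 % (p : ℤ) := by exact_mod_cast congrArg (Nat.cast (R := ℤ)) hD
    exact Int.modEq_iff_dvd.1 this
  obtain ⟨z, hz, -⟩ := hensels_lemma h3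
  refine ⟨(z : ℚ_[p]), ?_⟩
  rw [hF, map_sub, map_pow, aeval_X, aeval_C, sub_eq_zero] at hz
  have h5 := congrArg (fun x : ℤ_[p] => (x : ℚ_[p])) hz
  simpa using h5

theorem dsq : T_DSQ := by
  intro M _ _ p w hp hw D hD8 hDp
  haveI : Fact p.Prime := ⟨hp⟩
  obtain ⟨ι, hι, -, -⟩ := Pool.Agent.N498.PQ.cpl M p w hw
  obtain ⟨δ, hδ⟩ : ∃ δ : ℚ_[p], δ ^ 2 = (D : ℚ_[p]) := by
    by_cases h2 : p = 2
    · subst h2
      exact Pool.Agent.N891.PQ.sq_two D hD8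
    · exact sq_odd p h2 D hDp
  refine ⟨ι δ, ?_⟩
  rw [← map_pow, hδ, map_natCast]

end Pool.Agent.H30T
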