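import Pool.Agent.H30T.ResA
import Pool.Agent.W401.Cheb.Main

/-!
# Project ET, piece INF: infinitely many primes modulo which the polynomial is irreducible
-/

set_option autoImplicit false
set_option linter.all false

open Polynomial IsDedekindDomain NumberField
open scoped Classical

namespace Pool.Agent.H30T.InfP

open Pool.Agent.W401.Cheb
open Pool.Agent.H30T.ResA (exists_large frob_pow separable_of_discr)

/-- the Galois closure -/
theorem exists_closure (m : ℕ) (hm : m ≠ 0) (p : ℚ[X]) (hp : p ≠ 0) :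
    ∃ (N : Type) (_ : Field N) (_ : NumberField N) (_ : IsGalois ℚ N) (ζ : N),
      IsPrimitiveRoot ζ m ∧ (p.map (algebraMap ℚ N)).Splits := by
  set P : ℚ[X] := cyclotomic m ℚ * p with hP
  have h2 : (cyclotomic m ℚ).Monic := cyclotomic.monic m ℚ
  have hP0 : P ≠ 0 := mul_ne_zero h2.ne_zero hp
  let E := P.SplittingField
  have : CharZero E := charZero_of_injective_algebraMap (algebraMap ℚ E).injective
  have : NumberField E := ⟨⟩
  have hs : (P.map (algebraMap ℚ E)).Splits := SplittingField.splits P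
  have hP0' : P.map (algebraMap ℚ E) ≠ 0 := by
    rwa [Ne, Polynomial.map_eq_zero]
  have d2 : cyclotomic m ℚ ∣ P := ⟨p, rfl⟩
  have d3 : p ∣ P := ⟨cyclotomic m ℚ, by rw [hP]; ring⟩
  have s2 := hs.of_dvd hP0' (Polynomial.map_dvd (algebraMap ℚ E) d2)
  have s3 := hs.of_dvd hP0' (Polynomial.map_dvd (algebraMap ℚ E) d3)
  obtain ⟨z, hz⟩ : ∃ z : E, IsPrimitiveRoot z m := by
    obtain ⟨z, hz⟩ := s2.exists_eval_eq_zero (by
      rw [degree_map, degree_cyclotomic]
      exact_mod_cast (Nat.totient_pos.2 (Nat.pos_of_ne_zero hm)).ne')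
    refine ⟨z, ?_⟩
    rw [map_cyclotomic] at hz
    have : NeZero (m : E) := ⟨by exact_mod_cast hm⟩
    exact isRoot_cyclotomic_iff.1 hz
  let Ω := AlgebraicClosure E
  let N := IntermediateField.normalClosure ℚ E Ω
  have : NumberField N := ⟨⟩
  let k : E →ₐ[ℚ] N := IsScalarTower.toAlgHom ℚ E N
  have halg : (inferInstance : Algebra ℚ N) = DivisionRing.toRatAlgebra := Subsingleton.elim _ _
  refine ⟨N, inferInstance, inferInstance, ?_, k z, ?_, ?_⟩
  · have a1 : Algebra.IsAlgebraic ℚ Ω := Algebra.IsAlgebraic.trans ℚ E Ω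
    have a2 : IsAlgClosure ℚ Ω := ⟨inferInstance, a1⟩
    have a3 : Normal ℚ Ω := IsAlgClosure.normal ℚ Ω
    have a4 : Normal ℚ N := normalClosure.normal ℚ E Ω
    have h : IsGalois ℚ N := ⟨⟩
    convert h
  · exact hz.map_of_injective (f := k) k.injective
  · have h : ((p.map (algebraMap ℚ E)).map (k : E →+* N)).Splits := s3.map _
    rw [Polynomial.map_map] at h
    convert h
    exact Subsingleton.elim _ _

/-- the roots -/
theorem prod_rootSet {N : Type} [Field N] [NumberField N] (p : ℚ[X]) (hm : p.Monic) (hs : p.Separable)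
    (hsp : (p.map (algebraMap ℚ N)).Splits) :
    Fintype.card (p.rootSet N) = p.natDegree ∧
    p.map (algebraMap ℚ N) = ∏ s : p.rootSet N, (X - C (s : N)) := by
  refine ⟨card_rootSet_eq_natDegree hs hsp, ?_⟩
  have h1 : (p.map (algebraMap ℚ N)).roots.Nodup := nodup_roots hs.map
  have h2 := hsp.eq_prod_roots_of_monic (hm.map _)
  rw [h2]
  have h3 : ∏ s : p.rootSet N, (X - C (s : N)) = ∏ s ∈ (p.rootSet N).toFinset, (X - C s) := by
    rw [Finset.prod_subtype (p.rootSet N).toFinset (p := fun x => x ∈ p.rootSet N) (by simp)]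
  rw [h3]
  have h4 : (p.rootSet N).toFinset = (p.map (algebraMap ℚ N)).roots.toFinset := by
    ext x
    rw [Set.mem_toFinset, rootSet, Finset.mem_coe, Multiset.mem_toFinset]
  rw [h4, Finset.prod_eq_multiset_prod, Multiset.toFinset_val, h1.dedup]

/-- the action on the roots -/
theorem exists_action {N : Type} [Field N] [NumberField N] [IsGalois ℚ N] (p : ℚ[X]) (hs : p.Separable)
    (hsp : (p.map (algebraMap ℚ N)).Splits) (hc : Nat.card p.Gal = (p.natDegree).factorial) :
    ∃ ρ : (N ≃ₐ[ℚ] N) →* Equiv.Perm (p.rootSet N), Function.Surjective ρ ∧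
      ∀ a (x : p.rootSet N), ((ρ a x : p.rootSet N) : N) = a x := by
  have : Fact ((p.map (algebraMap ℚ N)).Splits) := ⟨hsp⟩
  refine ⟨(Gal.galActionHom p N).comp (Gal.restrict p N), ?_, fun a x => Gal.galActionHom_restrict p N a x⟩
  rw [MonoidHom.coe_comp]
  refine Function.Surjective.comp ?_ (Gal.restrict_surjective p N)
  have h1 := Gal.galActionHom_injective p N
  have h2 : Nat.card p.Gal = Nat.card (Equiv.Perm (p.rootSet N)) := by
    rw [hc, Nat.card_perm, Nat.card_eq_fintype_card, card_rootSet_eq_natDegree hs hsp]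
  exact ((Nat.bijective_iff_injective_and_card _).2 ⟨h1, h2⟩).2

/-- a commutator which is a cycle of odd length -/
theorem cycle (g : ℕ) (G R : Type) [Group G] [Fintype R] (hR : Fintype.card R = 2 * g + 1)
    (ρ : G →* Equiv.Perm R) (hρ : Function.Surjective ρ) :
    ∃ (a c : G) (s : ℕ → R), (∀ j, ρ (a * c * a⁻¹ * c⁻¹) (s j) = s (j + 1)) ∧
      (∀ i < 2 * g + 1, ∀ j < 2 * g + 1, s i = s j → i = j) ∧
      (∀ r, ∃ j < 2 * g + 1, s j = r) := by
  let e : R ≃ ZMod (2 * g + 1) := Fintype.equivOfCardEq (by rw [hR, ZMod.card])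
  have h2 : Nat.Coprime 2 (2 * g + 1) := Nat.coprime_two_left.2 ⟨g, rfl⟩
  let u : (ZMod (2 * g + 1))ˣ := ZMod.unitOfCoprime 2 h2
  have hu : (u : ZMod (2 * g + 1)) = 2 := by
    show ((2 : ℕ) : ZMod (2 * g + 1)) = 2
    norm_num
  let c₀ : Equiv.Perm (ZMod (2 * g + 1)) := Equiv.addRight 1
  let a₀ : Equiv.Perm (ZMod (2 * g + 1)) := Units.mulLeft u
  have hc0 : ∀ x, c₀ x = x + 1 := fun x => rfl
  have hci : ∀ x, c₀⁻¹ x = x - 1 := by
    intro x
    rw [Equiv.Perm.inv_eq_iff_eq, hc0]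
    ring
  have ha0 : ∀ x, a₀ x = 2 * x := by
    intro x
    show (u : ZMod (2 * g + 1)) * x = 2 * x
    rw [hu]
  have hai : ∀ x, a₀ (a₀⁻¹ x) = x := fun x => Equiv.apply_symm_apply a₀ x
  have key : ∀ x, (a₀ * c₀ * a₀⁻¹ * c₀⁻¹) x = x + 1 := by
    intro x
    rw [Equiv.Perm.mul_apply, Equiv.Perm.mul_apply, Equiv.Perm.mul_apply, hci, hc0, ha0, mul_add, ← ha0, hai]
    ring
  obtain ⟨a, ha⟩ := hρ (e.symm.permCongr a₀)
  obtain ⟨c, hc⟩ := hρ (e.symm.permCongr c₀)
  refine ⟨a, c, fun j => e.symm (j : ZMod (2 * g + 1)), ?_, ?_, ?_⟩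
  · intro j
    have h1 : ρ (a * c * a⁻¹ * c⁻¹) = e.symm.permCongr (a₀ * c₀ * a₀⁻¹ * c₀⁻¹) := by
      rw [map_mul, map_mul, map_mul, map_inv, map_inv, ha, hc]
      have hm : ∀ p q : Equiv.Perm (ZMod (2 * g + 1)), e.symm.permCongr (p * q) =
          e.symm.permCongr p * e.symm.permCongr q := by
        intro p q
        exact map_mul (e.symm.permCongrHom) p q
      have hi : ∀ p : Equiv.Perm (ZMod (2 * g + 1)), e.symm.permCongr p⁻¹ = (e.symm.permCongr p)⁻¹ := by
        intro p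
        exact map_inv (e.symm.permCongrHom) p
      rw [hm, hm, hm, hi, hi]
    rw [h1, Equiv.permCongr_apply, Equiv.symm_symm, Equiv.apply_symm_apply, key]
    push_cast
    rfl
  · intro i hi j hj hij
    have h1 := e.symm.injective hij
    rw [ZMod.natCast_eq_natCast_iff'] at h1
    rwa [Nat.mod_eq_of_lt hi, Nat.mod_eq_of_lt hj] at h1
  · intro r
    refine ⟨(e r).val, ZMod.val_lt _, ?_⟩
    show e.symm (((e r).val : ℕ) : ZMod (2 * g + 1)) = r
    rw [ZMod.natCast_zmod_val, Equiv.symm_apply_apply]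

/-- The polynomial modulo `q`. -/
theorem irred_part (n q : ℕ) [Fact q.Prime] (f : ℤ[X]) (hmon : f.Monic)
    (hdeg : f.natDegree = n) (t : AlgebraicClosure (ZMod q))
    (hf : f.map (Int.castRingHom (AlgebraicClosure (ZMod q))) =
      ∏ j ∈ Finset.range n, (X - C (t ^ (q ^ j))))
    (hinj : ∀ i < n, ∀ j < n, t ^ (q ^ i) = t ^ (q ^ j) → i = j) (hn : 1 ≤ n) :
    Irreducible (f.map (Int.castRingHom (ZMod q))) := by
  set fF := f.map (Int.castRingHom (ZMod q)) with hfF
  have hmap : fF.map (algebraMap (ZMod q) (AlgebraicClosure (ZMod q))) = f.map (Int.castRingHom (AlgebraicClosure (ZMod q))) := by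
    rw [hfF, Polynomial.map_map]
    congr 1
  have hfm : fF.Monic := hmon.map _
  have hfd : fF.natDegree = n := by rw [hfF, hmon.natDegree_map, hdeg]
  have hint : IsIntegral (ZMod q) t := (Algebra.IsAlgebraic.isAlgebraic t).isIntegral
  have hroots : ∀ j, aeval (t ^ (q ^ j)) (minpoly (ZMod q) t) = 0 := by
    intro j
    induction j with
    | zero => rw [pow_zero, pow_one, minpoly.aeval]
    | succ j ih =>
      rw [pow_succ, pow_mul, ← expand_aeval, ZMod.expand_card, map_pow, ih,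
        zero_pow (Fact.out : q.Prime).ne_zero]
  have hdvd : minpoly (ZMod q) t ∣ fF := by
    apply minpoly.dvd
    rw [← eval_map_algebraMap, hmap, hf, eval_prod]
    apply Finset.prod_eq_zero (Finset.mem_range.2 (show 0 < n by omega))
    rw [pow_zero, pow_one, eval_sub, eval_X, eval_C, sub_self]
  have hcard : n ≤ (minpoly (ZMod q) t).natDegree := by
    have h0 : (minpoly (ZMod q) t).map (algebraMap (ZMod q) (AlgebraicClosure (ZMod q))) ≠ 0 :=
      ((minpoly.monic hint).map _).ne_zero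
    have h1 : ((Finset.range n).image fun j => t ^ (q ^ j)).card = n := by
      rw [Finset.card_image_of_injOn, Finset.card_range]
      intro i hi j hj hij
      exact hinj i (Finset.mem_range.1 hi) j (Finset.mem_range.1 hj) hij
    have h2 : ((Finset.range n).image fun j => t ^ (q ^ j)) ⊆
        ((minpoly (ZMod q) t).map (algebraMap (ZMod q) (AlgebraicClosure (ZMod q)))).roots.toFinset := by
      intro y hy
      obtain ⟨j, -, rfl⟩ := Finset.mem_image.1 hy
      rw [Multiset.mem_toFinset, mem_roots h0, IsRoot.def, eval_map_algebraMap]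
      exact hroots j
    have h3 := Finset.card_le_card h2
    rw [h1] at h3
    refine h3.trans ((Multiset.toFinset_card_le _).trans ((card_roots' _).trans ?_))
    rw [(minpoly.monic hint).natDegree_map]
  have heq : fF = minpoly (ZMod q) t :=
    eq_of_monic_of_dvd_of_natDegree_le (minpoly.monic hint) hfm hdvd (by rw [hfd]; exact hcard)
  rw [heq]
  exact minpoly.irreducible hint

/-- infinitely many primes `l`, congruent to one modulo `m`, modulo which `f` is irreducible -/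
theorem cheb (g : ℕ) (f : ℤ[X]) (hmon : f.Monic) (hdeg : f.natDegree = 2 * g + 1)
    (hgal : Nat.card (f.map (Int.castRingHom ℚ)).Gal = (2 * g + 1).factorial) (hd0 : f.discr ≠ 0)
    (m B : ℕ) (hm : m ≠ 0) : ∃ l : ℕ, l.Prime ∧ B < l ∧ l % m = 1 % m ∧
      Irreducible (f.map (Int.castRingHom (ZMod l))) := by
  have hinjQ : Function.Injective (Int.castRingHom ℚ) := Int.cast_injective
  set p : ℚ[X] := f.map (Int.castRingHom ℚ) with hp
  have hpmon : p.Monic := hmon.map _
  have hsep : p.Separable := separable_of_discr f hmon (by rw [hdeg]; omega) hd0 ℚ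
  have hpdeg : p.natDegree = 2 * g + 1 := by
    rw [hp, natDegree_map_eq_of_injective hinjQ, hdeg]
  obtain ⟨N, iF, iN, iG, ζ, hζ, hsp⟩ := exists_closure m hm p hpmon.ne_zero
  obtain ⟨ρ, hρ, hρ2⟩ := exists_action (N := N) p hsep hsp (by rw [hpdeg]; exact hgal)
  obtain ⟨hcard, hprod⟩ := prod_rootSet (N := N) p hpmon hsep hsp
  rw [hpdeg] at hcard
  have hfN : f.map (Int.castRingHom N) = ∏ s : p.rootSet N, (X - C (s : N)) := by
    rw [← hprod, hp, Polynomial.map_map]
    congr 1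
    exact RingHom.ext_int _ _
  obtain ⟨a, c, s, hs1, hs2, hs3⟩ := cycle g (N ≃ₐ[ℚ] N) (p.rootSet N) hcard ρ hρ
  set σ : N ≃ₐ[ℚ] N := a * c * a⁻¹ * c⁻¹ with hσ
  -- the roots of unity
  have hpow : ∀ a : N ≃ₐ[ℚ] N, ∃ k : ℕ, ∀ z : N, z ^ m = 1 → a z = z ^ k := by
    intro a
    have h1 : (a ζ) ^ m = 1 := by rw [← map_pow, hζ.pow_eq_one, map_one]
    haveI : NeZero m := ⟨hm⟩
    obtain ⟨k, _, hk⟩ := hζ.eq_pow_of_pow_eq_one h1
    refine ⟨k, fun z hz => ?_⟩
    obtain ⟨j, _, hj⟩ := hζ.eq_pow_of_pow_eq_one hz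
    rw [← hj, map_pow, ← hk, ← pow_mul, ← pow_mul, mul_comm]
  have hσζ : σ ζ = ζ := by
    have hz := hζ.pow_eq_one
    obtain ⟨k, hk⟩ := hpow a
    obtain ⟨l, hl⟩ := hpow c
    set w : N := a⁻¹ (c⁻¹ ζ) with hw
    have hw1 : w ^ m = 1 := by rw [hw, ← map_pow, ← map_pow, hz, map_one, map_one]
    have h1 : a (c w) = c (a w) := by
      rw [hl w hw1, hk w hw1, map_pow, map_pow, hk w hw1, hl w hw1, ← pow_mul, ← pow_mul, mul_comm]
    show a (c w) = ζ
    rw [h1, hw]
    have h2 : a (a⁻¹ (c⁻¹ ζ)) = c⁻¹ ζ := AlgEquiv.apply_symm_apply a _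
    rw [h2]
    exact AlgEquiv.apply_symm_apply c ζ
  -- the roots
  have hσs : ∀ j, σ (s j : N) = (s (j + 1) : N) := by
    intro j
    rw [← hs1 j, hρ2]
  have hprodN : f.map (Int.castRingHom N) = ∏ j ∈ Finset.range (2 * g + 1), (X - C (s j : N)) := by
    rw [hfN]
    symm
    refine Finset.prod_bij (fun j _ => s j) (fun j _ => Finset.mem_univ _) ?_ ?_ (fun j _ => rfl)
    · intro i hi j hj hij
      exact hs2 i (Finset.mem_range.1 hi) j (Finset.mem_range.1 hj) hij
    · intro r _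
      obtain ⟨j, hj, hjr⟩ := hs3 r
      exact ⟨j, Finset.mem_range.2 hj, hjr⟩
  have hrint : ∀ j, IsIntegral ℤ (s j : N) := by
    intro j
    refine ⟨f, hmon, ?_⟩
    have h1 := (s j).2
    rw [mem_rootSet] at h1
    have h2 := h1.2
    have h3 := aeval_map_algebraMap ℚ (s j : N) f
    exact h3.symm.trans h2
  obtain ⟨t, ht⟩ : ∃ t : ℕ → 𝓞 N, ∀ j, algebraMap (𝓞 N) N (t j) = s j := ⟨fun j => ⟨s j, hrint j⟩, fun j => rfl⟩
  have hζint : IsIntegral ℤ ζ := hζ.isIntegral (Nat.pos_of_ne_zero hm)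
  obtain ⟨ζ', hζ'⟩ : ∃ ζ' : 𝓞 N, algebraMap (𝓞 N) N ζ' = ζ := ⟨⟨ζ, hζint⟩, rfl⟩
  have hcs : ∀ (τ : Gal(N/ℚ)) (x : 𝓞 N), algebraMap (𝓞 N) N (τ • x) = τ (algebraMap (𝓞 N) N x) :=
    fun τ x => rfl
  have hσt : ∀ j, σ • t j = t (j + 1) := by
    intro j
    apply RingOfIntegers.coe_injective
    rw [hcs, ht, ht, hσs]
  have hσt' : ∀ j, (σ ^ j) • t 0 = t j := by
    intro j
    induction j with
    | zero => rw [pow_zero, one_smul]
    | succ j ih => rw [pow_succ', mul_smul, ih, hσt]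
  set E : 𝓞 N := (m : 𝓞 N) * ∏ i ∈ Finset.range (2 * g + 1), ∏ j ∈ Finset.range (2 * g + 1),
      (if i = j then 1 else t i - t j) with hE
  have hE0 : E ≠ 0 := by
    rw [hE]
    refine mul_ne_zero (Nat.cast_ne_zero.2 hm) ?_
    rw [Finset.prod_ne_zero_iff]
    intro i hi
    rw [Finset.prod_ne_zero_iff]
    intro j hj
    split_ifs with hij
    · exact one_ne_zero
    · intro h
      apply hij
      have h1 := congrArg (algebraMap (𝓞 N) N) (sub_eq_zero.1 h)
      rw [ht, ht] at h1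
      exact hs2 i (Finset.mem_range.1 hi) j (Finset.mem_range.1 hj) (Subtype.ext h1)
  obtain ⟨M, hM⟩ := exists_large E hE0
  obtain ⟨q, ⟨hq, hxp⟩, hqgt⟩ := (infinite_frob N σ).exists_gt (max (max M B) 2)
  simp only [max_lt_iff] at hqgt
  obtain ⟨⟨hqM, hqB⟩, hq2⟩ := hqgt
  have : Fact q.Prime := ⟨hq⟩
  obtain ⟨φ, hφ⟩ : ∃ φ : 𝓞 N →+* AlgebraicClosure (ZMod q), HasFrob q φ σ := by
    unfold xp at hxp
    rw [dif_pos hq] at hxp
    by_contra h
    push Not at h
    apply hxp
    rw [Nat.card_eq_zero]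
    left
    exact ⟨fun x => h x.1 x.2⟩
  have hφE : φ E ≠ 0 := hM q hqM _ φ
  rw [hE, map_mul, map_natCast, map_prod] at hφE
  have hmΩ := left_ne_zero_of_mul hφE
  have hu2 := right_ne_zero_of_mul hφE
  rw [Finset.prod_ne_zero_iff] at hu2
  have hv1 : ∀ j, φ (t j) = φ (t 0) ^ (q ^ j) := fun j => by
    rw [← hσt' j]
    exact frob_pow hφ j _
  have hv2 : ∀ i < 2 * g + 1, ∀ j < 2 * g + 1, φ (t 0) ^ (q ^ i) = φ (t 0) ^ (q ^ j) → i = j := by
    intro i hi j hj hij
    by_contra hne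
    have h1 := hu2 i (Finset.mem_range.2 hi)
    rw [map_prod, Finset.prod_ne_zero_iff] at h1
    have h2 := h1 j (Finset.mem_range.2 hj)
    rw [if_neg hne, map_sub, hv1 i, hv1 j, hij, sub_self] at h2
    exact h2 rfl
  -- the roots of unity
  have hmod : q % m = 1 % m := by
    have h1 : φ ζ' ^ q = φ ζ' := by
      rw [← hφ]
      congr 1
      apply RingOfIntegers.coe_injective
      show algebraMap (𝓞 N) N (σ • ζ') = algebraMap (𝓞 N) N ζ'
      rw [hcs, hζ', hσζ]
    have h2 : IsPrimitiveRoot ζ' m := by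
      rw [← hζ'] at hζ
      exact hζ.of_map_of_injective (RingOfIntegers.coe_injective)
    have h3 := h2.isRoot_cyclotomic (Nat.pos_of_ne_zero hm)
    have h4 : (cyclotomic m (AlgebraicClosure (ZMod q))).IsRoot (φ ζ') := by
      rw [← map_cyclotomic m φ]
      exact h3.map
    have : NeZero ((m : ℕ) : AlgebraicClosure (ZMod q)) := ⟨hmΩ⟩
    rw [isRoot_cyclotomic_iff] at h4
    have h5 : φ ζ' ^ (q - 1) = 1 := by
      have h6 : φ ζ' ≠ 0 := h4.ne_zero hm
      apply mul_right_cancel₀ h6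
      rw [← pow_succ, Nat.sub_add_cancel hq.one_lt.le, h1, one_mul]
    have h6 := h4.dvd_of_pow_eq_one _ h5
    exact ((Nat.modEq_iff_dvd' hq.one_lt.le).2 h6).symm
  -- the factorization
  have hfO : f.map (Int.castRingHom (𝓞 N)) = ∏ j ∈ Finset.range (2 * g + 1), (X - C (t j)) := by
    apply Polynomial.map_injective (algebraMap (𝓞 N) N) RingOfIntegers.coe_injective
    rw [Polynomial.map_map, Polynomial.map_prod]
    simp only [Polynomial.map_sub, map_X, map_C, ht]
    rw [← hprodN]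
    exact congrArg (fun r => Polynomial.map r f) (Subsingleton.elim _ _)
  have hfΩ : f.map (Int.castRingHom (AlgebraicClosure (ZMod q))) =
      ∏ j ∈ Finset.range (2 * g + 1), (X - C (φ (t 0) ^ (q ^ j))) := by
    have h1 := congrArg (Polynomial.map φ) hfO
    rw [Polynomial.map_map, Polynomial.map_prod] at h1
    simp only [Polynomial.map_sub, map_X, map_C] at h1
    rw [Finset.prod_congr rfl fun j _ => by rw [hv1 j]] at h1
    rw [← h1]
    exact congrArg (fun r => Polynomial.map r f) (Subsingleton.elim _ _)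
  exact ⟨q, hq, hqB, hmod, irred_part (2 * g + 1) q f hmon hdeg (φ (t 0)) hfΩ hv2 (by omega)⟩

end Pool.Agent.H30T.InfP
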