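import Pool.Agent.H30T.Stm3
import Pool.Agent.H30T.InfA
import Pool.Agent.H30T.InfB

/-!
# Project ET, piece INF: infinitely many admissible real quadratic fields
-/

set_option autoImplicit false
set_option linter.all false

open Polynomial IsDedekindDomain NumberField
open scoped Classical

namespace Pool.Agent.H30T

/-- **INF.** -/
theorem inf : U_INF := by
  intro g f p₀ hyp T B hT
  have hd0 : f.discr ≠ 0 := by
    intro h
    apply hyp.ndvd
    rw [h]
    exact dvd_zero _
  have hm0 : 8 * f.discr.natAbs * ∏ p ∈ T, p ≠ 0 :=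
    mul_ne_zero (mul_ne_zero (by norm_num) (Int.natAbs_ne_zero.2 hd0))
      (Finset.prod_ne_zero_iff.2 fun p hp => (hT p hp).ne_zero)
  obtain ⟨l, hl, hlB, hlm, hirr⟩ := InfP.cheb g f hyp.mon hyp.deg hyp.gal hd0
    (8 * f.discr.natAbs * ∏ p ∈ T, p) B hm0
  have hmod : ∀ p : ℕ, p ∣ 8 * f.discr.natAbs * ∏ p ∈ T, p → l % p = 1 % p := by
    intro p hp
    exact Nat.ModEq.of_dvd hp hlm
  have hl8 : l % 8 = 1 := hmod 8 ⟨f.discr.natAbs * ∏ p ∈ T, p, by ring⟩
  obtain ⟨M, _, _, s, hs, hrank, hreal, hG, hram, hspl⟩ := InfQ.main l hl hl8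
  refine ⟨l, M, inferInstance, inferInstance, s, hl, hlB, hs, hrank,
    ⟨hG, ⟨1, by rw [hrank]; rfl⟩, hreal, ?_, ?_⟩, ?_⟩
  · intro p hp h
    apply hspl p hp
    apply hmod
    rcases h with h | h
    · rw [h]
      exact ⟨4 * f.discr.natAbs * ∏ p ∈ T, p, by ring⟩
    · have h1 : (p : ℤ) ∣ f.discr := (dvd_pow_self _ two_ne_zero).trans h
      have h2 : p ∣ f.discr.natAbs := Int.natCast_dvd.1 h1
      exact (h2.mul_left 8).mul_right _
  · intro p hp h
    rw [hram p hp h]
    exact hirr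
  · intro p hp
    apply hspl p (hT p hp)
    apply hmod
    exact (Finset.dvd_prod_of_mem (fun p => p) hp).mul_left _

end Pool.Agent.H30T
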