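import Pool.Agent.H30T.Pre
import Pool.Agent.H30T.Defs2
import Pool.Agent.H30H.Fin
import Pool.Agent.Helper29J.Conv

/-!
# Project ET (helper30): the condition at two
-/

set_option autoImplicit false
set_option linter.all false

open Polynomial IsDedekindDomain NumberField
open scoped Classical

namespace Pool.Agent.H30T

open Pool.Agent.N783.PF
open Pool.Agent.Helper29J (NoSq)
open Pool.Agent.H30H (mem_under UnrW ResW unrW_iff resW_of surj_sq under_sq)

theorem int_of (y : 𝓞 ℚ) : ∃ n : ℤ, (n : 𝓞 ℚ) = y := by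
  refine ⟨Rat.ringOfIntegersEquiv y, ?_⟩
  apply Rat.ringOfIntegersEquiv.injective
  rw [map_intCast]
  rfl

section

variable {M : Type} [Field M] [NumberField M]

theorem two_loc (w : HeightOneSpectrum (𝓞 M)) (hw : (2 : 𝓞 M) ∈ w.asIdeal) (hs : SplitsAt M 2) :
    UnrW ℚ w ∧ ResW ℚ w ∧ (∀ n : ℤ, (n : 𝓞 M) ∈ w.asIdeal ^ 2 → (4 : ℤ) ∣ n) := by
  obtain ⟨p, hp, hvp, hpk⟩ := ratp (w.under (𝓞 ℚ))
  have h2 : (2 : 𝓞 ℚ) ∈ (w.under (𝓞 ℚ)).asIdeal := by
    rw [mem_under, map_ofNat]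
    exact hw
  have hp2 : p = 2 := by
    have h3 := (hpk 1 2).1 (by rw [pow_one]; exact_mod_cast h2)
    rw [pow_one] at h3
    have h4 : p ∣ 2 := by exact_mod_cast h3
    exact (Nat.prime_dvd_prime_iff_eq hp Nat.prime_two).1 h4
  subst hp2
  obtain ⟨h3, h4⟩ := hs w (by exact_mod_cast hw)
  have hu : UnrW ℚ w := by
    rw [unrW_iff, hvp, Ideal.map_span, Set.image_singleton, Ideal.span_singleton_le_iff_mem,
      map_natCast]
    exact h3
  refine ⟨hu, resW_of w (by rw [h4, AdmP.card_residue _ 2 hvp]), fun n hn => ?_⟩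
  have h5 := under_sq w hu ((n : ℤ) : 𝓞 ℚ) (by rw [map_intCast]; exact hn)
  have h6 := (hpk 2 n).1 h5
  exact_mod_cast h6

theorem good_M {f : ℤ[X]} (hG : GoodAtTwo f) (hm : f.Monic) {D : ℕ} (hD : D % 8 = 1)
    (hs : SplitsAt M 2) (w : HeightOneSpectrum (𝓞 M)) (hw : (2 : 𝓞 M) ∈ w.asIdeal) :
    NoSq w.asIdeal ((f.scaleRoots (D : ℤ)).map (algebraMap ℤ (𝓞 M))) ∧
      Irreducible (rd w.asIdeal ((f.scaleRoots (D : ℤ)).map (algebraMap ℤ (𝓞 M)))) := by
  obtain ⟨hu, hr, h4⟩ := two_loc w hw hs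
  -- the twist does not change the coefficients modulo `4`
  have hcoef : ∀ n : ℕ, (4 : ℤ) ∣ (f.scaleRoots (D : ℤ)).coeff n - f.coeff n := by
    intro n
    rw [coeff_scaleRoots]
    have e : f.coeff n * (D : ℤ) ^ (f.natDegree - n) - f.coeff n =
        f.coeff n * ((D : ℤ) ^ (f.natDegree - n) - 1) := by ring
    rw [e]
    apply Dvd.dvd.mul_left
    have h1 : (4 : ℤ) ∣ (D : ℤ) - 1 := by omega
    exact h1.trans (sub_one_dvd_pow_sub_one _ _)
  constructor
  · intro a s u hn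
    obtain ⟨φ, hφ⟩ : ∃ φ : ℤ →+* 𝓞 M ⧸ w.asIdeal ^ 2,
        φ = (Ideal.Quotient.mk (w.asIdeal ^ 2)).comp (algebraMap ℤ (𝓞 M)) := ⟨_, rfl⟩
    have hφs : Function.Surjective φ := by
      intro z
      obtain ⟨z₀, rfl⟩ := Ideal.Quotient.mk_surjective z
      obtain ⟨y, hy⟩ := surj_sq (F := ℚ) w hu hr z₀
      obtain ⟨n, rfl⟩ := int_of y
      refine ⟨n, ?_⟩
      rw [hφ]
      rw [map_intCast] at hy
      exact (Ideal.Quotient.eq.2 hy).symm
    have hs' := Polynomial.map_surjective φ hφs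
    obtain ⟨a₀, ha₀⟩ := hφs (Ideal.Quotient.mk _ a)
    obtain ⟨s₀, hs₀⟩ := hs' (s.map (Ideal.Quotient.mk _))
    obtain ⟨u₀, hu₀⟩ := hs' (u.map (Ideal.Quotient.mk _))
    have hff : ((f.scaleRoots (D : ℤ)).map (algebraMap ℤ (𝓞 M))).map
        (Ideal.Quotient.mk (w.asIdeal ^ 2)) = f.map φ := by
      rw [Polynomial.map_map, ← hφ]
      ext n
      rw [coeff_map, coeff_map, ← sub_eq_zero, ← map_sub]
      obtain ⟨d, hd⟩ := hcoef n
      rw [hd, hφ, RingHom.comp_apply, Ideal.Quotient.eq_zero_iff_mem, map_mul]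
      apply Ideal.mul_mem_right
      have e : algebraMap ℤ (𝓞 M) 4 = 2 * 2 := by
        rw [map_ofNat]
        norm_num
      rw [e, pow_two]
      exact Ideal.mul_mem_mul hw hw
    have h1 : (C a - X - (s ^ 2 + ((f.scaleRoots (D : ℤ)).map (algebraMap ℤ (𝓞 M))) * u)).map
        (Ideal.Quotient.mk (w.asIdeal ^ 2)) = 0 := by
      ext n
      rw [coeff_map, coeff_zero, Ideal.Quotient.eq_zero_iff_mem]
      exact hn n
    have h2 : (C a₀ - X - (s₀ ^ 2 + f * u₀)).map φ = 0 := by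
      rw [← h1]
      simp only [Polynomial.map_sub, Polynomial.map_add, Polynomial.map_mul, Polynomial.map_pow,
        map_C, map_X, hff, hs₀, hu₀, ha₀]
    refine hG.nosq a₀ s₀ u₀ fun n => h4 _ ?_
    have h3 := congrArg (fun p => p.coeff n) h2
    simp only [coeff_map, coeff_zero] at h3
    rw [hφ, RingHom.comp_apply, Ideal.Quotient.eq_zero_iff_mem, eq_intCast] at h3
    exact h3
  · have e1 : (f.scaleRoots (D : ℤ)).map (algebraMap ℤ (𝓞 M)) =
        (fO (f.scaleRoots (D : ℤ))).map (algebraMap (𝓞 ℚ) (𝓞 M)) := (map_fO _).symm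
    rw [e1]
    apply Pool.Agent.H30H.irr_res hr
    obtain ⟨p, hp, hvp, hpk⟩ := ratp (w.under (𝓞 ℚ))
    have h2 : (2 : 𝓞 ℚ) ∈ (w.under (𝓞 ℚ)).asIdeal := by
      rw [mem_under, map_ofNat]
      exact hw
    have hp2 : p = 2 := by
      have h3 := (hpk 1 2).1 (by rw [pow_one]; exact_mod_cast h2)
      rw [pow_one] at h3
      have h4 : p ∣ 2 := by exact_mod_cast h3
      exact (Nat.prime_dvd_prime_iff_eq hp Nat.prime_two).1 h4
    subst hp2
    rw [AdmP.irr_residue _ 2 hvp]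
    have e2 : (f.scaleRoots (D : ℤ)).map (Int.castRingHom (ZMod 2)) =
        f.map (Int.castRingHom (ZMod 2)) := by
      ext n
      rw [coeff_map, coeff_map, ← sub_eq_zero, ← map_sub, eq_intCast,
        ZMod.intCast_zmod_eq_zero_iff_dvd]
      exact (by norm_num : ((2 : ℕ) : ℤ) ∣ 4).trans (hcoef n)
    rw [e2]
    exact hG.irr

end

end Pool.Agent.H30T
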