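import Pool.Agent.H30T.Pts5
import Pool.Agent.H30T.Two6
import Pool.Agent.H30T.Inf

/-!
# Project ET (helper30): the final theorem for hyperelliptic curves
-/

set_option autoImplicit false
set_option linter.all false

open Polynomial IsDedekindDomain NumberField
open scoped Classical

namespace Pool.Agent.H30T

open Pool.Agent.N783.PF (SelZero fF rd Dp)
open Pool.Agent.Y160.SE Pool.Agent.Helper29J
open Pool.Agent.TH115.GD (incl)

structure P4 : Prop where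
  conv : V_CONV
  scl : V_SCL
  emb : V_EMB
  net : V_NET
  alg : V_ALG

theorem hyp_of {g : ℕ} {f : ℤ[X]} {p₀ : ℕ} (hg : 1 ≤ g) (h : IsGeneral g f p₀) : Hyp g f p₀ :=
  ⟨hg, h.monic, h.degree, h.galois, h.prime, h.odd, h.dvd, h.not_dvd⟩

theorem hyp_scale' {g : ℕ} {f : ℤ[X]} {p₀ : ℕ} (H : Hyp g f p₀) {l : ℕ} (hl : l ≠ 0)
    (hlp : ¬ p₀ ∣ l) : Hyp g (f.scaleRoots (l : ℤ)) p₀ := by
  have hl0 : (l : ℤ) ≠ 0 := by exact_mod_cast hl
  obtain ⟨η, hη, hdd⟩ := discr_scale H.one H.mon H.deg hl0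
  have hηu : IsUnit η := by
    rcases hη with rfl | rfl
    · exact isUnit_one
    · exact isUnit_one.neg
  have hcop : IsCoprime (p₀ : ℤ) ((l : ℤ) ^ ((2 * g + 1) * (2 * g))) := by
    apply IsCoprime.pow_right
    rw [Nat.isCoprime_iff_coprime]
    exact (Nat.Prime.coprime_iff_not_dvd H.prime).2 hlp
  refine ⟨H.one, (monic_scaleRoots_iff _).2 H.mon, by rw [natDegree_scaleRoots, H.deg], ?_, H.prime,
    H.ne, ?_, ?_⟩
  · rw [map_scaleRoots _ _ _ (by rw [H.mon.leadingCoeff, map_one]; exact one_ne_zero),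
      gal_scale (H.mon.map _) (by rw [eq_intCast]; exact_mod_cast hl)]
    exact H.gal
  · rw [hdd]
    exact Dvd.dvd.mul_left (Dvd.dvd.mul_left H.dvd _) _
  · rw [hdd]
    intro h
    apply H.ndvd
    have h1 := (hηu.dvd_mul_left).1 h
    exact hcop.pow_left.dvd_of_dvd_mul_left h1

/-- From the explicit 2-Selmer group to the descent. -/
theorem descent_of {M : Type} [Field M] [NumberField M] {g : ℕ} {F : (𝓞 M)[X]} (hm : F.Monic)
    (hd : F.natDegree = 2 * g + 1) (hirr : Irreducible (fF F)) (hsel : SelZero F) :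
    TrivialSelmerSets (fF F) ∧ (Function.Bijective fun x : Defs.J (fF F) M => x ^ 2) ∧
      ShaTwoTrivial (fF F) ∧
      ∀ ρ : M →+* ℝ, letI := ρ.toAlgebra; ∀ P : Defs.Curve (fF F) ℝ, Defs.Survives (fF F) ℝ P →
        Defs.InComponentOfInfinity (fF F) P := by
  have ho : Odd F.natDegree := by rw [hd]; exact ⟨g, rfl⟩
  have hoF : Odd (fF F).natDegree := by rw [hm.natDegree_map]; exact ho
  have hg : Good 2 (-1 : M) (fF F) := Pool.Agent.N424.JB.good_two two_ne_zero (hm.map _)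
    hirr.separable hoF
  obtain ⟨h1, h2⟩ := Pool.Agent.N783.PF.jac hm ho hirr hsel
  refine ⟨fun k ξ hξ => selmer_trivial hg h1 h2 hξ, h1, ?_, fun ρ => ?_⟩
  · intro ξ m hξ hv hρ hQ
    exact h2 ξ m hξ hv hρ hQ
  · letI := ρ.toAlgebra
    rintro P hP Q rfl e he
    have h3 := surv_some hg h1 h2 hP 1
    rw [pow_one] at h3
    refine local_real hg hoF (a := Q.1.1) (b := Q.1.2) ?_ h3 ?_
    · rw [Q.2, eval_map_algebraMap]
    · rw [eval_map_algebraMap]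
      exact he

theorem two_of {M : Type} [Field M] [NumberField M] {g : ℕ} (hg1 : 1 ≤ g) {f : ℤ[X]}
    (hm : f.Monic) (hd : f.natDegree = 2 * g + 1) (hG : GoodAtTwo f) {D : ℕ} (hD : D % 8 = 1)
    (hs : SplitsAt M 2) (hirr : Irreducible (fM M f D))
    (hsel : SelZero ((f.scaleRoots (D : ℤ)).map (algebraMap ℤ (𝓞 M)))) :
    OnlyInfinityAtTwo (fM M f D) := by
  have hmD : (f.scaleRoots (D : ℤ)).Monic := (monic_scaleRoots_iff _).2 hm
  exact (core2 hg1 (hmD.map (algebraMap ℤ (𝓞 M)))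
    (by rw [hmD.natDegree_map, natDegree_scaleRoots, hd]) hirr hsel
    (f₁ := (f.scaleRoots (D : ℤ)).map (algebraMap ℤ (𝓞 M))) (fun n => by simp)
    fun w hw => good_M hG hm hD hs w hw).2.1

theorem final0 (P : P4) (g : ℕ) (hg : 1 ≤ g) (f : ℤ[X]) (p₀ : ℕ) (hf : IsGeneral g f p₀) :
    ∃ c : ℕ, ∀ (M₀ : Type) [Field M₀] [NumberField M₀], AdmissibleFor M₀ f →
      ∀ m B : ℕ, 0 < m → ¬ p₀ ∣ m →
      ∃ D : ℕ, B < D ∧ Squarefree D ∧ D % (8 * m) = 1 ∧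
        (∀ q : ℕ, q.Prime → q ∣ D → SplitsAt M₀ q) ∧ AdmissibleFor M₀ (twist f D) ∧
        ManyQuadratic (twist f D) ∧
        ∀ (M : Type) [Field M] [NumberField M], AdmissibleFor M (twist f D) →
          SelZero ((f.scaleRoots (D : ℤ)).map (algebraMap ℤ (𝓞 M))) ∧
          Irreducible (fM M f D) ∧ (∀ P : Defs.Curve (fM M f D) M, P = Defs.infinity (fM M f D) M) ∧
          (∀ w : HeightOneSpectrum (𝓞 M), (2 : 𝓞 M) ∈ w.asIdeal →
            {P : Defs.Curve (fM M f D) (w.adicCompletion M) |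
              Defs.Survives (fM M f D) (w.adicCompletion M) P}.Finite ∧
            {P : Defs.Curve (fM M f D) (w.adicCompletion M) |
              Defs.Survives (fM M f D) (w.adicCompletion M) P}.ncard ≤ c) ∧
          (GoodAtTwo f → OnlyInfinityAtTwo (fM M f D)) := by
  have H := hyp_of hg hf
  have hm := hf.monic
  have hd := hf.degree
  have hirr := irr g f p₀ H
  obtain ⟨c, hc⟩ := bound P.conv P.scl P.emb P.net hg hm hd hirr
  obtain ⟨B₁, hB₁⟩ := points P.conv P.scl P.emb P.net P.alg hg hm hd hirr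
  refine ⟨c, fun M₀ _ _ h₀ m B hm0 hpm => ?_⟩
  haveI := h₀.galois
  have hun : UnrAt M₀ p₀ := (twf g f hg hm hd M₀ h₀).2 p₀ H.prime H.dvd H.ndvd
  obtain ⟨J, hJ0, hJ, hmain⟩ := main3 g f p₀ H M₀ hun m (max (max B B₁) p₀) hm0.ne' hpm
  have hJB : ∀ q ∈ J, B < q ∧ B₁ < q ∧ p₀ < q := by
    intro q hq
    have := (hJ q hq).2.1
    simp only [max_lt_iff] at this
    exact ⟨this.1.1, this.1.2, this.2⟩
  have hJp : ∀ q ∈ J, q.Prime := fun q hq => (hJ q hq).1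
  have hmem : ∀ q : ℕ, q.Prime → q ∣ Dp J → q ∈ J := by
    intro q hq hqd
    rw [Dp, hq.prime.dvd_finset_prod_iff] at hqd
    obtain ⟨r, hr, hqr⟩ := hqd
    rwa [(Nat.prime_dvd_prime_iff_eq hq (hJp r hr)).1 hqr]
  have hD0 : Dp J ≠ 0 := by
    rw [Dp, Finset.prod_ne_zero_iff]
    exact fun q hq => (hJp q hq).ne_zero
  obtain ⟨q₀, hq₀⟩ := hJ0
  have hq₀D : q₀ ∣ Dp J := Finset.dvd_prod_of_mem _ hq₀
  have hmod : Dp J % (8 * m) = 1 := by
    have h1 := prod_mod (b := 8 * m) (J := J) fun q hq => (hJ q hq).2.2.1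
    rw [h1, Nat.mod_eq_of_lt (by omega)]
  have hmod8 : Dp J % 8 = 1 := by
    have h1 : Dp J % (8 * m) % 8 = Dp J % 8 := Nat.mod_mod_of_dvd _ (Dvd.intro _ rfl)
    rw [← h1, hmod]
  have hsq : Squarefree (Dp J) := by
    rw [Dp]
    refine Finset.squarefree_prod_of_pairwise_isCoprime ?_ fun q hq => (hJp q hq).squarefree
    intro a ha b hb hab
    show IsRelPrime a b
    rw [← Nat.coprime_iff_isRelPrime]
    exact (Nat.coprime_primes (hJp a ha) (hJp b hb)).2 hab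
  have hp₀D : ¬ p₀ ∣ Dp J := by
    intro h
    exact lt_irrefl _ (hJB p₀ (hmem p₀ H.prime h)).2.2
  refine ⟨Dp J, (hJB q₀ hq₀).1.trans_le (Nat.le_of_dvd (Nat.pos_of_ne_zero hD0) hq₀D), hsq,
    hmod, fun q hq hqd => (hJ q (hmem q hq hqd)).2.2.2,
    (twf g f hg hm hd M₀ h₀).1 J fun q hq => ⟨hJp q hq, (hJ q hq).2.2.2⟩, ?_, ?_⟩
  · intro B'
    obtain ⟨l, M, i1, i2, s, h1, h2, h3, h4, h5, -⟩ := inf g _ p₀ (hyp_scale' H hD0 hp₀D) ∅ B'
      (by simp)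
    exact ⟨l, M, i1, i2, s, h1, h2, h3, h4, h5⟩
  · intro M _ _ hM
    obtain ⟨hsel, hirrM⟩ := hmain M hM
    have hs2 : SplitsAt M 2 := hM.split 2 Nat.prime_two (Or.inl rfl)
    have hq₀sq : ((q₀ : ℕ) : ℤ) ^ 2 ∣ (f.scaleRoots ((Dp J : ℕ) : ℤ)).discr := by
      obtain ⟨η, hη, hdd⟩ := discr_scale hg hm hd (D := ((Dp J : ℕ) : ℤ)) (by exact_mod_cast hD0)
      rw [hdd]
      refine Dvd.dvd.mul_left (Dvd.dvd.mul_right ?_ _) _
      refine (pow_dvd_pow_of_dvd (by exact_mod_cast hq₀D) 2).trans (pow_dvd_pow _ ?_)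
      nlinarith
    have hq₀M : ¬ RamifiedAt M q₀ := by
      rintro ⟨w, hw⟩
      exact (hM.split q₀ (hJp q₀ hq₀) (Or.inr hq₀sq) w (Ideal.pow_le_self two_ne_zero hw)).1 hw
    exact ⟨hsel, hirrM,
      hB₁ (Dp J) hmod8 hsq M hs2 hirrM hsel q₀ (hJp q₀ hq₀) hq₀D (hJB q₀ hq₀).2.1 hq₀M,
      fun w hw => hc (Dp J) hmod8 M hs2 hirrM hsel w hw,
      fun hG => two_of hg hm hd hG hmod8 hs2 hirrM hsel⟩

theorem final (P : P4) (g : ℕ) (hg : 1 ≤ g) (f : ℤ[X]) (p₀ : ℕ) (hf : IsGeneral g f p₀) :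
    ∃ c : ℕ, ∀ (M₀ : Type) [Field M₀] [NumberField M₀], AdmissibleFor M₀ f →
      ∀ m B : ℕ, 0 < m → ¬ p₀ ∣ m →
      ∃ D : ℕ, B < D ∧ Squarefree D ∧ D % (8 * m) = 1 ∧
        (∀ q : ℕ, q.Prime → q ∣ D → SplitsAt M₀ q) ∧ AdmissibleFor M₀ (twist f D) ∧
        ManyQuadratic (twist f D) ∧
        ∀ (M : Type) [Field M] [NumberField M], AdmissibleFor M (twist f D) →
          DescentTrivial (overField M (twist f D)) c ∧
          (GoodAtTwo f → OnlyInfinityAtTwo (overField M (twist f D))) := by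
  obtain ⟨c, hc⟩ := final0 P g hg f p₀ hf
  refine ⟨c, fun M₀ _ _ h₀ m B hm0 hpm => ?_⟩
  obtain ⟨D, h1, h2, h3, h4, h5, h6, h7⟩ := hc M₀ h₀ m B hm0 hpm
  refine ⟨D, h1, h2, h3, h4, h5, h6, fun M _ _ hM => ?_⟩
  obtain ⟨hsel, hirrM, hP, hw, hG⟩ := h7 M hM
  have e : overField M (twist f D) = fM M f D := (fM_eq M f D).symm
  rw [e]
  have hmD : (f.scaleRoots (D : ℤ)).Monic := (monic_scaleRoots_iff _).2 hf.monic
  obtain ⟨d1, d2, d3, d4⟩ := descent_of (g := g) (hmD.map (algebraMap ℤ (𝓞 M)))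
    (by rw [hmD.natDegree_map, natDegree_scaleRoots, hf.degree]) hirrM hsel
  exact ⟨⟨d1, d2, d3, hP, d4, hw⟩, hG⟩

end Pool.Agent.H30T
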