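import Pool.Agent.H30T.Cubic6
import Pool.Agent.H30T.Final6
import Pool.Agent.H30T.Ell
import Pool.Agent.H30T.Defs7

/-!
# Project ET (helper30): the final theorem for elliptic curves
-/

set_option autoImplicit false
set_option linter.all false

open Polynomial IsDedekindDomain NumberField
open scoped Classical

namespace Pool.Agent.H30T

open Pool.Agent.N783.PF (SelZero fF)
open Pool.Agent.Helper29J
open Pool.Agent.H30EV (curve SelmerTrivial ShaTrivial Trivial)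

theorem admE_iff {F : Type} [Field F] [NumberField F] {A B : ℤ} :
    AdmissibleE F A B ↔ AdmissibleFor F (cubic A B) := by
  have e : ∀ p : ℕ, (p : ℤ) ^ 2 ∣ (cubic A B).discr ↔ (p : ℤ) ^ 2 ∣ 4 * A ^ 3 + 27 * B ^ 2 := by
    intro p
    rw [cubic_discr, dvd_neg]
  constructor
  · rintro ⟨h1, h2, h3, h4, h5⟩
    exact ⟨h1, h2, h3, fun p hp h => h4 p hp (by rwa [e] at h),
      fun p hp h => (cubic_modp A B hp).2 (h5 p hp h)⟩
  · rintro ⟨h1, h2, h3, h4, h5⟩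
    exact ⟨h1, h2, h3, fun p hp h => h4 p hp (by rwa [e]),
      fun p hp h => (cubic_modp A B hp).1 (h5 p hp h)⟩

/-- A nonsingular affine point gives a point of the curve in the sense of `Helper29J`. -/
theorem points_trivial {M : Type} [Field M] [NumberField M] {A B : ℤ} {f : M[X]}
    (hf : f = X ^ 3 + C (A : M) * X + C (B : M))
    (h : ∀ P : Defs.Curve f M, P = Defs.infinity f M) :
    Subsingleton (curve M (A, B)).toAffine.Point := by
  have key : ∀ P : (curve M (A, B)).toAffine.Point, P = 0 := by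
    intro P
    rcases P with _ | ⟨x, y, hxy⟩
    · rfl
    · exfalso
      have h1 : (curve M (A, B)).toAffine.Equation x y := hxy.1
      rw [WeierstrassCurve.Affine.equation_iff] at h1
      simp only [curve] at h1
      have h2 : y ^ 2 = aeval x f := by
        rw [hf]
        simp only [map_add, map_pow, aeval_X, map_mul, aeval_C, Algebra.algebraMap_self,
          RingHom.id_apply]
        linear_combination h1
      have h3 := h (some ⟨(x, y), h2⟩)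
      exact Option.some_ne_none _ h3
  exact ⟨fun P Q => (key P).trans (key Q).symm⟩

theorem finalE (P : P4) (A B : ℤ) (h : ∀ x : ℤ, x ^ 3 + A * x + B ≠ 0) {p₀ : ℕ} (hp : p₀.Prime)
    (h2 : p₀ ≠ 2) (hd : (p₀ : ℤ) ∣ 4 * A ^ 3 + 27 * B ^ 2)
    (hd2 : ¬ (p₀ : ℤ) ^ 2 ∣ 4 * A ^ 3 + 27 * B ^ 2)
    (F₀ : Type) [Field F₀] [NumberField F₀] (h₀ : AdmissibleE F₀ A B)
    (m N : ℕ) (hm : 0 < m) (hpm : ¬ p₀ ∣ m) :
    ∃ D : ℕ, N < D ∧ Squarefree D ∧ D % (8 * m) = 1 ∧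
      (∀ q : ℕ, q.Prime → q ∣ D → SplitsAt F₀ q) ∧
      AdmissibleE F₀ (A * (D : ℤ) ^ 2) (B * (D : ℤ) ^ 3) ∧
      ManyQuadraticE (A * (D : ℤ) ^ 2) (B * (D : ℤ) ^ 3) ∧
      ∀ (F : Type) [Field F] [NumberField F], AdmissibleE F (A * (D : ℤ) ^ 2) (B * (D : ℤ) ^ 3) →
        Trivial F (A * (D : ℤ) ^ 2, B * (D : ℤ) ^ 3) := by
  have hf := cubic_general A B h hp h2 hd hd2
  obtain ⟨c, hc⟩ := final0 P 1 le_rfl (cubic A B) p₀ hf
  obtain ⟨D, e1, e2, e3, e4, e5, e6, e7⟩ := hc F₀ (admE_iff.1 h₀) m N hm hpm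
  have hD0 : (D : ℤ) ≠ 0 := by exact_mod_cast e2.ne_zero
  have hS : twist (cubic A B) D = cubic (A * (D : ℤ) ^ 2) (B * (D : ℤ) ^ 3) := cubic_scale A B D
  refine ⟨D, e1, e2, e3, e4, ?_, ?_, ?_⟩
  · rw [admE_iff, ← hS]
    exact e5
  · intro N'
    obtain ⟨l, M, i1, i2, s, g1, g2, g3, g4, g5⟩ := e6 N'
    exact ⟨l, M, i1, i2, s, g1, g2, g3, g4, admE_iff.2 (hS ▸ g5)⟩
  · intro F _ _ hF
    rw [admE_iff, ← hS] at hF
    obtain ⟨hsel, hirrM, hP, -, -⟩ := e7 F hF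
    have e : fM F (cubic A B) D =
        X ^ 3 + C ((A * (D : ℤ) ^ 2 : ℤ) : F) * X + C ((B * (D : ℤ) ^ 3 : ℤ) : F) := by
      rw [fM_eq]
      show ((cubic A B).scaleRoots (D : ℤ)).map (Int.castRingHom F) = _
      rw [cubic_scale]
      exact cubic_map (K := F) _ _
    have hne : 4 * (A * (D : ℤ) ^ 2) ^ 3 + 27 * (B * (D : ℤ) ^ 3) ^ 2 ≠ 0 := by
      have h3 : 4 * (A * (D : ℤ) ^ 2) ^ 3 + 27 * (B * (D : ℤ) ^ 3) ^ 2 =
          (D : ℤ) ^ 6 * (4 * A ^ 3 + 27 * B ^ 2) := by ring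
      rw [h3]
      refine mul_ne_zero (pow_ne_zero _ hD0) ?_
      intro h4
      apply hd2
      rw [h4]
      exact dvd_zero _
    have hs' : SelZero ((X ^ 3 + C (A * (D : ℤ) ^ 2) * X + C (B * (D : ℤ) ^ 3) : ℤ[X]).map
        (algebraMap ℤ (𝓞 F))) := by
      have h5 : (cubic A B).scaleRoots (D : ℤ) =
          (X ^ 3 + C (A * (D : ℤ) ^ 2) * X + C (B * (D : ℤ) ^ 3) : ℤ[X]) := cubic_scale A B D
      rw [← h5]
      exact hsel
    obtain ⟨-, -, t3, t4⟩ := ell F (A * (D : ℤ) ^ 2) (B * (D : ℤ) ^ 3) hne (by rw [← e]; exact hirrM)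
      hs'
    exact ⟨points_trivial e hP, t3, t4⟩

end Pool.Agent.H30T
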