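import Pool.Agent.H30T.Stm2
import Pool.Agent.H30T.Gal

/-! # Piece IRR: the polynomial is irreducible -/

set_option autoImplicit false
set_option linter.all false

open Polynomial NumberField
open scoped Classical

namespace Pool.Agent.H30T

open GalP in
theorem irr : T_IRR := by
  intro g f p₀ hyp
  have hinj : Function.Injective (Int.castRingHom ℚ) := Int.cast_injective
  have hd0 : f.discr ≠ 0 := by
    intro h0
    exact hyp.ndvd (by rw [h0]; exact dvd_zero _)
  set p : ℚ[X] := f.map (Int.castRingHom ℚ) with hp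
  have hmon : p.Monic := hyp.mon.map _
  have hsep : p.Separable := separable_of_discr hyp.mon (by rw [hyp.deg]; omega) hd0
  have hdeg : p.natDegree = 2 * g + 1 := by
    rw [hp, natDegree_map_eq_of_injective hinj, hyp.deg]
  obtain ⟨N, iF, iN, iG, -, -, -, -, -, hsp⟩ := exists_closure ℚ 1 1 one_ne_zero p hmon.ne_zero
  obtain ⟨ρ, hρ, hρ2⟩ := exists_action (N := N) p hsep hsp (by rw [hdeg]; exact hyp.gal)
  have hcard := (prod_rootSet (N := N) p hmon hsep hsp).1
  have hne : Nonempty (p.rootSet N) := by
    rw [← Fintype.card_pos_iff, hcard, hdeg]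
    omega
  obtain ⟨⟨x, hx⟩⟩ := hne
  have hint : IsIntegral ℚ x := Algebra.IsIntegral.isIntegral x
  have hne0 : minpoly ℚ x ≠ 0 := minpoly.ne_zero hint
  have hdvd : minpoly ℚ x ∣ p := minpoly.dvd ℚ x (mem_rootSet.1 hx).2
  have hle : p.natDegree ≤ (minpoly ℚ x).natDegree := by
    rw [← hcard]
    have h1 : p.rootSet N ⊆ (minpoly ℚ x).rootSet N := by
      intro y hy
      obtain ⟨c, hc⟩ := hρ (Equiv.swap ⟨x, hx⟩ ⟨y, hy⟩)
      have h2 := hρ2 c ⟨x, hx⟩
      rw [hc, Equiv.swap_apply_left] at h2
      rw [mem_rootSet]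
      refine ⟨hne0, ?_⟩
      have h3 : y = (c : N →ₐ[ℚ] N) x := h2
      rw [h3, aeval_algHom_apply, minpoly.aeval, map_zero]
    have h2 : (p.rootSet N).toFinset ⊆ ((minpoly ℚ x).rootSet N).toFinset := by
      simpa using h1
    calc Fintype.card (p.rootSet N) = (p.rootSet N).toFinset.card := (Set.toFinset_card _).symm
      _ ≤ ((minpoly ℚ x).rootSet N).toFinset.card := Finset.card_le_card h2
      _ = ((minpoly ℚ x).aroots N).toFinset.card := by
          congr 1
          ext z
          rw [Set.mem_toFinset, rootSet, Finset.mem_coe, Multiset.mem_toFinset]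
      _ ≤ (minpoly ℚ x).natDegree := by
          refine (Multiset.toFinset_card_le _).trans ?_
          refine (card_roots' _).trans ?_
          exact natDegree_map_le
  have heq : minpoly ℚ x = p := (eq_of_monic_of_dvd_of_natDegree_le (minpoly.monic hint) hmon hdvd hle).symm
  rw [← heq]
  exact minpoly.irreducible hint

end Pool.Agent.H30T
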