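import Pool.Agent.H30T.Done
import Pool.Agent.H30T.Asm3
import Pool.Agent.H30T.Irr
import Pool.Agent.H30T.Adm
import Pool.Agent.H30T.Dsq
import Pool.Agent.H30T.Ell

/-!
# Project ET (helper30): the first form of the theorem
-/

set_option autoImplicit false

namespace Pool.Agent.H30T

open Pool.Agent.N783.PF

theorem a_dsc : T_DSC := dsc_inv
theorem a_trl : T_TRL := trl
theorem a_adm : T_ADM := adm a_dsc

theorem t_main : T_MAIN :=
  main0 a_exq a_csq a_pin a_par a_parq a_ram a_core a_dsc a_trl irr dsq
    (select irr fin a_cheb) a_adm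

theorem u_main (h : U_SELECT) : U_MAIN :=
  main2 a_exq a_csq a_pin a_par a_parq a_ram a_core a_dsc a_trl irr dsq h a_adm

end Pool.Agent.H30T
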