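import Pool.Agent.H30T.Stm3
import Pool.Agent.H30T.Gal

/-! # Piece GAL2: the Galois closure, with a field given in advance -/

set_option autoImplicit false
set_option linter.all false

open Polynomial IsDedekindDomain Matrix NumberField
open scoped Classical

namespace Pool.Agent.H30T

namespace GalP

/-- two number fields are contained in a third one -/
theorem exists_common (A B : Type) [Field A] [NumberField A] [Field B] [NumberField B] :
    ∃ (E : Type) (_ : Field E) (_ : NumberField E), Nonempty (A →+* E) ∧ Nonempty (B →+* E) := by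
  let Ω := AlgebraicClosure A
  let j : B →ₐ[ℚ] Ω := IsAlgClosed.lift
  let i : A →ₐ[ℚ] Ω := IsScalarTower.toAlgHom ℚ A Ω
  have f1 := LinearEquiv.finiteDimensional (AlgEquiv.ofInjectiveField i).toLinearEquiv
  have f2 := LinearEquiv.finiteDimensional (AlgEquiv.ofInjectiveField j).toLinearEquiv
  let E : IntermediateField ℚ Ω := i.fieldRange ⊔ j.fieldRange
  have f3 : FiniteDimensional ℚ E := @IntermediateField.finiteDimensional_sup _ _ _ _ _ i.fieldRange j.fieldRange f1 f2
  have : NumberField E := ⟨⟩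
  refine ⟨E, inferInstance, inferInstance, ⟨?_⟩, ⟨?_⟩⟩
  · exact (IntermediateField.inclusion (le_sup_left : i.fieldRange ≤ E)).toRingHom.comp i.rangeRestrict.toRingHom
  · exact (IntermediateField.inclusion (le_sup_right : j.fieldRange ≤ E)).toRingHom.comp j.rangeRestrict.toRingHom

/-- the Galois closure, which contains another field -/
theorem exists_closure2 (L M : Type) [Field L] [NumberField L] [Field M] [NumberField M] (α : L) (p : ℚ[X]) (hp : p ≠ 0) :
    ∃ (N : Type) (_ : Field N) (_ : NumberField N) (_ : IsGalois ℚ N) (ι : L →ₐ[ℚ] N) (κ : M →+* N) (β : N),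
      β ^ 2 = ι α ∧ (p.map (algebraMap ℚ N)).Splits := by
  obtain ⟨E, _, _, ⟨a⟩, ⟨b⟩⟩ := exists_common L M
  obtain ⟨N, iF, iN, iG, ι, ζ, β, -, hβ, hsp⟩ := exists_closure E (a α) 1 one_ne_zero p hp
  exact ⟨N, iF, iN, iG, ι.comp a.toRatAlgHom, (ι : E →+* N).comp b, β, hβ, hsp⟩

/-- the image of a normal field is stable -/
theorem range_normal {M N : Type} [Field M] [NumberField M] [IsGalois ℚ M] [Field N] [NumberField N] (κ : M →+* N)
    (b : N ≃ₐ[ℚ] N) (y : M) : ∃ z : M, κ z = b (κ y) := by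
  let κ' : M →ₐ[ℚ] N := κ.toRatAlgHom
  let e : M ≃ₐ[ℚ] κ'.fieldRange := AlgEquiv.ofInjectiveField κ'
  have hn := Normal.of_algEquiv e
  have h1 := @AlgHom.fieldRange_of_normal _ _ _ _ _ κ'.fieldRange hn ((b : N →ₐ[ℚ] N).comp κ'.fieldRange.val)
  have h2 : b (κ y) ∈ κ'.fieldRange := by
    rw [← h1]
    exact ⟨⟨κ y, ⟨y, rfl⟩⟩, rfl⟩
  obtain ⟨z, hz⟩ := h2
  exact ⟨z, hz⟩

end GalP

open GalP in
theorem gal2 (hS : U_SN) (hG : U_GRP) (hO : U_ODD) : U_GAL := by
  intro g f p₀ hyp L _ _ θ hθ hL α hα hnorm hsq M₁ _ _ _ hunr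
  have hinj : Function.Injective (Int.castRingHom ℚ) := Int.cast_injective
  have hd0 : f.discr ≠ 0 := by
    intro h0
    exact hyp.ndvd (by rw [h0]; exact dvd_zero _)
  have h1g := hyp.one
  set p : ℚ[X] := f.map (Int.castRingHom ℚ) with hp
  have hmon : p.Monic := hyp.mon.map _
  have hsep : p.Separable := separable_of_discr hyp.mon (by rw [hyp.deg]; omega) hd0
  have hdeg : p.natDegree = 2 * g + 1 := by
    rw [hp, natDegree_map_eq_of_injective hinj, hyp.deg]
  have hθp : aeval θ p = 0 := by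
    have h := aeval_map_algebraMap ℚ θ f
    rw [hθ] at h
    exact h
  obtain ⟨N, iF, iN, iG, ι, κ, β₁, hβ, hsp⟩ := exists_closure2 L M₁ α p hmon.ne_zero
  obtain ⟨ρ, hρ, hρ2⟩ := exists_action (N := N) p hsep hsp (by rw [hdeg]; exact hyp.gal)
  obtain ⟨hcard, hprod⟩ := prod_rootSet (N := N) p hmon hsep hsp
  rw [hdeg] at hcard
  have hi : ι θ ∈ p.rootSet N := by
    rw [mem_rootSet]
    refine ⟨hmon.ne_zero, ?_⟩
    rw [aeval_algHom_apply, hθp, map_zero]
  have hfN : f.map (Int.castRingHom N) = ∏ s : p.rootSet N, (X - C (s : N)) := by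
    rw [← hprod, hp, Polynomial.map_map]
    congr 1
    exact RingHom.ext_int _ _
  set i₁ : p.rootSet N := ⟨ι θ, hi⟩ with hi₁
  have hβ0 : β₁ ≠ 0 := by
    intro h0
    rw [h0, zero_pow two_ne_zero] at hβ
    exact hα ((map_eq_zero ι).1 hβ.symm)
  have hext : ∀ a : N ≃ₐ[ℚ] N, ρ a i₁ = i₁ → ∀ x : L, a (ι x) = ι x := by
    intro a ha x
    have h1 := hρ2 a i₁
    rw [ha] at h1
    have h2 := ext_hom p hmon hsep hsp ρ hρ hρ2 θ hθp (by rw [hL, hdeg]) ι ((a : N →ₐ[ℚ] N).comp ι) ι h1.symm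
    exact DFunLike.congr_fun h2 x
  have hun : ∀ e e' : ℤˣ, (((e : ℤˣ) : ℤ) : N) = (((e' : ℤˣ) : ℤ) : N) → e = e' := by
    intro e e' h
    exact Units.ext (Int.cast_injective h)
  set ψ : (N ≃ₐ[ℚ] N) → ℤˣ := fun a => if a β₁ = β₁ then 1 else -1 with hψdef
  have hψ : ∀ a : N ≃ₐ[ℚ] N, ρ a i₁ = i₁ → a β₁ = ((ψ a : ℤ) : N) * β₁ := by
    intro a ha
    have h1 : (a β₁) ^ 2 = β₁ ^ 2 := by
      rw [← map_pow, hβ, hext a ha]
    simp only [hψdef]
    rcases sq_eq_sq_iff_eq_or_eq_neg.1 h1 with h2 | h2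
    · rw [if_pos h2]
      simp [h2]
    · have h3 : ¬ a β₁ = β₁ := by
        rw [h2]
        intro h4
        exact hβ0 (self_eq_neg.1 h4.symm)
      rw [if_neg h3]
      simp [h2]
  have hmul : ∀ a b : N ≃ₐ[ℚ] N, ρ a i₁ = i₁ → ρ b i₁ = i₁ → ψ (a * b) = ψ a * ψ b := by
    intro a b ha hb
    have hab : ρ (a * b) i₁ = i₁ := by
      rw [map_mul, Equiv.Perm.mul_apply, hb, ha]
    have h1 := hψ _ hab
    rw [AlgEquiv.mul_apply, hψ b hb, map_mul, map_intCast, hψ a ha, ← mul_assoc] at h1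
    have h2 := mul_right_cancel₀ hβ0 h1
    refine (hun _ _ ?_).symm
    rw [Units.val_mul, Int.cast_mul, mul_comm]
    exact h2
  have hnc : ∀ v : N ≃ₐ[ℚ] N, ρ v = 1 → ∀ t : p.rootSet N → (N ≃ₐ[ℚ] N), (∀ i, ρ (t i) i₁ = i) →
      ∏ i, ψ ((t i)⁻¹ * v * t i) = 1 := by
    intro v hv t ht
    have hval : ∀ i : p.rootSet N, t i (ι θ) = i := by
      intro i
      have h1 := hρ2 (t i) i₁
      rw [ht] at h1
      exact h1.symm
    obtain ⟨r, hr⟩ := rat ι (I := p.rootSet N) (by rw [hcard, hL]) θ α β₁ hβ hnorm t (by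
      intro i j hij
      simp only [hval] at hij
      exact Subtype.ext hij)
    have h1 : ∀ i, v (t i β₁) = ((ψ ((t i)⁻¹ * v * t i) : ℤ) : N) * t i β₁ := by
      intro i
      have h2 : ρ ((t i)⁻¹ * v * t i) i₁ = i₁ := by
        rw [map_mul, map_mul, hv, mul_one, map_inv, Equiv.Perm.mul_apply, ht, Equiv.Perm.inv_eq_iff_eq]
        exact (ht i).symm
      have h3 := congrArg (t i) (hψ _ h2)
      rw [map_mul, map_intCast] at h3
      rw [← h3]
      show v (t i β₁) = (t i * ((t i)⁻¹ * v * t i)) β₁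
      rw [← mul_assoc, ← mul_assoc, mul_inv_cancel, one_mul]
      rfl
    have h2 : v (∏ i, t i β₁) = ((∏ i, ψ ((t i)⁻¹ * v * t i) : ℤˣ) : ℤ) * ∏ i, t i β₁ := by
      rw [map_prod, Finset.prod_congr rfl fun i _ => h1 i, Finset.prod_mul_distrib, Units.coe_prod, Int.cast_prod]
    have h3 : (∏ i, t i β₁) ≠ 0 := by
      rw [Finset.prod_ne_zero_iff]
      intro i _ h0
      exact hβ0 ((map_eq_zero (t i)).1 h0)
    have h4 : v (∏ i, t i β₁) = ∏ i, t i β₁ := by
      rw [hr, AlgEquiv.commutes]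
    rw [h4] at h2
    refine hun _ _ ?_
    rw [Units.val_one, Int.cast_one]
    exact (mul_right_cancel₀ h3 (by rw [one_mul]; exact h2)).symm
  -- the subgroup fixing the field
  let H : Subgroup (N ≃ₐ[ℚ] N) :=
    { carrier := {a | ∀ y : M₁, a (κ y) = κ y}
      mul_mem' := by
        intro a b ha hb y
        show a (b (κ y)) = κ y
        rw [hb y, ha y]
      one_mem' := fun y => rfl
      inv_mem' := by
        intro a ha y
        show a.symm (κ y) = κ y
        rw [AlgEquiv.symm_apply_eq]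
        exact (ha y).symm }
  have hH : ∀ a, a ∈ H ↔ ∀ y : M₁, a (κ y) = κ y := fun a => Iff.rfl
  have hHn : H.Normal := by
    refine ⟨fun a ha b => ?_⟩
    rw [hH]
    intro y
    obtain ⟨z, hz⟩ := range_normal κ b⁻¹ y
    show b (a (b⁻¹ (κ y))) = κ y
    rw [← hz, (hH a).1 ha, hz]
    exact AlgEquiv.apply_symm_apply b _
  have hodd : ∃ a ∈ H, Equiv.Perm.sign (ρ a) = -1 := by
    let e : p.rootSet N ≃ Fin (2 * g + 1) := Fintype.equivFinOfCardEq hcard
    obtain ⟨σ, π, h1, h2, h3⟩ := hO N (2 * g + 1) f (fun i => ((e.symm i : p.rootSet N) : N)) (by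
      rw [hfN]
      exact (Equiv.prod_comp e.symm fun s : p.rootSet N => (X - C (s : N))).symm) (by
      intro i j hij
      exact e.symm.injective (Subtype.ext hij)) p₀ hyp.prime hyp.dvd hyp.ndvd M₁ κ hunr
    refine ⟨σ, (hH σ).2 h1, ?_⟩
    have h4 : ρ σ = e.symm.permCongr π := by
      ext s
      rw [hρ2]
      have h5 := h2 (e s)
      simp only [Equiv.symm_apply_apply] at h5
      rw [h5]
      simp [Equiv.permCongr_apply]
    rw [h4, Equiv.Perm.sign_permCongr, h3]
  have hsurj : ∀ π : Equiv.Perm (p.rootSet N), ∃ a ∈ H, ρ a = π := by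
    have h1 : H.map ρ = ⊤ := by
      refine hS (p.rootSet N) g (H.map ρ) h1g hcard (hHn.map ρ hρ) ?_
      obtain ⟨a, ha, ha'⟩ := hodd
      exact ⟨ρ a, ⟨a, ha, rfl⟩, ha'⟩
    intro π
    have h2 : π ∈ H.map ρ := by
      rw [h1]
      exact Subgroup.mem_top _
    exact h2
  rcases hG g (N ≃ₐ[ℚ] N) (p.rootSet N) ρ H i₁ ψ h1g hcard hHn hsurj hmul hnc with
    ⟨σ, hσH, hσ1, hσc, hσs, hσψ⟩ | hall
  · -- the cycle
    have hv : ∀ (a : N ≃ₐ[ℚ] N) (j : ℕ) (s : p.rootSet N), (((ρ a) ^ j) s : p.rootSet N) = ((a ^ j) (s : N) : N) := by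
      intro a j s
      rw [← map_pow, hρ2]
    obtain ⟨s₂, hs₂⟩ : ∃ s : p.rootSet N, s ≠ i₁ := by
      have : Nontrivial (p.rootSet N) := by
        rw [← Fintype.one_lt_card_iff_nontrivial, hcard]
        omega
      exact exists_ne i₁
    obtain ⟨t, ht⟩ := hρ (Equiv.swap i₁ s₂)
    have ht1 : ρ t i₁ = s₂ := by rw [ht, Equiv.swap_apply_left]
    have ht2 : t (ι θ) = s₂ := by
      have h1 := hρ2 t i₁
      rw [ht1] at h1
      exact h1.symm
    set c : Equiv.Perm (p.rootSet N) := ρ σ with hc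
    have hsupp : s₂ ∈ c.support := by
      rw [hσs]
      exact Finset.mem_erase.2 ⟨hs₂, Finset.mem_univ _⟩
    have hcs : c.support.card = 2 * g := by
      rw [hσs, Finset.card_erase_of_mem (Finset.mem_univ _), Finset.card_univ, hcard]
      omega
    have hord : orderOf c = 2 * g := by rw [hσc.orderOf, hcs]
    have himg : (Finset.range (2 * g)).image (fun j => (c ^ j) s₂) = c.support := by
      apply Finset.Subset.antisymm
      · intro y hy
        obtain ⟨j, _, rfl⟩ := Finset.mem_image.1 hy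
        exact Equiv.Perm.pow_apply_mem_support.2 hsupp
      · intro y hy
        obtain ⟨i, hi⟩ := hσc.exists_pow_eq (Equiv.Perm.mem_support.1 hsupp) (Equiv.Perm.mem_support.1 hy)
        refine Finset.mem_image.2 ⟨i % (2 * g), Finset.mem_range.2 (Nat.mod_lt _ (by omega)), ?_⟩
        show (c ^ (i % (2 * g))) s₂ = y
        rw [← hord, pow_mod_orderOf, hi]
    have hinjOn : Set.InjOn (fun j => (c ^ j) s₂) (Finset.range (2 * g)) := by
      rw [← Finset.card_image_iff, himg, hcs, Finset.card_range]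
    have hσθ : σ (ι θ) = ι θ := by
      have h1 := hρ2 σ i₁
      rw [hσ1] at h1
      exact h1.symm
    have hfix : (σ ^ (2 * g)) (t (ι θ)) = t (ι θ) := by
      rw [ht2, ← hv, ← hc, ← hord, pow_orderOf_eq_one]
      rfl
    have hprod2 : f.map (Int.castRingHom N) =
        (X - C (ι θ)) * ∏ j ∈ Finset.range (2 * g), (X - C ((σ ^ j) (t (ι θ)))) := by
      rw [hfN, ← Finset.mul_prod_erase Finset.univ _ (Finset.mem_univ i₁), ← hσs, ← himg, Finset.prod_image hinjOn]
      congr 1
      refine Finset.prod_congr rfl fun j _ => ?_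
      rw [hv, ht2]
    have hneg : (σ ^ (2 * g)) (t β₁) = -(t β₁) := by
      let B : ℕ → N := fun j => (σ ^ j) (t β₁)
      let u : Fin (2 * g + 1) → (N ≃ₐ[ℚ] N) := Fin.cons 1 fun j => σ ^ (j : ℕ) * t
      have hu0 : u 0 = 1 := rfl
      have hus : ∀ j : Fin (2 * g), u j.succ = σ ^ (j : ℕ) * t := fun j => rfl
      have hus' : ∀ j : Fin (2 * g), u j.succ (ι θ) = (((c ^ (j : ℕ)) s₂ : p.rootSet N) : N) := by
        intro j
        rw [hus, hv, ← ht2]
        rfl
      have hne : ∀ j : Fin (2 * g), u j.succ (ι θ) ≠ u 0 (ι θ) := by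
        intro j h0
        rw [hus', hu0] at h0
        have h1 : (c ^ (j : ℕ)) s₂ = i₁ := Subtype.ext h0
        have h2 : (c ^ (j : ℕ)) s₂ ∈ c.support := Equiv.Perm.pow_apply_mem_support.2 hsupp
        rw [h1, hσs] at h2
        exact (Finset.mem_erase.1 h2).1 rfl
      obtain ⟨r, hr⟩ := rat ι (I := Fin (2 * g + 1)) (by rw [Fintype.card_fin, hL]) θ α β₁ hβ hnorm u (by
        intro i j hij
        simp only at hij
        induction i using Fin.cases with
        | zero =>
          induction j using Fin.cases with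
          | zero => rfl
          | succ j => exact absurd hij.symm (hne j)
        | succ i =>
          induction j using Fin.cases with
          | zero => exact absurd hij (hne i)
          | succ j =>
            rw [hus', hus'] at hij
            have h1 := hinjOn (Finset.mem_coe.2 (Finset.mem_range.2 i.2)) (Finset.mem_coe.2 (Finset.mem_range.2 j.2))
              (Subtype.ext hij)
            rw [Fin.ext h1])
      rw [Fin.prod_univ_succ, hu0] at hr
      have h1 : ∏ j : Fin (2 * g), u j.succ β₁ = ∏ j ∈ Finset.range (2 * g), B j := by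
        rw [Finset.prod_range]
        rfl
      rw [h1] at hr
      have h2 := congrArg σ hr
      rw [AlgEquiv.commutes, ← hr, map_mul, map_prod] at h2
      have h3 : σ ((1 : N ≃ₐ[ℚ] N) β₁) = - β₁ := by
        show σ β₁ = - β₁
        rw [hψ σ hσ1, hσψ]
        simp
      have h4 : ∀ j, σ (B j) = B (j + 1) := by
        intro j
        show σ ((σ ^ j) (t β₁)) = (σ ^ (j + 1)) (t β₁)
        rw [pow_succ']
        rfl
      rw [h3, Finset.prod_congr rfl fun j _ => h4 j] at h2
      have h5 : (∏ j ∈ Finset.range (2 * g), B (j + 1)) * B 0 = (∏ j ∈ Finset.range (2 * g), B j) * B (2 * g) := by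
        rw [← Finset.prod_range_succ', Finset.prod_range_succ]
      have hB : ∀ j, B j ≠ 0 := by
        intro j h0
        exact hβ0 ((map_eq_zero t).1 ((map_eq_zero (σ ^ j)).1 h0))
      have hQ : (∏ j ∈ Finset.range (2 * g), B j) ≠ 0 := Finset.prod_ne_zero_iff.2 fun j _ => hB j
      have h6 : (∏ j ∈ Finset.range (2 * g), B (j + 1)) = - ∏ j ∈ Finset.range (2 * g), B j := by
        have h7 : β₁ * ∏ j ∈ Finset.range (2 * g), B (j + 1) = β₁ * - ∏ j ∈ Finset.range (2 * g), B j := by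
          have h8 : (1 : N ≃ₐ[ℚ] N) β₁ = β₁ := rfl
          rw [h8] at h2
          linear_combination (-1 : N) * h2
        exact mul_left_cancel₀ hβ0 h7
      rw [h6] at h5
      have h7 : (∏ j ∈ Finset.range (2 * g), B j) * B (2 * g) = (∏ j ∈ Finset.range (2 * g), B j) * -(B 0) := by
        rw [← h5]
        ring
      have h8 := mul_left_cancel₀ hQ h7
      exact h8
    refine ⟨N, iF, iN, iG, σ, t β₁, (ι : L →+* N), (((t : N →ₐ[ℚ] N).comp ι : L →ₐ[ℚ] N) : L →+* N), κ,
      (hH σ).1 hσH, hσθ, hprod2, hfix, ?_, hneg⟩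
    rw [← map_pow, hβ]
    rfl
  · exfalso
    apply hsq
    have h1 : β₁ ∈ IntermediateField.fixedField (ι.fieldRange).fixingSubgroup := by
      rw [IntermediateField.mem_fixedField_iff]
      intro a ha
      have h2 : a (ι θ) = ι θ := by
        rw [IntermediateField.mem_fixingSubgroup_iff] at ha
        exact ha _ ⟨θ, rfl⟩
      have h3 : ρ a i₁ = i₁ := by
        apply Subtype.ext
        rw [hρ2]
        exact h2
      rw [hψ a h3, hall a h3]
      simp
    rw [IsGalois.fixedField_fixingSubgroup] at h1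
    obtain ⟨b, hb⟩ := h1
    have hb' : ι b = β₁ := hb
    refine ⟨b, ?_⟩
    have h4 : ι α = ι (b * b) := by rw [← hβ, map_mul, hb', sq]
    exact ι.injective h4

end Pool.Agent.H30T
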