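import Pool.Agent.H30T.Stm3
import Pool.Agent.H30T.OddP

/-!
# Piece ODD2 of project ET (helper30), by helper33
-/

set_option autoImplicit false
set_option linter.all false

open Polynomial IsDedekindDomain NumberField

namespace Pool.Agent.H30T

namespace Odd2

/-- In a number field in which `p` is unramified a square cannot be an integer divisible by `p` exactly
once. -/
theorem not_sq (K : Type) [Field K] [NumberField K] (p : ℕ) (hpp : p.Prime) (hK : UnrAt K p)
    (a : 𝓞 K) (d : ℤ) (hd : (p : ℤ) ∣ d) (hd2 : ¬ (p : ℤ) ^ 2 ∣ d) (h : a ^ 2 = (d : 𝓞 K)) :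
    False := by
  haveI : Fact p.Prime := ⟨hpp⟩
  let pI : Ideal ℤ := Ideal.span {(p : ℤ)}
  haveI hpI : Ideal.IsMaximal pI := Int.ideal_span_isMaximal_of_prime p
  obtain ⟨P, hP1, hP2⟩ := Ideal.exists_maximal_ideal_liesOver_of_isIntegral pI (S := 𝓞 K)
  have hmem : ∀ k : ℤ, (k : 𝓞 K) ∈ P ↔ (p : ℤ) ∣ k := by
    intro k
    rw [← Ideal.mem_span_singleton]
    have h1 : pI = P.under ℤ := hP2.over
    change _ ↔ k ∈ pI
    rw [h1, Ideal.mem_comap]
    simp
  have hpP : (p : 𝓞 K) ∈ P := by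
    have h1 := (hmem (p : ℤ)).2 dvd_rfl
    simpa using h1
  have hp0 : (p : 𝓞 K) ≠ 0 := by
    exact_mod_cast hpp.ne_zero
  have hPne : P ≠ ⊥ := by
    intro h0
    rw [h0, Ideal.mem_bot] at hpP
    exact hp0 hpP
  let w : HeightOneSpectrum (𝓞 K) := ⟨P, hP1.isPrime, hPne⟩
  have hw : (p : 𝓞 K) ∉ P ^ 2 := hK w hpP
  obtain ⟨u, hu⟩ := hd
  have hu2 : (u : 𝓞 K) ∉ P := by
    rw [hmem]
    rintro ⟨v, hv⟩
    apply hd2
    exact ⟨v, by rw [hu, hv]; ring⟩
  have ha : a ∈ P := by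
    apply hP1.isPrime.mem_of_pow_mem 2
    rw [h, hmem]
    exact ⟨u, hu⟩
  have ha2 : (p : 𝓞 K) * (u : 𝓞 K) ∈ P ^ 2 := by
    have h1 : (p : 𝓞 K) * (u : 𝓞 K) = a ^ 2 := by rw [h, hu]; push_cast; ring
    rw [h1]
    exact Ideal.pow_mem_pow ha 2
  haveI := hP1.isPrime
  have h3 := Ideal.IsPrime.mem_pow_mul P ha2
  rcases h3 with h3 | h3
  · exact hw h3
  · exact absurd h3 hu2

end Odd2

theorem odd2 : U_ODD := by
  intro N _ _ _ n f x hf hx p₀ hp hd hd2 K _ _ κ hK
  have hn : 0 < n := by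
    rcases Nat.eq_zero_or_pos n with h | h
    · exfalso
      subst h
      have h1 : f = C 1 := by
        apply Polynomial.map_injective (Int.castRingHom N) (RingHom.injective_int _)
        rw [hf]; simp
      rw [h1, discr_C] at hd
      exact hp.one_lt.ne' (by exact_mod_cast Int.eq_one_of_dvd_one (by positivity) hd)
    · exact h
  let κ' : K →ₐ[ℚ] N := κ.toRatAlgHom
  have hκ' : ∀ y, κ' y = κ y := fun y => rfl
  let δ : N := (Matrix.vandermonde x).det
  have hδ2 : ∃ e : ℤ, δ ^ 2 = (e : N) ∧ (p₀ : ℤ) ∣ e ∧ ¬ (p₀ : ℤ) ^ 2 ∣ e := by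
    rcases OddP.det_sq hf hn with h | h
    · exact ⟨_, h, hd, hd2⟩
    · exact ⟨-f.discr, by push_cast; exact h, (dvd_neg).2 hd, fun h => hd2 ((dvd_neg).1 h)⟩
  obtain ⟨e, he, he1, he2⟩ := hδ2
  have hδK : δ ∉ κ'.fieldRange := by
    intro hK'
    obtain ⟨b, hb⟩ := hK'
    have hb' : κ b = δ := hb
    have hb2 : b ^ 2 = (e : K) := by
      apply κ.injective
      rw [map_pow, hb', he, map_intCast]
    have hint : IsIntegral ℤ b := by
      apply IsIntegral.of_pow (n := 2) (by norm_num)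
      rw [hb2]
      exact isIntegral_algebraMap (R := ℤ) (A := K) (x := e)
    refine Odd2.not_sq K p₀ hp hK (⟨b, hint⟩ : 𝓞 K) e he1 he2 ?_
    apply RingOfIntegers.ext
    rw [RingOfIntegers.coe_eq_algebraMap, RingOfIntegers.coe_eq_algebraMap, map_pow, map_intCast]
    exact hb2
  have h1 : ∃ σ ∈ κ'.fieldRange.fixingSubgroup, σ δ ≠ δ := by
    by_contra hcon
    push Not at hcon
    apply hδK
    rw [← IsGalois.fixedField_fixingSubgroup κ'.fieldRange, IntermediateField.mem_fixedField_iff]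
    exact hcon
  obtain ⟨σ, hσ, hσδ⟩ := h1
  obtain ⟨π, hπ, hπ2⟩ := OddP.perm_sign hf hx σ
  refine ⟨σ, π, ?_, hπ, ?_⟩
  · intro y
    exact (IntermediateField.mem_fixingSubgroup_iff κ'.fieldRange σ).1 hσ (κ y) ⟨y, rfl⟩
  · rcases Int.units_eq_one_or (Equiv.Perm.sign π) with h | h
    · exfalso
      apply hσδ
      have h2 := hπ2
      rw [h] at h2
      simpa using h2
    · exact h

end Pool.Agent.H30T
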