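import Pool.Agent.H30T.Stm3
import Pool.Agent.H30T.Res
import Pool.Agent.H30T.Select
import Pool.Agent.TH954.SLem

/-!
# Project ET, piece RES2: the prime `q` from Chebotarev's theorem, with a field given in advance
-/

set_option autoImplicit false

open Polynomial IsDedekindDomain NumberField

namespace Pool.Agent.H30T

open Pool.Agent.W401.Cheb
open Pool.Agent.N874.PP (Ev Sq1 U0)

namespace ResB

open ResA

/-- The prime for given data. -/
theorem coreB {N : Type} [Field N] [NumberField N] [IsGalois ℚ N] (g : ℕ) (f : ℤ[X]) (p₀ : ℕ)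
    (hyp : Hyp g f p₀) {L : Type} [Field L] [NumberField L] (θ : L) (hθ : aeval θ f = 0)
    (hrk : Module.finrank ℚ L = 2 * g + 1) (α : L) (hα : α ≠ 0)
    (m B : ℕ) (hm : m ≠ 0) (σ : Gal(N/ℚ)) (ζ β₂ : N) (ι₁ ι₂ : L →+* N)
    (hζ : IsPrimitiveRoot ζ m) (hσζ : σ ζ = ζ) (hσθ : σ (ι₁ θ) = ι₁ θ)
    (hf : f.map (Int.castRingHom N) =
      (X - C (ι₁ θ)) * ∏ j ∈ Finset.range (2 * g), (X - C ((σ ^ j) (ι₂ θ))))
    (hσ2 : (σ ^ (2 * g)) (ι₂ θ) = ι₂ θ) (hβ : β₂ ^ 2 = ι₂ α) (hσβ : (σ ^ (2 * g)) β₂ = -β₂) :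
    ∃ (q : ℕ) (e : ℤ) (h : ℤ[X]), q.Prime ∧ B < q ∧ q % m = 1 % m ∧ h.Monic ∧
    h.natDegree = 2 * g ∧ Irreducible (h.map (Int.castRingHom (ZMod q))) ∧
    f.map (Int.castRingHom (ZMod q)) = ((X - C e) * h).map (Int.castRingHom (ZMod q)) ∧
    (∃ (_ : Fact q.Prime) (φ : 𝓞 N →+* AlgebraicClosure (ZMod q)), HasFrob q φ σ) ∧
    ∀ 𝔓 : HeightOneSpectrum (𝓞 L), (q : 𝓞 L) ∈ 𝔓.asIdeal →
      𝔓.valuation L (θ - (e : L)) = 1 → ¬ Sq1 𝔓 α := by
  classical
  have hg := hyp.one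
  have hdisc : f.discr ≠ 0 := by
    intro h
    apply hyp.ndvd
    rw [h]
    exact dvd_zero _
  have hsep := separable_of_discr f hyp.mon (by rw [hyp.deg]; omega) hdisc N
  rw [hf] at hsep
  have hinj : ∀ i < 2 * g, ∀ j < 2 * g, (σ ^ i) (ι₂ θ) = (σ ^ j) (ι₂ θ) → i = j := by
    have h1 := separable_prod_X_sub_C_iff'.1 hsep.of_mul_right
    intro i hi j hj hij
    exact h1 i (Finset.mem_range.2 hi) j (Finset.mem_range.2 hj) hij
  have hne : ∀ j < 2 * g, ι₁ θ ≠ (σ ^ j) (ι₂ θ) := by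
    intro j hj heq
    have h1 := hsep.isCoprime
    obtain ⟨u, v, huv⟩ := h1
    have h2 := congrArg (eval (ι₁ θ)) huv
    rw [eval_add, eval_mul, eval_mul, eval_sub, eval_X, eval_C, sub_self, mul_zero, zero_add,
      eval_prod, Finset.prod_eq_zero (Finset.mem_range.2 hj), mul_zero, eval_one] at h2
    · exact one_ne_zero h2.symm
    · rw [eval_sub, eval_X, eval_C, heq, sub_self]
  have hgen := gen_part g hg ι₂ σ θ hrk hinj
  have hfix : ∀ x : L, (σ ^ (2 * g)) (ι₂ x) = ι₂ x := by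
    intro x
    obtain ⟨P, rfl⟩ := hgen x
    have h1 : ι₂ (aeval θ P) = aeval (ι₂ θ) P := by
      rw [aeval_def, hom_eval₂, aeval_def,
        Subsingleton.elim (algebraMap ℚ N) (ι₂.comp (algebraMap ℚ L))]
    rw [h1, ← aeval_algHom_apply (σ ^ (2 * g) : Gal(N/ℚ)), hσ2]
  -- the integral elements
  have hθint : IsIntegral ℤ θ := ⟨f, hyp.mon, hθ⟩
  obtain ⟨t₁, ht₁⟩ : ∃ t₁ : 𝓞 L, algebraMap (𝓞 L) L t₁ = θ := ⟨⟨θ, hθint⟩, rfl⟩
  obtain ⟨D, hD0, hD⟩ := exists_index t₁ (fun x => by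
    obtain ⟨P, hP⟩ := hgen x
    refine ⟨P, ?_⟩
    show x = aeval (algebraMap (𝓞 L) L t₁) P
    rw [hP, ht₁])
  obtain ⟨a, b, hb, hab⟩ := IsFractionRing.div_surjective (A := 𝓞 L) α
  have hb0 : b ≠ 0 := nonZeroDivisors.ne_zero hb
  have ha0 : a ≠ 0 := by
    intro h
    rw [h, map_zero, zero_div] at hab
    exact hα hab.symm
  have hζint : IsIntegral ℤ ζ := hζ.isIntegral (Nat.pos_of_ne_zero hm)
  obtain ⟨ζ', hζ'⟩ : ∃ ζ' : 𝓞 N, algebraMap (𝓞 N) N ζ' = ζ := ⟨⟨ζ, hζint⟩, rfl⟩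
  set i1 : 𝓞 L →+* 𝓞 N := RingOfIntegers.mapRingHom ι₁ with hi1
  set i2 : 𝓞 L →+* 𝓞 N := RingOfIntegers.mapRingHom ι₂ with hi2
  have hc1 : ∀ x : 𝓞 L, algebraMap (𝓞 N) N (i1 x) = ι₁ (algebraMap (𝓞 L) L x) := fun x => rfl
  have hc2 : ∀ x : 𝓞 L, algebraMap (𝓞 N) N (i2 x) = ι₂ (algebraMap (𝓞 L) L x) := fun x => rfl
  have hcs : ∀ (τ : Gal(N/ℚ)) (x : 𝓞 N), algebraMap (𝓞 N) N (τ • x) = τ (algebraMap (𝓞 N) N x) :=
    fun τ x => rfl
  have hi2inj : Function.Injective i2 := by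
    intro x y hxy
    apply RingOfIntegers.coe_injective
    apply ι₂.injective
    show ι₂ (algebraMap (𝓞 L) L x) = ι₂ (algebraMap (𝓞 L) L y)
    rw [← hc2, ← hc2, hxy]
  -- the product of the elements which have to be units
  set E : 𝓞 N := (m : 𝓞 N) * (D : 𝓞 N) * i2 (a * b) *
    (∏ j ∈ Finset.range (2 * g), (i1 t₁ - (σ ^ j) • i2 t₁)) *
    ∏ i ∈ Finset.range (2 * g), ∏ j ∈ Finset.range (2 * g),
      (if i = j then 1 else (σ ^ i) • i2 t₁ - (σ ^ j) • i2 t₁) with hE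
  have hE0 : E ≠ 0 := by
    rw [hE]
    refine mul_ne_zero (mul_ne_zero (mul_ne_zero (mul_ne_zero (Nat.cast_ne_zero.2 hm)
      (Nat.cast_ne_zero.2 hD0)) ?_) ?_) ?_
    · rw [Ne, map_eq_zero_iff _ hi2inj]
      exact mul_ne_zero ha0 hb0
    · rw [Finset.prod_ne_zero_iff]
      intro j hj h
      apply hne j (Finset.mem_range.1 hj)
      have h1 := congrArg (algebraMap (𝓞 N) N) (sub_eq_zero.1 h)
      rwa [hc1, hcs, hc2, ht₁] at h1
    · rw [Finset.prod_ne_zero_iff]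
      intro i hi
      rw [Finset.prod_ne_zero_iff]
      intro j hj
      split_ifs with hij
      · exact one_ne_zero
      · intro h
        apply hij
        have h1 := congrArg (algebraMap (𝓞 N) N) (sub_eq_zero.1 h)
        rw [hcs, hcs, hc2, ht₁] at h1
        exact hinj i (Finset.mem_range.1 hi) j (Finset.mem_range.1 hj) h1
  obtain ⟨M, hM⟩ := exists_large E hE0
  obtain ⟨q, ⟨hq, hxp⟩, hqgt⟩ := (infinite_frob N σ).exists_gt (max (max M B) 2)
  simp only [max_lt_iff] at hqgt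
  obtain ⟨⟨hqM, hqB⟩, hq2⟩ := hqgt
  have : Fact q.Prime := ⟨hq⟩
  obtain ⟨φ, hφ⟩ : ∃ φ : 𝓞 N →+* AlgebraicClosure (ZMod q), HasFrob q φ σ := by
    unfold xp at hxp
    rw [dif_pos hq] at hxp
    by_contra h
    push Not at h
    apply hxp
    rw [Nat.card_eq_zero]
    left
    exact ⟨fun x => h x.1 x.2⟩
  have hφE : φ E ≠ 0 := hM q hqM _ φ
  rw [hE, map_mul, map_mul, map_mul, map_mul, map_natCast, map_natCast, map_prod, map_prod] at hφE
  have hu1 := left_ne_zero_of_mul hφE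
  have hu2 := right_ne_zero_of_mul hφE
  have hu3 := right_ne_zero_of_mul hu1
  have hu4 := left_ne_zero_of_mul hu1
  have hc := right_ne_zero_of_mul hu4
  have hu5 := left_ne_zero_of_mul hu4
  have hmΩ := left_ne_zero_of_mul hu5
  have hDΩ := right_ne_zero_of_mul hu5
  rw [Finset.prod_ne_zero_iff] at hu3 hu2
  have hv1 : ∀ j, φ ((σ ^ j) • i2 t₁) = φ (i2 t₁) ^ (q ^ j) := fun j => frob_pow hφ j _
  have hv2 : ∀ i < 2 * g, ∀ j < 2 * g, φ (i2 t₁) ^ (q ^ i) = φ (i2 t₁) ^ (q ^ j) → i = j := by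
    intro i hi j hj hij
    by_contra hne
    have h1 := hu2 i (Finset.mem_range.2 hi)
    rw [map_prod, Finset.prod_ne_zero_iff] at h1
    have h2 := h1 j (Finset.mem_range.2 hj)
    rw [if_neg hne, map_sub, hv1, hv1, hij, sub_self] at h2
    exact h2 rfl
  -- the roots of unity
  have hmod : q % m = 1 % m := by
    have h1 : φ ζ' ^ q = φ ζ' := by
      rw [← hφ]
      congr 1
      apply RingOfIntegers.coe_injective
      show algebraMap (𝓞 N) N (σ • ζ') = algebraMap (𝓞 N) N ζ'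
      rw [hcs, hζ', hσζ]
    have h2 : IsPrimitiveRoot ζ' m := by
      rw [← hζ'] at hζ
      exact hζ.of_map_of_injective (RingOfIntegers.coe_injective)
    have h3 := h2.isRoot_cyclotomic (Nat.pos_of_ne_zero hm)
    have h4 : (cyclotomic m (AlgebraicClosure (ZMod q))).IsRoot (φ ζ') := by
      rw [← map_cyclotomic m φ]
      exact h3.map
    have : NeZero ((m : ℕ) : AlgebraicClosure (ZMod q)) := ⟨hmΩ⟩
    rw [isRoot_cyclotomic_iff] at h4
    have h5 : φ ζ' ^ (q - 1) = 1 := by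
      have h6 : φ ζ' ≠ 0 := h4.ne_zero hm
      apply mul_right_cancel₀ h6
      rw [← pow_succ, Nat.sub_add_cancel hq.one_lt.le, h1, one_mul]
    have h6 := h4.dvd_of_pow_eq_one _ h5
    exact ((Nat.modEq_iff_dvd' hq.one_lt.le).2 h6).symm
  -- the factorization
  have hfO : f.map (Int.castRingHom (𝓞 N)) = (X - C (i1 t₁)) *
      ∏ j ∈ Finset.range (2 * g), (X - C ((σ ^ j) • i2 t₁)) := by
    apply Polynomial.map_injective (algebraMap (𝓞 N) N) RingOfIntegers.coe_injective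
    rw [Polynomial.map_map, Polynomial.map_mul, Polynomial.map_prod]
    simp only [Polynomial.map_sub, map_X, map_C, hcs, hc1, hc2, ht₁]
    rw [← hf]
    exact congrArg (fun r => Polynomial.map r f) (Subsingleton.elim _ _)
  have hfΩ : f.map (Int.castRingHom (AlgebraicClosure (ZMod q))) = (X - C (φ (i1 t₁))) *
      ∏ j ∈ Finset.range (2 * g), (X - C (φ (i2 t₁) ^ (q ^ j))) := by
    have h1 := congrArg (Polynomial.map φ) hfO
    rw [Polynomial.map_map, Polynomial.map_mul, Polynomial.map_prod] at h1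
    simp only [Polynomial.map_sub, map_X, map_C, hv1] at h1
    rw [← h1]
    exact congrArg (fun r => Polynomial.map r f) (Subsingleton.elim _ _)
  have he₀ : φ (i1 t₁) ^ q = φ (i1 t₁) := by
    rw [← hφ]
    congr 1
    apply RingOfIntegers.coe_injective
    show algebraMap (𝓞 N) N (σ • i1 t₁) = algebraMap (𝓞 N) N (i1 t₁)
    rw [hcs, hc1, ht₁, hσθ]
  obtain ⟨e, h, he, hh1, hh2, hh3, hh4⟩ := poly_part g q f hyp.mon hyp.deg (φ (i1 t₁))
    (φ (i2 t₁)) he₀ hfΩ hv2 hg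
  refine ⟨q, e, h, hq, hqB, hmod, hh1, hh2, hh3, hh4, ⟨⟨hq⟩, φ, hφ⟩, fun 𝔓 hq𝔓 hval => ?_⟩
  obtain ⟨ψ, hψ⟩ := exists_residue q 𝔓 hq𝔓
  have hψroot : ∃ j < 2 * g, ψ t₁ = φ (i2 t₁) ^ (q ^ j) := by
    have h1 : eval (ψ t₁) (f.map (Int.castRingHom (AlgebraicClosure (ZMod q)))) = 0 := by
      have h2 : aeval t₁ f = 0 := by
        apply RingOfIntegers.coe_injective
        show algebraMap (𝓞 L) L (aeval t₁ f) = algebraMap (𝓞 L) L 0
        rw [← aeval_algebraMap_apply, ht₁, hθ, map_zero]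
      have h3 := congrArg ψ h2
      rw [map_zero, aeval_def, hom_eval₂] at h3
      rw [eval_map, Subsingleton.elim (Int.castRingHom (AlgebraicClosure (ZMod q)))
        (ψ.comp (algebraMap ℤ (𝓞 L)))]
      exact h3
    rw [hfΩ, eval_mul, eval_prod, mul_eq_zero, Finset.prod_eq_zero_iff] at h1
    rcases h1 with h1 | ⟨j, hj, h1⟩
    · exfalso
      rw [eval_sub, eval_X, eval_C, ← he, sub_eq_zero] at h1
      have h2 : ψ (t₁ - (e : 𝓞 L)) = 0 := by rw [map_sub, map_intCast, h1, sub_self]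
      have h3 := (hψ _).1 h2
      have h4 := (𝔓.valuation_lt_one_iff_mem (K := L) _).2 h3
      have h5 : algebraMap (𝓞 L) L (t₁ - (e : 𝓞 L)) = θ - (e : L) := by
        rw [map_sub, map_intCast, ht₁]
      have h6 : 𝔓.valuation L (algebraMap (𝓞 L) L (t₁ - (e : 𝓞 L))) < 1 := h4
      rw [h5, hval] at h6
      exact lt_irrefl _ h6
    · rw [eval_sub, eval_X, eval_C, sub_eq_zero] at h1
      exact ⟨j, Finset.mem_range.1 hj, h1⟩
  obtain ⟨j, hj, hψj⟩ := hψroot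
  have hψeq : ψ = (W54.ChTor.cmp φ (σ ^ j)).comp i2 := by
    apply hom_eq t₁ D hD hDΩ
    rw [hψj, ← hv1]
    rfl
  have hψφ : ∀ x, ψ x = φ ((σ ^ j) • i2 x) := by
    intro x
    rw [hψeq]
    rfl
  exact sq_part σ ι₂ β₂ g q j (by omega) φ hφ hfix α hβ hσβ a b hb0 hab.symm hc 𝔓 ψ hψ hψφ


/-- the primes with a Frobenius element fixing `M₀` split completely -/
theorem splits_part {M₀ N : Type} [Field M₀] [NumberField M₀] [IsGalois ℚ M₀] [Field N]
    [NumberField N] (κ : M₀ →+* N) (σ : Gal(N/ℚ)) (hσ : ∀ y : M₀, σ (κ y) = κ y) :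
    ∃ D : ℕ, ∀ q : ℕ, D < q →
      (∃ (_ : Fact q.Prime) (φ : 𝓞 N →+* AlgebraicClosure (ZMod q)), HasFrob q φ σ) →
      SplitsAt M₀ q := by
  obtain ⟨D, hD, hT⟩ := torsor M₀
  refine ⟨D, fun q hq ⟨hqp, φ, hφ⟩ w hw => ?_⟩
  have hp : q.Prime := hqp.out
  have hqD : ¬ q ∣ D := fun hd => by
    have h1 := Nat.le_of_dvd hD hd
    omega
  obtain ⟨-, hT2, -⟩ := hT q hqD
  obtain ⟨ψ, hψ⟩ := exists_residue q w hw
  set κ' : 𝓞 M₀ →+* 𝓞 N := RingOfIntegers.mapRingHom κ with hκ'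
  have hfix : ∀ x : 𝓞 M₀, φ (κ' x) ^ q = φ (κ' x) := by
    intro x
    rw [← hφ]
    congr 1
    apply RingOfIntegers.coe_injective
    show σ (κ (algebraMap (𝓞 M₀) M₀ x)) = κ (algebraMap (𝓞 M₀) M₀ x)
    exact hσ _
  obtain ⟨τ, hτ, -⟩ := hT2 (φ.comp κ') ψ
  have hψq : ∀ x : 𝓞 M₀, ψ x ^ q = ψ x := by
    intro x
    rw [hτ]
    exact hfix _
  constructor
  · have hover : w.asIdeal.LiesOver (Ideal.span {(q : ℤ)}) := by
      refine ⟨?_⟩
      have hmax : (Ideal.span {(q : ℤ)}).IsMaximal := by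
        apply Ideal.IsPrime.isMaximal
        · rw [Ideal.span_singleton_prime (by exact_mod_cast hp.ne_zero)]
          exact Nat.prime_iff_prime_int.mp hp
        · rw [Ne, Ideal.span_singleton_eq_bot]
          exact_mod_cast hp.ne_zero
      refine hmax.eq_of_le (Ideal.IsPrime.under ℤ w.asIdeal).ne_top ?_
      rw [Ideal.span_le, Set.singleton_subset_iff]
      change (algebraMap ℤ (𝓞 M₀)) (q : ℤ) ∈ w.asIdeal
      rw [map_natCast]
      exact hw
    have hI : ∀ τ : M₀ ≃ₐ[ℚ] M₀, (∀ x : 𝓞 M₀, τ • x - x ∈ w.asIdeal) → τ = 1 := by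
      intro τ hτ
      obtain ⟨σ', -, huniq⟩ := hT2 ψ ψ
      have h1 : (1 : Gal(M₀/ℚ)) = σ' := huniq 1 (fun x => by rw [one_smul])
      have h2 : τ = σ' := huniq τ (fun x => by
        have := (hψ _).2 (hτ x)
        rw [map_sub, sub_eq_zero] at this
        exact this.symm)
      rw [h2, ← h1]
    exact Pool.Agent.W202.FM.UR.not_mem_sq M₀ q w.asIdeal hI
  · -- the residue field
    have hrange : ∀ x, ∃ z : ZMod q,
        algebraMap (ZMod q) (AlgebraicClosure (ZMod q)) z = ψ x := fun x =>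
      W54.ChTor.frob_fixed q (ψ x) (hψq x)
    have hex : ∀ x : 𝓞 M₀, ∃ n : ℤ, ψ x = (n : AlgebraicClosure (ZMod q)) := by
      intro x
      obtain ⟨z, hz⟩ := hrange x
      obtain ⟨n, hn⟩ := ZMod.intCast_surjective z
      exact ⟨n, by rw [← hz, ← hn, map_intCast]⟩
    let r : ℤ →+* 𝓞 M₀ ⧸ w.asIdeal := Int.castRingHom _
    have hr : Function.Surjective r := by
      intro y
      obtain ⟨x, rfl⟩ := Ideal.Quotient.mk_surjective y
      obtain ⟨n, hn⟩ := hex x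
      refine ⟨n, ?_⟩
      have h1 : ψ (x - (n : 𝓞 M₀)) = 0 := by rw [map_sub, map_intCast, hn, sub_self]
      have h2 := Ideal.Quotient.eq_zero_iff_mem.2 ((hψ _).1 h1)
      rw [map_sub, map_intCast, sub_eq_zero] at h2
      rw [h2]
      rfl
    have hker : RingHom.ker r = Ideal.span {(q : ℤ)} := by
      have hmax : (Ideal.span {(q : ℤ)}).IsMaximal := by
        apply Ideal.IsPrime.isMaximal
        · rw [Ideal.span_singleton_prime (by exact_mod_cast hp.ne_zero)]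
          exact Nat.prime_iff_prime_int.mp hp
        · rw [Ne, Ideal.span_singleton_eq_bot]
          exact_mod_cast hp.ne_zero
      have : Nontrivial (𝓞 M₀ ⧸ w.asIdeal) := Ideal.Quotient.nontrivial_iff.2 w.isPrime.ne_top
      refine (hmax.eq_of_le (RingHom.ker_ne_top r) ?_).symm
      rw [Ideal.span_le, Set.singleton_subset_iff]
      show r (q : ℤ) = 0
      rw [map_natCast]
      have h2 := Ideal.Quotient.eq_zero_iff_mem.2 hw
      rwa [map_natCast] at h2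
    have e1 : ℤ ⧸ RingHom.ker r ≃+* 𝓞 M₀ ⧸ w.asIdeal := RingHom.quotientKerEquivOfSurjective hr
    rw [← Nat.card_congr e1.toEquiv, hker, Nat.card_congr (Int.quotientSpanNatEquivZMod q).toEquiv,
      Nat.card_zmod]

end ResB

open ResB

/-- **RES2.** -/
theorem res2 : U_RES := by
  intro hCYC hGAL g f p₀ hyp L _ _ θ hθ hrk α hα hnorm hns M₀ _ _ _ hunr m B hm hpm
  obtain ⟨M₁, _, _, _, κ₁, ζ, hζ, hunr₁⟩ := hCYC M₀ p₀ m hyp.prime hunr hm hpm
  obtain ⟨N, _, _, _, σ, β₂, ι₁, ι₂, κ, hκ, hσθ, hf, hσ2, hβ, hσβ⟩ :=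
    hGAL g f p₀ hyp L θ hθ hrk α hα hnorm hns M₁ hunr₁
  obtain ⟨D, hD⟩ := splits_part (κ.comp κ₁) σ (fun y => hκ _)
  obtain ⟨q, e, h, c1, c2, c3, c4, c5, c6, c7, c8, c9⟩ := ResB.coreB g f p₀ hyp θ hθ hrk α hα m
    (max B D) hm σ (κ ζ) β₂ ι₁ ι₂ (hζ.map_of_injective κ.injective) (hκ ζ) hσθ hf hσ2 hβ hσβ
  exact ⟨q, e, h, c1, lt_of_le_of_lt (le_max_left _ _) c2, c3, c4, c5, c6, c7,
    hD q (lt_of_le_of_lt (le_max_right _ _) c2) c8, c9⟩

end Pool.Agent.H30T
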