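import Pool.Agent.H30T.Stm3
import Pool.Agent.H30T.Select

/-!
# Project ET, piece SELECT2: finitely many primes which detect the squares and split in a given field
-/

set_option autoImplicit false

open Polynomial IsDedekindDomain NumberField

namespace Pool.Agent.H30T

open Pool.Agent.N874.PP (Ev Sq1 U0)

open SelectP

/-- **SELECT2.** -/
theorem select2 (hI : T_IRR) (hF : T_FIN) (hC : U_CHEB) : U_SELECT := by
  classical
  intro g f p₀ hyp L _ _ θ hθ hrk M₀ _ _ _ hunr m B hm hpm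
  have hdisc : f.discr ≠ 0 := by
    intro h
    apply hyp.ndvd
    rw [h]
    exact dvd_zero _
  have hfin : {𝔓 : HeightOneSpectrum (𝓞 L) | ((2 * f.discr : ℤ) : 𝓞 L) ∈ 𝔓.asIdeal}.Finite := by
    have h1 := Ideal.finite_factors (I := Ideal.span {((2 * f.discr : ℤ) : 𝓞 L)}) (by
      rw [Ne, Ideal.zero_eq_bot, Ideal.span_singleton_eq_bot]
      exact Int.cast_ne_zero.2 (mul_ne_zero (by norm_num) hdisc))
    refine h1.subset fun 𝔓 h𝔓 => ?_
    show 𝔓.asIdeal ∣ Ideal.span {((2 * f.discr : ℤ) : 𝓞 L)}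
    rw [Ideal.dvd_span_singleton]
    exact h𝔓
  obtain ⟨R, hR0, hR⟩ := hF L _ hfin
  -- the choice of the primes
  have key : ∀ R' : Finset L, (∀ r ∈ R', r ≠ 0 ∧ IsSquare (Algebra.norm ℚ r) ∧ ¬ IsSquare r) →
      ∃ (S : Finset ℕ) (e : ℕ → ℤ) (h : ℕ → ℤ[X]),
      (∀ q ∈ S, q.Prime ∧ B < q ∧ q % m = 1 % m ∧ (h q).Monic ∧ (h q).natDegree = 2 * g ∧
        Irreducible ((h q).map (Int.castRingHom (ZMod q))) ∧
        f.map (Int.castRingHom (ZMod q)) =
          ((X - C (e q)) * h q).map (Int.castRingHom (ZMod q)) ∧ SplitsAt M₀ q) ∧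
      ∀ r ∈ R', ∃ q ∈ S, ∀ 𝔓 : HeightOneSpectrum (𝓞 L), (q : 𝓞 L) ∈ 𝔓.asIdeal →
        𝔓.valuation L (θ - (e q : L)) = 1 → ¬ Sq1 𝔓 r := by
    intro R'
    induction R' using Finset.induction_on with
    | empty => exact fun _ => ⟨∅, fun _ => 0, fun _ => 0, by simp, by simp⟩
    | insert r R' hr ih =>
      intro hR'
      obtain ⟨S, e, h, h1, h2⟩ := ih fun x hx => hR' x (Finset.mem_insert_of_mem hx)
      obtain ⟨hr1, hr2, hr3⟩ := hR' r (Finset.mem_insert_self _ _)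
      obtain ⟨q, e₀, h₀, c1, c2, c3, c4, c5, c6, c7, c9, c8⟩ := hC g f p₀ hyp L θ hθ hrk r hr1 hr2
        hr3 M₀ hunr m (max B (S.sup id)) hm hpm
      have hqS : q ∉ S := by
        intro hq
        have h3 : q ≤ S.sup id := Finset.le_sup (f := id) hq
        have h4 := lt_of_le_of_lt (le_max_right B (S.sup id)) c2
        omega
      refine ⟨insert q S, Function.update e q e₀, Function.update h q h₀, ?_, ?_⟩
      · intro q' hq'
        rcases Finset.mem_insert.1 hq' with rfl | hq''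
        · rw [Function.update_self, Function.update_self]
          exact ⟨c1, lt_of_le_of_lt (le_max_left _ _) c2, c3, c4, c5, c6, c7, c9⟩
        · have hne : q' ≠ q := fun h => hqS (h ▸ hq'')
          rw [Function.update_of_ne hne, Function.update_of_ne hne]
          exact h1 q' hq''
      · intro x hx
        rcases Finset.mem_insert.1 hx with rfl | hx'
        · refine ⟨q, Finset.mem_insert_self _ _, ?_⟩
          rw [Function.update_self]
          exact c8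
        · obtain ⟨q', hq', h3⟩ := h2 x hx'
          have hne : q' ≠ q := fun h => hqS (h ▸ hq')
          refine ⟨q', Finset.mem_insert_of_mem hq', ?_⟩
          rw [Function.update_of_ne hne]
          exact h3
  obtain ⟨S, e, h, h1, h2⟩ := key (R.filter fun r => IsSquare (Algebra.norm ℚ r) ∧ ¬ IsSquare r)
    (fun r hr => ⟨hR0 r (Finset.mem_filter.1 hr).1, (Finset.mem_filter.1 hr).2⟩)
  refine ⟨S, e, h, h1, fun α hα hN hEv hSq => ?_⟩
  by_contra hns
  obtain ⟨r, hr, s, hs, hrs⟩ := hR α hα fun 𝔓 h𝔓 => hEv 𝔓 h𝔓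
  have hr0 := hR0 r hr
  have hrns : ¬ IsSquare r := by
    rintro ⟨u, hu⟩
    exact hns ⟨u * s, by rw [hrs, hu]; ring⟩
  have hrN : IsSquare (Algebra.norm ℚ r) := by
    obtain ⟨c, hc⟩ := hN
    have hsN : Algebra.norm ℚ s ≠ 0 := Algebra.norm_ne_zero_iff.2 hs
    refine ⟨c / Algebra.norm ℚ s, ?_⟩
    rw [hrs, map_mul, map_pow] at hc
    field_simp
    linarith
  obtain ⟨q, hq, h3⟩ := h2 r (Finset.mem_filter.2 ⟨hr, hrN, hrns⟩)
  obtain ⟨c1, -, -, c4, c5, c6, c7, -⟩ := h1 q hq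
  obtain ⟨𝔓, h𝔓1, h𝔓2⟩ := exists_prime g hyp.one f hyp.mon (hI g f p₀ hyp) θ hθ q c1 (e q) (h q)
    c4 c5 c6 c7
  have h4 := hSq q hq 𝔓 h𝔓1 h𝔓2
  rw [hrs] at h4
  exact h3 𝔓 h𝔓1 h𝔓2 (sq1_of_mul 𝔓 r s hs h4)

end Pool.Agent.H30T
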