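import Pool.Agent.H30T.Stm3
import Pool.Agent.H30T.Rat
import Pool.Agent.H30T.Trl
import Pool.Agent.N874.TW.Fld

/-! # Piece TWF: the field is admissible for the twist, and unramified at the odd prime -/

set_option autoImplicit false
set_option linter.all false

open Polynomial IsDedekindDomain NumberField
open scoped Classical

namespace Pool.Agent.H30T

open Pool.Agent.N783.PF

namespace TwfP

/-- an irreducible reduction has unit discriminant -/
theorem discr_of_irr {g : ℕ} {f : ℤ[X]} (hg : 1 ≤ g) (hm : f.Monic) (hd : f.natDegree = 2 * g + 1)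
    {p : ℕ} (hp : p.Prime) (hirr : Irreducible (f.map (Int.castRingHom (ZMod p)))) :
    ¬ (p : ℤ) ∣ f.discr := by
  haveI : Fact p.Prime := ⟨hp⟩
  intro hdvd
  have h0 : 0 < f.degree := by
    rw [← natDegree_pos_iff_degree_pos, hd]
    omega
  have h1 := resultant_deriv (f := f) h0
  rw [hm.leadingCoeff, mul_one, hd] at h1
  have e2 : 2 * g + 1 - 1 = 2 * g := by omega
  rw [e2] at h1
  have h2 : (f.map (Int.castRingHom (ZMod p))).resultant
      (derivative (f.map (Int.castRingHom (ZMod p)))) (2 * g + 1) (2 * g) = 0 := by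
    rw [derivative_map, resultant_map_map, h1]
    rw [map_mul]
    have : (Int.castRingHom (ZMod p)) f.discr = 0 := by
      rw [eq_intCast, ZMod.intCast_zmod_eq_zero_iff_dvd]
      exact hdvd
    rw [this, mul_zero]
  have hm' : (f.map (Int.castRingHom (ZMod p))).Monic := hm.map _
  have hd' : (f.map (Int.castRingHom (ZMod p))).natDegree = 2 * g + 1 := by
    rw [hm.natDegree_map, hd]
  generalize f.map (Int.castRingHom (ZMod p)) = F at h2 hm' hd' hirr
  have hsep : F.Separable := PerfectField.separable_of_irreducible hirr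
  have h3 := resultant_ne_zero F (derivative F) hsep
  have hn : (derivative F).natDegree ≤ 2 * g := by
    have := natDegree_derivative_le F
    omega
  obtain ⟨k, hk⟩ := Nat.exists_eq_add_of_le hn
  have h4 := resultant_add_right_deg F (derivative F) (2 * g + 1) (derivative F).natDegree k le_rfl
  rw [← hk, h2, ← hd', coeff_natDegree, hm'.leadingCoeff, one_pow, one_mul] at h4
  exact h3 h4.symm

end TwfP

open TwfP in
theorem twf : U_TWF := by
  intro g f hg hm hd M _ _ h
  constructor
  · intro J hJ
    have hDp : Dp J ≠ 0 := by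
      rw [Dp, Finset.prod_ne_zero_iff]
      exact fun q hq => (hJ q hq).1.ne_zero
    set D : ℤ := ((Dp J : ℕ) : ℤ) with hDdef
    have hD0 : D ≠ 0 := by rw [hDdef]; exact_mod_cast hDp
    have hcast : Function.Injective (fun n : ℤ => (n : 𝓞 ℚ)) := Int.cast_injective
    obtain ⟨ε, hε, h1⟩ := dsc_fO hg hm hd
    have hmD : (f.scaleRoots D).Monic := (monic_scaleRoots_iff D).2 hm
    obtain ⟨ε', hε', h2⟩ := dsc_fO (f := f.scaleRoots D) hg hmD (by rw [natDegree_scaleRoots, hd])
    have hs : fO (f.scaleRoots D) = (fO f).scaleRoots (D : 𝓞 ℚ) := by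
      rw [fO, map_scaleRoots]
      · rfl
      · rw [hm.leadingCoeff, map_one]
        exact one_ne_zero
    have hT := dsc_inv ℚ g (fO f) (fO_mon hm) (by rw [fO_deg hm, hd])
    have hdD : ε' * (f.scaleRoots D).discr = D ^ ((2 * g + 1) * (2 * g)) * (ε * f.discr) := by
      have h3 := hT.2 (D : 𝓞 ℚ) (by exact_mod_cast hD0)
      rw [← hs, h2, h1] at h3
      apply hcast
      simp only
      rw [h3]
      push_cast
      ring
    have hprim : ∀ p : ℕ, p.Prime → p ∣ Dp J → p ∈ J := by
      intro p hp hpd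
      rw [Dp, hp.prime.dvd_finset_prod_iff] at hpd
      obtain ⟨q, hq, hpq⟩ := hpd
      rwa [(Nat.prime_dvd_prime_iff_eq hp (hJ q hq).1).1 hpq]
    refine ⟨h.galois, h.degree, h.real, ?_, ?_⟩
    · intro p hp hor
      rcases hor with rfl | hdv
      · exact h.split _ hp (Or.inl rfl)
      by_cases hpJ : p ∈ J
      · exact (hJ p hpJ).2
      refine h.split p hp (Or.inr ?_)
      have h3 : (p : ℤ) ^ 2 ∣ D ^ ((2 * g + 1) * (2 * g)) * (ε * f.discr) := by
        rw [← hdD]
        exact Dvd.dvd.mul_left hdv _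
      have hcop : IsCoprime ((p : ℤ) ^ 2) (D ^ ((2 * g + 1) * (2 * g))) := by
        apply IsCoprime.pow
        rw [hDdef, Nat.isCoprime_iff_coprime]
        exact (Nat.Prime.coprime_iff_not_dvd hp).2 fun h4 => hpJ (hprim p hp h4)
      have h4 := hcop.dvd_of_dvd_mul_left h3
      rcases hε with rfl | rfl
      · rwa [one_mul] at h4
      · rwa [neg_one_mul, dvd_neg] at h4
    · intro p hp hr
      haveI : Fact p.Prime := ⟨hp⟩
      have h3 := h.ram p hp hr
      have hpJ : p ∉ J := by
        intro hpJ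
        obtain ⟨w, hw⟩ := hr
        exact ((hJ p hpJ).2 w (Ideal.pow_le_self two_ne_zero hw)).1 hw
      have hD1 : ((D : ℤ) : ZMod p) ≠ 0 := by
        rw [Ne, ZMod.intCast_zmod_eq_zero_iff_dvd, hDdef]
        intro h4
        exact hpJ (hprim p hp (by exact_mod_cast h4))
      rw [map_scaleRoots _ _ _ (by rw [hm.leadingCoeff, map_one]; exact one_ne_zero)]
      exact Pool.Agent.N874.TW.irr_scale' hD1 h3
  · intro p hp hpd hpd2 w hw hw2
    exact discr_of_irr hg hm hd hp (h.ram p hp ⟨w, hw2⟩) hpd

end Pool.Agent.H30T
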