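import Pool.Agent.H30T.Fin1
import Pool.Agent.H30T.Twf2
import Pool.Agent.H30T.Cyc2
import Pool.Agent.H30T.Odd2
import Pool.Agent.H30T.Grp2
import Pool.Agent.H30T.Gal2
import Pool.Agent.H30T.Select2
import Pool.Agent.H30T.Res2

/-!
# Project ET (helper30): the theorem with a field given in advance and with a twist different from one
-/

set_option autoImplicit false
set_option linter.all false

open Polynomial IsDedekindDomain NumberField
open scoped Classical

namespace Pool.Agent.H30T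

open Pool.Agent.N783.PF
open Pool.Agent.W401.Cheb

theorem u_select : U_SELECT := select2 irr fin (res2 cyc (gal2 sn grp2 odd2))

theorem u_main' : U_MAIN := u_main u_select

/-! ### The discriminant and the Galois group of a twist -/

theorem discr_scale {g : ℕ} {f : ℤ[X]} (hg : 1 ≤ g) (hm : f.Monic) (hd : f.natDegree = 2 * g + 1)
    {D : ℤ} (hD0 : D ≠ 0) : ∃ η : ℤ, (η = 1 ∨ η = -1) ∧
      (f.scaleRoots D).discr = η * (D ^ ((2 * g + 1) * (2 * g)) * f.discr) := by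
  have hcast : Function.Injective (fun n : ℤ => (n : 𝓞 ℚ)) := Int.cast_injective
  obtain ⟨ε, hε, h1⟩ := dsc_fO hg hm hd
  have hmD : (f.scaleRoots D).Monic := (monic_scaleRoots_iff D).2 hm
  obtain ⟨ε', hε', h2⟩ := dsc_fO (f := f.scaleRoots D) hg hmD (by rw [natDegree_scaleRoots, hd])
  have hs : fO (f.scaleRoots D) = (fO f).scaleRoots (D : 𝓞 ℚ) := by
    rw [fO, map_scaleRoots]
    · rfl
    · rw [hm.leadingCoeff, map_one]
      exact one_ne_zero
  have hT := dsc_inv ℚ g (fO f) (fO_mon hm) (by rw [fO_deg hm, hd])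
  have hdD : ε' * (f.scaleRoots D).discr = D ^ ((2 * g + 1) * (2 * g)) * (ε * f.discr) := by
    have h3 := hT.2 (D : 𝓞 ℚ) (by exact_mod_cast hD0)
    rw [← hs, h2, h1] at h3
    apply hcast
    simp only
    rw [h3]
    push_cast
    ring
  rcases hε with rfl | rfl <;> rcases hε' with rfl | rfl
  · exact ⟨1, Or.inl rfl, by linear_combination hdD⟩
  · exact ⟨-1, Or.inr rfl, by linear_combination -hdD⟩
  · exact ⟨-1, Or.inr rfl, by linear_combination hdD⟩
  · exact ⟨1, Or.inl rfl, by linear_combination -hdD⟩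

theorem split_scale {K : Type} [Field K] {F : K[X]} (hF : F.Monic) {s : K} (hs : s ≠ 0)
    (L : Type) [Field L] [Algebra K L] [IsSplittingField K L F] :
    IsSplittingField K L (F.scaleRoots s) := by
  have hsL : algebraMap K L s ≠ 0 := (_root_.map_ne_zero _).2 hs
  have hmap : (F.scaleRoots s).map (algebraMap K L) =
      (F.map (algebraMap K L)).scaleRoots (algebraMap K L s) := by
    rw [map_scaleRoots]
    rw [hF.leadingCoeff, map_one]
    exact one_ne_zero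
  constructor
  · rw [hmap]
    exact (IsSplittingField.splits L F).scaleRoots _
  · rw [eq_top_iff, ← IsSplittingField.adjoin_rootSet L F]
    apply Algebra.adjoin_le
    intro x hx
    have hx' : aeval x F = 0 := aeval_eq_zero_of_mem_rootSet hx
    have hm' : (F.scaleRoots s).Monic := (monic_scaleRoots_iff s).2 hF
    have h1 : algebraMap K L s * x ∈ (F.scaleRoots s).rootSet L := by
      rw [mem_rootSet]
      exact ⟨hm'.ne_zero, scaleRoots_aeval_eq_zero hx'⟩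
    have h2 : x = algebraMap K L s⁻¹ * (algebraMap K L s * x) := by
      rw [map_inv₀, inv_mul_cancel_left₀ hsL]
    rw [h2]
    exact mul_mem (Subalgebra.algebraMap_mem _ _) (Algebra.subset_adjoin h1)

theorem gal_scale {K : Type} [Field K] {F : K[X]} (hF : F.Monic) {s : K} (hs : s ≠ 0) :
    Nat.card (F.scaleRoots s).Gal = Nat.card F.Gal := by
  haveI : IsSplittingField K F.SplittingField (F.scaleRoots s) := split_scale hF hs _
  let e : F.SplittingField ≃ₐ[K] (F.scaleRoots s).SplittingField :=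
    IsSplittingField.algEquiv _ (F.scaleRoots s)
  exact (Nat.card_congr (AlgEquiv.autCongr e).toEquiv).symm

theorem hyp_scale {g : ℕ} {f : ℤ[X]} {p₀ : ℕ} (H : Hyp g f p₀) {l : ℕ} (hl : l.Prime)
    (hlp : l ≠ p₀) : Hyp g (f.scaleRoots (l : ℤ)) p₀ := by
  have hl0 : (l : ℤ) ≠ 0 := by exact_mod_cast hl.ne_zero
  obtain ⟨η, hη, hdd⟩ := discr_scale H.one H.mon H.deg hl0
  have hηu : IsUnit η := by
    rcases hη with rfl | rfl
    · exact isUnit_one
    · exact isUnit_one.neg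
  have hcop : IsCoprime (p₀ : ℤ) ((l : ℤ) ^ ((2 * g + 1) * (2 * g))) := by
    apply IsCoprime.pow_right
    rw [Nat.isCoprime_iff_coprime]
    exact (Nat.coprime_primes H.prime hl).2 hlp.symm
  refine ⟨H.one, (monic_scaleRoots_iff _).2 H.mon, by rw [natDegree_scaleRoots, H.deg], ?_, H.prime,
    H.ne, ?_, ?_⟩
  · rw [map_scaleRoots _ _ _ (by rw [H.mon.leadingCoeff, map_one]; exact one_ne_zero),
      gal_scale (H.mon.map _) (by rw [eq_intCast]; exact_mod_cast hl.ne_zero)]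
    exact H.gal
  · rw [hdd]
    exact Dvd.dvd.mul_left (Dvd.dvd.mul_left H.dvd _) _
  · rw [hdd]
    intro h
    apply H.ndvd
    have h1 := (hηu.dvd_mul_left).1 h
    exact hcop.pow_left.dvd_of_dvd_mul_left h1

/-! ### Primes which split completely in a given field -/

theorem exists_split (M₀ : Type) [Field M₀] [NumberField M₀] [IsGalois ℚ M₀] (p₀ m B : ℕ)
    (hp₀ : p₀.Prime) (hu : UnrAt M₀ p₀) (hm : m ≠ 0) (hpm : ¬ p₀ ∣ m) :
    ∃ l : ℕ, l.Prime ∧ B < l ∧ l % m = 1 % m ∧ SplitsAt M₀ l := by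
  obtain ⟨M₁, _, _, _, κ₁, ζ, hζ, hunr₁⟩ := cyc M₀ p₀ m hp₀ hu hm hpm
  obtain ⟨D, hD⟩ := ResB.splits_part κ₁ (1 : Gal(M₁/ℚ)) (fun y => rfl)
  obtain ⟨q, ⟨hq, hxp⟩, hqgt⟩ := (infinite_frob M₁ 1).exists_gt (max (max D B) m)
  simp only [max_lt_iff] at hqgt
  obtain ⟨⟨hqD, hqB⟩, hqm⟩ := hqgt
  haveI : Fact q.Prime := ⟨hq⟩
  obtain ⟨φ, hφ⟩ : ∃ φ : 𝓞 M₁ →+* AlgebraicClosure (ZMod q), HasFrob q φ (1 : Gal(M₁/ℚ)) := by
    unfold xp at hxp
    rw [dif_pos hq] at hxp
    by_contra h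
    push Not at h
    apply hxp
    rw [Nat.card_eq_zero]
    left
    exact ⟨fun x => h x.1 x.2⟩
  refine ⟨q, hq, hqB, ?_, hD q hqD ⟨⟨hq⟩, φ, hφ⟩⟩
  have hζint : IsIntegral ℤ ζ := hζ.isIntegral (Nat.pos_of_ne_zero hm)
  obtain ⟨ζ', hζ'⟩ : ∃ ζ' : 𝓞 M₁, algebraMap (𝓞 M₁) M₁ ζ' = ζ := ⟨⟨ζ, hζint⟩, rfl⟩
  have h1 : φ ζ' ^ q = φ ζ' := by
    rw [← hφ]
    congr 1
  have h2 : IsPrimitiveRoot ζ' m := by
    rw [← hζ'] at hζ
    exact hζ.of_map_of_injective (RingOfIntegers.coe_injective)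
  have h3 := h2.isRoot_cyclotomic (Nat.pos_of_ne_zero hm)
  have h4 : (cyclotomic m (AlgebraicClosure (ZMod q))).IsRoot (φ ζ') := by
    rw [← map_cyclotomic m φ]
    exact h3.map
  have hmΩ : (m : AlgebraicClosure (ZMod q)) ≠ 0 := by
    rw [Ne, CharP.cast_eq_zero_iff (AlgebraicClosure (ZMod q)) q]
    intro h
    exact absurd (Nat.le_of_dvd (Nat.pos_of_ne_zero hm) h) (by omega)
  have : NeZero ((m : ℕ) : AlgebraicClosure (ZMod q)) := ⟨hmΩ⟩
  rw [isRoot_cyclotomic_iff] at h4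
  have h5 : φ ζ' ^ (q - 1) = 1 := by
    have h6 : φ ζ' ≠ 0 := h4.ne_zero hm
    apply mul_right_cancel₀ h6
    rw [← pow_succ, Nat.sub_add_cancel hq.one_lt.le, h1, one_mul]
  have h6 := h4.dvd_of_pow_eq_one _ h5
  exact ((Nat.modEq_iff_dvd' hq.one_lt.le).2 h6).symm

/-- The main theorem, with a nonempty set of primes. -/
theorem main3 (g : ℕ) (f : ℤ[X]) (p₀ : ℕ) (H : Hyp g f p₀) (M₀ : Type) [Field M₀]
    [NumberField M₀] [IsGalois ℚ M₀] (hM₀ : UnrAt M₀ p₀) (m B : ℕ) (hm : m ≠ 0)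
    (hpm : ¬ p₀ ∣ m) :
    ∃ J : Finset ℕ, J.Nonempty ∧
      (∀ q ∈ J, q.Prime ∧ B < q ∧ q % (8 * m) = 1 % (8 * m) ∧ SplitsAt M₀ q) ∧
      ∀ (M : Type) [Field M] [NumberField M],
        AdmissibleFor M (f.scaleRoots ((Dp J : ℕ) : ℤ)) →
        SelZero ((f.scaleRoots ((Dp J : ℕ) : ℤ)).map (algebraMap ℤ (𝓞 M))) ∧
          Irreducible (fF ((f.scaleRoots ((Dp J : ℕ) : ℤ)).map (algebraMap ℤ (𝓞 M)))) := by
  have h8m : ¬ p₀ ∣ 8 * m := by
    intro h
    rcases (Nat.Prime.dvd_mul H.prime).1 h with h | h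
    · have : p₀ ∣ 2 ^ 3 := h
      exact H.ne ((Nat.prime_dvd_prime_iff_eq H.prime Nat.prime_two).1
        (H.prime.dvd_of_dvd_pow this))
    · exact hpm h
  obtain ⟨l, hl, hlB, hlm, hls⟩ := exists_split M₀ p₀ (8 * m) (max B p₀) H.prime hM₀
    (by omega) h8m
  have hlp : l ≠ p₀ := fun h => by
    have := (le_max_right B p₀).trans_lt hlB
    omega
  obtain ⟨J, hJ, hmain⟩ := u_main' g _ p₀ (hyp_scale H hl hlp) M₀ hM₀ m (max B l) hm hpm
  have hlJ : l ∉ J := fun h => by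
    have := (le_max_right B l).trans_lt (hJ l h).2.1
    exact lt_irrefl _ this
  have e : Dp (insert l J) = l * Dp J := by
    rw [Dp, Finset.prod_insert hlJ]
  have e2 : (f.scaleRoots (l : ℤ)).scaleRoots ((Dp J : ℕ) : ℤ) =
      f.scaleRoots ((Dp (insert l J) : ℕ) : ℤ) := by
    rw [e, ← scaleRoots_mul]
    push_cast
    rfl
  refine ⟨insert l J, Finset.insert_nonempty _ _, fun q hq => ?_, fun M _ _ hM => ?_⟩
  · rcases Finset.mem_insert.1 hq with rfl | hq
    · exact ⟨hl, (le_max_left _ _).trans_lt hlB, hlm, hls⟩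
    · obtain ⟨a1, a2, a3, a4⟩ := hJ q hq
      exact ⟨a1, (le_max_left _ _).trans_lt a2, a3, a4⟩
  · rw [← e2] at hM ⊢
    exact hmain M hM

end Pool.Agent.H30T
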