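import Pool.Agent.H30T.Stm4
import Pool.Agent.H30T.Pre
import Pool.Agent.Helper29J.Conv
import Pool.Agent.N891.PQ.TwA
import Pool.Agent.N498.PQ.Cpl

/-!
# Project ET (helper30): rational points and 2-adic points which survive
-/

set_option autoImplicit false
set_option linter.all false

open Polynomial IsDedekindDomain NumberField
open scoped Classical

namespace Pool.Agent.H30T

open Pool.Agent.N783.PF (SelZero fF)
open Pool.Agent.Y160.SE Pool.Agent.Helper29J
open Pool.Agent.TH115.GD (incl)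

/-- The polynomial over the number field `F₀`, in the form used for the completions. -/
noncomputable abbrev fQ (F₀ : Type) [Field F₀] [NumberField F₀] (f : ℤ[X]) : F₀[X] :=
  fF (f.map (algebraMap ℤ (𝓞 F₀)))

/-- The twisted polynomial over `M`. -/
noncomputable abbrev fM (M : Type) [Field M] [NumberField M] (f : ℤ[X]) (D : ℕ) : M[X] :=
  fF ((f.scaleRoots (D : ℤ)).map (algebraMap ℤ (𝓞 M)))

theorem fQ_eq (F₀ : Type) [Field F₀] [NumberField F₀] (f : ℤ[X]) :
    fQ F₀ f = f.map (Int.castRingHom F₀) := by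
  show (f.map (algebraMap ℤ (𝓞 F₀))).map (algebraMap (𝓞 F₀) F₀) = _
  rw [Polynomial.map_map]
  congr 1

theorem fM_eq (M : Type) [Field M] [NumberField M] (f : ℤ[X]) (D : ℕ) :
    fM M f D = (f.scaleRoots (D : ℤ)).map (Int.castRingHom M) := by
  show ((f.scaleRoots (D : ℤ)).map (algebraMap ℤ (𝓞 M))).map (algebraMap (𝓞 M) M) = _
  rw [Polynomial.map_map]
  congr 1

theorem good_fQ {g : ℕ} {f : ℤ[X]} (hm : f.Monic) (hd : f.natDegree = 2 * g + 1)
    (hirr : Irreducible (f.map (Int.castRingHom ℚ))) : Good 2 (-1 : ℚ) (fQ ℚ f) := by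
  rw [fQ_eq]
  exact Pool.Agent.N424.JB.good_two two_ne_zero (hm.map _) hirr.separable
    (by rw [hm.natDegree_map, hd]; exact ⟨g, rfl⟩)

theorem good_fM {g : ℕ} {f : ℤ[X]} (hm : f.Monic) (hd : f.natDegree = 2 * g + 1) (M : Type)
    [Field M] [NumberField M] (D : ℕ) (hirr : Irreducible (fM M f D)) :
    Good 2 (-1 : M) (fM M f D) := by
  have hmD : (f.scaleRoots (D : ℤ)).Monic := (monic_scaleRoots_iff _).2 hm
  refine Pool.Agent.N424.JB.good_two two_ne_zero ((hmD.map _).map _) hirr.separable ?_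
  rw [(hmD.map _).natDegree_map, hmD.natDegree_map, natDegree_scaleRoots, hd]
  exact ⟨g, rfl⟩

/-- The points over the completion whose class is infinitely divisible by two. -/
def Z2 {F₀ : Type} [Field F₀] [NumberField F₀] {f : ℤ[X]} (hg₀ : Good 2 (-1 : F₀) (fQ F₀ f))
    (v : HeightOneSpectrum (𝓞 F₀)) : Set (v.adicCompletion F₀ × v.adicCompletion F₀) :=
  {P | P.2 ^ 2 = (fu (fQ F₀ f) (v.adicCompletion F₀)).eval P.1 ∧
    JacDiv hg₀ (v.adicCompletion F₀) P.1 P.2}

theorem z2_fin (hN : V_NET) {F₀ : Type} [Field F₀] [NumberField F₀] {g : ℕ} (hg1 : 1 ≤ g)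
    {f : ℤ[X]} (hm : f.Monic) (hd : f.natDegree = 2 * g + 1) (hg₀ : Good 2 (-1 : F₀) (fQ F₀ f))
    (v : HeightOneSpectrum (𝓞 F₀)) (hv : (2 : 𝓞 F₀) ∈ v.asIdeal) : (Z2 hg₀ v).Finite :=
  hN F₀ v hv g hg1 (f.map (algebraMap ℤ (𝓞 F₀))) (hm.map _) (by rw [hm.natDegree_map, hd]) hg₀

theorem infDiv_rfl {E Ω : Type} [Field E] [Field Ω] [Algebra E Ω] {F : E[X]} {G : Polynomial Ω}
    (h : F.map (algebraMap E Ω) = G) {a b : E} (H : InfDiv F G h a b) :
    InfDiv F (F.map (algebraMap E Ω)) rfl a b := by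
  subst h
  exact H

theorem infDiv_of {E Ω : Type} [Field E] [Field Ω] [Algebra E Ω] {F : E[X]} {G : Polynomial Ω}
    (h : F.map (algebraMap E Ω) = G) {a b : E}
    (H : InfDiv F (F.map (algebraMap E Ω)) rfl a b) : InfDiv F G h a b := by
  subst h
  exact H

/-- The transfer of the points to the completion of `ℚ`. -/
theorem transfer (hC : V_CONV) (hS : V_SCL) (hE : V_EMB) {g : ℕ} {f : ℤ[X]} (hm : f.Monic)
    (hd : f.natDegree = 2 * g + 1) {F₀ : Type} [Field F₀] [NumberField F₀]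
    (hg₀ : Good 2 (-1 : F₀) (fQ F₀ f)) (v : HeightOneSpectrum (𝓞 F₀))
    (hv : (2 : 𝓞 F₀) ∈ v.asIdeal) {D : ℕ} (hD : D % 8 = 1) (M : Type) [Field M] [NumberField M]
    (hgM : Good 2 (-1 : M) (fM M f D)) (w : HeightOneSpectrum (𝓞 M)) (hw : (2 : 𝓞 M) ∈ w.asIdeal)
    (hs : SplitsAt M 2) :
    ∃ (φ : w.adicCompletion M →+* v.adicCompletion F₀) (δ : v.adicCompletion F₀), δ ≠ 0 ∧
      δ ^ 2 = (D : v.adicCompletion F₀) ∧ ∀ a b : w.adicCompletion M,
        b ^ 2 = (fu (fM M f D) (w.adicCompletion M)).eval a →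
        JacDiv hgM (w.adicCompletion M) a b → (φ a / δ ^ 2, φ b / δ ^ (2 * g + 1)) ∈ Z2 hg₀ v := by
  haveI : Fact (Nat.Prime 2) := ⟨Nat.prime_two⟩
  haveI : CharZero (v.adicCompletion F₀) := charZero_of_injective_algebraMap
    (algebraMap F₀ (v.adicCompletion F₀)).injective
  haveI : CharZero (w.adicCompletion M) := charZero_of_injective_algebraMap
    (algebraMap M (w.adicCompletion M)).injective
  obtain ⟨h1, h2⟩ := hs w (by exact_mod_cast hw)
  obtain ⟨φ₁⟩ := hE M 2 w (by exact_mod_cast hw) h1 h2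
  obtain ⟨ι, -, -, -⟩ := Pool.Agent.N498.PQ.cpl F₀ 2 v (by
    show ((2 : ℕ) : 𝓞 F₀) ∈ v.asIdeal
    exact_mod_cast hv)
  obtain ⟨δ₁, hδ₁⟩ := Pool.Agent.N891.PQ.sq_two D hD
  have hδ2 : (ι δ₁) ^ 2 = (D : v.adicCompletion F₀) := by
    rw [← map_pow, hδ₁, map_natCast]
  have hD0 : (D : v.adicCompletion F₀) ≠ 0 := by
    rw [Nat.cast_ne_zero]
    omega
  have hδ0 : ι δ₁ ≠ 0 := by
    intro h
    rw [h, zero_pow two_ne_zero] at hδ2
    exact hD0 hδ2.symm
  refine ⟨ι.comp φ₁, ι δ₁, hδ0, hδ2, fun a b hab hJ => ?_⟩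
  have hmD : (f.scaleRoots (D : ℤ)).Monic := (monic_scaleRoots_iff _).2 hm
  have e1 : fu (fM M f D) (w.adicCompletion M) =
      (f.scaleRoots (D : ℤ)).map (Int.castRingHom (w.adicCompletion M)) := by
    show (fM M f D).map (algebraMap M (w.adicCompletion M)) = _
    rw [fM_eq, Polynomial.map_map]
    congr 1
    exact RingHom.ext_int _ _
  have e2 : fu (fQ F₀ f) (v.adicCompletion F₀) = f.map (Int.castRingHom (v.adicCompletion F₀)) := by
    show (fQ F₀ f).map (algebraMap F₀ (v.adicCompletion F₀)) = _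
    rw [fQ_eq, Polynomial.map_map]
    congr 1
    exact RingHom.ext_int _ _
  have e3 : (fu (fM M f D) (w.adicCompletion M)).map (ι.comp φ₁) =
      (fu (fQ F₀ f) (v.adicCompletion F₀)).scaleRoots ((ι δ₁) ^ 2) := by
    rw [e1, e2, Polynomial.map_map, hδ2, map_scaleRoots _ _ _ (by
      rw [hm.leadingCoeff, map_one]; exact one_ne_zero)]
    rw [Subsingleton.elim ((ι.comp φ₁).comp (Int.castRingHom (w.adicCompletion M)))
      (Int.castRingHom (v.adicCompletion F₀))]
    simp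
  have hI := infDiv_rfl (by
    show ((fM M f D).map (algebraMap M (w.adicCompletion M))).map
      (algebraMap (w.adicCompletion M) (SeparableClosure (w.adicCompletion M))) =
      (fM M f D).map (algebraMap M (SeparableClosure (w.adicCompletion M)))
    rw [Polynomial.map_map, ← IsScalarTower.algebraMap_eq]) ((hC M (fM M f D) hgM (w.adicCompletion M) _ a b hab).1 hJ)
  obtain ⟨h3, h4⟩ := hS (w.adicCompletion M) (v.adicCompletion F₀) (ι.comp φ₁) g
    (fu (fM M f D) (w.adicCompletion M)) (fu (fQ F₀ f) (v.adicCompletion F₀)) (ι δ₁) hδ0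
    (by rw [e1]; exact hmD.map _) (by rw [e2]; exact hm.map _)
    (by rw [e1, hmD.natDegree_map, natDegree_scaleRoots, hd]) e3 a b hab hI
  refine ⟨h3, ?_⟩
  have h5 : (fu (fQ F₀ f) (v.adicCompletion F₀)).map
      (algebraMap (v.adicCompletion F₀) (SeparableClosure (v.adicCompletion F₀))) =
      fu (fQ F₀ f) (SeparableClosure (v.adicCompletion F₀)) := by
    show ((fQ F₀ f).map (algebraMap F₀ (v.adicCompletion F₀))).map _ = (fQ F₀ f).map _
    rw [Polynomial.map_map, ← IsScalarTower.algebraMap_eq]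
  exact (hC F₀ (fQ F₀ f) hg₀ (v.adicCompletion F₀) h5 _ _ h3).2 (infDiv_of h5 h4)

/-- The survivors above two are finitely many, with a bound which depends on `f` only. -/
theorem bound (hC : V_CONV) (hS : V_SCL) (hE : V_EMB) (hN : V_NET) {g : ℕ} (hg1 : 1 ≤ g)
    {f : ℤ[X]} (hm : f.Monic) (hd : f.natDegree = 2 * g + 1)
    (hirr : Irreducible (f.map (Int.castRingHom ℚ))) : ∃ c : ℕ, ∀ D : ℕ, D % 8 = 1 →
    ∀ (M : Type) [Field M] [NumberField M], SplitsAt M 2 → Irreducible (fM M f D) →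
      SelZero ((f.scaleRoots (D : ℤ)).map (algebraMap ℤ (𝓞 M))) →
      ∀ w : HeightOneSpectrum (𝓞 M), (2 : 𝓞 M) ∈ w.asIdeal →
        {P : Defs.Curve (fM M f D) (w.adicCompletion M) |
          Defs.Survives (fM M f D) (w.adicCompletion M) P}.Finite ∧
        {P : Defs.Curve (fM M f D) (w.adicCompletion M) |
          Defs.Survives (fM M f D) (w.adicCompletion M) P}.ncard ≤ c := by
  obtain ⟨v, hv⟩ := exists_above_two (F := ℚ)
  have hg₀ := good_fQ hm hd hirr
  have hfin : (Z2 hg₀ v).Finite := z2_fin hN hg1 hm hd hg₀ v hv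
  refine ⟨(Z2 hg₀ v).ncard + 1, fun D hD M _ _ hs hirrM hsel w hw => ?_⟩
  have hmD : (f.scaleRoots (D : ℤ)).Monic := (monic_scaleRoots_iff _).2 hm
  have hgM := good_fM hm hd M D hirrM
  obtain ⟨φ, δ, hδ, hδ2, hφ⟩ := transfer hC hS hE hm hd hg₀ v hv hD M hgM w hw hs
  obtain ⟨h1, h2⟩ := Pool.Agent.N783.PF.jac (hmD.map (algebraMap ℤ (𝓞 M)))
    (by rw [hmD.natDegree_map, natDegree_scaleRoots, hd]; exact ⟨g, rfl⟩) hirrM hsel
  -- the map to the points over `ℚ_2`
  let Φ : Defs.Curve (fM M f D) (w.adicCompletion M) →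
      Option (v.adicCompletion ℚ × v.adicCompletion ℚ) :=
    fun P => Option.map (fun Q : Defs.Affine (fM M f D) (w.adicCompletion M) =>
      (φ Q.1.1 / δ ^ 2, φ Q.1.2 / δ ^ (2 * g + 1))) P
  have hinj : Function.Injective Φ := by
    apply Option.map_injective
    intro P Q h
    have h3 := (Prod.mk.injEq .. ▸ h : φ P.1.1 / δ ^ 2 = φ Q.1.1 / δ ^ 2 ∧
      φ P.1.2 / δ ^ (2 * g + 1) = φ Q.1.2 / δ ^ (2 * g + 1))
    apply Subtype.ext
    refine Prod.ext ?_ ?_
    · exact φ.injective ((div_left_inj' (pow_ne_zero _ hδ)).1 h3.1)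
    · exact φ.injective ((div_left_inj' (pow_ne_zero _ hδ)).1 h3.2)
  have hsub : Φ '' {P | Defs.Survives (fM M f D) (w.adicCompletion M) P} ⊆
      insert none (some '' Z2 hg₀ v) := by
    rintro _ ⟨P, hP, rfl⟩
    rcases P with _ | P
    · exact Set.mem_insert _ _
    · refine Set.mem_insert_of_mem _ ⟨_, hφ P.1.1 P.1.2 ?_ fun k => surv_some hgM h1 h2 hP k, rfl⟩
      rw [P.2, eval_map_algebraMap]
  have hfin2 : (insert none (some '' Z2 hg₀ v)).Finite := (hfin.image _).insert _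
  have hf3 := hfin2.subset hsub
  refine ⟨Set.Finite.of_finite_image hf3 hinj.injOn, ?_⟩
  rw [← Set.ncard_image_of_injective _ hinj]
  refine (Set.ncard_le_ncard hsub hfin2).trans ((Set.ncard_insert_le _ _).trans ?_)
  exact Nat.add_le_add_right (Set.ncard_image_le hfin) 1

/-- The rational points. -/
theorem points (hC : V_CONV) (hS : V_SCL) (hE : V_EMB) (hN : V_NET) (hA : V_ALG) {g : ℕ}
    (hg1 : 1 ≤ g) {f : ℤ[X]} (hm : f.Monic) (hd : f.natDegree = 2 * g + 1)
    (hirr : Irreducible (f.map (Int.castRingHom ℚ))) : ∃ B₁ : ℕ, ∀ D : ℕ, D % 8 = 1 →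
    Squarefree D → ∀ (M : Type) [Field M] [NumberField M], SplitsAt M 2 →
      Irreducible (fM M f D) → SelZero ((f.scaleRoots (D : ℤ)).map (algebraMap ℤ (𝓞 M))) →
      ∀ q : ℕ, q.Prime → q ∣ D → B₁ < q → ¬ RamifiedAt M q →
      ∀ P : Defs.Curve (fM M f D) M, P = Defs.infinity (fM M f D) M := by
  obtain ⟨v, hv⟩ := exists_above_two (F := ℚ)
  haveI : CharZero (v.adicCompletion ℚ) := charZero_of_injective_algebraMap
    (algebraMap ℚ (v.adicCompletion ℚ)).injective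
  have hg₀ := good_fQ hm hd hirr
  have hfin : (Z2 hg₀ v).Finite := z2_fin hN hg1 hm hd hg₀ v hv
  obtain ⟨B₁, hB₁⟩ := hA (v.adicCompletion ℚ) (Prod.fst '' Z2 hg₀ v) (hfin.image _) g f hm hd
  refine ⟨B₁, fun D hD hsq M _ _ hs hirrM hsel q hq hqD hqB hqM P => ?_⟩
  have hmD : (f.scaleRoots (D : ℤ)).Monic := (monic_scaleRoots_iff _).2 hm
  have hgM := good_fM hm hd M D hirrM
  have hdM : (fM M f D).natDegree = 2 * g + 1 := by
    rw [fM_eq, hmD.natDegree_map, natDegree_scaleRoots, hd]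
  obtain ⟨w, hw⟩ := exists_above_two (F := M)
  obtain ⟨φ, δ, hδ, hδ2, hφ⟩ := transfer hC hS hE hm hd hg₀ v hv hD M hgM w hw hs
  obtain ⟨h1, h2⟩ := Pool.Agent.N783.PF.jac (hmD.map (algebraMap ℤ (𝓞 M)))
    (by rw [hmD.natDegree_map, natDegree_scaleRoots, hd]; exact ⟨g, rfl⟩) hirrM hsel
  rcases P with _ | ⟨⟨a, b⟩, hab⟩
  · rfl
  exfalso
  have hab0 : b ^ 2 = aeval a (fM M f D) := hab
  have hab' : b ^ 2 = (fM M f D).eval a := by
    rw [hab0]
    exact (eval₂_id ..)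
  have hmem := hφ (algebraMap M _ a) (algebraMap M _ b) (by
    rw [← map_pow, hab']
    exact (eval_map_apply _ _).symm) fun k => glob_some hgM h1 ⟨(a, b), hab⟩ k
  have hψ : (φ.comp (algebraMap M (w.adicCompletion M))) (a / (D : M)) ∈
      Prod.fst '' Z2 hg₀ v := by
    refine ⟨_, hmem, ?_⟩
    rw [hδ2, RingHom.comp_apply, map_div₀, map_div₀, map_natCast, map_natCast]
  have hev : ∀ x : M, (fM M f D).eval x = aeval x (f.scaleRoots (D : ℤ)) := by
    intro x
    rw [fM_eq, eval_map, aeval_def]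
    rfl
  have hroot := hB₁ M (φ.comp (algebraMap M (w.adicCompletion M))) D q a b hsq hq hqD
    hqB hqM (by rw [hab', hev]) hψ
  have hD0 : (D : M) ≠ 0 := by
    rw [Nat.cast_ne_zero]
    omega
  have hz : (fM M f D).eval a = 0 := by
    rw [hev]
    have h3 := scaleRoots_aeval_eq_zero (r := (D : ℤ)) hroot
    have e : algebraMap ℤ M (D : ℤ) * (a / (D : M)) = a := by
      rw [map_natCast, mul_div_cancel₀ _ hD0]
    rwa [e] at h3
  have h4 := degree_eq_one_of_irreducible_of_root hirrM hz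
  rw [degree_eq_natDegree hirrM.ne_zero, hdM] at h4
  have h5 : 2 * g + 1 = 1 := by exact_mod_cast h4
  omega

end Pool.Agent.H30T
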