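import Pool.Agent.H30T.Stm
import Pool.Agent.N783.PF.Rec2
import Pool.Agent.N459.PF.Ram

/-!
# The reciprocity law, with arbitrary bad primes

Version of `Pool/Agent/N783/PF/Rec2.lean` in which at the bad primes the class is assumed to be
locally in the image.
-/

set_option autoImplicit false
set_option linter.all false

open Polynomial IsDedekindDomain Matrix NumberField WithZero
open scoped Classical

namespace Pool.Agent.H30T

open Pool.Agent.N783.PF Pool.Agent.N783.PF.R2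
open Pool.Agent.N352.PJ (Mt Typ dd)
open Pool.Agent.N874.PP (Ev Sq1 U0)
open Pool.Agent.N202.M4 (hasse hil IsSymbol)
open Pool.Agent.N783.PQ (LocIm tp Gm sg)
open Pool.Agent.N874.JM (LocF)

/-- The reciprocity law. -/
def T_REC : Prop := ∀ (g W : ℕ) (F L : Type) [Field F] [NumberField F] [Field L] [NumberField L]
  [Algebra F L] (f : (𝓞 F)[X]) (θ : L) (S : Finset ℕ) (𝔮 : ℕ → Ideal (𝓞 F))
  (r P : ℕ → (𝓞 F)[X]), 1 ≤ g → IsGen g f θ → GoodT g W S 𝔮 r P →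
  (∀ q ∈ S, Cg (sp F q) f (P q)) →
  ∀ 𝔔 : ℕ → HeightOneSpectrum (𝓞 L), (∀ q ∈ S, Ov (𝔮 q) (𝔔 q) ∧ (𝔔 q).valuation L θ = 1) →
  ∀ h : F[X], aeval θ h ≠ 0 → IsSquare (Algebra.norm F (aeval θ h)) →
    (∀ 𝔓 : HeightOneSpectrum (𝓞 L), (∀ w : HeightOneSpectrum (𝓞 F), Ov w.asIdeal 𝔓 → Gd g f w) →
      (∀ q ∈ S, 𝔓 ≠ 𝔔 q) → Ev 𝔓 (aeval θ h)) →
    (∀ w : HeightOneSpectrum (𝓞 F), ¬ Gd g f w → LocF (w.adicCompletion F) (fF f) h) →
    (∀ σ : F →+* ℝ, LocIm ℝ ((fF f).map σ) (h.map σ)) →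
    Even (S.filter fun q => ¬ Ev (𝔔 q) (aeval θ h) ∧
      ¬ Sq1 (𝔔 q) (aeval θ h * ((q : L) * θ))).card

variable {F L : Type} [Field F] [NumberField F] [Field L] [NumberField L] [Algebra F L]

/-- the primes of `F` below a prime of `L` -/
theorem ov_unique {w w' : HeightOneSpectrum (𝓞 F)} {𝔓 : HeightOneSpectrum (𝓞 L)}
    (h : Ov w.asIdeal 𝔓) (h' : Ov w'.asIdeal 𝔓) : w = w' := by
  have hc : w.asIdeal ≤ 𝔓.asIdeal.comap (algebraMap (𝓞 F) (𝓞 L)) := fun a ha => h a ha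
  have hc' : w'.asIdeal ≤ 𝔓.asIdeal.comap (algebraMap (𝓞 F) (𝓞 L)) := fun a ha => h' a ha
  have hp : (𝔓.asIdeal.comap (algebraMap (𝓞 F) (𝓞 L))) ≠ ⊤ := by
    have := 𝔓.isPrime
    exact (Ideal.comap_isPrime (algebraMap (𝓞 F) (𝓞 L)) 𝔓.asIdeal).ne_top
  ext1
  rw [w.isMaximal.eq_of_le hp hc, w'.isMaximal.eq_of_le hp hc']

/-- **The reciprocity law.** -/
theorem rec (h1 : S_HVG) (h2 : S_TRP) (h3 : S_TRR) (h4 : S_ISO1) (h5 : T_ISO2) (h6 : T_HQ)
    (hdsc : S_DSC) (hgdq : ∀ (g W : ℕ) (F L : Type) [Field F] [NumberField F] [Field L]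
      [NumberField L] [Algebra F L] (f : (𝓞 F)[X]) (θ : L) (S : Finset ℕ) (𝔮 : ℕ → Ideal (𝓞 F))
      (r P : ℕ → (𝓞 F)[X]), 1 ≤ g → IsGen g f θ → GoodT g W S 𝔮 r P →
      (∀ q ∈ S, Cg (sp F q) f (P q)) → ∀ q ∈ S, ∀ w : HeightOneSpectrum (𝓞 F),
      (q : 𝓞 F) ∈ w.asIdeal → Gd g f w) :
    T_REC := by
  intro g W F L _ _ _ _ _ f θ S 𝔮 r P hg hG hS hF 𝔔 h𝔔 h hα hsq hev hl2 hlR
  have hα1 : aeval θ (1 : F[X]) ≠ 0 := by
    rw [map_one]
    exact one_ne_zero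
  obtain ⟨A, hA⟩ : ∃ A : Mt g F, A = Gm g (fF f) 1 := ⟨_, rfl⟩
  obtain ⟨B, hB⟩ : ∃ B : Mt g F, B = Gm g (fF f) h := ⟨_, rfl⟩
  have hAs : A.IsSymm := by rw [hA]; exact Pool.Agent.N835.PQ.Gm_symm g _ _
  have hBs : B.IsSymm := by rw [hB]; exact Pool.Agent.N835.PQ.Gm_symm g _ _
  have hAd : A.det ≠ 0 := by rw [hA]; exact Gm_det hG 1 hα1
  have hBd : B.det ≠ 0 := by rw [hB]; exact Gm_det hG h hα
  have hAd' : @Matrix.det (Fin (2 * g + 1)) (fun a b => Classical.propDecidable (a = b)) _ F _ A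
      ≠ 0 := ne_of_eq_of_ne (det_inst _ _ _) hAd
  have hBd' : @Matrix.det (Fin (2 * g + 1)) (fun a b => Classical.propDecidable (a = b)) _ F _ B
      ≠ 0 := ne_of_eq_of_ne (det_inst _ _ _) hBd
  have hTA : (Tf A).det ≠ 0 := ne_of_eq_of_ne (det_inst _ _ _) (Tf_det hAd')
  have hTB : (Tf B).det ≠ 0 := ne_of_eq_of_ne (det_inst _ _ _) (Tf_det hBd')
  have hTAs := Tf_symm hAs
  have hTBs := Tf_symm hBs
  -- diagonal forms
  obtain ⟨n, φ⟩ : ∃ n : ℕ, Nonempty (Fin n ≃ Fin (2 * g + 1) × Fin (Module.finrank ℚ F)) :=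
    ⟨_, ⟨(Fintype.equivFin _).symm⟩⟩
  obtain ⟨φ⟩ := φ
  obtain ⟨a, T, ha, -, hT⟩ := Pool.Agent.N835.PQ.exists_diag ((Tf A).submatrix φ φ)
    (by rw [Matrix.IsSymm, Matrix.transpose_submatrix, hTAs.eq])
    (by rw [Matrix.det_submatrix_equiv_self]; exact hTA)
  obtain ⟨b, R, hb, -, hR⟩ := Pool.Agent.N835.PQ.exists_diag ((Tf B).submatrix φ φ)
    (by rw [Matrix.IsSymm, Matrix.transpose_submatrix, hTBs.eq])
    (by rw [Matrix.det_submatrix_equiv_self]; exact hTB)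
  have hsym := Pool.Agent.N446.M4.sym_
  have hVA : ∀ (E : Type) [Field E] [CharZero E], HV ((Tf A).map (Rat.castHom E))
      (hasse (hil E) (List.ofFn fun i => (a i : E))) := fun E _ _ => HV_map E _ φ ha hT
  have hVB : ∀ (E : Type) [Field E] [CharZero E], HV ((Tf B).map (Rat.castHom E))
      (hasse (hil E) (List.ofFn fun i => (b i : E))) := fun E _ _ => HV_map E _ φ hb hR
  have hcop := cop hG hα
  have hnorm : IsSquare (Algebra.norm F (AdjoinRoot.mk (fF f) h)) := by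
    rw [norm_eq hG]
    exact hsq
  obtain ⟨hisoW, hisoR⟩ := h4 F g f h hG.mon hG.deg hcop hnorm
  rw [← hA, ← hB] at hisoW hisoR
  have hSp : ∀ q ∈ S, q.Prime := fun q hq => (hS q hq).1
  have hQm : ∀ q ∈ S, (q : 𝓞 L) ∈ (𝔔 q).asIdeal := by
    intro q hq
    have h7 := (h𝔔 q hq).1 (q : 𝓞 F) (hS q hq).2.2.2.2.2.2.1
    rwa [map_natCast] at h7
  set ε : ℕ → ℤ := fun q => if ¬ Ev (𝔔 q) (aeval θ h) ∧ ¬ Sq1 (𝔔 q) (aeval θ h * ((q : L) * θ))
    then -1 else 1 with hε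
  have hT1 : @Matrix.det _ (fun a b => Classical.propDecidable (a = b)) _ ℚ _ (Tf A) ≠ 0 :=
    ne_of_eq_of_ne (det_inst _ _ _) hTA
  have hT2 : @Matrix.det _ (fun a b => Classical.propDecidable (a = b)) _ ℚ _ (Tf B) ≠ 0 :=
    ne_of_eq_of_ne (det_inst _ _ _) hTB
  have key := Pool.Agent.N394.PQ.prd n b a hb ha S hSp
    (by
      have e1 := h3 F (Fin (2 * g + 1)) A B hAs hBs hAd' hBd' (fun σ => hisoR σ (hlR σ)) _ (hVA ℝ)
      exact HV_uniq h1 ℝ Pool.Agent.N835.PQ.symR (Tf B) hTBs hT2 (hVB ℝ) e1)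
    (by
      intro p hp hpS
      have hapx : ∀ w : HeightOneSpectrum (𝓞 F), (p : 𝓞 F) ∈ w.asIdeal → Apx w A B := by
        intro w hw
        by_cases hgd : Gd g f w
        · rw [hA, hB]
          refine h5 g F L f θ hG w hgd h hα hsq ?_
          intro 𝔓 hov
          refine hev 𝔓 (fun w' hw' => ?_) fun q hq he => ?_
          · rw [ov_unique hw' hov]
            exact hgd
          · have h7 := hQm q hq
            rw [← he] at h7
            have h8 := hov (p : 𝓞 F) hw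
            rw [map_natCast] at h8
            have h9 := pr_eq hp.out (hSp q hq) h8 h7
            rw [h9] at hpS
            exact hpS hq
        · exact hisoW w (hl2 w hgd)
      have e1 := h2 F p (Fin (2 * g + 1)) A B hAs hBs hAd' hBd' hapx _ (hVA ℚ_[p])
      exact HV_uniq h1 ℚ_[p] (hsym p) (Tf B) hTBs hT2 (hVB ℚ_[p]) e1)
    ε
    (by
      intro q hq
      simp only [hε]
      split_ifs
      · exact Or.inr rfl
      · exact Or.inl rfl)
    (by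
      intro q hq hqp
      have hevq : ∀ 𝔓 : HeightOneSpectrum (𝓞 L), (q : 𝓞 L) ∈ 𝔓.asIdeal → 𝔓 ≠ 𝔔 q →
          Ev 𝔓 (aeval θ h) := by
        intro 𝔓 hov hne
        refine hev 𝔓 (fun w hw => ?_) fun q' hq' he => ?_
        · refine hgdq g W F L f θ S 𝔮 r P hg hG hS hF q hq w ?_
          obtain ⟨w', w1, w2, -⟩ := Pool.Agent.N459.PF.lie F L 𝔓
          rw [ov_unique hw w1, w2, map_natCast]
          exact hov
        · have h7 := hQm q' hq'
          rw [← he] at h7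
          have h8 := pr_eq (hSp q hq) (hSp q' hq') hov h7
          subst h8
          exact hne he
      have hev1 : ∀ 𝔓 : HeightOneSpectrum (𝓞 L), Ev 𝔓 (aeval θ (1 : F[X])) := by
        intro 𝔓
        refine ⟨1, ?_⟩
        rw [map_one, map_one, one_pow]
      have e1 := h6 g W F L f θ S 𝔮 r P hg hG hS q hq (hF q hq) (𝔔 q) (h𝔔 q hq).1
        (h𝔔 q hq).2 h hα hevq
      have e2 := h6 g W F L f θ S 𝔮 r P hg hG hS q hq (hF q hq) (𝔔 q) (h𝔔 q hq).1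
        (h𝔔 q hq).2 1 hα1 (fun 𝔓 _ _ => hev1 𝔓)
      rw [← hB] at e1
      rw [← hA, if_neg (fun hc => hc.1 (hev1 _))] at e2
      have e3 := HV_uniq h1 ℚ_[q] (hsym q) (Tf B) hTBs hT2 (hVB ℚ_[q]) e1
      have e4 := HV_uniq h1 ℚ_[q] (hsym q) (Tf A) hTAs hT1 (hVA ℚ_[q]) e2
      rw [e3, e4, mul_one])
  have hfil : (S.filter fun q => ε q = -1) = S.filter fun q => ¬ Ev (𝔔 q) (aeval θ h) ∧
      ¬ Sq1 (𝔔 q) (aeval θ h * ((q : L) * θ)) := by
    refine Finset.filter_congr fun q _ => ?_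
    simp only [hε]
    split_ifs with h7
    · simp [h7]
    · simp [h7]
  rw [hfil] at key
  exact key

end Pool.Agent.H30T
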